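import Mathlib

/-!
# Latin square graphs of groups and the Weisfeiler-Leman algorithm for graphs and for groups
-/

namespace Pool.Agent.SRGWL

/-- The Latin square graph of a group: the vertices are the pairs `(x, y)`, and two different vertices
are adjacent iff they agree in `x`, in `y`, or in `x * y`. -/
def lsGraph (H : Type*) [Group H] : SimpleGraph (H × H) where
  Adj u v := u ≠ v ∧ (u.1 = v.1 ∨ u.2 = v.2 ∨ u.1 * u.2 = v.1 * v.2)
  symm := by
    constructor
    rintro u v ⟨h, h'⟩
    refine ⟨h.symm, ?_⟩
    rcases h' with h' | h' | h'
    · exact Or.inl h'.symm
    · exact Or.inr (Or.inl h'.symm)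
    · exact Or.inr (Or.inr h'.symm)
  loopless := ⟨fun u h => h.1 rfl⟩

/-- The colours of the `k`-dimensional Weisfeiler-Leman algorithm after `r` rounds. -/
def Col (k : ℕ) : ℕ → Type
  | 0 => (Fin k → Fin k → Prop) × (Fin k → Fin k → Prop)
  | r + 1 => Col k r × Multiset (Fin k → Col k r)

/-- The colour of the `k`-tuple `s` of vertices of `X` after `r` rounds of the `k`-dimensional
Weisfeiler-Leman algorithm: in round `0` it records which entries are equal and which are adjacent,
and in round `r + 1` it is the colour of `s` in round `r` together with the multiset, over all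
vertices `v`, of the `k`-tuples of colours of `s[v/1], …, s[v/k]` in round `r`. -/
def col {V : Type*} [Fintype V] (X : SimpleGraph V) (k : ℕ) : (r : ℕ) → (Fin k → V) → Col k r
  | 0, s => (fun i j => s i = s j, fun i j => X.Adj (s i) (s j))
  | r + 1, s => (col X k r s,
      (Finset.univ : Finset V).val.map fun v i => col X k r (Function.update s i v))

/-- `k`-dimensional Weisfeiler-Leman does not distinguish `X` and `Y`: after any number of rounds the
multisets of the colours of all `k`-tuples are equal. -/
def WLEquiv (k : ℕ) {V V' : Type*} [Fintype V] [Fintype V'] (X : SimpleGraph V)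
    (Y : SimpleGraph V') : Prop :=
  ∀ r : ℕ, (Finset.univ : Finset (Fin k → V)).val.map (col X k r) =
    (Finset.univ : Finset (Fin k → V')).val.map (col Y k r)

/-- The colours of the `k`-dimensional Weisfeiler-Leman algorithm for groups after `r` rounds. -/
def GCol (k : ℕ) : ℕ → Type
  | 0 => Set (FreeGroup (Fin k))
  | r + 1 => GCol k r × Multiset (Fin k → GCol k r)

/-- The colour of the `k`-tuple `s` of elements of the group `H` after `r` rounds of the
`k`-dimensional Weisfeiler-Leman algorithm for groups: in round `0` it is the set of all group words
`w` in `k` letters with `w(s) = 1` (so two tuples have the same colour iff they generate isomorphic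
subgroups by an isomorphism which maps one tuple to the other), and in round `r + 1` it is the
colour of `s` in round `r` together with the multiset, over all elements `v`, of the `k`-tuples of
colours of `s[v/1], …, s[v/k]` in round `r`. -/
def gcol (H : Type*) [Group H] [Fintype H] (k : ℕ) : (r : ℕ) → (Fin k → H) → GCol k r
  | 0, s => {w | FreeGroup.lift s w = 1}
  | r + 1, s => (gcol H k r s,
      (Finset.univ : Finset H).val.map fun v i => gcol H k r (Function.update s i v))

/-- `k`-dimensional Weisfeiler-Leman does not distinguish the groups `H` and `H'`: after any number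
of rounds the multisets of the colours of all `k`-tuples are equal. -/
def GWLEquiv (k : ℕ) (H H' : Type*) [Group H] [Group H'] [Fintype H] [Fintype H'] : Prop :=
  ∀ r : ℕ, (Finset.univ : Finset (Fin k → H)).val.map (gcol H k r) =
    (Finset.univ : Finset (Fin k → H')).val.map (gcol H' k r)

end Pool.Agent.SRGWL
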