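import Pool.Agent.SRGWL.WL

/-!
# Weisfeiler-Leman in dimension `log₂ |H|` identifies the group `H`
-/

namespace Pool.Agent.SRGWL

theorem exists_gen {H : Type*} [Group H] [Finite H] (j : ℕ) :
    ∃ s : Fin j → H, Subgroup.closure (Set.range s) = ⊤ ∨
      2 ^ j ≤ Nat.card (Subgroup.closure (Set.range s)) := by
  induction j with
  | zero => exact ⟨Fin.elim0, Or.inr (by simp)⟩
  | succ j ih =>
    obtain ⟨s, hs⟩ := ih
    by_cases htop : Subgroup.closure (Set.range s) = ⊤
    · refine ⟨Fin.cons 1 s, Or.inl ?_⟩
      rw [eq_top_iff, ← htop]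
      apply Subgroup.closure_mono
      rintro _ ⟨a, rfl⟩
      exact ⟨a.succ, by simp⟩
    · have hs2 : 2 ^ j ≤ Nat.card (Subgroup.closure (Set.range s)) := hs.resolve_left htop
      obtain ⟨x, hx⟩ : ∃ x, x ∉ Subgroup.closure (Set.range s) := by
        by_contra hcon
        exact htop (eq_top_iff.mpr fun x _ => by
          by_contra hx
          exact hcon ⟨x, hx⟩)
      refine ⟨Fin.cons x s, Or.inr ?_⟩
      have hle : Subgroup.closure (Set.range s) ≤
          Subgroup.closure (Set.range (Fin.cons x s : Fin (j + 1) → H)) := by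
        apply Subgroup.closure_mono
        rintro _ ⟨a, rfl⟩
        exact ⟨a.succ, by simp⟩
      have hmem : x ∈ Subgroup.closure (Set.range (Fin.cons x s : Fin (j + 1) → H)) :=
        Subgroup.subset_closure ⟨0, by simp⟩
      obtain ⟨c, hc⟩ := Subgroup.card_dvd_of_le hle
      have hpos : 0 < Nat.card (Subgroup.closure (Set.range (Fin.cons x s : Fin (j + 1) → H))) :=
        Nat.card_pos
      have hc0 : c ≠ 0 := by
        rintro rfl
        rw [hc, mul_zero] at hpos
        exact lt_irrefl _ hpos
      have hc1 : c ≠ 1 := by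
        rintro rfl
        rw [mul_one] at hc
        have heq := Subgroup.eq_of_le_of_card_ge hle hc.le
        rw [heq] at hx
        exact hx hmem
      rw [hc, pow_succ]
      exact Nat.mul_le_mul hs2 (by omega)

theorem identifies {H H' : Type*} [Group H] [Group H'] [Fintype H] [Fintype H'] {k : ℕ}
    (hk : 1 ≤ k) (hcard : Fintype.card H ≤ 2 ^ k) (h : GWLEquiv k H H') : Nonempty (H ≃* H') := by
  have h0 := h 0
  have hc : Fintype.card H = Fintype.card H' := by
    have h1 := congrArg Multiset.card h0
    rw [Multiset.card_map, Multiset.card_map] at h1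
    have h2 : Fintype.card (Fin k → H) = Fintype.card (Fin k → H') := h1
    rw [Fintype.card_fun, Fintype.card_fun, Fintype.card_fin] at h2
    exact Nat.pow_left_injective (by omega) h2
  obtain ⟨s, hs⟩ := exists_gen (H := H) k
  have hgen : Subgroup.closure (Set.range s) = ⊤ := by
    rcases hs with hs | hs
    · exact hs
    · apply Subgroup.eq_top_of_card_eq
      apply le_antisymm (Subgroup.card_le_card_group _)
      rw [Nat.card_eq_fintype_card]
      exact hcard.trans hs
  have hmem : gcol H k 0 s ∈ (Finset.univ : Finset (Fin k → H')).val.map (gcol H' k 0) := by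
    rw [← h0]
    exact Multiset.mem_map_of_mem _ (Finset.mem_univ_val s)
  obtain ⟨s', -, hs'⟩ := Multiset.mem_map.mp hmem
  have hker : (FreeGroup.lift s : FreeGroup (Fin k) →* H).ker = (FreeGroup.lift s').ker := by
    ext w
    rw [MonoidHom.mem_ker, MonoidHom.mem_ker]
    have : w ∈ ({w | FreeGroup.lift s' w = 1} : Set (FreeGroup (Fin k))) ↔
        w ∈ ({w | FreeGroup.lift s w = 1} : Set (FreeGroup (Fin k))) := by
      have e : ({w | FreeGroup.lift s' w = 1} : Set (FreeGroup (Fin k))) =
        {w | FreeGroup.lift s w = 1} := hs'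
      rw [e]
    exact this.symm
  have hsurj : Function.Surjective (FreeGroup.lift s : FreeGroup (Fin k) →* H) := by
    rw [← MonoidHom.range_eq_top, FreeGroup.range_lift_eq_closure, hgen]
  let e1 : FreeGroup (Fin k) ⧸ (FreeGroup.lift s : FreeGroup (Fin k) →* H).ker ≃* H :=
    QuotientGroup.quotientKerEquivOfSurjective _ hsurj
  let f : H →* H' := (QuotientGroup.kerLift (FreeGroup.lift s')).comp
    ((QuotientGroup.quotientMulEquivOfEq hker).toMonoidHom.comp e1.symm.toMonoidHom)
  have hf : Function.Injective f := by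
    have h1 : Function.Injective (QuotientGroup.kerLift (FreeGroup.lift s' :
        FreeGroup (Fin k) →* H')) := QuotientGroup.kerLift_injective _
    exact h1.comp ((QuotientGroup.quotientMulEquivOfEq hker).injective.comp e1.symm.injective)
  exact ⟨MulEquiv.ofBijective f ((Fintype.bijective_iff_injective_and_card f).mpr ⟨hf, hc⟩)⟩

end Pool.Agent.SRGWL
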