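import Pool.Agent.SRGWL.WLGame

/-!
# Duplicator's strategy on the groups themselves

The same argument as in `WLGame`, for tuples of elements of the groups instead of tuples of pairs.
-/

namespace Pool.Agent.SRGWL

open Module WLAux

variable {K I : Type*} [Field K] [AddCommGroup I] [Module K I] {z : ℕ}

namespace WLGrp

variable {A : Tup K I z} {D : CoTup K I z}

/-- the subgroup of the elements with `i`-component in `U` -/
def sub (A : Tup K I z) (D : CoTup K I z) (U : Submodule K I) : Subgroup (G A D) where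
  carrier := {x | x.i ∈ U}
  mul_mem' := fun hx hy => U.add_mem hx hy
  one_mem' := U.zero_mem
  inv_mem' := fun hx => U.neg_mem hx

/-- The translation, on elements. -/
def T1 (D : CoTup K I z) (C : CC A) (x : G A 0) : G A D := G.trans C.1 C.2 x

theorem T1_injective (C : CC A) : Function.Injective (T1 D C) := trans_injective C

/-- the translation as a homomorphism on the subgroup -/
def homU (C : CC A) (U : Submodule K I)
    (hloc : ∀ u ∈ U, ∀ v ∈ U, ∀ ζ, C.1 ζ u v - C.1 ζ v u = D ζ u v) : sub A 0 U →* G A D :=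
  MonoidHom.mk' (fun x => T1 D C x.1) (fun x y => trans_mul C.2 hloc x.1 y.1 x.2 y.2)

theorem word_iff {m : ℕ} {C : CC A} {U : Submodule K I}
    (hloc : ∀ u ∈ U, ∀ v ∈ U, ∀ ζ, C.1 ζ u v - C.1 ζ v u = D ζ u v) (s : Fin m → G A 0)
    (hs : ∀ a, (s a).i ∈ U) (w : FreeGroup (Fin m)) :
    FreeGroup.lift s w = 1 ↔ FreeGroup.lift (fun a => T1 D C (s a)) w = 1 := by
  let s' : Fin m → sub A 0 U := fun a => ⟨s a, hs a⟩
  have e1 : FreeGroup.lift s w = ((FreeGroup.lift s' w : sub A 0 U) : G A 0) := by
    have : FreeGroup.lift s = (sub A 0 U).subtype.comp (FreeGroup.lift s') := by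
      ext1 a
      rw [FreeGroup.lift_apply_of, MonoidHom.comp_apply, FreeGroup.lift_apply_of]
      rfl
    rw [this]
    rfl
  have e2 : FreeGroup.lift (fun a => T1 D C (s a)) w = homU C U hloc (FreeGroup.lift s' w) := by
    have : FreeGroup.lift (fun a => T1 D C (s a)) = (homU C U hloc).comp (FreeGroup.lift s') := by
      ext1 a
      rw [FreeGroup.lift_apply_of, MonoidHom.comp_apply, FreeGroup.lift_apply_of]
      rfl
    rw [this]
    rfl
  rw [e1, e2]
  have hinj : Function.Injective (homU C U hloc) := by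
    intro x y hxy
    exact Subtype.ext (T1_injective (D := D) C hxy)
  rw [OneMemClass.coe_eq_one, ← map_eq_one_iff _ hinj]

/-- The bijection of tuples given by a choice of translations. -/
def tupE1 {J : Type*} (D : CoTup K I z) (c : (J → I) → CC A) :
    (J → G A 0) ≃ (J → G A D) where
  toFun s := fun a => T1 D (c fun b => (s b).i) (s a)
  invFun s := fun a => (transE 0 D (c fun b => (s b).i).1 (c fun b => (s b).i).2).symm (s a)
  left_inv s := by
    funext a
    exact (transE 0 D (c fun b => (s b).i).1 (c fun b => (s b).i).2).symm_apply_apply (s a)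
  right_inv s := by
    funext a
    exact (transE 0 D (c fun b => (s b).i).1 (c fun b => (s b).i).2).apply_symm_apply (s a)

/-- The bijection of elements given by a choice of translations. -/
def elE (D : CoTup K I z) (c : I → CC A) : G A 0 ≃ G A D where
  toFun v := T1 D (c v.i) v
  invFun v := (transE 0 D (c v.i).1 (c v.i).2).symm v
  left_inv v := (transE 0 D (c v.i).1 (c v.i).2).symm_apply_apply v
  right_inv v := (transE 0 D (c v.i).1 (c v.i).2).apply_symm_apply v

theorem T1_congr {C C' : CC A} {U : Submodule K I} (h : ∀ u ∈ U, ∀ ζ, C'.1 ζ u = C.1 ζ u)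
    {x : G A 0} (hx : x.i ∈ U) : T1 D C' x = T1 D C x := by
  ext1
  · rfl
  · apply Subtype.ext
    funext ζ
    show (x.w : Fin (z + 1) → Dual K I) ζ + C'.1 ζ x.i = (x.w : Fin (z + 1) → Dual K I) ζ + C.1 ζ x.i
    rw [h _ hx]
  · rfl

/-- the span of a tuple -/
def sg (K : Type*) {I : Type*} [Field K] [AddCommGroup I] [Module K I] {m : ℕ} (s : Fin m → I) :
    Submodule K I := Submodule.span K (Set.range s)

/-- the span of a tuple and of one more element -/
def sg' (K : Type*) {I : Type*} [Field K] [AddCommGroup I] [Module K I] {m : ℕ} (s : Fin m → I)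
    (p : I) : Submodule K I := Submodule.span K (Set.range (Sum.elim s (fun _ : Unit => p)))

theorem finrank_sg {m : ℕ} (s : Fin m → I) : finrank K (sg K s) ≤ m := by
  have h := finrank_range_le_card (R := K) s
  rw [Fintype.card_fin] at h
  exact h

theorem finrank_sg' {m : ℕ} (s : Fin m → I) (p : I) : finrank K (sg' K s p) ≤ m + 1 := by
  have h := finrank_range_le_card (R := K) (Sum.elim s (fun _ : Unit => p))
  rw [Fintype.card_sum, Fintype.card_fin, Fintype.card_unit] at h
  exact h

theorem sg_le {m : ℕ} (s : Fin m → I) (p : I) : sg K s ≤ sg' K s p := by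
  apply Submodule.span_mono
  rintro _ ⟨a, rfl⟩
  exact ⟨Sum.inl a, rfl⟩

theorem mem_sg {m : ℕ} (s : Fin m → I) (a : Fin m) : s a ∈ sg K s := Submodule.subset_span ⟨a, rfl⟩

theorem mem_sg' {m : ℕ} (s : Fin m → I) (p : I) : p ∈ sg' K s p :=
  Submodule.subset_span ⟨Sum.inr (), rfl⟩

variable [Finite K] [Finite I]

theorem gcol_eq {k : ℕ} (S : Sys A D k) {m : ℕ} (hm : m + 1 ≤ k) (r : ℕ) :
    ∀ (s : Fin m → G A 0) (U : Submodule K I), (∀ a, (s a).i ∈ U) →
      ∀ C : CC A, C.1 ∈ S.sol U →
        gcol (G A 0) m r s = gcol (G A D) m r (fun a => T1 D C (s a)) := by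
  classical
  induction r with
  | zero =>
    intro s U hs C hC
    have hloc := S.local_eq U C.1 hC
    exact Set.ext fun w => word_iff hloc s hs w
  | succ r ih =>
    intro s U hs C hC
    set ι : Fin m → I := fun a => (s a).i with hι
    have hU0 : sg K ι ≤ U := by
      apply Submodule.span_le.2
      rintro _ ⟨a, rfl⟩
      exact hs a
    have hC0 : C.1 ∈ S.sol (sg K ι) := S.mono _ _ hU0 hC
    have hext : ∀ p : I, ∃ C' : CC A, C'.1 ∈ S.sol (sg' K ι p) ∧
        ∀ u ∈ sg K ι, ∀ ζ, C'.1 ζ u = C.1 ζ u := by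
      intro p
      obtain ⟨C', h1, h2⟩ := S.ext (sg K ι) (sg' K ι p) (sg_le ι p)
        ((finrank_sg' ι p).trans hm) C.1 hC0
      exact ⟨⟨C', S.isC _ _ h1⟩, h1, h2⟩
    choose c hc1 hc2 using hext
    refine Prod.ext (ih s U hs C hC) ?_
    refine map_equiv (elE D c) _ _ fun v => ?_
    funext a
    have hin : ∀ b, (Function.update s a v b).i ∈ sg' K ι v.i := by
      intro b
      by_cases hb : b = a
      · rw [hb, Function.update_self]
        exact mem_sg' ι v.i
      · rw [Function.update_of_ne hb]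
        exact sg_le ι v.i (mem_sg (K := K) ι b)
    have h2 := ih (Function.update s a v) _ hin (c v.i) (hc1 v.i)
    rw [h2]
    congr 1
    funext b
    by_cases hb : b = a
    · rw [hb, Function.update_self, Function.update_self]
      rfl
    · rw [Function.update_of_ne hb, Function.update_of_ne hb]
      exact T1_congr (hc2 v.i) (mem_sg (K := K) ι b)

end WLGrp

open WLGrp

theorem gwlEquiv_of_sys [Finite K] [Finite I] [Module.Finite K I] {A : Tup K I z} {D : CoTup K I z}
    {k : ℕ} (S : Sys A D k) {m : ℕ} (hm : m + 1 ≤ k) :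
    GWLEquiv m (G A 0) (G A D) := by
  intro r
  obtain ⟨C0, hC0⟩ := S.base
  have hex : ∀ ι : Fin m → I, ∃ C : CC A, C.1 ∈ S.sol (sg K ι) := by
    intro ι
    obtain ⟨C', h1, -⟩ := S.ext ⊥ (sg K ι) bot_le ((finrank_sg ι).trans (by omega)) C0 hC0
    exact ⟨⟨C', S.isC _ _ h1⟩, h1⟩
  choose c hc using hex
  refine map_equiv (tupE1 D c) _ _ fun s => ?_
  exact gcol_eq S hm r s _ (fun a => mem_sg (K := K) (fun b => (s b).i) a) _ (hc _)

end Pool.Agent.SRGWL
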