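import Pool.Agent.SRGWL.Defs

/-!
# The order of the group `G A D`
-/

namespace Pool.Agent.SRGWL

open Module

theorem finrank_Wsp {K I : Type*} [Field K] [AddCommGroup I] [Module K I] [Module.Finite K I] {z : ℕ}
    {A : Tup K I z} (h0 : Function.Surjective (A 0)) : finrank K (Wsp A) = z * finrank K I := by
  classical
  let f : (Fin (z + 1) → Dual K I) →ₗ[K] I :=
    { toFun := fun w => ∑ ζ, A ζ (w ζ)
      map_add' := by
        intro a b
        simp [Finset.sum_add_distrib]
      map_smul' := by
        intro c a
        simp [Finset.smul_sum] }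
  have hf : LinearMap.ker f = Wsp A := by
    ext w
    rw [LinearMap.mem_ker, mem_Wsp]
    rfl
  have hr : LinearMap.range f = ⊤ := by
    rw [LinearMap.range_eq_top]
    intro x
    obtain ⟨φ, hφ⟩ := h0 x
    refine ⟨Pi.single 0 φ, ?_⟩
    show ∑ ζ, A ζ ((Pi.single 0 φ : Fin (z + 1) → Dual K I) ζ) = x
    rw [Finset.sum_eq_single 0]
    · rw [Pi.single_eq_same, hφ]
    · intro b _ hb
      rw [Pi.single_eq_of_ne hb, map_zero]
    · simp
  have h1 := LinearMap.finrank_range_add_finrank_ker f
  have h2 : finrank K (Fin (z + 1) → Dual K I) = (z + 1) * finrank K I := by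
    rw [Module.finrank_pi_fintype]
    simp [Subspace.dual_finrank_eq]
  have h3 : finrank K (LinearMap.range f) = finrank K I := by
    rw [hr, finrank_top]
  rw [h2, h3, hf] at h1
  have : (z + 1) * finrank K I = z * finrank K I + finrank K I := by ring
  omega

theorem card_G {K I : Type*} [Field K] [Finite K] [AddCommGroup I] [Module K I] [Module.Finite K I]
    {z : ℕ} {A : Tup K I z} (h0 : Function.Surjective (A 0)) (D : CoTup K I z) :
    Nat.card (G A D) = Nat.card K ^ ((z + 1) * finrank K I + (z + 1)) := by
  have : Fintype K := Fintype.ofFinite K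
  have hI : Nat.card I = Nat.card K ^ finrank K I := Module.natCard_eq_pow_finrank
  have hW : Nat.card (Wsp A) = Nat.card K ^ finrank K (Wsp A) :=
    Module.natCard_eq_pow_finrank (K := K) (V := Wsp A)
  rw [Nat.card_congr (G.equivProd (A := A) (D := D)), Nat.card_prod, Nat.card_prod, hI, hW,
    Nat.card_fun, finrank_Wsp h0, Nat.card_fin, ← pow_add, ← pow_add]
  congr 1
  ring

end Pool.Agent.SRGWL
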