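import Pool.Agent.SRGWL.Defs

/-!
# Latin square graphs of groups are strongly regular and vertex transitive

Paper proof. `lsGraph H`: vertices `(x,y)`, three coordinates `x`, `y`, `xy`; any two of them
determine the vertex. `N = |H|`.

* Degree: the neighbours of `(x,y)` are the `N-1` other vertices with the same `x`, the `N-1` others
  with the same `y`, the `N-1` others with the same `xy`; the three sets are disjoint. `3(N-1)`.
* `u ~ v` adjacent, say they agree in one coordinate `c`: common neighbours are the `N-2` other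
  vertices with the same coordinate `c`, and for the other two coordinates `d, e`: the vertex with
  `d = d(u), e = e(v)` and the vertex with `d = d(v), e = e(u)`. `N - 2 + 2 = N`.
* `u, v` different and not adjacent: a common neighbour agrees with `u` in one coordinate `c` and with
  `v` in another one `d ≠ c`; it is determined by the ordered pair `(c,d)`, the six vertices are
  different from each other and from `u, v`. So `6`.
It may be convenient to use vertex transitivity first: `(x,y) ↦ (a x, y b)` is an automorphism, so one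
may assume `u = (1,1)`; then the neighbourhood of `u` is `{(1,y)} ∪ {(x,1)} ∪ {(x,x⁻¹)}`.
-/

namespace Pool.Agent.SRGWL

namespace LSG

open Finset

open Classical in
/-- the indicator of a proposition -/
noncomputable def ind (p : Prop) : ℤ := if p then 1 else 0

lemma ind_true {p : Prop} (h : p) : ind p = 1 := if_pos h

lemma ind_false {p : Prop} (h : ¬ p) : ind p = 0 := if_neg h

lemma ind_congr {p q : Prop} (h : p ↔ q) : ind p = ind q := by
  rw [propext h]

lemma sum_ind {ι : Type*} [Fintype ι] (a : ι) (f : ι → ℤ) : ∑ w, f w * ind (w = a) = f a := by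
  classical
  unfold ind
  simp

lemma sum_ind' {ι : Type*} [Fintype ι] (a : ι) (f : ι → ℤ) : ∑ w, ind (w = a) * f w = f a := by
  classical
  unfold ind
  simp

variable {H : Type*} [Group H] [Fintype H]

lemma s1 (e : H × H ≃ H × H) (a b : H) : ∑ w, ind ((e w).1 = a) * ind ((e w).2 = b) = 1 := by
  classical
  rw [Equiv.sum_comp e fun w => ind (w.1 = a) * ind (w.2 = b), Fintype.sum_prod_type]
  simp only
  have h1 : ∀ x : H, ∑ y : H, ind (x = a) * ind (y = b) = ind (x = a) := fun x =>
    sum_ind b fun _ => ind (x = a)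
  simp only [h1]
  have h2 := sum_ind' a fun _ => (1 : ℤ)
  simpa using h2

lemma s2 (e : H × H ≃ H × H) (a b : H) :
    ∑ w, ind ((e w).1 = a) * ind ((e w).1 = b) = Fintype.card H * ind (a = b) := by
  classical
  rw [Equiv.sum_comp e fun w => ind (w.1 = a) * ind (w.1 = b), Fintype.sum_prod_type]
  simp only [sum_const, card_univ, nsmul_eq_mul]
  rw [← mul_sum, sum_ind' a fun x => ind (x = b)]

lemma s3 (e : H × H ≃ H × H) (a b : H) :
    ∑ w, ind ((e w).2 = a) * ind ((e w).2 = b) = Fintype.card H * ind (a = b) := by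
  classical
  rw [Equiv.sum_comp e fun w => ind (w.2 = a) * ind (w.2 = b), Fintype.sum_prod_type_right]
  simp only [sum_const, card_univ, nsmul_eq_mul]
  rw [← mul_sum, sum_ind' a fun x => ind (x = b)]

/-- the first and the third coordinate -/
def e13 : H × H ≃ H × H where
  toFun w := (w.1, w.1 * w.2)
  invFun w := (w.1, w.1⁻¹ * w.2)
  left_inv w := by simp
  right_inv w := by simp

/-- the second and the third coordinate -/
def e23 : H × H ≃ H × H where
  toFun w := (w.2, w.1 * w.2)
  invFun w := (w.2 * w.1⁻¹, w.1)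
  left_inv w := by simp
  right_inv w := by simp

lemma ind_adj (u w : H × H) : ind ((lsGraph H).Adj u w) =
    ind (w.1 = u.1) + ind (w.2 = u.2) + ind (w.1 * w.2 = u.1 * u.2) - 3 * ind (w = u) := by
  by_cases h : w = u
  · subst h
    rw [ind_true (rfl : w.1 = w.1), ind_true (rfl : w.2 = w.2),
      ind_true (rfl : w.1 * w.2 = w.1 * w.2), ind_true (rfl : w = w), ind_false]
    · norm_num
    · exact (lsGraph H).loopless.irrefl w
  · rw [ind_false h]
    by_cases h1 : w.1 = u.1
    · have h2 : w.2 ≠ u.2 := fun h2 => h (Prod.ext h1 h2)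
      have h3 : w.1 * w.2 ≠ u.1 * u.2 := by
        rw [h1]
        intro h3
        exact h2 (mul_left_cancel h3)
      rw [ind_true h1, ind_false h2, ind_false h3, ind_true]
      · norm_num
      · exact ⟨fun h' => h h'.symm, Or.inl h1.symm⟩
    · by_cases h2 : w.2 = u.2
      · have h3 : w.1 * w.2 ≠ u.1 * u.2 := by
          rw [h2]
          intro h3
          exact h1 (mul_right_cancel h3)
        rw [ind_false h1, ind_true h2, ind_false h3, ind_true]
        · norm_num
        · exact ⟨fun h' => h h'.symm, Or.inr (Or.inl h2.symm)⟩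
      · by_cases h3 : w.1 * w.2 = u.1 * u.2
        · rw [ind_false h1, ind_false h2, ind_true h3, ind_true]
          · norm_num
          · exact ⟨fun h' => h h'.symm, Or.inr (Or.inr h3.symm)⟩
        · rw [ind_false h1, ind_false h2, ind_false h3, ind_false]
          · norm_num
          · rintro ⟨-, h4 | h4 | h4⟩
            · exact h1 h4.symm
            · exact h2 h4.symm
            · exact h3 h4.symm

/-- the number of the common neighbours -/
lemma main (u v : H × H) :
    ∑ w, ind ((lsGraph H).Adj u w) * ind ((lsGraph H).Adj v w) =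
      6 + ((Fintype.card H : ℤ) - 6) *
        (ind (u.1 = v.1) + ind (u.2 = v.2) + ind (u.1 * u.2 = v.1 * v.2)) + 9 * ind (u = v) := by
  have h11 := s2 (Equiv.refl (H × H)) u.1 v.1
  have h22 := s3 (Equiv.refl (H × H)) u.2 v.2
  have h33 := s3 e13 (u.1 * u.2) (v.1 * v.2)
  have h12 := s1 (Equiv.refl (H × H)) u.1 v.2
  have h21 := s1 (Equiv.refl (H × H)) v.1 u.2
  have h13 := s1 e13 u.1 (v.1 * v.2)
  have h31 := s1 e13 v.1 (u.1 * u.2)
  have h23 := s1 e23 u.2 (v.1 * v.2)
  have h32 := s1 e23 v.2 (u.1 * u.2)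
  have f1 := sum_ind v fun w : H × H => ind (w.1 = u.1)
  have f2 := sum_ind v fun w : H × H => ind (w.2 = u.2)
  have f3 := sum_ind v fun w : H × H => ind (w.1 * w.2 = u.1 * u.2)
  have g1 := sum_ind u fun w : H × H => ind (w.1 = v.1)
  have g2 := sum_ind u fun w : H × H => ind (w.2 = v.2)
  have g3 := sum_ind u fun w : H × H => ind (w.1 * w.2 = v.1 * v.2)
  have f0 := sum_ind u fun w : H × H => ind (w = v)
  rw [ind_congr (eq_comm : v.1 = u.1 ↔ _)] at f1
  rw [ind_congr (eq_comm : v.2 = u.2 ↔ _)] at f2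
  rw [ind_congr (eq_comm : v.1 * v.2 = u.1 * u.2 ↔ _)] at f3
  simp only [Equiv.refl_apply, e13, e23, Equiv.coe_fn_mk] at h11 h22 h33 h12 h21 h13 h31 h23 h32
  have hexp : ∀ w : H × H, ind ((lsGraph H).Adj u w) * ind ((lsGraph H).Adj v w) =
      ind (w.1 = u.1) * ind (w.1 = v.1) + ind (w.2 = u.2) * ind (w.2 = v.2) +
      ind (w.1 * w.2 = u.1 * u.2) * ind (w.1 * w.2 = v.1 * v.2) +
      ind (w.1 = u.1) * ind (w.2 = v.2) + ind (w.1 = v.1) * ind (w.2 = u.2) +
      ind (w.1 = u.1) * ind (w.1 * w.2 = v.1 * v.2) +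
      ind (w.1 = v.1) * ind (w.1 * w.2 = u.1 * u.2) +
      ind (w.2 = u.2) * ind (w.1 * w.2 = v.1 * v.2) +
      ind (w.2 = v.2) * ind (w.1 * w.2 = u.1 * u.2) +
      (-3) * (ind (w.1 = u.1) * ind (w = v)) + (-3) * (ind (w.2 = u.2) * ind (w = v)) +
      (-3) * (ind (w.1 * w.2 = u.1 * u.2) * ind (w = v)) +
      (-3) * (ind (w.1 = v.1) * ind (w = u)) + (-3) * (ind (w.2 = v.2) * ind (w = u)) +
      (-3) * (ind (w.1 * w.2 = v.1 * v.2) * ind (w = u)) +
      9 * (ind (w = v) * ind (w = u)) := by
    intro w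
    rw [ind_adj, ind_adj]
    ring
  rw [sum_congr rfl fun w _ => hexp w]
  simp only [sum_add_distrib, ← mul_sum]
  rw [h11, h22, h33, h12, h21, h13, h31, h23, h32, f1, f2, f3, g1, g2, g3, f0]
  ring

open Classical in
lemma card_eq (u v : H × H) :
    ((univ.filter fun w => (lsGraph H).Adj u w ∧ (lsGraph H).Adj v w).card : ℤ) =
      ∑ w, ind ((lsGraph H).Adj u w) * ind ((lsGraph H).Adj v w) := by
  rw [card_filter]
  push_cast
  refine sum_congr rfl fun w _ => ?_
  unfold ind
  by_cases h1 : (lsGraph H).Adj u w <;> by_cases h2 : (lsGraph H).Adj v w <;> simp [h1, h2]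

lemma k_of_adj {u v : H × H} (h : (lsGraph H).Adj u v) :
    ind (u.1 = v.1) + ind (u.2 = v.2) + ind (u.1 * u.2 = v.1 * v.2) = 1 := by
  have h1 := ind_adj v u
  rw [ind_true h.symm, ind_false h.1] at h1
  linarith

lemma k_of_not_adj {u v : H × H} (hne : u ≠ v) (h : ¬ (lsGraph H).Adj u v) :
    ind (u.1 = v.1) + ind (u.2 = v.2) + ind (u.1 * u.2 = v.1 * v.2) = 0 := by
  have h1 := ind_adj v u
  rw [ind_false fun h' => h h'.symm, ind_false hne] at h1
  linarith

end LSG

open LSG

open Classical in
theorem lsGraph_isSRGWith (H : Type*) [Group H] [Fintype H] :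
    (lsGraph H).IsSRGWith (Fintype.card H ^ 2) (3 * (Fintype.card H - 1)) (Fintype.card H) 6 := by
  have hpos : 1 ≤ Fintype.card H := Fintype.card_pos
  refine ⟨?_, ?_, ?_, ?_⟩
  · rw [Fintype.card_prod, sq]
  · intro u
    have h1 := card_eq u u
    rw [main, ind_true (rfl : u.1 = u.1), ind_true (rfl : u.2 = u.2),
      ind_true (rfl : u.1 * u.2 = u.1 * u.2), ind_true (rfl : u = u)] at h1
    have h2 : (lsGraph H).degree u =
        (Finset.univ.filter fun w => (lsGraph H).Adj u w ∧ (lsGraph H).Adj u w).card := by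
      rw [← SimpleGraph.card_neighborFinset_eq_degree]
      congr 1
      ext w
      simp
    rw [h2]
    zify [hpos]
    rw [h1]
    ring
  · intro u v huv
    have h1 := card_eq u v
    rw [main, k_of_adj huv, ind_false huv.1] at h1
    have h2 : Fintype.card ((lsGraph H).commonNeighbors u v) =
        (Finset.univ.filter fun w => (lsGraph H).Adj u w ∧ (lsGraph H).Adj v w).card := by
      rw [← Set.toFinset_card]
      congr 1
      ext w
      simp [SimpleGraph.mem_commonNeighbors]
    rw [h2]
    zify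
    rw [h1]
    ring
  · intro u v hne huv
    have h1 := card_eq u v
    rw [main, k_of_not_adj hne huv, ind_false hne] at h1
    have h2 : Fintype.card ((lsGraph H).commonNeighbors u v) =
        (Finset.univ.filter fun w => (lsGraph H).Adj u w ∧ (lsGraph H).Adj v w).card := by
      rw [← Set.toFinset_card]
      congr 1
      ext w
      simp [SimpleGraph.mem_commonNeighbors]
    rw [h2]
    zify
    rw [h1]
    ring

theorem lsGraph_transitive (H : Type*) [Group H] (u v : H × H) :
    ∃ φ : lsGraph H ≃g lsGraph H, φ u = v := by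
  refine ⟨⟨((Equiv.mulLeft (v.1 * u.1⁻¹)).prodCongr (Equiv.mulRight (u.2⁻¹ * v.2))), ?_⟩, ?_⟩
  · intro a b
    show (_ ≠ _ ∧ _) ↔ (_ ≠ _ ∧ _)
    simp only [Equiv.prodCongr_apply, Prod.map, Equiv.coe_mulLeft, Equiv.coe_mulRight]
    refine and_congr ?_ (or_congr ?_ (or_congr ?_ ?_))
    · rw [not_iff_not, Prod.ext_iff, Prod.ext_iff]
      simp
    · simp
    · simp
    · constructor
      · intro h
        have h2 : (v.1 * u.1⁻¹) * (a.1 * a.2) * (u.2⁻¹ * v.2) =
            (v.1 * u.1⁻¹) * (b.1 * b.2) * (u.2⁻¹ * v.2) := by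
          simpa only [mul_assoc] using h
        exact mul_left_cancel (mul_right_cancel h2)
      · intro h
        have h2 : (v.1 * u.1⁻¹) * (a.1 * a.2) * (u.2⁻¹ * v.2) =
            (v.1 * u.1⁻¹) * (b.1 * b.2) * (u.2⁻¹ * v.2) := by rw [h]
        simpa only [mul_assoc] using h2
  · show (v.1 * u.1⁻¹ * u.1, u.2 * (u.2⁻¹ * v.2)) = v
    simp

end Pool.Agent.SRGWL
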