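import Pool.Agent.SRGWL.Special
import Pool.Agent.SRGWL.LSGraph

/-!
# Latin square graphs of groups are Cayley graphs
-/

namespace Pool.Agent.SRGWL

/-- The Cayley graph of the group `G` with connection set `S`: different elements `a`, `b` are adjacent
iff `a⁻¹ * b` or `b⁻¹ * a` is in `S`. -/
def cay (G : Type*) [Group G] (S : Set G) : SimpleGraph G :=
  SimpleGraph.fromRel fun a b => a⁻¹ * b ∈ S

/-- The vertex `(x, y)` corresponds to the element `(x, y⁻¹)` of `H × H`; the connection set consists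
of the elements `(1, h)`, `(h, 1)`, `(h, h)`. -/
theorem lsGraph_cay (H : Type*) [Group H] :
    Nonempty (lsGraph H ≃g cay (H × H) {g | g.1 = 1 ∨ g.2 = 1 ∨ g.1 = g.2}) := by
  refine ⟨⟨(Equiv.refl H).prodCongr (Equiv.inv H), ?_⟩⟩
  intro a b
  show (SimpleGraph.fromRel _).Adj _ _ ↔ (a ≠ b ∧ _)
  rw [SimpleGraph.fromRel_adj]
  obtain ⟨x, y⟩ := a
  obtain ⟨x', y'⟩ := b
  simp only [Equiv.prodCongr_apply, Prod.map, Equiv.refl_apply, Equiv.inv_apply, Set.mem_ofPred_eq,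
    Prod.mk_mul_mk, Prod.inv_mk, inv_inv, ne_eq, Prod.mk.injEq, inv_inj]
  refine and_congr Iff.rfl ?_
  have e1 : x⁻¹ * x' = 1 ↔ x = x' := inv_mul_eq_one
  have e2 : x'⁻¹ * x = 1 ↔ x = x' := inv_mul_eq_one.trans eq_comm
  have e3 : y * y'⁻¹ = 1 ↔ y = y' := mul_inv_eq_one
  have e4 : y' * y⁻¹ = 1 ↔ y = y' := mul_inv_eq_one.trans eq_comm
  have e5 : x⁻¹ * x' = y * y'⁻¹ ↔ x * y = x' * y' := by
    rw [inv_mul_eq_iff_eq_mul, ← mul_assoc, eq_mul_inv_iff_mul_eq]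
    exact eq_comm
  have e6 : x'⁻¹ * x = y' * y⁻¹ ↔ x * y = x' * y' := by
    rw [inv_mul_eq_iff_eq_mul, ← mul_assoc, eq_mul_inv_iff_mul_eq]
  rw [e1, e2, e3, e4, e5, e6, or_self]

end Pool.Agent.SRGWL
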