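import Pool.Agent.SRGWL.WL

/-!
# The Weisfeiler-Leman dimension of strongly regular graphs and of finite groups is unbounded

Basic definitions (see `/team-store/SRGWL_blueprint.md` for the paper proof).

* `K` a field, `I` a vector space, `I* = Dual K I`.
* `Tup K I z`: tuples `A = (A_0, …, A_z)` of linear maps `I* → I`; `Skew A`: `φ (A_ζ ψ) = - ψ (A_ζ φ)`.
* `CoTup K I z`: tuples `C = (C_0, …, C_z)` of linear maps `I → I*`.
* `Wsp A = {w : (I*)^(z+1) | ∑ A_ζ w_ζ = 0}`.
* `IsC A C`: `i ↦ (C_ζ i)_ζ` is a linear map `I → Wsp A`.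
* `pair Θ C = ∑ trace (Θ_ζ ∘ C_ζ)`.
* `G A D`: the group on `I × Wsp A × K^(z+1)` with
  `(i,w,t)(j,w',t') = (i+j, w+w', t+t'+w'(i)-w(j)+D(i,j))`.
-/

namespace Pool.Agent.SRGWL

open Module

section LinAlg

variable (K I : Type*) [Field K] [AddCommGroup I] [Module K I] (z : ℕ)

/-- tuples of linear maps `I* → I` -/
abbrev Tup := Fin (z + 1) → (Dual K I →ₗ[K] I)

/-- tuples of linear maps `I → I*` -/
abbrev CoTup := Fin (z + 1) → (I →ₗ[K] Dual K I)

variable {K I z}

/-- every component is skew -/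
def Skew (Θ : Tup K I z) : Prop := ∀ (ζ : Fin (z + 1)) (φ ψ : Dual K I), φ (Θ ζ ψ) = - ψ (Θ ζ φ)

/-- every component is skew -/
def CoSkew (D : CoTup K I z) : Prop := ∀ (ζ : Fin (z + 1)) (i j : I), D ζ i j = - D ζ j i

/-- the space `W = {w | ∑ A_ζ w_ζ = 0}` -/
def Wsp (A : Tup K I z) : Submodule K (Fin (z + 1) → Dual K I) where
  carrier := {w | ∑ ζ, A ζ (w ζ) = 0}
  add_mem' := by
    intro a b ha hb
    simp only [Set.mem_ofPred_eq, Pi.add_apply, map_add, Finset.sum_add_distrib] at *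
    rw [ha, hb, add_zero]
  zero_mem' := by simp
  smul_mem' := by
    intro c a ha
    simp only [Set.mem_ofPred_eq, Pi.smul_apply, map_smul, ← Finset.smul_sum] at *
    rw [ha, smul_zero]

theorem mem_Wsp {A : Tup K I z} {w : Fin (z + 1) → Dual K I} :
    w ∈ Wsp A ↔ ∑ ζ, A ζ (w ζ) = 0 := Iff.rfl

/-- `C` is (the tuple of the components of) a linear map `I → Wsp A` -/
def IsC (A : Tup K I z) (C : CoTup K I z) : Prop := ∀ i, (fun ζ => C ζ i) ∈ Wsp A

/-- the trace pairing -/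
noncomputable def pair (Θ : Tup K I z) (C : CoTup K I z) : K :=
  ∑ ζ, LinearMap.trace K I (Θ ζ ∘ₗ C ζ)

/-- rigidity of the tuple `A`: if `Y : I* → I*` satisfies `φ (A_ζ (Y φ)) = 0` for all `ζ` and all `φ` in
a subspace `P` of codimension at most `k`, then `Y - c` has rank at most `r` on `P` for some scalar
`c`. -/
def Rigid (A : Tup K I z) (k r : ℕ) : Prop :=
  ∀ P : Submodule K (Dual K I), finrank K (Dual K I) ≤ finrank K P + k →
    ∀ Y : Dual K I →ₗ[K] Dual K I, (∀ φ ∈ P, ∀ ζ, φ (A ζ (Y φ)) = 0) →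
      ∃ c : K, finrank K (P.map (Y - c • LinearMap.id)) ≤ r

/-- the tuples `Θ` (skew) that are small modulo `U`: `Θ_ζ φ = A_ζ (Y φ)` for all `φ` in the
annihilator of `U`, for one linear map `Y` of rank at most `r`. -/
def DU (A : Tup K I z) (r : ℕ) (U : Submodule K I) : Set (Tup K I z) :=
  {Θ | Skew Θ ∧ ∃ Y : Dual K I →ₗ[K] Dual K I, finrank K (LinearMap.range Y) ≤ r ∧
    ∀ φ ∈ U.dualAnnihilator, ∀ ζ, Θ ζ φ = A ζ (Y φ)}

/-- the local solutions on `U` -/
def Good (A : Tup K I z) (D : CoTup K I z) (r : ℕ) (U : Submodule K I) (C : CoTup K I z) : Prop :=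
  IsC A C ∧ ∀ Θ ∈ DU A r U, 2 * pair Θ C = pair Θ D

/-- what the game needs: a system of local solutions of
`C_ζ u v - C_ζ v u = D_ζ u v`, with the extension property up to dimension `k`. -/
structure Sys (A : Tup K I z) (D : CoTup K I z) (k : ℕ) where
  /-- the solutions on `U` -/
  sol : Submodule K I → Set (CoTup K I z)
  isC : ∀ U : Submodule K I, ∀ C ∈ sol U, IsC A C
  base : ∃ C, C ∈ sol ⊥
  mono : ∀ U U' : Submodule K I, U ≤ U' → sol U' ⊆ sol U
  ext : ∀ U U' : Submodule K I, U ≤ U' → finrank K U' ≤ k → ∀ C ∈ sol U, ∃ C' ∈ sol U',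
    ∀ u ∈ U, ∀ ζ, C' ζ u = C ζ u
  local_eq : ∀ U : Submodule K I, ∀ C ∈ sol U, ∀ u ∈ U, ∀ v ∈ U, ∀ ζ, C ζ u v - C ζ v u = D ζ u v

/-- The group `G A D`. -/
@[ext]
structure G (A : Tup K I z) (D : CoTup K I z) where
  /-- the component in `I` -/
  i : I
  /-- the component in `W` -/
  w : Wsp A
  /-- the central component -/
  t : Fin (z + 1) → K

namespace G

variable {A : Tup K I z} {D : CoTup K I z}

instance : Mul (G A D) where
  mul x y := ⟨x.i + y.i, x.w + y.w,
    fun ζ => x.t ζ + y.t ζ + (y.w : Fin (z + 1) → Dual K I) ζ x.i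
      - (x.w : Fin (z + 1) → Dual K I) ζ y.i + D ζ x.i y.i⟩

instance : One (G A D) where
  one := ⟨0, 0, 0⟩

instance : Inv (G A D) where
  inv x := ⟨-x.i, -x.w, fun ζ => -x.t ζ + D ζ x.i x.i⟩

@[simp] theorem mul_i (x y : G A D) : (x * y).i = x.i + y.i := rfl
@[simp] theorem mul_w (x y : G A D) : (x * y).w = x.w + y.w := rfl
@[simp] theorem mul_t (x y : G A D) (ζ) : (x * y).t ζ = x.t ζ + y.t ζ +
    (y.w : Fin (z + 1) → Dual K I) ζ x.i - (x.w : Fin (z + 1) → Dual K I) ζ y.i + D ζ x.i y.i := rfl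
@[simp] theorem one_i : (1 : G A D).i = 0 := rfl
@[simp] theorem one_w : (1 : G A D).w = 0 := rfl
@[simp] theorem one_t : (1 : G A D).t = 0 := rfl
@[simp] theorem inv_i (x : G A D) : (x⁻¹).i = -x.i := rfl
@[simp] theorem inv_w (x : G A D) : (x⁻¹).w = -x.w := rfl
@[simp] theorem inv_t (x : G A D) (ζ) : (x⁻¹).t ζ = -x.t ζ + D ζ x.i x.i := rfl

instance : Group (G A D) where
  mul_assoc x y v := by
    ext1
    · simp [add_assoc]
    · simp [add_assoc]
    · funext ζ
      simp only [mul_t, mul_i, mul_w, Submodule.coe_add, Pi.add_apply, LinearMap.add_apply, map_add]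
      ring
  one_mul x := by
    ext1
    · simp
    · simp
    · funext ζ
      simp
  mul_one x := by
    ext1
    · simp
    · simp
    · funext ζ
      simp
  inv_mul_cancel x := by
    ext1
    · simp
    · exact neg_add_cancel x.w
    · funext ζ
      simp only [mul_t, inv_t, inv_i, inv_w, Submodule.coe_neg, Pi.neg_apply, map_neg,
        LinearMap.neg_apply, one_t, Pi.zero_apply]
      ring

/-- the underlying product -/
def equivProd : G A D ≃ I × Wsp A × (Fin (z + 1) → K) where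
  toFun x := (x.i, x.w, x.t)
  invFun x := ⟨x.1, x.2.1, x.2.2⟩
  left_inv _ := rfl
  right_inv _ := rfl

theorem finite [Finite K] [Finite I] : Finite (G A D) := by
  have : Finite (Dual K I) := DFunLike.finite _
  have : Finite (Wsp A) := Subtype.finite
  exact Finite.of_equiv _ equivProd.symm

noncomputable instance [Finite K] [Finite I] : Fintype (G A D) :=
  @Fintype.ofFinite _ finite

/-- translation by `C`: `(i,w,t) ↦ (i, w + C i, t)` -/
def trans {D' : CoTup K I z} (C : CoTup K I z) (hC : IsC A C) (x : G A D) : G A D' :=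
  ⟨x.i, x.w + ⟨fun ζ => C ζ x.i, hC x.i⟩, x.t⟩

end G

end LinAlg

end Pool.Agent.SRGWL
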