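import Pool.Agent.SRGWL.Final

/-!
# The groups `G A D` are special `p`-groups of exponent `p`

For every odd prime `p`: `G A D` (`A` skew and rigid, `A 0` bijective, `D` skew) has exponent `p`, its
centre is its commutator subgroup and has order `p ^ 16`.
-/

namespace Pool.Agent.SRGWL

open Module
open scoped commutatorElement

namespace Special

variable {K I : Type*} [Field K] [AddCommGroup I] [Module K I] {z : ℕ}

theorem D_self {D : CoTup K I z} (h2 : (2 : K) ≠ 0) (hD : CoSkew D) (ζ : Fin (z + 1)) (i : I) :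
    D ζ i i = 0 := by
  have h := hD ζ i i
  have h3 : (2 : K) * D ζ i i = 0 := by linear_combination h
  exact (mul_eq_zero.mp h3).resolve_left h2

theorem pow_eq {A : Tup K I z} {D : CoTup K I z} (h2 : (2 : K) ≠ 0) (hD : CoSkew D) (x : G A D)
    (n : ℕ) : (x ^ n).i = (n : K) • x.i ∧
      ((x ^ n).w : Fin (z + 1) → Dual K I) = (n : K) • (x.w : Fin (z + 1) → Dual K I) ∧
      (x ^ n).t = (n : K) • x.t := by
  induction n with
  | zero => simp
  | succ n ih =>
    obtain ⟨h1, h3, h4⟩ := ih
    refine ⟨?_, ?_, ?_⟩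
    · rw [pow_succ, G.mul_i, h1]
      push_cast
      rw [add_smul, one_smul]
    · rw [pow_succ, G.mul_w, Submodule.coe_add, h3]
      push_cast
      rw [add_smul, one_smul]
    · funext ζ
      rw [pow_succ, G.mul_t, h1, h3, h4]
      simp only [Pi.smul_apply, LinearMap.smul_apply, map_smul, smul_eq_mul]
      rw [D_self h2 hD]
      push_cast
      ring

theorem exponent {p : ℕ} [Fact p.Prime] (hp : p ≠ 2) {I : Type*} [AddCommGroup I]
    [Module (ZMod p) I] {A : Tup (ZMod p) I z} {D : CoTup (ZMod p) I z} (hD : CoSkew D)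
    (x : G A D) : x ^ p = 1 := by
  obtain ⟨h1, h3, h4⟩ := pow_eq (NonIso.two_ne hp) hD x p
  rw [ZMod.natCast_self, zero_smul] at h1 h3 h4
  ext1
  · rw [h1]; rfl
  · apply Subtype.ext
    rw [h3]; rfl
  · rw [h4]; rfl

/-- the commutator form -/
theorem comm_t {A : Tup K I z} {D : CoTup K I z} (hD : CoSkew D) (x y : G A D) :
    ⁅x, y⁆ = ⟨0, 0, fun ζ => 2 * ((y.w : Fin (z + 1) → Dual K I) ζ x.i
      - (x.w : Fin (z + 1) → Dual K I) ζ y.i + D ζ x.i y.i)⟩ := by
  have hswap := fun ζ => hD ζ y.i x.i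
  rw [commutatorElement_def, mul_assoc, ← mul_inv_rev, mul_inv_eq_iff_eq_mul]
  ext1
  · simp [add_comm]
  · simp [add_comm]
  · funext ζ
    simp only [G.mul_t, G.mul_i, G.mul_w, map_zero, LinearMap.zero_apply, Submodule.coe_add,
      Pi.add_apply, ZeroMemClass.coe_zero, Pi.zero_apply]
    rw [hswap ζ]
    ring

theorem mem_center {A : Tup K I z} (h2 : (2 : K) ≠ 0) (h0 : Function.Bijective (A 0))
    (hz : 1 ≤ z) {D : CoTup K I z} (hD : CoSkew D) (x : G A D) :
    x ∈ Subgroup.center (G A D) ↔ x.i = 0 ∧ x.w = 0 := by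
  classical
  constructor
  · intro hx
    have hc : ∀ y : G A D, ∀ ζ, (y.w : Fin (z + 1) → Dual K I) ζ x.i
        - (x.w : Fin (z + 1) → Dual K I) ζ y.i + D ζ x.i y.i = 0 := by
      intro y ζ
      have h3 : ⁅x, y⁆ = 1 := commutatorElement_eq_one_iff_mul_comm.mpr
        ((Subgroup.mem_center_iff.mp hx y).symm)
      rw [comm_t hD] at h3
      have h4 := congrArg (fun g : G A D => g.t ζ) h3
      exact (mul_eq_zero.mp h4).resolve_left h2
    have hi : x.i = 0 := by
      rw [← Module.forall_dual_apply_eq_zero_iff K]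
      intro φ
      obtain ⟨w0, hw0⟩ := h0.2 (- A ⟨1, by omega⟩ φ)
      have hne : (0 : Fin (z + 1)) ≠ ⟨1, by omega⟩ := by
        intro h
        have := congrArg Fin.val h
        simp at this
      let w : Fin (z + 1) → Dual K I := Function.update (Pi.single ⟨1, by omega⟩ φ) 0 w0
      have hw : w ∈ Wsp A := by
        rw [mem_Wsp, ← Finset.add_sum_erase _ _ (Finset.mem_univ (0 : Fin (z + 1))),
          ← Finset.add_sum_erase _ _ (Finset.mem_erase.mpr ⟨hne.symm, Finset.mem_univ _⟩),
          Finset.sum_eq_zero]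
        · simp only [w, Function.update_self]
          rw [Function.update_of_ne hne.symm, Pi.single_eq_same, hw0]
          simp
        · intro ζ hζ
          rw [Finset.mem_erase, Finset.mem_erase] at hζ
          simp only [w]
          rw [Function.update_of_ne hζ.2.1, Pi.single_eq_of_ne hζ.1, map_zero]
      have h5 := hc ⟨0, ⟨w, hw⟩, 0⟩ ⟨1, by omega⟩
      simp only [map_zero, sub_zero, add_zero, w] at h5
      rw [Function.update_of_ne hne.symm, Pi.single_eq_same] at h5
      exact h5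
    refine ⟨hi, ?_⟩
    apply Subtype.ext
    funext ζ
    ext j
    have h5 := hc ⟨j, 0, 0⟩ ζ
    rw [hi] at h5
    simp only [map_zero, LinearMap.zero_apply, zero_sub, add_zero, neg_eq_zero] at h5
    simpa using h5
  · rintro ⟨hi, hw⟩
    rw [Subgroup.mem_center_iff]
    intro y
    have h3 : ⁅x, y⁆ = 1 := by
      rw [comm_t hD, hi, hw]
      ext1
      · rfl
      · rfl
      · funext ζ
        simp
    exact (commutatorElement_eq_one_iff_mul_comm.mp h3).symm

/-- the inclusion of the central component -/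
def inT (A : Tup K I z) (D : CoTup K I z) : Multiplicative (Fin (z + 1) → K) →* G A D where
  toFun t := ⟨0, 0, Multiplicative.toAdd t⟩
  map_one' := rfl
  map_mul' s t := by
    ext1
    · simp
    · simp
    · funext ζ
      simp

theorem card_center {A : Tup K I z} (h2 : (2 : K) ≠ 0) (h0 : Function.Bijective (A 0))
    (hz : 1 ≤ z) {D : CoTup K I z} (hD : CoSkew D) :
    Nat.card (Subgroup.center (G A D)) = Nat.card K ^ (z + 1) := by
  have e : Subgroup.center (G A D) ≃ (Fin (z + 1) → K) :=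
    { toFun := fun x => x.1.t
      invFun := fun t => ⟨⟨0, 0, t⟩, (mem_center h2 h0 hz hD _).mpr ⟨rfl, rfl⟩⟩
      left_inv := by
        rintro ⟨x, hx⟩
        have h := (mem_center h2 h0 hz hD x).mp hx
        apply Subtype.ext
        ext1
        · exact h.1.symm
        · exact h.2.symm
        · rfl
      right_inv := fun _ => rfl }
  rw [Nat.card_congr e, Nat.card_fun, Nat.card_fin]

/-- a skew map of given even rank -/
theorem exists_skew_rank {K I : Type*} [Field K] [AddCommGroup I] [Module K I]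
    [Module.Finite K I] (m : ℕ) (hI : 2 * m ≤ finrank K I) :
    ∃ S : Dual K I →ₗ[K] I, finrank K (LinearMap.range S) = 2 * m ∧
      ∀ φ ψ : Dual K I, φ (S ψ) = - ψ (S φ) := by
  classical
  have hU : finrank K (Submodule.span K
      (Set.range ((finBasis K I) ∘ (Fin.castLE hI : Fin (2 * m) → Fin (finrank K I))))) = 2 * m := by
    rw [finrank_span_eq_card, Fintype.card_fin]
    exact (finBasis K I).linearIndependent.comp _ (Fin.castLE_injective hI)
  set U := Submodule.span K
    (Set.range ((finBasis K I) ∘ (Fin.castLE hI : Fin (2 * m) → Fin (finrank K I))))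
  obtain ⟨J, hJ, hs⟩ := exists_skew_bijective (K := K) (I := U) m hU
  refine ⟨U.subtype ∘ₗ J ∘ₗ U.dualRestrict, ?_, ?_⟩
  · have h1 : LinearMap.range (U.subtype ∘ₗ J ∘ₗ U.dualRestrict) = U := by
      rw [LinearMap.range_comp, LinearMap.range_comp_of_range_eq_top, LinearMap.range_eq_top.mpr hJ.2]
      · simp
      · exact Subspace.dualRestrict_surjective |> LinearMap.range_eq_top.mpr
    rw [h1, hU]
  · intro φ ψ
    exact hs (U.dualRestrict φ) (U.dualRestrict ψ)

theorem comm_mem {A : Tup K I z} (h2 : (2 : K) ≠ 0) (h0 : Function.Bijective (A 0))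
    (hz : 1 ≤ z) {D : CoTup K I z} (hD : CoSkew D) :
    commutator (G A D) ≤ Subgroup.center (G A D) := by
  rw [commutator_def, Subgroup.commutator_le]
  intro x _ y _
  rw [comm_t hD, mem_center h2 h0 hz hD]
  exact ⟨rfl, rfl⟩

/-- two components of an element of `W` -/
theorem exists_W {A : Tup K I z} (h0 : Function.Bijective (A 0)) (ζ : Fin (z + 1))
    (φ : Dual K I) : ∃ w0 : Dual K I, A 0 w0 = - A ζ φ ∧
      (Pi.single 0 w0 + Pi.single ζ φ : Fin (z + 1) → Dual K I) ∈ Wsp A := by
  classical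
  obtain ⟨w0, hw0⟩ := h0.2 (- A ζ φ)
  refine ⟨w0, hw0, ?_⟩
  rw [mem_Wsp]
  simp only [Pi.add_apply, map_add, Finset.sum_add_distrib]
  rw [Finset.sum_eq_single 0, Finset.sum_eq_single ζ, Pi.single_eq_same, Pi.single_eq_same, hw0,
    neg_add_cancel]
  · intro b _ hb
    rw [Pi.single_eq_of_ne hb, map_zero]
  · simp
  · intro b _ hb
    rw [Pi.single_eq_of_ne hb, map_zero]
  · simp

/-- a rigid tuple is not a tuple of multiples of `A 0` -/
theorem not_prop {A : Tup K I z} [Module.Finite K I] (h2 : (2 : K) ≠ 0) {k r : ℕ}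
    (h0 : Function.Bijective (A 0)) (hR : Rigid A k r) (m : ℕ) (hrm : r < 2 * m)
    (hm : 2 * m + r < finrank K I) (c : Fin (z + 1) → K)
    (h : ∀ ζ φ, A ζ φ = c ζ • A 0 φ) : False := by
  obtain ⟨S, hS, hSs⟩ := exists_skew_rank (K := K) (I := I) m (by omega)
  let e := LinearEquiv.ofBijective (A 0) h0
  let Y : Dual K I →ₗ[K] Dual K I := e.symm.toLinearMap ∘ₗ S
  have hY : ∀ φ, A 0 (Y φ) = S φ := fun φ => e.apply_symm_apply (S φ)
  have hself : ∀ φ : Dual K I, φ (S φ) = 0 := by
    intro φ
    have h3 := hSs φ φ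
    have h4 : (2 : K) * φ (S φ) = 0 := by linear_combination h3
    exact (mul_eq_zero.mp h4).resolve_left h2
  have hrY : finrank K (LinearMap.range Y) = 2 * m := by
    rw [LinearMap.range_comp, ← hS]
    exact LinearEquiv.finrank_map_eq e.symm (LinearMap.range S)
  have hker := LinearMap.finrank_range_add_finrank_ker Y
  rw [hrY, Subspace.dual_finrank_eq] at hker
  obtain ⟨a, ha⟩ := hR ⊤ (by rw [finrank_top]; omega) Y (by
    intro φ _ ζ
    rw [h, hY, map_smul, hself, smul_zero])
  rw [Submodule.map_top] at ha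
  by_cases ha0 : a = 0
  · have h7 : Y - a • LinearMap.id = Y := by
      rw [ha0]
      ext φ x
      simp
    rw [h7, hrY] at ha
    omega
  · have hle : LinearMap.ker Y ≤ LinearMap.range (Y - a • LinearMap.id) := by
      intro v hv
      refine ⟨- a⁻¹ • v, ?_⟩
      have hv' : Y v = 0 := hv
      simp only [LinearMap.sub_apply, LinearMap.smul_apply, LinearMap.id_apply, map_smul, hv',
        zero_sub]
      rw [smul_neg, smul_smul, neg_mul, inv_mul_cancel₀ ha0]
      simp
    have := Submodule.finrank_mono hle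
    omega

/-- the commutator subgroup is the centre -/
theorem commutator_eq {p : ℕ} [Fact p.Prime] (hp : p ≠ 2) {I : Type*} [AddCommGroup I]
    [Module (ZMod p) I] [Module.Finite (ZMod p) I] {A : Tup (ZMod p) I z} {k r : ℕ}
    (h0 : Function.Bijective (A 0)) (hz : 1 ≤ z) (hR : Rigid A k r) (m : ℕ) (hrm : r < 2 * m)
    (hm : 2 * m + r < finrank (ZMod p) I) {D : CoTup (ZMod p) I z} (hD : CoSkew D) :
    commutator (G A D) = Subgroup.center (G A D) := by
  classical
  have h2 := NonIso.two_ne hp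
  refine le_antisymm (comm_mem h2 h0 hz hD) ?_
  let T₀ : AddSubgroup (Fin (z + 1) → ZMod p) :=
    { carrier := {t | (⟨0, 0, t⟩ : G A D) ∈ commutator (G A D)}
      add_mem' := by
        intro s t hs ht
        have h := (commutator (G A D)).mul_mem hs ht
        have h3 : (⟨0, 0, s⟩ : G A D) * ⟨0, 0, t⟩ = ⟨0, 0, s + t⟩ :=
          ((inT A D).map_mul (Multiplicative.ofAdd s) (Multiplicative.ofAdd t)).symm
        rw [h3] at h
        exact h
      zero_mem' := (commutator (G A D)).one_mem
      neg_mem' := by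
        intro t ht
        have h := (commutator (G A D)).inv_mem ht
        have h3 : (⟨0, 0, t⟩ : G A D)⁻¹ = ⟨0, 0, -t⟩ :=
          ((inT A D).map_inv (Multiplicative.ofAdd t)).symm
        rw [h3] at h
        exact h }
  let T : Submodule (ZMod p) (Fin (z + 1) → ZMod p) := AddSubgroup.toZModSubmodule p T₀
  have hT : ∀ t, t ∈ T ↔ (⟨0, 0, t⟩ : G A D) ∈ commutator (G A D) := fun t => Iff.rfl
  have htop : T = ⊤ := by
    by_contra hne
    obtain ⟨f, hf, hfT⟩ := Submodule.exists_le_ker_of_lt_top T (lt_top_iff_ne_top.mpr hne)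
    let c : Fin (z + 1) → ZMod p := fun ζ => f (Pi.single ζ 1)
    have hfc : ∀ t : Fin (z + 1) → ZMod p, f t = ∑ ζ, c ζ * t ζ := by
      intro t
      conv_lhs => rw [← Finset.univ_sum_single t]
      rw [map_sum]
      refine Finset.sum_congr rfl fun ζ _ => ?_
      have : (Pi.single ζ (t ζ) : Fin (z + 1) → ZMod p) = t ζ • Pi.single ζ 1 := by
        rw [← Pi.single_smul, smul_eq_mul, mul_one]
      rw [this, map_smul, smul_eq_mul, mul_comm]
    have hW : ∀ w ∈ Wsp A, ∑ ζ, c ζ • w ζ = 0 := by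
      intro w hw
      ext i
      have h3 : ⁅(⟨i, 0, 0⟩ : G A D), (⟨0, ⟨w, hw⟩, 0⟩ : G A D)⁆ ∈ commutator (G A D) :=
        Subgroup.commutator_mem_commutator (Subgroup.mem_top _) (Subgroup.mem_top _)
      rw [comm_t hD] at h3
      have h4 := hfT ((hT _).mpr h3)
      rw [LinearMap.mem_ker, hfc] at h4
      simp only [map_zero, sub_zero, add_zero] at h4
      have h5 : (2 : ZMod p) * ∑ ζ, c ζ * w ζ i = 0 := by
        rw [Finset.mul_sum, ← h4]
        refine Finset.sum_congr rfl fun ζ _ => ?_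
        ring
      have h6 := (mul_eq_zero.mp h5).resolve_left h2
      simpa [LinearMap.sum_apply] using h6
    have hkey : ∀ ζ, ζ ≠ 0 → ∀ φ : Dual (ZMod p) I, ∃ w0 : Dual (ZMod p) I,
        A 0 w0 = - A ζ φ ∧ c 0 • w0 + c ζ • φ = 0 := by
      intro ζ hζ φ
      obtain ⟨w0, hw0, hw⟩ := exists_W h0 ζ φ
      refine ⟨w0, hw0, ?_⟩
      have h3 := hW _ hw
      simp only [Pi.add_apply, smul_add, Finset.sum_add_distrib] at h3
      rw [Finset.sum_eq_single 0, Finset.sum_eq_single ζ, Pi.single_eq_same,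
        Pi.single_eq_same] at h3
      · exact h3
      · intro b _ hb
        rw [Pi.single_eq_of_ne hb, smul_zero]
      · simp
      · intro b _ hb
        rw [Pi.single_eq_of_ne hb, smul_zero]
      · simp
    by_cases hc0 : c 0 = 0
    · apply hf
      ext1 ζ
      ext1
      show f (Pi.single ζ 1) = 0
      show c ζ = 0
      by_cases hζ : ζ = 0
      · rw [hζ, hc0]
      · have hnt : 0 < finrank (ZMod p) (Dual (ZMod p) I) := by
          rw [Subspace.dual_finrank_eq]; omega
        have := Module.nontrivial_of_finrank_pos hnt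
        obtain ⟨φ, hφ⟩ := exists_ne (0 : Dual (ZMod p) I)
        obtain ⟨w0, _, h3⟩ := hkey ζ hζ φ
        rw [hc0, zero_smul, zero_add] at h3
        exact (smul_eq_zero.mp h3).resolve_right hφ
    · refine not_prop h2 h0 hR m hrm hm (fun ζ => (c 0)⁻¹ * c ζ) ?_
      intro ζ φ
      by_cases hζ : ζ = 0
      · rw [hζ, inv_mul_cancel₀ hc0, one_smul]
      · obtain ⟨w0, h3, h4⟩ := hkey ζ hζ φ
        have h5 : w0 = - (((c 0)⁻¹ * c ζ) • φ) := by
          have h6 : (c 0)⁻¹ • (c 0 • w0 + c ζ • φ) = 0 := by rw [h4, smul_zero]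
          rw [smul_add, smul_smul, smul_smul, inv_mul_cancel₀ hc0, one_smul] at h6
          exact eq_neg_of_add_eq_zero_left h6
        rw [h5, map_neg, neg_inj, map_smul] at h3
        exact h3.symm
  intro x hx
  obtain ⟨hi, hw⟩ := (mem_center h2 h0 hz hD x).mp hx
  have h3 : x = ⟨0, 0, x.t⟩ := by
    ext1
    · exact hi
    · exact hw
    · rfl
  rw [h3, ← hT, htop]
  exact Submodule.mem_top

end Special

/-- two special groups of exponent `p` and order `p^(256 m + 16)` -/
theorem exists_special_groups (p : ℕ) [Fact p.Prime] (hp : p ≠ 2) (m : ℕ) (hm : 1 ≤ m) :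
    ∃ (A : Tup (ZMod p) (Fin (16 * m) → ZMod p) 15)
      (D : CoTup (ZMod p) (Fin (16 * m) → ZMod p) 15),
      (∀ D' : CoTup (ZMod p) (Fin (16 * m) → ZMod p) 15, CoSkew D' →
        Nat.card (G A D') = p ^ (256 * m + 16) ∧ (∀ x : G A D', x ^ p = 1) ∧
        commutator (G A D') = Subgroup.center (G A D') ∧
        Nat.card (Subgroup.center (G A D')) = p ^ 16) ∧ CoSkew D ∧
      IsEmpty (G A 0 ≃* G A D) ∧ Nonempty (Sys A D (2 * m)) := by
  have hfin : finrank (ZMod p) (Fin (16 * m) → ZMod p) = 16 * m := by simp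
  obtain ⟨A, hA, h0, hR⟩ := exists_rigid (K := ZMod p) (I := Fin (16 * m) → ZMod p) m hm hfin
  have h2 := NonIso.two_ne hp
  obtain ⟨D, hD, hne, hS⟩ := exists_sys h2 hA h0.1 hR (by rw [hfin]; omega)
  refine ⟨A, D, fun D' hD' => ⟨?_, Special.exponent hp hD', ?_, ?_⟩, hD,
    not_mulEquiv hp (by norm_num) hA h0 hD hne, hS⟩
  · rw [card_G h0.2 D', hfin, Nat.card_zmod]
    congr 1
    omega
  · exact Special.commutator_eq hp h0 (by norm_num) hR (3 * m) (by omega)
      (by rw [hfin]; omega) hD'
  · rw [Special.card_center h2 h0 (by norm_num) hD', Nat.card_zmod]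

end Pool.Agent.SRGWL
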