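import Pool.Agent.SRGWL.SosF
import Pool.Agent.SRGWL.Special

/-!
# Graphs moved by the translations are not distinguished
-/

namespace Pool.Agent.SRGWL.Sos

open Module Finset MvPolynomial

variable {p : ℕ} [Fact p.Prime] {I : Type} [AddCommGroup I] [Module (ZMod p) I]
  [Module.Finite (ZMod p) I] [Finite I] {z : ℕ} {A : Tup (ZMod p) I z} {D : CoTup (ZMod p) I z}
  {V V' : Type} {d : ℕ}

namespace Moves

variable (N : Moves A V V' d)

/-- the adjacency lemma which is needed -/
def Resp (D : CoTup (ZMod p) I z) (Γ : SimpleGraph V) (Γ' : SimpleGraph V') : Prop :=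
  ∀ (C : WLAux.CC A) (W : Submodule (ZMod p) I),
    (∀ u ∈ W, ∀ v ∈ W, ∀ ζ, C.1 ζ u v - C.1 ζ v u = D ζ u v) →
    ∀ u u', N.sup u ≤ W → N.sup u' ≤ W → (Γ.Adj u u' ↔ Γ'.Adj (N.φ C u) (N.φ C u'))

theorem sup_symm (C : WLAux.CC A) (v : V') : N.sup ((N.φ C).symm v) = N.sup' v := by
  rw [← N.sup_φ C, Equiv.apply_symm_apply]

/-- the bijection of tuples given by a choice of translations -/
def tE {J : Type} (c : (J → Submodule (ZMod p) I) → WLAux.CC A) : (J → V) ≃ (J → V') where
  toFun s := fun a => N.φ (c fun b => N.sup (s b)) (s a)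
  invFun s := fun a => (N.φ (c fun b => N.sup' (s b))).symm (s a)
  left_inv s := by
    funext a
    simp only [N.sup_φ, Equiv.symm_apply_apply]
  right_inv s := by
    funext a
    simp only [N.sup_symm, Equiv.apply_symm_apply]

/-- the bijection of vertices given by a choice of translations -/
def vE (c : Submodule (ZMod p) I → WLAux.CC A) : V ≃ V' where
  toFun v := N.φ (c (N.sup v)) v
  invFun v := (N.φ (c (N.sup' v))).symm v
  left_inv v := by
    simp only [N.sup_φ, Equiv.symm_apply_apply]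
  right_inv v := by
    simp only [N.sup_symm, Equiv.apply_symm_apply]

theorem finrank_iSup_le {m : ℕ} (f : Fin m → Submodule (ZMod p) I) {d : ℕ}
    (hf : ∀ a, finrank (ZMod p) (f a) ≤ d) : finrank (ZMod p) (⨆ a, f a : Submodule (ZMod p) I) ≤
      d * m := by
  have key : ∀ s : Finset (Fin m), finrank (ZMod p) (s.sup f : Submodule (ZMod p) I) ≤ d * s.card := by
    classical
    intro s
    induction s using Finset.induction_on with
    | empty => simp
    | insert a s ha ih =>
      rw [Finset.sup_insert, Finset.card_insert_of_notMem ha]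
      have h1 := Submodule.finrank_add_le_finrank_add_finrank (f a) (s.sup f)
      have h2 := hf a
      calc _ ≤ d + d * s.card := by omega
        _ = d * (s.card + 1) := by ring
  have h := key univ
  rw [Finset.card_univ, Fintype.card_fin, Finset.sup_univ_eq_iSup] at h
  exact h

variable [Fintype V] [Fintype V']

theorem col_eq {Γ : SimpleGraph V} {Γ' : SimpleGraph V'} (hN : N.Resp D Γ Γ') {k : ℕ}
    (S : Sys A D k) {m : ℕ} (hm : d * m + d ≤ k) (r : ℕ) :
    ∀ (s : Fin m → V) (U : Submodule (ZMod p) I), (∀ a, N.sup (s a) ≤ U) →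
      ∀ C : WLAux.CC A, C.1 ∈ S.sol U →
        col Γ m r s = col Γ' m r (fun a => N.φ C (s a)) := by
  classical
  induction r with
  | zero =>
    intro s U hs C hC
    have hloc := S.local_eq U C.1 hC
    refine Prod.ext ?_ ?_
    · funext a b
      exact propext (N.φ C).injective.eq_iff.symm
    · funext a b
      exact propext (hN C U hloc _ _ (hs a) (hs b))
  | succ r ih =>
    intro s U hs C hC
    obtain ⟨U0, hU0⟩ : ∃ U0 : Submodule (ZMod p) I, U0 = ⨆ a, N.sup (s a) := ⟨_, rfl⟩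
    have hle : U0 ≤ U := by
      rw [hU0]
      exact iSup_le hs
    have hsU0 : ∀ a, N.sup (s a) ≤ U0 := by
      intro a
      rw [hU0]
      exact le_iSup (fun a => N.sup (s a)) a
    have hC0 : C.1 ∈ S.sol U0 := S.mono _ _ hle hC
    have hdim : finrank (ZMod p) U0 ≤ d * m := by
      rw [hU0]
      exact finrank_iSup_le _ (fun a => N.dim (s a))
    have hext : ∀ W : Submodule (ZMod p) I, ∃ C' : WLAux.CC A, finrank (ZMod p) W ≤ d →
        (C'.1 ∈ S.sol (U0 ⊔ W) ∧ ∀ u ∈ U0, ∀ ζ, C'.1 ζ u = C.1 ζ u) := by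
      intro W
      by_cases hW : finrank (ZMod p) W ≤ d
      · have h1 := Submodule.finrank_add_le_finrank_add_finrank U0 W
        obtain ⟨C', h1, h2⟩ := S.ext U0 (U0 ⊔ W) le_sup_left (by omega) C.1 hC0
        exact ⟨⟨C', S.isC _ _ h1⟩, fun _ => ⟨h1, h2⟩⟩
      · exact ⟨C, fun h => absurd h hW⟩
    choose c hc using hext
    refine Prod.ext (ih s U hs C hC) ?_
    refine WLAux.map_equiv (N.vE c) _ _ fun v => ?_
    funext a
    obtain ⟨hc1, hc2⟩ := hc (N.sup v) (N.dim v)
    have hin : ∀ b, N.sup (Function.update s a v b) ≤ U0 ⊔ N.sup v := by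
      intro b
      by_cases hb : b = a
      · rw [hb, Function.update_self]
        exact le_sup_right
      · rw [Function.update_of_ne hb]
        exact (hsU0 b).trans le_sup_left
    have h2 := ih (Function.update s a v) _ hin (c (N.sup v)) hc1
    rw [h2]
    congr 1
    funext b
    by_cases hb : b = a
    · rw [hb, Function.update_self, Function.update_self]
      rfl
    · rw [Function.update_of_ne hb, Function.update_of_ne hb]
      exact N.congr _ _ _ (fun u hu ζ => hc2 u (hsU0 b hu) ζ)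

theorem wlEquiv {Γ : SimpleGraph V} {Γ' : SimpleGraph V'} (hN : N.Resp D Γ Γ') {k : ℕ}
    (S : Sys A D k) {m : ℕ} (hm : d * m + d ≤ k) : WLEquiv m Γ Γ' := by
  intro r
  obtain ⟨C0, hC0⟩ := S.base
  have hex : ∀ f : Fin m → Submodule (ZMod p) I, ∃ C : WLAux.CC A,
      (∀ a, finrank (ZMod p) (f a) ≤ d) → C.1 ∈ S.sol (⨆ a, f a) := by
    intro f
    by_cases hf : ∀ a, finrank (ZMod p) (f a) ≤ d
    · obtain ⟨C', h1, -⟩ := S.ext ⊥ (⨆ a, f a) bot_le
        ((finrank_iSup_le f hf).trans (by omega)) C0 hC0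
      exact ⟨⟨C', S.isC _ _ h1⟩, fun _ => h1⟩
    · exact ⟨⟨C0, S.isC _ _ hC0⟩, fun h => absurd h hf⟩
  choose c hc using hex
  refine WLAux.map_equiv (N.tE c) _ _ fun s => ?_
  exact N.col_eq hN S hm r s _ (fun a => le_iSup (fun b => N.sup (s b)) a) _
    (hc _ (fun a => N.dim (s a)))

end Moves

theorem PC.mono {F : Type} [Field F] {σ : Type} {k : ℕ} {B B' : Set (MvPolynomial σ F)}
    (h : B ⊆ B') {q : MvPolynomial σ F} (hq : PC k B q) : PC k B' q := by
  induction hq with
  | ax q hq hk => exact PC.ax q (h hq) hk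
  | add q r _ _ ihq ihr => exact PC.add q r ihq ihr
  | smul c q _ ih => exact PC.smul c q ih
  | mul x q _ hk ih => exact PC.mul x q ih hk

/-- the pairs of pairs of vertices which are not partial isomorphisms -/
def badSet (Γ : SimpleGraph V) (Γ' : SimpleGraph V') : Set (Finset (V × V')) :=
  {s | ∃ u u' v v', ¬ ((u = u' ↔ v = v') ∧ (Γ.Adj u u' ↔ Γ'.Adj v v')) ∧
    (s : Set (V × V')) = {(u, v), (u', v')}}

theorem isoAx_sub (F : Type) [Field F] [Fintype V] [Fintype V'] (Γ : SimpleGraph V)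
    (Γ' : SimpleGraph V') : isoAx F Γ Γ' ⊆ {q | Ax F (badSet Γ Γ') q} := by
  classical
  rintro a (⟨u, rfl⟩ | ⟨v, rfl⟩ | ⟨x, rfl⟩ | ⟨u, u', v, v', h, rfl⟩)
  · exact Ax.row u
  · exact Ax.col v
  · exact Ax.idem x
  · have hne : (u, v) ≠ (u', v') := by
      intro heq
      apply h
      rw [Prod.mk.injEq] at heq
      obtain ⟨rfl, rfl⟩ := heq
      simp
    have h1 : (X (u, v) * X (u', v') : MvPolynomial (V × V') F) =
        ∏ x ∈ ({(u, v), (u', v')} : Finset (V × V')), X x := by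
      rw [Finset.prod_pair hne]
    rw [Set.mem_setOf_eq, h1]
    exact Ax.bad _ ⟨u, u', v, v', h, by simp⟩

/-- **Graphs moved by the translations are not distinguished.** -/
theorem indist_of_moves [Fintype V] [Fintype V'] (N : Moves A V V' d) {Γ : SimpleGraph V}
    {Γ' : SimpleGraph V'} (hN : N.Resp D Γ Γ') {r : ℕ} (h2 : (2 : ZMod p) ≠ 0) (hD : CoSkew D)
    (K : ℕ) (hbase : Good A D r ⊥ 0)
    (hext : ∀ U U' : Submodule (ZMod p) I, U ≤ U' → finrank (ZMod p) U' ≤ K →
      ∀ C, Good A D r U C → ∃ C', Good A D r U' C' ∧ ∀ u ∈ U, ∀ ζ, C' ζ u = C ζ u)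
    {k : ℕ} (hk : 3 * (d * k) + d ≤ K) : Indist p k Γ Γ' := by
  have hB : (N.lmap h2 K hbase hext).BadFor (badSet Γ Γ') := by
    apply N.badFor h2 hD K hbase hext
    rintro s ⟨u, u', v, v', h, hs⟩ C W hloc hle hP
    have hu : (u, v) ∈ s := by
      rw [← Finset.mem_coe, hs]
      simp
    have hu' : (u', v') ∈ s := by
      rw [← Finset.mem_coe, hs]
      simp
    have e1 : N.φ C u = v := hP _ hu
    have e2 : N.φ C u' = v' := hP _ hu'
    apply h
    have h3 := hN C W hloc u u' (hle _ hu) (hle _ hu')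
    rw [e1, e2] at h3
    refine ⟨?_, h3⟩
    rw [← e1, ← e2]
    exact (N.φ C).injective.eq_iff.symm
  refine ⟨?_, ?_, ?_⟩
  · exact N.wlEquiv hN (k := K) {
      sol := fun U => {C | Good A D r U C}
      isC := fun U C hC => hC.1
      base := ⟨0, hbase⟩
      mono := fun U U' hUU' C hC => good_mono hUU' hC
      ext := fun U U' hUU' hU' C hC => hext U U' hUU' hU' C hC
      local_eq := fun U C hC u hu v hv ζ => good_local h2 hD hC hu hv ζ } (by nlinarith)
  · refine ⟨(N.lmap h2 K hbase hext).PE, ?_⟩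
    have h := (N.lmap h2 K hbase hext).isPseudoExp hB (k := k) hk
    exact ⟨h.one, h.sq, fun a ha r hr => h.ax a (isoAx_sub ℝ Γ Γ' ha) r hr⟩
  · intro F _ hp hPC
    exact (N.lmap h2 K hbase hext).not_PC_field F hp hB (k := k) hk
      (hPC.mono (isoAx_sub F Γ Γ'))

/-- two special groups of exponent `p` and order `p^(256 m + 16)`, with the local solutions -/
theorem exists_special_groups2 (p : ℕ) [Fact p.Prime] (hp : p ≠ 2) (m : ℕ) (hm : 1 ≤ m) :
    ∃ (A : Tup (ZMod p) (Fin (16 * m) → ZMod p) 15)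
      (D : CoTup (ZMod p) (Fin (16 * m) → ZMod p) 15) (r : ℕ),
      (∀ D' : CoTup (ZMod p) (Fin (16 * m) → ZMod p) 15, CoSkew D' →
        Nat.card (G A D') = p ^ (256 * m + 16) ∧ (∀ x : G A D', x ^ p = 1) ∧
        commutator (G A D') = Subgroup.center (G A D') ∧
        Nat.card (Subgroup.center (G A D')) = p ^ 16) ∧ CoSkew D ∧
      IsEmpty (G A 0 ≃* G A D) ∧ Good A D r ⊥ 0 ∧
      ∀ U U' : Submodule (ZMod p) (Fin (16 * m) → ZMod p), U ≤ U' →
        finrank (ZMod p) U' ≤ 2 * m → ∀ C, Good A D r U C →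
          ∃ C', Good A D r U' C' ∧ ∀ u ∈ U, ∀ ζ, C' ζ u = C ζ u := by
  have hfin : finrank (ZMod p) (Fin (16 * m) → ZMod p) = 16 * m := by simp
  obtain ⟨A, hA, h0, hR⟩ := exists_rigid (K := ZMod p) (I := Fin (16 * m) → ZMod p) m hm hfin
  have h2 := NonIso.two_ne hp
  obtain ⟨D, hD, hne, hbase⟩ := exists_D h2 hA h0.1 hR (by rw [hfin]; omega)
  refine ⟨A, D, _, fun D' hD' => ⟨?_, Special.exponent hp hD', ?_, ?_⟩, hD,
    not_mulEquiv hp (by norm_num) hA h0 hD hne, hbase, fun U U' hUU' hU' C hC =>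
      good_ext h2 hA h0.1 hR (by rw [hfin]; omega) hUU' hU' hC⟩
  · rw [card_G h0.2 D', hfin, Nat.card_zmod]
    congr 1
    omega
  · exact Special.commutator_eq hp h0 (by norm_num) hR (3 * m) (by omega)
      (by rw [hfin]; omega) hD'
  · rw [Special.card_center h2 h0 (by norm_num) hD', Nat.card_zmod]

end Pool.Agent.SRGWL.Sos
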