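import Pool.Agent.SRGWL.Defs

/-!
# Duplicator's strategy: local solutions give Weisfeiler-Leman equivalence

`S : Sys A D k` is a system of local solutions. `T C := G.trans C (S.isC ..) : G A 0 → G A D`,
`(i,w,t) ↦ (i, w + C i, t)`.

Paper proof.
(a) If `C ∈ S.sol U`, `x, y : G A 0` and `x.i, y.i ∈ U` then `T C (x * y) = T C x * T C y`
   (the `t`-components: `w' ζ i + C ζ j i - w ζ j - C ζ i j + D ζ i j` against `w' ζ i - w ζ j`, and
   `C ζ i j - C ζ j i = D ζ i j` on `U`). `T C` is injective. So for vertices `u, v` of `lsGraph (G A 0)`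
   with all four `i`-components in `U`: `T² C u = T² C v ↔ u = v` and `Adj (T² C u) (T² C v) ↔ Adj u v`,
   where `T² C (x,y) = (T C x, T C y)`. (For the third alternative of adjacency use (a) and injectivity.)
(b) Claim: for all `r`, all `s : Fin m → G A 0 × G A 0`, all `U` which contain the `i`-components of all
   the entries (`U` may be the span, dimension `≤ 2m`) and all `C ∈ S.sol U`:
   `col (lsGraph (G A 0)) m r s = col (lsGraph (G A D)) m r (T² C ∘ s)`. Induction on `r`, for all `s`
   together. `r = 0`: (a). `r+1`: the first components are equal by induction. For the multisets we need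
   a bijection `f` of the vertices with
   `col (lsGraph (G A 0)) m r (update s j v) = col (lsGraph (G A D)) m r (update (T² C ∘ s) j (f v))` for all
   `j, v` (then `Multiset.map_congr`/`Finset.univ.val.map` along the equivalence). For every pair `(i, i')`
   of elements of `I` choose (axiom `ext`; `dim (U₀ ⊔ span {i,i'}) ≤ 2m+2 ≤ k` where `U₀ ≤ U` is the span of
   the `i`-components of `s`; first restrict `C` to `U₀` with `mono`) an element
   `C' (i,i') ∈ S.sol (U₀ ⊔ span {i,i'})` with `C' = C` on `U₀`, and put `f v = T² (C' (v.1.i, v.2.i)) v`.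
   `f` is bijective: it does not change the two `i`-components, and on the vertices with given
   `i`-components it is a translation of the `w`-components. The `i`-components of `update s j v` lie in
   `U₀ ⊔ span {i,i'}` and `T² C' ∘ (update s j v) = update (T² C ∘ s) j (f v)` because `C' = C` on `U₀`.
   Apply the induction hypothesis.
(c) Same for the multiset of the colours of all tuples `s`: for every family `ι : Fin m → I × I` choose
   `C_ι ∈ S.sol (span of ι)` (from `base` and `ext`, dimension `≤ 2m ≤ k`) and use the bijection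
   `s ↦ T² C_{ι(s)} ∘ s` of the `m`-tuples, `ι(s)` = the `i`-components.
(d) Group version (`wlEquivG_of_sys`): the same with elements instead of pairs, initial colour = the set of
   all words that vanish on the tuple; `T C` is an injective homomorphism on the subgroup
   `{x | x.i ∈ U}`, so words that vanish correspond.
-/

namespace Pool.Agent.SRGWL

open Module

variable {K I : Type*} [Field K] [AddCommGroup I] [Module K I] {z : ℕ}

namespace WLAux

variable {A : Tup K I z} {D D' : CoTup K I z}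

theorem trans_i (C : CoTup K I z) (hC : IsC A C) (x : G A D) :
    (G.trans (D' := D') C hC x).i = x.i := rfl

/-- The translation is a bijection. -/
def transE (D D' : CoTup K I z) (C : CoTup K I z) (hC : IsC A C) : G A D ≃ G A D' where
  toFun x := G.trans C hC x
  invFun y := ⟨y.i, y.w - ⟨fun ζ => C ζ y.i, hC y.i⟩, y.t⟩
  left_inv x := by
    ext1
    · rfl
    · exact add_sub_cancel_right x.w ⟨fun ζ => C ζ x.i, hC x.i⟩
    · rfl
  right_inv y := by
    ext1
    · rfl
    · exact sub_add_cancel y.w ⟨fun ζ => C ζ y.i, hC y.i⟩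
    · rfl

theorem transE_apply (C : CoTup K I z) (hC : IsC A C) (x : G A D) :
    transE D D' C hC x = G.trans C hC x := rfl

theorem transE_i (C : CoTup K I z) (hC : IsC A C) (x : G A D) :
    (transE D D' C hC x).i = x.i := rfl

theorem transE_symm_i (C : CoTup K I z) (hC : IsC A C) (y : G A D') :
    ((transE D D' C hC).symm y).i = y.i := rfl

theorem trans_mul {C : CoTup K I z} (hC : IsC A C) {U : Submodule K I}
    (hloc : ∀ u ∈ U, ∀ v ∈ U, ∀ ζ, C ζ u v - C ζ v u = D ζ u v) (x y : G A 0) (hx : x.i ∈ U)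
    (hy : y.i ∈ U) :
    G.trans (D' := D) C hC (x * y) = G.trans C hC x * G.trans C hC y := by
  ext1
  · rfl
  · apply Subtype.ext
    funext ζ
    show ((x.w : Fin (z + 1) → Dual K I) + (y.w : Fin (z + 1) → Dual K I)) ζ + C ζ (x.i + y.i) =
      ((x.w : Fin (z + 1) → Dual K I) ζ + C ζ x.i) + ((y.w : Fin (z + 1) → Dual K I) ζ + C ζ y.i)
    rw [map_add, Pi.add_apply]
    abel
  · funext ζ
    have h := hloc x.i hx y.i hy ζ
    show x.t ζ + y.t ζ + (y.w : Fin (z + 1) → Dual K I) ζ x.i
      - (x.w : Fin (z + 1) → Dual K I) ζ y.i + (0 : CoTup K I z) ζ x.i y.i =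
      x.t ζ + y.t ζ + ((y.w : Fin (z + 1) → Dual K I) ζ + C ζ y.i) x.i
        - ((x.w : Fin (z + 1) → Dual K I) ζ + C ζ x.i) y.i + D ζ x.i y.i
    simp only [Pi.zero_apply, LinearMap.zero_apply, LinearMap.add_apply]
    linear_combination h

/-- Tuples of linear maps `I → Wsp A`. -/
abbrev CC (A : Tup K I z) : Type _ := {C : CoTup K I z // IsC A C}

/-- The translation of pairs. -/
def T2 (D : CoTup K I z) (C : CC A) (v : G A 0 × G A 0) : G A D × G A D :=
  (G.trans C.1 C.2 v.1, G.trans C.1 C.2 v.2)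

/-- The `I`-components of a pair. -/
def cp {D : CoTup K I z} (v : G A D × G A D) : I × I := (v.1.i, v.2.i)

theorem cp_T2 (C : CC A) (v : G A 0 × G A 0) : cp (T2 D C v) = cp v := rfl

/-- The bijection of tuples of pairs given by a choice of translations. -/
def tupE {J : Type*} (D : CoTup K I z) (c : (J → I × I) → CC A) :
    (J → G A 0 × G A 0) ≃ (J → G A D × G A D) where
  toFun s := fun a => T2 D (c fun b => cp (s b)) (s a)
  invFun s := fun a =>
    ((transE 0 D (c fun b => cp (s b)).1 (c fun b => cp (s b)).2).symm (s a).1,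
      (transE 0 D (c fun b => cp (s b)).1 (c fun b => cp (s b)).2).symm (s a).2)
  left_inv s := by
    funext a
    refine Prod.ext ?_ ?_
    · exact (transE 0 D (c fun b => cp (s b)).1 (c fun b => cp (s b)).2).symm_apply_apply (s a).1
    · exact (transE 0 D (c fun b => cp (s b)).1 (c fun b => cp (s b)).2).symm_apply_apply (s a).2
  right_inv s := by
    funext a
    refine Prod.ext ?_ ?_
    · exact (transE 0 D (c fun b => cp (s b)).1 (c fun b => cp (s b)).2).apply_symm_apply (s a).1
    · exact (transE 0 D (c fun b => cp (s b)).1 (c fun b => cp (s b)).2).apply_symm_apply (s a).2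

theorem tupE_apply {J : Type*} (c : (J → I × I) → CC A) (s : J → G A 0 × G A 0) (a : J) :
    tupE D c s a = T2 D (c fun b => cp (s b)) (s a) := rfl

/-- The bijection of pairs given by a choice of translations. -/
def pairE (D : CoTup K I z) (c : I × I → CC A) : (G A 0 × G A 0) ≃ (G A D × G A D) where
  toFun v := T2 D (c (cp v)) v
  invFun v := ((transE 0 D (c (cp v)).1 (c (cp v)).2).symm v.1,
    (transE 0 D (c (cp v)).1 (c (cp v)).2).symm v.2)
  left_inv v := by
    refine Prod.ext ?_ ?_
    · exact (transE 0 D (c (cp v)).1 (c (cp v)).2).symm_apply_apply v.1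
    · exact (transE 0 D (c (cp v)).1 (c (cp v)).2).symm_apply_apply v.2
  right_inv v := by
    refine Prod.ext ?_ ?_
    · exact (transE 0 D (c (cp v)).1 (c (cp v)).2).apply_symm_apply v.1
    · exact (transE 0 D (c (cp v)).1 (c (cp v)).2).apply_symm_apply v.2

theorem pairE_apply (c : I × I → CC A) (v : G A 0 × G A 0) : pairE D c v = T2 D (c (cp v)) v := rfl

theorem map_equiv {α β γ : Type*} [Fintype α] [Fintype β] (e : α ≃ β) (f : α → γ) (g : β → γ)
    (h : ∀ a, f a = g (e a)) :
    (Finset.univ : Finset α).val.map f = (Finset.univ : Finset β).val.map g := by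
  have h1 : (Finset.univ : Finset β) = (Finset.univ : Finset α).map e.toEmbedding :=
    (Finset.map_univ_equiv e).symm
  rw [h1, Finset.map_val, Multiset.map_map]
  exact Multiset.map_congr rfl fun a _ => h a

theorem trans_injective (C : CC A) : Function.Injective (G.trans (A := A) (D := 0) (D' := D) C.1 C.2) :=
  (transE 0 D C.1 C.2).injective

theorem T2_injective (C : CC A) : Function.Injective (T2 D C) := by
  intro u v h
  have h1 := congrArg Prod.fst h
  have h2 := congrArg Prod.snd h
  exact Prod.ext (trans_injective C h1) (trans_injective C h2)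

/-- Both components lie in `U`. -/
def InU {D : CoTup K I z} (U : Submodule K I) (v : G A D × G A D) : Prop := v.1.i ∈ U ∧ v.2.i ∈ U

theorem adj_iff {C : CC A} {U : Submodule K I}
    (hloc : ∀ u ∈ U, ∀ v ∈ U, ∀ ζ, C.1 ζ u v - C.1 ζ v u = D ζ u v) {u v : G A 0 × G A 0}
    (hu : InU U u) (hv : InU U v) :
    (lsGraph (G A 0)).Adj u v ↔ (lsGraph (G A D)).Adj (T2 D C u) (T2 D C v) := by
  have hi := trans_injective (D := D) C
  have e1 : T2 D C u ≠ T2 D C v ↔ u ≠ v := (T2_injective C).ne_iff
  have e2 : (T2 D C u).1 = (T2 D C v).1 ↔ u.1 = v.1 := hi.eq_iff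
  have e3 : (T2 D C u).2 = (T2 D C v).2 ↔ u.2 = v.2 := hi.eq_iff
  have e4 : (T2 D C u).1 * (T2 D C u).2 = (T2 D C v).1 * (T2 D C v).2 ↔
      u.1 * u.2 = v.1 * v.2 := by
    have h1 := trans_mul (D := D) C.2 hloc u.1 u.2 hu.1 hu.2
    have h2 := trans_mul (D := D) C.2 hloc v.1 v.2 hv.1 hv.2
    show G.trans C.1 C.2 u.1 * G.trans C.1 C.2 u.2 = G.trans C.1 C.2 v.1 * G.trans C.1 C.2 v.2 ↔ _
    rw [← h1, ← h2]
    exact hi.eq_iff
  show (u ≠ v ∧ (u.1 = v.1 ∨ u.2 = v.2 ∨ u.1 * u.2 = v.1 * v.2)) ↔ (T2 D C u ≠ T2 D C v ∧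
    ((T2 D C u).1 = (T2 D C v).1 ∨ (T2 D C u).2 = (T2 D C v).2 ∨
      (T2 D C u).1 * (T2 D C u).2 = (T2 D C v).1 * (T2 D C v).2))
  rw [e1, e2, e3, e4]

theorem T2_congr {C C' : CC A} {U : Submodule K I} (h : ∀ u ∈ U, ∀ ζ, C'.1 ζ u = C.1 ζ u)
    {v : G A 0 × G A 0} (hv : InU U v) : T2 D C' v = T2 D C v := by
  have key : ∀ x : G A 0, x.i ∈ U → G.trans (D' := D) C'.1 C'.2 x = G.trans C.1 C.2 x := by
    intro x hx
    ext1
    · rfl
    · apply Subtype.ext
      funext ζ
      show (x.w : Fin (z + 1) → Dual K I) ζ + C'.1 ζ x.i = (x.w : Fin (z + 1) → Dual K I) ζ + C.1 ζ x.i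
      rw [h _ hx]
    · rfl
  exact Prod.ext (key _ hv.1) (key _ hv.2)

/-- The entries of a tuple of pairs. -/
def ent {m : ℕ} (s : Fin m → I × I) : Fin m ⊕ Fin m → I := Sum.elim (fun a => (s a).1) fun a => (s a).2

/-- The span of the entries. -/
def sp (K : Type*) {I : Type*} [Field K] [AddCommGroup I] [Module K I] {m : ℕ}
    (s : Fin m → I × I) : Submodule K I := Submodule.span K (Set.range (ent s))

/-- The span of the entries and of one more pair. -/
def sp' (K : Type*) {I : Type*} [Field K] [AddCommGroup I] [Module K I] {m : ℕ}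
    (s : Fin m → I × I) (p : I × I) : Submodule K I :=
  Submodule.span K (Set.range (Sum.elim (ent s) (Sum.elim (fun _ : Unit => p.1) fun _ : Unit => p.2)))

theorem mem_sp {m : ℕ} (s : Fin m → I × I) (a : Fin m) : (s a).1 ∈ sp K s ∧ (s a).2 ∈ sp K s :=
  ⟨Submodule.subset_span ⟨Sum.inl a, rfl⟩, Submodule.subset_span ⟨Sum.inr a, rfl⟩⟩

theorem mem_sp' {m : ℕ} (s : Fin m → I × I) (p : I × I) : p.1 ∈ sp' K s p ∧ p.2 ∈ sp' K s p :=
  ⟨Submodule.subset_span ⟨Sum.inr (Sum.inl ()), rfl⟩,
    Submodule.subset_span ⟨Sum.inr (Sum.inr ()), rfl⟩⟩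

theorem sp_le {m : ℕ} (s : Fin m → I × I) (p : I × I) : sp K s ≤ sp' K s p := by
  apply Submodule.span_mono
  rintro _ ⟨a, rfl⟩
  exact ⟨Sum.inl a, rfl⟩

theorem sp_le_of {m : ℕ} {s : Fin m → I × I} {U : Submodule K I}
    (h : ∀ a, (s a).1 ∈ U ∧ (s a).2 ∈ U) : sp K s ≤ U := by
  apply Submodule.span_le.2
  rintro _ ⟨a, rfl⟩
  rcases a with a | a
  · exact (h a).1
  · exact (h a).2

theorem finrank_sp {m : ℕ} (s : Fin m → I × I) : finrank K (sp K s) ≤ 2 * m := by
  have h := finrank_range_le_card (R := K) (ent s)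
  rw [Fintype.card_sum, Fintype.card_fin] at h
  have h2 : finrank K (sp K s) ≤ m + m := h
  omega

theorem finrank_sp' {m : ℕ} (s : Fin m → I × I) (p : I × I) :
    finrank K (sp' K s p) ≤ 2 * m + 2 := by
  have h := finrank_range_le_card (R := K)
    (Sum.elim (ent s) (Sum.elim (fun _ : Unit => p.1) fun _ : Unit => p.2))
  rw [Fintype.card_sum, Fintype.card_sum, Fintype.card_sum, Fintype.card_fin, Fintype.card_unit] at h
  have h2 : finrank K (sp' K s p) ≤ m + m + (1 + 1) := h
  omega

variable [Finite K] [Finite I]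

theorem col_eq {k : ℕ} (S : Sys A D k) {m : ℕ} (hm : 2 * m + 2 ≤ k) (r : ℕ) :
    ∀ (s : Fin m → G A 0 × G A 0) (U : Submodule K I), (∀ a, InU U (s a)) →
      ∀ C : CC A, C.1 ∈ S.sol U →
        col (lsGraph (G A 0)) m r s = col (lsGraph (G A D)) m r (fun a => T2 D C (s a)) := by
  classical
  induction r with
  | zero =>
    intro s U hs C hC
    have hloc := S.local_eq U C.1 hC
    refine Prod.ext ?_ ?_
    · funext a b
      exact propext (T2_injective (D := D) C).eq_iff.symm
    · funext a b
      exact propext (adj_iff hloc (hs a) (hs b))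
  | succ r ih =>
    intro s U hs C hC
    set ι : Fin m → I × I := fun a => cp (s a) with hι
    have hU0 : sp K ι ≤ U := sp_le_of fun a => hs a
    have hC0 : C.1 ∈ S.sol (sp K ι) := S.mono _ _ hU0 hC
    have hext : ∀ p : I × I, ∃ C' : CC A, C'.1 ∈ S.sol (sp' K ι p) ∧
        ∀ u ∈ sp K ι, ∀ ζ, C'.1 ζ u = C.1 ζ u := by
      intro p
      obtain ⟨C', h1, h2⟩ := S.ext (sp K ι) (sp' K ι p) (sp_le ι p)
        ((finrank_sp' ι p).trans hm) C.1 hC0
      exact ⟨⟨C', S.isC _ _ h1⟩, h1, h2⟩
    choose c hc1 hc2 using hext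
    refine Prod.ext (ih s U hs C hC) ?_
    refine map_equiv (pairE D c) _ _ fun v => ?_
    funext a
    have hin : ∀ b, InU (sp' K ι (cp v)) (Function.update s a v b) := by
      intro b
      by_cases hb : b = a
      · rw [hb, Function.update_self]
        exact mem_sp' ι (cp v)
      · rw [Function.update_of_ne hb]
        have h1 := mem_sp (K := K) ι b
        exact ⟨sp_le ι (cp v) h1.1, sp_le ι (cp v) h1.2⟩
    have h2 := ih (Function.update s a v) _ hin (c (cp v)) (hc1 (cp v))
    rw [h2]
    congr 1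
    funext b
    by_cases hb : b = a
    · rw [hb, Function.update_self, Function.update_self]
      rfl
    · rw [Function.update_of_ne hb, Function.update_of_ne hb]
      exact T2_congr (hc2 (cp v)) (mem_sp (K := K) ι b)

end WLAux

open WLAux

theorem wlEquiv_of_sys [Finite K] [Finite I] [Module.Finite K I] {A : Tup K I z} {D : CoTup K I z}
    {k : ℕ} (S : Sys A D k) {m : ℕ} (hm : 2 * m + 2 ≤ k) :
    WLEquiv m (lsGraph (G A 0)) (lsGraph (G A D)) := by
  intro r
  obtain ⟨C0, hC0⟩ := S.base
  have hex : ∀ ι : Fin m → I × I, ∃ C : CC A, C.1 ∈ S.sol (sp K ι) := by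
    intro ι
    obtain ⟨C', h1, -⟩ := S.ext ⊥ (sp K ι) bot_le ((finrank_sp ι).trans (by omega)) C0 hC0
    exact ⟨⟨C', S.isC _ _ h1⟩, h1⟩
  choose c hc using hex
  refine map_equiv (tupE D c) _ _ fun s => ?_
  exact col_eq S hm r s _ (fun a => mem_sp (K := K) (fun b => cp (s b)) a) _ (hc _)

end Pool.Agent.SRGWL
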