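import Pool.Agent.SRGWL.SosF
import Pool.Agent.STS.NetGame

/-!
# The translations of pairs as `Moves`, and the adjacency in Latin square graphs and net graphs
-/

namespace Pool.Agent.SRGWL.Sos

open Module WLAux Pool.Agent.STS

variable {p : ℕ} [Fact p.Prime] {I : Type} [AddCommGroup I] [Module (ZMod p) I] {z : ℕ}

/-- The translations act on the pairs of group elements; the support of a pair is the span of its two
`I`-components. -/
def pairMoves (A : Tup (ZMod p) I z) (D : CoTup (ZMod p) I z) [Module.Finite (ZMod p) I] :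
    Moves A (G A 0 × G A 0) (G A D × G A D) 2 where
  sup v := Submodule.span (ZMod p) {v.1.i, v.2.i}
  sup' v := Submodule.span (ZMod p) {v.1.i, v.2.i}
  dim v := by
    classical
    have h := finrank_span_finset_le_card (R := ZMod p) ({v.1.i, v.2.i} : Finset I)
    rw [Finset.coe_pair] at h
    exact h.trans Finset.card_le_two
  dim' v := by
    classical
    have h := finrank_span_finset_le_card (R := ZMod p) ({v.1.i, v.2.i} : Finset I)
    rw [Finset.coe_pair] at h
    exact h.trans Finset.card_le_two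
  φ C := (transE 0 D C.1 C.2).prodCongr (transE 0 D C.1 C.2)
  sup_φ _ _ := rfl
  congr C C' v h := by
    have hv : InU (Submodule.span (ZMod p) {v.1.i, v.2.i}) v :=
      ⟨Submodule.subset_span (Or.inl rfl), Submodule.subset_span (Or.inr rfl)⟩
    exact T2_congr (D := D) h hv

variable {A : Tup (ZMod p) I z} {D : CoTup (ZMod p) I z} [Module.Finite (ZMod p) I]

theorem pairMoves_φ (C : CC A) (v : G A 0 × G A 0) : (pairMoves A D).φ C v = T2 D C v := rfl

theorem inU_of_sup {W : Submodule (ZMod p) I} {v : G A 0 × G A 0}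
    (h : (pairMoves A D).sup v ≤ W) : InU W v :=
  ⟨h (Submodule.subset_span (Or.inl rfl)), h (Submodule.subset_span (Or.inr rfl))⟩

/-- adjacency in the Latin square graphs -/
theorem lsMoves_adj (C : CC A) (W : Submodule (ZMod p) I)
    (hloc : ∀ u ∈ W, ∀ v ∈ W, ∀ ζ, C.1 ζ u v - C.1 ζ v u = D ζ u v) (u u' : G A 0 × G A 0)
    (hu : (pairMoves A D).sup u ≤ W) (hu' : (pairMoves A D).sup u' ≤ W) :
    (lsGraph (G A 0)).Adj u u' ↔
      (lsGraph (G A D)).Adj ((pairMoves A D).φ C u) ((pairMoves A D).φ C u') :=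
  WLAux.adj_iff hloc (inU_of_sup hu) (inU_of_sup hu')

/-- adjacency in the net graphs -/
theorem netMoves_adj (q : ℕ) (C : CC A) (W : Submodule (ZMod p) I)
    (hloc : ∀ u ∈ W, ∀ v ∈ W, ∀ ζ, C.1 ζ u v - C.1 ζ v u = D ζ u v) (u u' : G A 0 × G A 0)
    (hu : (pairMoves A D).sup u ≤ W) (hu' : (pairMoves A D).sup u' ≤ W) :
    (netGraph (G A 0) q).Adj u u' ↔
      (netGraph (G A D) q).Adj ((pairMoves A D).φ C u) ((pairMoves A D).φ C u') :=
  NetAux.adj_iff hloc q (inU_of_sup hu) (inU_of_sup hu')

end Pool.Agent.SRGWL.Sos
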