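import Pool.Agent.SRGWL.LSLines

/-!
# Groups with isomorphic Latin square graphs are isomorphic

Paper proof. By `lsGraph_iso_lines` there are a permutation `σ` of `{0,1,2}` and bijections
`α_0, α_1, α_2 : G → H` such that for `v = (x, y)`: `crd (σ 0) (φ v) = α_0 x`, `crd (σ 1) (φ v) = α_1 y`,
`crd (σ 2) (φ v) = α_2 (x y)`; and `crd 0 * crd 1 = crd 2` on `φ v`. In each of the six cases for `σ` we
get maps `P, Q : G → H` such that, for all `x, y`, `γ (x y) = P x * Q y` where `γ` is `α_2` or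
`x ↦ (α_2 x)⁻¹` (a bijection):
 σ = (0,1,2): α_0 x * α_1 y = α_2 (xy).
 σ = (1,0,2): α_1 y * α_0 x = α_2 (xy), so (α_2 (xy))⁻¹ = (α_0 x)⁻¹ (α_1 y)⁻¹.
 σ = (0,2,1): α_0 x * α_2 (xy) = α_1 y, so α_2 (xy) = (α_0 x)⁻¹ * α_1 y.
 σ = (2,0,1): α_1 y * α_2 (xy) = α_0 x, so α_2 (xy) = (α_1 y)⁻¹ α_0 x, (α_2 (xy))⁻¹ = (α_0 x)⁻¹ α_1 y.
 σ = (1,2,0): α_2 (xy) * α_0 x = α_1 y, so α_2 (xy) = α_1 y (α_0 x)⁻¹, (α_2 (xy))⁻¹ = α_0 x (α_1 y)⁻¹.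
 σ = (2,1,0): α_2 (xy) * α_1 y = α_0 x, so α_2 (xy) = α_0 x (α_1 y)⁻¹.
 (`σ` is written `(σ 0, σ 1, σ 2)`.)
Then `γ(x) = P x * Q 1`, `γ(y) = P 1 * Q y`, so `γ(x y) = γ(x) (Q 1)⁻¹ (P 1)⁻¹ γ(y) = γ(x) (γ 1)⁻¹ γ(y)`
and `x ↦ γ(x) (γ 1)⁻¹` is an isomorphism of groups.
-/

namespace Pool.Agent.SRGWL

theorem mulEquiv_of_isotopy {G H : Type*} [Group G] [Group H] (γ : G → H)
    (hγ : Function.Bijective γ) (P Q : G → H) (h : ∀ x y, γ (x * y) = P x * Q y) :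
    Nonempty (G ≃* H) := by
  have h1 : ∀ x, γ x = P x * Q 1 := fun x => by rw [← h, mul_one]
  have h2 : ∀ y, γ y = P 1 * Q y := fun y => by rw [← h, one_mul]
  refine ⟨MulEquiv.mk (Equiv.ofBijective (fun x => γ x * (γ 1)⁻¹)
    ((Group.mulRight_bijective (γ 1)⁻¹).comp hγ)) ?_⟩
  intro x y
  show γ (x * y) * (γ 1)⁻¹ = (γ x * (γ 1)⁻¹) * (γ y * (γ 1)⁻¹)
  rw [h x y, h1 x, h2 y, h1 1]
  group

theorem mulEquiv_of_lsGraph {G H : Type*} [Group G] [Group H] [Fintype G] [Fintype H]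
    (hG : 5 ≤ Fintype.card G) (φ : lsGraph G ≃g lsGraph H) : Nonempty (G ≃* H) := by
  obtain ⟨σ, α, hσ, hα, hc⟩ := lsGraph_iso_lines hG φ
  have h01 : σ 0 ≠ σ 1 := fun h => absurd (hσ h) (by decide)
  have h02 : σ 0 ≠ σ 2 := fun h => absurd (hσ h) (by decide)
  have h12 : σ 1 ≠ σ 2 := fun h => absurd (hσ h) (by decide)
  have c0 : ∀ x y, crd (σ 0) (φ (x, y)) = α 0 x := fun x y => hc 0 (x, y)
  have c1 : ∀ x y, crd (σ 1) (φ (x, y)) = α 1 y := fun x y => hc 1 (x, y)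
  have c2 : ∀ x y, crd (σ 2) (φ (x, y)) = α 2 (x * y) := fun x y => hc 2 (x, y)
  have hinv : Function.Bijective fun x => (α 2 x)⁻¹ := (Equiv.inv H).bijective.comp (hα 2)
  clear hσ hc
  generalize σ 0 = a at *
  generalize σ 1 = b at *
  generalize σ 2 = c at *
  have hall : ∀ a b c : Fin 3, a ≠ b → a ≠ c → b ≠ c →
      (a = 0 ∧ b = 1 ∧ c = 2) ∨ (a = 1 ∧ b = 0 ∧ c = 2) ∨ (a = 0 ∧ b = 2 ∧ c = 1) ∨
      (a = 2 ∧ b = 0 ∧ c = 1) ∨ (a = 1 ∧ b = 2 ∧ c = 0) ∨ (a = 2 ∧ b = 1 ∧ c = 0) := by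
    decide
  have hcases := hall a b c h01 h02 h12
  rcases hcases with ⟨rfl, rfl, rfl⟩ | ⟨rfl, rfl, rfl⟩ | ⟨rfl, rfl, rfl⟩ | ⟨rfl, rfl, rfl⟩ |
    ⟨rfl, rfl, rfl⟩ | ⟨rfl, rfl, rfl⟩ <;> simp only [crd] at c0 c1 c2
  · exact mulEquiv_of_isotopy (α 2) (hα 2) (α 0) (α 1) fun x y => by
      rw [← c2, ← c0 x y, ← c1 x y]
  · exact mulEquiv_of_isotopy (fun x => (α 2 x)⁻¹) hinv (fun x => (α 0 x)⁻¹)
      (fun y => (α 1 y)⁻¹) fun x y => by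
        rw [← c2, ← c0 x y, ← c1 x y]
        group
  · exact mulEquiv_of_isotopy (α 2) (hα 2) (fun x => (α 0 x)⁻¹) (α 1) fun x y => by
      rw [← c2, ← c0 x y, ← c1 x y]
      group
  · exact mulEquiv_of_isotopy (fun x => (α 2 x)⁻¹) hinv (fun x => (α 0 x)⁻¹) (α 1) fun x y => by
      rw [← c2, ← c0 x y, ← c1 x y]
      group
  · exact mulEquiv_of_isotopy (fun x => (α 2 x)⁻¹) hinv (α 0) (fun y => (α 1 y)⁻¹) fun x y => by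
      rw [← c2, ← c0 x y, ← c1 x y]
      group
  · exact mulEquiv_of_isotopy (α 2) (hα 2) (α 0) (fun y => (α 1 y)⁻¹) fun x y => by
      rw [← c2, ← c0 x y, ← c1 x y]
      group

end Pool.Agent.SRGWL
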