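import Pool.Agent.SRGWL.Defs

/-!
# The groups `G A 0` and `G A D` are not isomorphic if `pair A D ≠ 0`

`K = ZMod p`, `p ≠ 2`, `I` finite dimensional, `z ≥ 2`, `A` skew, `A 0` bijective, `a = dim I`.

(N1) `comm_le`: a commutative subgroup `B` of `G A D` (`D` skew) with `|B| ≥ |W| |K|^(z+1)` consists of
elements with `i = 0`. Proof: let `U = {x.i | x ∈ B}`, an additive subgroup, so a subspace of `I` (`K` is a
prime field), `s = dim U`. `|B| = |U| * |{x ∈ B | x.i = 0}|`. If `x = (0,w,t)` and `y = (j,w',t')` are in `B`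
then `x y = y x` gives `- w_ζ(j) = w_ζ(j)` for all `ζ`, so `w_ζ(j) = 0` (`p ≠ 2`). Hence `w` lies in
`W_U = {w ∈ W | ∀ ζ, w_ζ ∈ U.dualAnnihilator}`, whose dimension is `≤ z (a - s)`: it is the kernel of
`w ↦ ∑ A_ζ w_ζ` on `(U.dualAnnihilator)^(z+1)`, and the rank of this map is `≥ a - s` because `A 0` is
injective. `dim W = z a` because `w ↦ ∑ A_ζ w_ζ` is onto (`A 0` is onto). So
`|B| ≤ p^(s + z (a-s) + (z+1))`, and this is `< p^(z a + z + 1)` if `s ≥ 1`, as `z ≥ 2`. So `s = 0`.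

(N2) `pair_eq_zero`: if `IsC A C` and `D ζ i j = C ζ i j - C ζ j i` then `pair A D = 0`.
Proof: `D_ζ = C_ζ - C_ζᵗ`, where `(C_ζᵗ i) j = C_ζ j i`. `∑ trace (A_ζ C_ζ) = trace (∑ A_ζ C_ζ) = 0`. And
`trace (A_ζ C_ζᵗ) = - trace (A_ζ C_ζ)` for skew `A_ζ`: in a basis `e` with dual basis `e*`,
`trace (A C) = ∑ e*_i (A (C e_i)) = - ∑ (C e_i) (A e*_i) = - ∑_i∑_j (C e_i) (e_j) e*_j (A e*_i)` and
`trace (A Cᵗ) = - ∑_i∑_j (C e_j) (e_i) e*_j (A e*_i) = - ∑_i ∑_j (C e_i)(e_j) e*_i (A e*_j)`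
`= + ∑_i ∑_j (C e_i)(e_j) e*_j (A e*_i)`.

(N3) Let `ψ : G A 0 ≃* G A D`. `B₀ = {x | x.i = 0}` is a commutative subgroup of `G A 0` with
`|W| |K|^(z+1)` elements, so by (N1) `ψ` maps it into `{x | x.i = 0}`. `{(i,0,0)}` is a commutative subgroup of
`G A 0`; write `ψ (i,0,0) = (h i, c' i, q i)`. `h : I → I` is additive; `h i = 0` implies `i = 0`: by (N1)
for `ψ⁻¹` (which maps the elements with `i`-component zero to such elements). So `h` is bijective. Put
`b(j) = ψ(h⁻¹ j,0,0) = (j, c j, q j)`; `c : I → W` is additive, so linear over `ZMod p`. `b(i)` and `b(j)`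
commute: `c(j)(i) - c(i)(j) + D(i,j) = c(i)(j) - c(j)(i) + D(j,i)`, so `D(i,j) = c(i)(j) - c(j)(i)`
(`D` skew, `p ≠ 2`). By (N2) `pair A D = 0`, a contradiction.
-/

namespace Pool.Agent.SRGWL

open Module

namespace NonIso

section Count

variable {p : ℕ} [Fact p.Prime] {I : Type*} [AddCommGroup I] [Module (ZMod p) I]
  [Module.Finite (ZMod p) I] {z : ℕ}

theorem finiteI (p : ℕ) [Fact p.Prime] (I : Type*) [AddCommGroup I] [Module (ZMod p) I]
    [Module.Finite (ZMod p) I] : Finite I := Module.finite_of_finite (ZMod p)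

theorem card_sub (V : Type*) [AddCommGroup V] [Module (ZMod p) V] [Module.Finite (ZMod p) V]
    (U : Submodule (ZMod p) V) : Nat.card U = p ^ finrank (ZMod p) U := by
  rw [Module.natCard_eq_pow_finrank (K := ZMod p), Nat.card_zmod]

theorem card_Wsp_ge {A : Tup (ZMod p) I z} (h0 : Function.Bijective (A 0)) :
    p ^ (finrank (ZMod p) I * z) ≤ Nat.card (Wsp A) := by
  have : Finite I := finiteI p I
  have : Finite (Dual (ZMod p) I) := DFunLike.finite _
  have : Finite (Wsp A) := Subtype.finite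
  have hex : ∀ v : Fin z → Dual (ZMod p) I, ∃ w0 : Dual (ZMod p) I,
      A 0 w0 = - ∑ ζ : Fin z, A ζ.succ (v ζ) := fun v => h0.2 _
  choose w0 hw0 using hex
  let g : (Fin z → Dual (ZMod p) I) → Wsp A := fun v =>
    ⟨Fin.cons (w0 v) v, by
      rw [mem_Wsp, Fin.sum_univ_succ]
      simp [hw0]⟩
  have hg : Function.Injective g := by
    intro v v' h
    have h1 : (Fin.cons (w0 v) v : Fin (z + 1) → Dual (ZMod p) I) = Fin.cons (w0 v') v' :=
      congrArg Subtype.val h
    exact (Fin.cons_injective2 h1).2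
  have hc := Nat.card_le_card_of_injective g hg
  rw [Nat.card_fun, Module.natCard_eq_pow_finrank (K := ZMod p) (V := Dual (ZMod p) I),
    Nat.card_zmod, Subspace.dual_finrank_eq, Nat.card_eq_fintype_card, Fintype.card_fin,
    ← pow_mul] at hc
  exact hc

/-- the elements of `W` that vanish on `U` -/
def WU (A : Tup (ZMod p) I z) (U : Submodule (ZMod p) I) : Type _ :=
  {w : Wsp A // ∀ ζ, (w : Fin (z + 1) → Dual (ZMod p) I) ζ ∈ U.dualAnnihilator}

theorem card_WU_le {A : Tup (ZMod p) I z} (h0 : Function.Bijective (A 0))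
    (U : Submodule (ZMod p) I) :
    Nat.card (WU A U) ≤ p ^ ((finrank (ZMod p) I - finrank (ZMod p) U) * z) := by
  have : Finite I := finiteI p I
  have : Finite (Dual (ZMod p) I) := DFunLike.finite _
  have hU : finrank (ZMod p) U.dualAnnihilator = finrank (ZMod p) I - finrank (ZMod p) U := by
    have := Subspace.finrank_add_finrank_dualAnnihilator_eq U
    omega
  let g : WU A U → (Fin z → U.dualAnnihilator) := fun w ζ => ⟨w.1.1 ζ.succ, w.2 ζ.succ⟩
  have hg : Function.Injective g := by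
    intro w w' h
    have h1 : ∀ ζ : Fin z, w.1.1 ζ.succ = w'.1.1 ζ.succ := fun ζ =>
      congrArg Subtype.val (congrFun h ζ)
    have h2 : A 0 (w.1.1 0) = A 0 (w'.1.1 0) := by
      have e1 := mem_Wsp.mp w.1.2
      have e2 := mem_Wsp.mp w'.1.2
      rw [Fin.sum_univ_succ] at e1 e2
      rw [eq_neg_of_add_eq_zero_left e1, eq_neg_of_add_eq_zero_left e2]
      congr 1
      exact Finset.sum_congr rfl fun ζ _ => by rw [h1 ζ]
    apply Subtype.ext
    apply Subtype.ext
    funext ζ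
    refine Fin.cases (h0.1 h2) (fun ζ => h1 ζ) ζ
  have hc := Nat.card_le_card_of_injective g hg
  rw [Nat.card_fun, card_sub, hU, Nat.card_eq_fintype_card (α := Fin z), Fintype.card_fin,
    ← pow_mul] at hc
  exact hc

end Count

theorem two_ne {p : ℕ} [Fact p.Prime] (hp : p ≠ 2) : (2 : ZMod p) ≠ 0 := by
  intro h
  have h1 : ((2 : ℕ) : ZMod p) = 0 := by exact_mod_cast h
  rw [ZMod.natCast_eq_zero_iff] at h1
  have h2 := (Nat.prime_dvd_prime_iff_eq Fact.out Nat.prime_two).mp h1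
  exact hp h2

end NonIso

theorem comm_le {p : ℕ} [Fact p.Prime] (hp : p ≠ 2) {I : Type*} [AddCommGroup I]
    [Module (ZMod p) I] [Module.Finite (ZMod p) I] {z : ℕ} (hz : 2 ≤ z) {A : Tup (ZMod p) I z}
    (h0 : Function.Bijective (A 0)) {D : CoTup (ZMod p) I z}
    (B : Subgroup (G A D)) (hB : ∀ x ∈ B, ∀ y ∈ B, x * y = y * x)
    (hcard : Nat.card (Wsp A) * p ^ (z + 1) ≤ Nat.card B) : ∀ x ∈ B, x.i = 0 := by
  have : Finite I := NonIso.finiteI p I
  have : Finite (Dual (ZMod p) I) := DFunLike.finite _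
  have : Finite (Wsp A) := Subtype.finite
  have h2 := NonIso.two_ne hp
  let U₀ : AddSubgroup I :=
    { carrier := {i | ∃ x ∈ B, x.i = i}
      add_mem' := by
        rintro _ _ ⟨x, hx, rfl⟩ ⟨y, hy, rfl⟩
        exact ⟨x * y, B.mul_mem hx hy, rfl⟩
      zero_mem' := ⟨1, B.one_mem, rfl⟩
      neg_mem' := by
        rintro _ ⟨x, hx, rfl⟩
        exact ⟨x⁻¹, B.inv_mem hx, rfl⟩ }
  let U : Submodule (ZMod p) I := AddSubgroup.toZModSubmodule p U₀
  have hU : ∀ i, i ∈ U ↔ ∃ x ∈ B, x.i = i := fun i => Iff.rfl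
  -- the elements with `i = 0`
  have hker : ∀ x ∈ B, x.i = 0 → ∀ ζ,
      (x.w : Fin (z + 1) → Dual (ZMod p) I) ζ ∈ U.dualAnnihilator := by
    intro x hx hx0 ζ
    rw [Submodule.mem_dualAnnihilator]
    rintro j ⟨y, hy, rfl⟩
    have h3 := congrArg (fun g : G A D => g.t ζ) (hB x hx y hy)
    simp only [G.mul_t, hx0, map_zero, LinearMap.zero_apply] at h3
    have h4 : (2 : ZMod p) * (x.w : Fin (z + 1) → Dual (ZMod p) I) ζ y.i = 0 := by
      linear_combination -h3
    exact (mul_eq_zero.mp h4).resolve_left h2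
  have hrep : ∀ u : U, ∃ x ∈ B, x.i = (u : I) := fun u => (hU _).mp u.2
  choose b hbB hbi using hrep
  have hmem : ∀ x : B, x.1.i ∈ U := fun x => (hU _).mpr ⟨x.1, x.2, rfl⟩
  let y : B → G A D := fun x => (b ⟨x.1.i, hmem x⟩)⁻¹ * x.1
  have hyB : ∀ x, y x ∈ B := fun x => B.mul_mem (B.inv_mem (hbB _)) x.2
  have hyi : ∀ x, (y x).i = 0 := by
    intro x
    show (b ⟨x.1.i, hmem x⟩)⁻¹.i + x.1.i = 0
    rw [G.inv_i, hbi]
    simp
  let F : B → U × (NonIso.WU A U × (Fin (z + 1) → ZMod p)) := fun x =>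
    (⟨x.1.i, hmem x⟩, (⟨(y x).w, hker _ (hyB x) (hyi x)⟩, (y x).t))
  have hF : Function.Injective F := by
    intro x x' h
    have h5 : (⟨x.1.i, hmem x⟩ : U) = ⟨x'.1.i, hmem x'⟩ := congrArg Prod.fst h
    have h6 : (y x).w = (y x').w := congrArg (fun q => q.2.1.1) h
    have h7 : (y x).t = (y x').t := congrArg (fun q => q.2.2) h
    have h8 : y x = y x' := G.ext ((hyi x).trans (hyi x').symm) h6 h7
    have h9 : (b ⟨x.1.i, hmem x⟩)⁻¹ * x.1 = (b ⟨x'.1.i, hmem x'⟩)⁻¹ * x'.1 := h8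
    rw [h5] at h9
    exact Subtype.ext (mul_left_cancel h9)
  have : Finite (NonIso.WU A U) := by
    unfold NonIso.WU
    exact Subtype.finite
  have hc := Nat.card_le_card_of_injective F hF
  rw [Nat.card_prod, Nat.card_prod, NonIso.card_sub, Nat.card_fun, Nat.card_zmod,
    Nat.card_eq_fintype_card (α := Fin (z + 1)), Fintype.card_fin] at hc
  set a := finrank (ZMod p) I with ha
  set s := finrank (ZMod p) U with hs
  have hsa : s ≤ a := Submodule.finrank_le U
  have hp1 : 1 < p := (Fact.out : p.Prime).one_lt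
  have h10 : p ^ (a * z + (z + 1)) ≤ p ^ (s + ((a - s) * z + (z + 1))) := by
    calc p ^ (a * z + (z + 1)) = p ^ (a * z) * p ^ (z + 1) := pow_add _ _ _
      _ ≤ Nat.card (Wsp A) * p ^ (z + 1) :=
          Nat.mul_le_mul_right _ (NonIso.card_Wsp_ge h0)
      _ ≤ Nat.card B := hcard
      _ ≤ p ^ s * (Nat.card (NonIso.WU A U) * p ^ (z + 1)) := hc
      _ ≤ p ^ s * (p ^ ((a - s) * z) * p ^ (z + 1)) :=
          Nat.mul_le_mul_left _ (Nat.mul_le_mul_right _ (NonIso.card_WU_le h0 U))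
      _ = p ^ (s + ((a - s) * z + (z + 1))) := by
          rw [pow_add p s, pow_add p ((a - s) * z) (z + 1)]
  have h11 := (Nat.pow_le_pow_iff_right hp1).mp h10
  have hs0 : s = 0 := by
    obtain ⟨r, hr⟩ : ∃ r, a = s + r := ⟨a - s, by omega⟩
    have h12 : a - s = r := by omega
    rw [h12, hr] at h11
    by_contra hne
    have h13 : 1 ≤ s := Nat.one_le_iff_ne_zero.mpr hne
    nlinarith
  have hbot : U = ⊥ := Submodule.finrank_eq_zero.mp hs0
  intro x hx
  have h14 : x.i ∈ U := (hU _).mpr ⟨x, hx, rfl⟩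
  rw [hbot] at h14
  exact (Submodule.mem_bot _).mp h14

theorem pair_eq_zero {K I : Type*} [Field K] [AddCommGroup I] [Module K I] [Module.Finite K I] {z : ℕ}
    {A : Tup K I z} (hA : Skew A) {C D : CoTup K I z} (hC : IsC A C)
    (h : ∀ ζ i j, D ζ i j = C ζ i j - C ζ j i) : pair A D = 0 := by
  have h1 : ∀ ζ, D ζ = C ζ - (C ζ).flip := by
    intro ζ
    ext i j
    simp [h]
  have h2 : ∀ ζ, LinearMap.trace K I (A ζ ∘ₗ (C ζ).flip) = - LinearMap.trace K I (A ζ ∘ₗ C ζ) := by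
    intro ζ
    rw [LinearMap.trace_comp_comm', ← LinearMap.trace_transpose' (A ζ ∘ₗ C ζ), ← map_neg]
    congr 1
    ext φ i
    simp only [LinearMap.comp_apply, LinearMap.flip_apply, LinearMap.neg_apply,
      Module.Dual.transpose_apply]
    rw [hA ζ]
  have h3 : ∑ ζ, A ζ ∘ₗ C ζ = 0 := by
    ext i
    have := mem_Wsp.mp (hC i)
    simpa using this
  have h4 : ∑ ζ, LinearMap.trace K I (A ζ ∘ₗ C ζ) = 0 := by
    rw [← map_sum, h3, map_zero]
  unfold pair
  have h5 : ∀ ζ, LinearMap.trace K I (A ζ ∘ₗ D ζ) = 2 * LinearMap.trace K I (A ζ ∘ₗ C ζ) := by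
    intro ζ
    rw [h1, LinearMap.comp_sub, map_sub, h2]
    ring
  rw [Finset.sum_congr rfl fun ζ _ => h5 ζ, ← Finset.mul_sum, h4, mul_zero]

namespace NonIso

variable {K I : Type*} [Field K] [AddCommGroup I] [Module K I] {z : ℕ}

/-- the subgroup `i = 0` -/
def B0 (A : Tup K I z) (D : CoTup K I z) : Subgroup (G A D) where
  carrier := {x | x.i = 0}
  mul_mem' := by
    intro x y hx hy
    show x.i + y.i = 0
    rw [show x.i = 0 from hx, show y.i = 0 from hy, add_zero]
  one_mem' := rfl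
  inv_mem' := by
    intro x hx
    show -x.i = 0
    rw [show x.i = 0 from hx, neg_zero]

theorem mem_B0 {A : Tup K I z} {D : CoTup K I z} {x : G A D} : x ∈ B0 A D ↔ x.i = 0 := Iff.rfl

theorem B0_comm {A : Tup K I z} {D : CoTup K I z} (x : G A D) (hx : x ∈ B0 A D) (y : G A D)
    (hy : y ∈ B0 A D) : x * y = y * x := by
  rw [mem_B0] at hx hy
  ext1
  · exact add_comm x.i y.i
  · exact add_comm x.w y.w
  · funext ζ
    simp only [G.mul_t, hx, hy, map_zero]
    ring

theorem card_B0 (A : Tup K I z) (D : CoTup K I z) :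
    Nat.card (B0 A D) = Nat.card (Wsp A) * Nat.card K ^ (z + 1) := by
  have e : B0 A D ≃ Wsp A × (Fin (z + 1) → K) :=
    { toFun := fun x => (x.1.w, x.1.t)
      invFun := fun x => ⟨⟨0, x.1, x.2⟩, rfl⟩
      left_inv := by
        rintro ⟨x, hx⟩
        apply Subtype.ext
        ext1
        · exact (mem_B0.mp hx).symm
        · rfl
        · rfl
      right_inv := fun _ => rfl }
  rw [Nat.card_congr e, Nat.card_prod, Nat.card_fun, Nat.card_eq_fintype_card (α := Fin (z + 1)),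
    Fintype.card_fin]

theorem iso_i_zero {p : ℕ} [Fact p.Prime] (hp : p ≠ 2) {I : Type*} [AddCommGroup I]
    [Module (ZMod p) I] [Module.Finite (ZMod p) I] {z : ℕ} (hz : 2 ≤ z) {A : Tup (ZMod p) I z}
    (h0 : Function.Bijective (A 0)) {D D' : CoTup (ZMod p) I z} (ψ : G A D ≃* G A D')
    (x : G A D) (hx : x.i = 0) : (ψ x).i = 0 := by
  refine comm_le hp hz h0 ((B0 A D).map ψ.toMonoidHom) ?_ ?_ (ψ x) ?_
  · rintro _ ⟨x, hx, rfl⟩ _ ⟨y, hy, rfl⟩
    rw [← map_mul, ← map_mul, B0_comm x hx y hy]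
  · have e := (B0 A D).equivMapOfInjective ψ.toMonoidHom ψ.injective
    rw [← Nat.card_congr e.toEquiv, card_B0, Nat.card_zmod]
  · exact ⟨x, hx, rfl⟩

end NonIso

theorem not_mulEquiv {p : ℕ} [Fact p.Prime] (hp : p ≠ 2) {I : Type*} [AddCommGroup I]
    [Module (ZMod p) I] [Module.Finite (ZMod p) I] {z : ℕ} (hz : 2 ≤ z) {A : Tup (ZMod p) I z}
    (hA : Skew A) (h0 : Function.Bijective (A 0)) {D : CoTup (ZMod p) I z} (hD : CoSkew D)
    (hpair : pair A D ≠ 0) : IsEmpty (G A 0 ≃* G A D) := by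
  refine ⟨fun ψ => hpair ?_⟩
  have : Finite I := NonIso.finiteI p I
  have h2 := NonIso.two_ne hp
  let s : I → G A (0 : CoTup (ZMod p) I z) := fun i => ⟨i, 0, 0⟩
  have hs : ∀ i j, s i * s j = s (i + j) := by
    intro i j
    ext1
    · rfl
    · exact add_zero 0
    · funext ζ
      simp [s]
  let h : I →+ I :=
    { toFun := fun i => (ψ (s i)).i
      map_zero' := by
        have : s 0 = 1 := rfl
        rw [this, map_one]
        rfl
      map_add' := by
        intro i j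
        rw [← hs, map_mul, G.mul_i] }
  have hinj : Function.Injective h := by
    rw [injective_iff_map_eq_zero]
    intro i hi
    have h3 := NonIso.iso_i_zero hp hz h0 ψ.symm (ψ (s i)) hi
    rw [MulEquiv.symm_apply_apply] at h3
    exact h3
  let H : I ≃+ I := AddEquiv.ofBijective h (Finite.injective_iff_bijective.mp hinj)
  let b : I → G A D := fun j => ψ (s (H.symm j))
  have hbi : ∀ j, (b j).i = j := fun j => H.apply_symm_apply j
  let c : I →+ Wsp A :=
    { toFun := fun j => (b j).w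
      map_zero' := by
        show (ψ (s (H.symm 0))).w = 0
        rw [map_zero]
        have : s 0 = 1 := rfl
        rw [this, map_one]
        rfl
      map_add' := by
        intro i j
        show (ψ (s (H.symm (i + j)))).w = (ψ (s (H.symm i))).w + (ψ (s (H.symm j))).w
        rw [map_add, ← hs, map_mul, G.mul_w] }
  let c' : I →ₗ[ZMod p] Wsp A := c.toZModLinearMap p
  let C : CoTup (ZMod p) I z := fun ζ => (LinearMap.proj ζ) ∘ₗ (Wsp A).subtype ∘ₗ c'
  have hCi : ∀ ζ i, C ζ i = ((b i).w : Fin (z + 1) → Dual (ZMod p) I) ζ := fun ζ i => rfl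
  have hcomm : ∀ i j, b i * b j = b j * b i := by
    intro i j
    show ψ _ * ψ _ = ψ _ * ψ _
    rw [← map_mul, ← map_mul, hs, hs, add_comm (H.symm i)]
  refine pair_eq_zero hA (C := C) ?_ ?_
  · intro i
    exact (b i).w.2
  · intro ζ i j
    have h4 := congrArg (fun g : G A D => g.t ζ) (hcomm i j)
    simp only [G.mul_t, hbi] at h4
    have h5 := hD ζ i j
    have h6 : (2 : ZMod p) * D ζ i j = 2 * (C ζ i j - C ζ j i) := by
      rw [hCi, hCi]
      linear_combination h4 + h5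
    exact mul_left_cancel₀ h2 h6

end Pool.Agent.SRGWL
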