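import Mathlib

/-!
# The codimension of the forms that are compatible with `Y` on `P`

`V` finite dimensional, `Y : V → V`, `P ≤ V`, `φ : Fin t → V` in `P`, the `2t` vectors `φ_j, Y φ_j` linearly
independent. `compat P Y` = the bilinear forms `B` with `B φ (Y φ) = B (Y φ) φ` for all `φ ∈ P`.

Claim: `dim (compat P Y) + t (dim P - 2t) ≤ (dim V)^2`.
Proof. Let `S` = span of the `φ_j, Y φ_j` (dimension `2t`) and let `P₀ ≤ P` be a complement of `P ⊓ S` in `P`,
so `P₀ ⊓ S = ⊥`, `dim P₀ ≥ dim P - 2t`. Consider the linear map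
`L : (V →ₗ V →ₗ K) → (Fin t → Dual K P₀)`,
`L B j b = B (φ_j) (Y b) + B b (Y φ_j) - B (Y φ_j) b - B (Y b) (φ_j)`.
`compat P Y ≤ ker L` (polarise: the identity at `φ_j + b` minus the identities at `φ_j` and at `b`).
`L` is surjective: given `g_j ∈ Dual K P₀`, choose linear functionals `x_j` on `V` with
`x_j (Y φ_l) = δ_{jl}`, `x_j (φ_l) = 0`, `x_j = 0` on `P₀`, and functionals `g'_j` on `V` with `g'_j = g_j` on `P₀`
and `g'_j = 0` on `S` (they exist: the `φ_l`, `Y φ_l` and a basis of `P₀` are linearly independent).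
Let `B = - ∑ x_j ⊗ g'_j`, i.e. `B v v' = - ∑ x_j(v) g'_j(v')`. Then
`B (φ_j) _ = 0`, `B b _ = 0` for `b ∈ P₀`, `B _ (φ_j) = 0`, and `- B (Y φ_j) b = g_j b`. So `L B = g`.
Hence `dim ker L = (dim V)^2 - t dim P₀`.
-/

namespace Pool.Agent.SRGWL

open Module

/-- the bilinear forms `B` with `B φ (Y φ) = B (Y φ) φ` on `P` -/
def compat {K V : Type*} [Field K] [AddCommGroup V] [Module K V] (P : Submodule K V)
    (Y : V →ₗ[K] V) : Submodule K (V →ₗ[K] V →ₗ[K] K) where
  carrier := {B | ∀ φ ∈ P, B φ (Y φ) = B (Y φ) φ}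
  add_mem' := by
    intro a b ha hb φ hφ
    simp only [LinearMap.add_apply]
    rw [ha φ hφ, hb φ hφ]
  zero_mem' := by
    intro φ _
    simp
  smul_mem' := by
    intro c a ha φ hφ
    simp only [LinearMap.smul_apply]
    rw [ha φ hφ]

namespace FormDimAux

variable {K V : Type*} [Field K] [AddCommGroup V] [Module K V]

/-- The polarised conditions. -/
def polar (Y : V →ₗ[K] V) {t d : ℕ} (φ : Fin t → V) (b : Fin d → V) :
    (V →ₗ[K] V →ₗ[K] K) →ₗ[K] (Fin t → Fin d → K) where
  toFun B j i := B (φ j) (Y (b i)) + B (b i) (Y (φ j)) - B (Y (φ j)) (b i) - B (Y (b i)) (φ j)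
  map_add' B B' := by
    funext j i
    simp only [LinearMap.add_apply, Pi.add_apply]
    ring
  map_smul' c B := by
    funext j i
    simp only [LinearMap.smul_apply, Pi.smul_apply, smul_eq_mul, RingHom.id_apply]
    ring

theorem compat_le {P : Submodule K V} {Y : V →ₗ[K] V} {t d : ℕ} {φ : Fin t → V}
    {b : Fin d → V} (hφ : ∀ j, φ j ∈ P) (hb : ∀ i, b i ∈ P) :
    compat P Y ≤ LinearMap.ker (polar Y φ b) := by
  intro B hB
  have hB' : ∀ φ ∈ P, B φ (Y φ) = B (Y φ) φ := hB
  rw [LinearMap.mem_ker]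
  funext j i
  change B (φ j) (Y (b i)) + B (b i) (Y (φ j)) - B (Y (φ j)) (b i) - B (Y (b i)) (φ j) = 0
  have h1 := hB' _ (P.add_mem (hφ j) (hb i))
  have h2 := hB' _ (hφ j)
  have h3 := hB' _ (hb i)
  simp only [map_add, LinearMap.add_apply] at h1
  linear_combination h1 - h2 - h3

theorem polar_surjective {Y : V →ₗ[K] V} {t d : ℕ} {φ : Fin t → V} {b : Fin d → V}
    (hli : LinearIndependent K (Sum.elim (Sum.elim φ (fun j => Y (φ j))) b)) :
    Function.Surjective (polar Y φ b) := by
  classical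
  intro g
  obtain ⟨f, hf⟩ := LinearMap.exists_leftInverse_of_injective
    (Finsupp.linearCombination K (Sum.elim (Sum.elim φ (fun j => Y (φ j))) b))
    (LinearMap.ker_eq_bot.2 hli)
  have hf' : ∀ i, f (Sum.elim (Sum.elim φ (fun j => Y (φ j))) b i) = Finsupp.single i 1 := by
    intro i
    have h := LinearMap.congr_fun hf (Finsupp.single i 1)
    rwa [LinearMap.comp_apply, Finsupp.linearCombination_single, one_smul, LinearMap.id_apply] at h
  let x : Fin t → V →ₗ[K] K := fun j => (Finsupp.lapply (Sum.inl (Sum.inr j))).comp f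
  let y : Fin d → V →ₗ[K] K := fun i => (Finsupp.lapply (Sum.inr i)).comp f
  have hx1 : ∀ l j, x l (φ j) = 0 := by
    intro l j
    change f (φ j) (Sum.inl (Sum.inr l)) = 0
    have h := hf' (Sum.inl (Sum.inl j))
    simp only [Sum.elim_inl] at h
    rw [h, Finsupp.single_apply, if_neg (by simp)]
  have hx2 : ∀ l j, x l (Y (φ j)) = if j = l then 1 else 0 := by
    intro l j
    change f (Y (φ j)) (Sum.inl (Sum.inr l)) = _
    have h := hf' (Sum.inl (Sum.inr j))
    simp only [Sum.elim_inl, Sum.elim_inr] at h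
    rw [h, Finsupp.single_apply]
    simp
  have hx3 : ∀ l i, x l (b i) = 0 := by
    intro l i
    change f (b i) (Sum.inl (Sum.inr l)) = 0
    have h := hf' (Sum.inr i)
    simp only [Sum.elim_inr] at h
    rw [h, Finsupp.single_apply, if_neg (by simp)]
  have hy1 : ∀ m j, y m (φ j) = 0 := by
    intro m j
    change f (φ j) (Sum.inr m) = 0
    have h := hf' (Sum.inl (Sum.inl j))
    simp only [Sum.elim_inl] at h
    rw [h, Finsupp.single_apply, if_neg (by simp)]
  have hy2 : ∀ m i, y m (b i) = if i = m then 1 else 0 := by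
    intro m i
    change f (b i) (Sum.inr m) = _
    have h := hf' (Sum.inr i)
    simp only [Sum.elim_inr] at h
    rw [h, Finsupp.single_apply]
    simp
  let B : V →ₗ[K] V →ₗ[K] K := -∑ l, ∑ m, g l m • (x l).smulRight (y m)
  have hB : ∀ v v', B v v' = -∑ l, ∑ m, g l m * (x l v * y m v') := by
    intro v v'
    simp [B, LinearMap.sum_apply]
  refine ⟨B, ?_⟩
  funext j i
  change B (φ j) (Y (b i)) + B (b i) (Y (φ j)) - B (Y (φ j)) (b i) - B (Y (b i)) (φ j) = g j i
  simp only [hB, hx1, hx2, hx3, hy1, hy2]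
  simp

end FormDimAux

open FormDimAux

theorem finrank_compat {K V : Type*} [Field K] [AddCommGroup V] [Module K V] [Module.Finite K V]
    (P : Submodule K V) (Y : V →ₗ[K] V) {t : ℕ} (φ : Fin t → V) (hφ : ∀ j, φ j ∈ P)
    (hli : LinearIndependent K (Sum.elim φ (fun j => Y (φ j)))) :
    finrank K (compat P Y) + t * (finrank K P - 2 * t) ≤ finrank K V ^ 2 := by
  set S : Submodule K V := Submodule.span K (Set.range (Sum.elim φ (fun j => Y (φ j)))) with hS
  have hSd : finrank K S = 2 * t := by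
    rw [hS, finrank_span_eq_card hli, Fintype.card_sum, Fintype.card_fin]
    ring
  obtain ⟨Q, hQ⟩ := Submodule.exists_isCompl (S.comap P.subtype)
  have h1 : finrank K (S.comap P.subtype) + finrank K Q = finrank K P :=
    Submodule.finrank_add_eq_of_isCompl hQ
  have h2 : finrank K (S.comap P.subtype) ≤ 2 * t := by
    rw [← hSd, ← Submodule.finrank_map_subtype_eq P (S.comap P.subtype)]
    exact Submodule.finrank_mono (Submodule.map_comap_le _ _)
  let bq := Module.finBasis K Q
  let b : Fin (finrank K Q) → V := fun i => ((bq i : P) : V)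
  have hbP : ∀ i, b i ∈ P := fun i => (bq i : P).2
  have hb : LinearIndependent K b := by
    have h3 := bq.linearIndependent
    have h4 := h3.map' (P.subtype ∘ₗ Q.subtype) (by
      rw [LinearMap.ker_eq_bot]
      exact P.injective_subtype.comp Q.injective_subtype)
    exact h4
  have hdis : Disjoint S (Submodule.span K (Set.range b)) := by
    rw [Submodule.disjoint_def]
    intro v hv1 hv2
    have h3 : Submodule.span K (Set.range b) ≤ Q.map P.subtype := by
      rw [Submodule.span_le]
      rintro _ ⟨i, rfl⟩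
      exact ⟨bq i, (bq i).2, rfl⟩
    obtain ⟨q, hq, rfl⟩ := h3 hv2
    have h4 : q ∈ S.comap P.subtype := hv1
    have h5 := Submodule.disjoint_def.1 hQ.disjoint q h4 hq
    rw [h5, map_zero]
  have hli2 : LinearIndependent K (Sum.elim (Sum.elim φ (fun j => Y (φ j))) b) :=
    hli.sum_type hb hdis
  have h3 := LinearMap.finrank_range_add_finrank_ker (K := K) (V := V →ₗ[K] V →ₗ[K] K)
    (V₂ := Fin t → Fin (finrank K Q) → K) (polar Y φ b)
  rw [LinearMap.range_eq_top.2 (polar_surjective hli2), finrank_top] at h3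
  have h4 : finrank K (Fin t → Fin (finrank K Q) → K) = t * finrank K Q := by
    rw [Module.finrank_pi_fintype]
    simp
  have h5 : finrank K (V →ₗ[K] V →ₗ[K] K) = finrank K V ^ 2 := by
    rw [Module.finrank_linearMap, Module.finrank_linearMap, finrank_self]
    ring
  rw [h4, h5] at h3
  have h6 : finrank K (compat P Y) ≤ finrank K (LinearMap.ker (polar Y φ b)) :=
    Submodule.finrank_mono (compat_le hφ hbP)
  have h7 : t * (finrank K P - 2 * t) ≤ t * finrank K Q := Nat.mul_le_mul_left _ (by omega)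
  omega

end Pool.Agent.SRGWL
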