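import Pool.Agent.SRGWL.Greedy
import Pool.Agent.SRGWL.FormDim

/-!
# A random tuple of bilinear forms is rigid (union bound)

`K` a finite field with `q` elements, `dim V = 16 m`, `m ≥ 1`. Claim: there are 15 bilinear forms `B_ζ` such that:
whenever `P ≤ V` has codimension `≤ 2m` and `Y : V → V` satisfies `B_ζ φ (Y φ) = B_ζ (Y φ) φ` for all `φ ∈ P`
and all `ζ`, there is a scalar `c` with `dim P.map (Y - c) ≤ 4m`.

Proof (counting). Suppose not: every tuple `B` has a bad pair `(P, Y)`: `B_ζ ∈ compat P Y` for all `ζ` and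
`4m < dim P.map (Y - c)` for all `c`. By `exists_greedy` with `r = 4m`, `t = 2m` and `finrank_compat`,
`dim compat P Y + 2m (dim P - 4m) ≤ (16m)^2`, and `dim P ≥ 14 m`, so `dim compat P Y ≤ 256 m^2 - 20 m^2 = 236 m^2`
and at most `q^(15 * 236 m^2)` tuples `B` lie in `(compat P Y)^15`. Every subspace `P` of codimension `≤ 2m`
is the common kernel of `2m` functionals `u : Fin (2m) → Dual K V` (`P = dualCoannihilator` of its annihilator,
which is spanned by `2m` vectors), so there are at most `q^(16m * 2m)` such `P`, and `q^(256 m^2)` maps `Y`.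
All together at most `q^(32 m^2 + 256 m^2 + 3540 m^2) = q^(3828 m^2)` tuples `B` are bad, and there are
`q^(15 * 256 m^2) = q^(3840 m^2)` tuples. Contradiction.
(Formally: the map from tuples to `Σ`-type of (u, Y, B ∈ compat^15) is injective; or use
`Finset.card_biUnion_le`/ `Set.Finite`; `Module.card_eq_pow_finrank`.)
-/

namespace Pool.Agent.SRGWL

open Module

private lemma rf_functionals {K V : Type*} [Field K] [AddCommGroup V] [Module K V]
    [Module.Finite K V] {k : ℕ} (P : Submodule K V) (hP : finrank K V ≤ finrank K P + k) :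
    ∃ u : Fin k → (V →ₗ[K] K), P = ⨅ i, LinearMap.ker (u i) := by
  classical
  have hd : finrank K (V ⧸ P) ≤ k := by
    have := Submodule.finrank_quotient_add_finrank P
    omega
  let b := finBasis K (V ⧸ P)
  refine ⟨fun i => if h : (i : ℕ) < finrank K (V ⧸ P) then (b.coord ⟨i, h⟩) ∘ₗ P.mkQ else 0, ?_⟩
  ext v
  rw [Submodule.mem_iInf]
  constructor
  · intro hv i
    rw [LinearMap.mem_ker]
    dsimp only
    split_ifs with h
    · have : P.mkQ v = 0 := by simpa using hv
      rw [LinearMap.comp_apply, this, map_zero]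
    · rfl
  · intro hv
    have : P.mkQ v = 0 := by
      apply b.ext_elem
      intro i
      have hi := hv ⟨i, lt_of_lt_of_le i.2 hd⟩
      rw [LinearMap.mem_ker] at hi
      simp only [i.2, dif_pos] at hi
      rw [map_zero]
      exact hi
    simpa using this

private lemma rf_card {K V : Type*} [Field K] [AddCommGroup V] [Module K V] [Module.Finite K V]
    (S : Submodule K (V →ₗ[K] V →ₗ[K] K)) [Fintype S] [Fintype K] :
    Fintype.card S = Fintype.card K ^ finrank K S := by
  let _ : AddCommGroup S :=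
    @Submodule.addCommGroup K (V →ₗ[K] V →ₗ[K] K) _ LinearMap.addCommGroup _ S
  exact Module.card_eq_pow_finrank (K := K) (V := S)

theorem exists_rigid_forms {K V : Type*} [Field K] [Finite K] [AddCommGroup V] [Module K V]
    [Module.Finite K V] (m : ℕ) (hm : 1 ≤ m) (hV : finrank K V = 16 * m) :
    ∃ B : Fin 15 → (V →ₗ[K] V →ₗ[K] K), ∀ P : Submodule K V, finrank K V ≤ finrank K P + 2 * m →
      ∀ Y : V →ₗ[K] V, (∀ φ ∈ P, ∀ ζ, B ζ φ (Y φ) = B ζ (Y φ) φ) →
        ∃ c : K, finrank K (P.map (Y - c • LinearMap.id)) ≤ 4 * m := by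
  classical
  by_contra hcon
  push Not at hcon
  have : Finite V := Module.finite_of_finite K
  have : Fintype K := Fintype.ofFinite K
  have : Finite (V →ₗ[K] K) := Module.finite_of_finite K
  have : Finite (V →ₗ[K] V) := Module.finite_of_finite K
  have : Finite (V →ₗ[K] V →ₗ[K] K) := Module.finite_of_finite K
  have : Fintype (V →ₗ[K] K) := Fintype.ofFinite _
  have : Fintype (V →ₗ[K] V) := Fintype.ofFinite _
  have : Fintype (V →ₗ[K] V →ₗ[K] K) := Fintype.ofFinite _
  set q := Fintype.card K with hq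
  have hq1 : 1 < q := Fintype.one_lt_card
  let Pu : (Fin (2 * m) → (V →ₗ[K] K)) → Submodule K V := fun u => ⨅ i, LinearMap.ker (u i)
  let big : (Fin (2 * m) → (V →ₗ[K] K)) × (V →ₗ[K] V) → Prop := fun x =>
    finrank K V ≤ finrank K (Pu x.1) + 2 * m ∧
      ∀ c : K, 4 * m < finrank K ((Pu x.1).map (x.2 - c • LinearMap.id))
  let T : (Fin (2 * m) → (V →ₗ[K] K)) × (V →ₗ[K] V) → Finset (Fin 15 → (V →ₗ[K] V →ₗ[K] K)) :=
    fun x => if big x then
      Fintype.piFinset (fun _ => Finset.univ.filter (fun B => B ∈ compat (Pu x.1) x.2)) else ∅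
  have hcover : (Finset.univ : Finset (Fin 15 → (V →ₗ[K] V →ₗ[K] K))) ⊆
      (Finset.univ : Finset ((Fin (2 * m) → (V →ₗ[K] K)) × (V →ₗ[K] V))).biUnion T := by
    intro B _
    obtain ⟨P, hP, Y, hY, hc⟩ := hcon B
    obtain ⟨u, hu⟩ := rf_functionals P hP
    rw [Finset.mem_biUnion]
    refine ⟨(u, Y), Finset.mem_univ _, ?_⟩
    have hPu : Pu u = P := hu.symm
    have hbig : big (u, Y) := by
      refine ⟨?_, ?_⟩
      · change finrank K V ≤ finrank K (Pu u) + 2 * m
        rw [hPu]; exact hP
      · intro c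
        change 4 * m < finrank K ((Pu u).map (Y - c • LinearMap.id))
        rw [hPu]; exact hc c
    simp only [T]
    rw [if_pos hbig, Fintype.mem_piFinset]
    intro ζ
    rw [Finset.mem_filter]
    refine ⟨Finset.mem_univ _, ?_⟩
    rw [hPu]
    exact fun φ hφ => hY φ hφ ζ
  have hT : ∀ x ∈ (Finset.univ : Finset ((Fin (2 * m) → (V →ₗ[K] K)) × (V →ₗ[K] V))),
      (T x).card ≤ q ^ (236 * m ^ 2 * 15) := by
    intro x _
    simp only [T]
    split_ifs with hbig
    swap
    · simp
    rw [Fintype.card_piFinset]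
    simp only [Finset.prod_const, Finset.card_univ, Fintype.card_fin]
    rw [pow_mul]
    apply Nat.pow_le_pow_left
    have hcard : (Finset.univ.filter (fun B => B ∈ compat (Pu x.1) x.2)).card
        = q ^ finrank K (compat (Pu x.1) x.2) := by
      let S : Submodule K (V →ₗ[K] V →ₗ[K] K) := compat (Pu x.1) x.2
      change (Finset.univ.filter (fun B => B ∈ S)).card = q ^ finrank K S
      rw [← Fintype.card_subtype]
      exact rf_card S
    rw [hcard]
    apply Nat.pow_le_pow_right (by omega)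
    obtain ⟨φ, hφ, hli⟩ := exists_greedy (Pu x.1) x.2 (4 * m) hbig.2 (2 * m) (by omega)
    have h1 := finrank_compat (Pu x.1) x.2 φ hφ hli
    have h2 := hbig.1
    rw [hV] at h1 h2
    have h3 : 10 * m ≤ finrank K (Pu x.1) - 2 * (2 * m) := by omega
    have h4 : 2 * m * (10 * m) ≤ 2 * m * (finrank K (Pu x.1) - 2 * (2 * m)) :=
      Nat.mul_le_mul_left _ h3
    nlinarith
  have hle := Finset.card_le_card hcover
  have hle2 := Finset.card_biUnion_le_card_mul _ T _ hT
  have hX : (Finset.univ : Finset (Fin 15 → (V →ₗ[K] V →ₗ[K] K))).card = q ^ (3840 * m ^ 2) := by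
    rw [Finset.card_univ, Fintype.card_pi]
    simp only [Finset.prod_const, Finset.card_univ, Fintype.card_fin]
    rw [Module.card_eq_pow_finrank (K := K) (V := V →ₗ[K] V →ₗ[K] K), Module.finrank_linearMap,
      Module.finrank_linearMap, Module.finrank_self, hV, ← pow_mul]
    congr 1
    ring
  have hUY : (Finset.univ : Finset ((Fin (2 * m) → (V →ₗ[K] K)) × (V →ₗ[K] V))).card
      = q ^ (288 * m ^ 2) := by
    rw [Finset.card_univ, Fintype.card_prod, Fintype.card_pi]
    simp only [Finset.prod_const, Finset.card_univ, Fintype.card_fin]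
    rw [Module.card_eq_pow_finrank (K := K) (V := V →ₗ[K] K),
      Module.card_eq_pow_finrank (K := K) (V := V →ₗ[K] V), Module.finrank_linearMap,
      Module.finrank_linearMap, Module.finrank_self, hV, ← pow_mul, ← pow_add]
    congr 1
    ring
  rw [hX] at hle
  rw [hUY, ← pow_add] at hle2
  have h5 : q ^ (3840 * m ^ 2) ≤ q ^ (288 * m ^ 2 + 236 * m ^ 2 * 15) := hle.trans hle2
  have h6 : q ^ (288 * m ^ 2 + 236 * m ^ 2 * 15) < q ^ (3840 * m ^ 2) := by
    apply Nat.pow_lt_pow_right hq1
    have : 1 ≤ m ^ 2 := Nat.one_le_pow _ _ hm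
    omega
  omega

end Pool.Agent.SRGWL
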