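import Pool.Agent.SRGWL.Defs
import Pool.Agent.SRGWL.RigidForms

/-!
# Existence of a rigid skew tuple with `A 0` invertible

`K` a finite field, `dim I = 16 m`, `m ≥ 1`. From the 15 forms `B_ζ` on `V = Dual K I` (`exists_rigid_forms`,
`finrank (Dual K I) = finrank I`) define `A (ζ+1) : I* → I` by `φ (A (ζ+1) ψ) = B_ζ φ ψ - B_ζ ψ φ` for all `φ`
(`Module.evalEquiv K I`). It is skew. For `A 0` take an invertible skew map: in a basis `e_i` (`i < 16m`)
with dual basis `e*_i`: `A 0 (e*_{2l}) = e_{2l+1}`, `A 0 (e*_{2l+1}) = - e_{2l}`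
(or transport `J = fromBlocks 0 (-1) 1 0`, Mathlib `Matrix.J`, which is invertible and skew).
If `φ (A_ζ (Y φ)) = 0` for all `ζ` and `φ ∈ P` then in particular `B_ζ φ (Y φ) = B_ζ (Y φ) φ`.
-/

namespace Pool.Agent.SRGWL

open Module

theorem exists_skew_bijective {K I : Type*} [Field K] [AddCommGroup I] [Module K I]
    [Module.Finite K I] (m : ℕ) (hI : finrank K I = 2 * m) :
    ∃ J : Dual K I →ₗ[K] I, Function.Bijective J ∧ ∀ φ ψ : Dual K I, φ (J ψ) = - ψ (J φ) := by
  classical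
  have hcard : Fintype.card (Fin m ⊕ Fin m) = finrank K I := by
    rw [hI, Fintype.card_sum, Fintype.card_fin]
    ring
  let e : Basis (Fin m ⊕ Fin m) K I := (finBasis K I).reindex
    ((Fintype.equivFinOfCardEq hcard).symm)
  let J : Dual K I →ₗ[K] I := ∑ l : Fin m,
    ((Dual.eval K I (e (Sum.inl l))).smulRight (e (Sum.inr l)) -
      (Dual.eval K I (e (Sum.inr l))).smulRight (e (Sum.inl l)))
  have hJ : ∀ ψ : Dual K I, J ψ = ∑ l : Fin m,
      (ψ (e (Sum.inl l)) • e (Sum.inr l) - ψ (e (Sum.inr l)) • e (Sum.inl l)) := by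
    intro ψ
    simp [J, LinearMap.sum_apply]
  have hφJ : ∀ φ ψ : Dual K I, φ (J ψ) = ∑ l : Fin m,
      (ψ (e (Sum.inl l)) * φ (e (Sum.inr l)) - ψ (e (Sum.inr l)) * φ (e (Sum.inl l))) := by
    intro φ ψ
    rw [hJ, map_sum]
    simp
  have hskew : ∀ φ ψ : Dual K I, φ (J ψ) = - ψ (J φ) := by
    intro φ ψ
    rw [hφJ, hφJ, ← Finset.sum_neg_distrib]
    refine Finset.sum_congr rfl fun l _ => ?_
    ring
  have hinj : Function.Injective J := by
    rw [← LinearMap.ker_eq_bot, LinearMap.ker_eq_bot']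
    intro ψ hψ
    apply e.ext
    intro i
    rw [LinearMap.zero_apply]
    rcases i with l | l
    · have h := hφJ (e.coord (Sum.inr l)) ψ
      rw [hψ, map_zero] at h
      simp only [Basis.coord_apply, Basis.repr_self, Finsupp.single_apply, Sum.inr.injEq,
        reduceCtorEq, if_false, mul_ite, mul_one, mul_zero, sub_zero] at h
      rw [Finset.sum_ite_eq' Finset.univ l] at h
      simpa using h.symm
    · have h := hφJ (e.coord (Sum.inl l)) ψ
      rw [hψ, map_zero] at h
      simp only [Basis.coord_apply, Basis.repr_self, Finsupp.single_apply, Sum.inl.injEq,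
        reduceCtorEq, if_false, mul_ite, mul_one, mul_zero, zero_sub] at h
      rw [Finset.sum_neg_distrib, Finset.sum_ite_eq' Finset.univ l] at h
      simpa using h.symm
  have hdim : finrank K (Dual K I) = finrank K I := Subspace.dual_finrank_eq
  exact ⟨J, ⟨hinj, (LinearMap.injective_iff_surjective_of_finrank_eq_finrank hdim).1 hinj⟩, hskew⟩

theorem exists_rigid {K I : Type*} [Field K] [Finite K] [AddCommGroup I] [Module K I]
    [Module.Finite K I] (m : ℕ) (hm : 1 ≤ m) (hI : finrank K I = 16 * m) :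
    ∃ A : Tup K I 15, Skew A ∧ Function.Bijective (A 0) ∧ Rigid A (2 * m) (4 * m) := by
  have hdim : finrank K (Dual K I) = 16 * m := by rw [Subspace.dual_finrank_eq, hI]
  obtain ⟨B, hB⟩ := exists_rigid_forms (K := K) (V := Dual K I) m hm hdim
  obtain ⟨J, hJb, hJs⟩ := exists_skew_bijective (K := K) (I := I) (8 * m) (by rw [hI]; ring)
  let A' : Fin 15 → (Dual K I →ₗ[K] I) := fun ζ =>
    (evalEquiv K I).symm.toLinearMap ∘ₗ ((B ζ).flip - B ζ)
  have hA' : ∀ ζ (φ ψ : Dual K I), φ (A' ζ ψ) = B ζ φ ψ - B ζ ψ φ := by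
    intro ζ φ ψ
    show φ ((evalEquiv K I).symm (((B ζ).flip - B ζ) ψ)) = _
    rw [apply_evalEquiv_symm_apply, LinearMap.sub_apply, LinearMap.sub_apply,
      LinearMap.flip_apply]
  refine ⟨Fin.cons J A', ?_, ?_, ?_⟩
  · intro ζ φ ψ
    refine Fin.cases ?_ (fun ζ => ?_) ζ
    · rw [Fin.cons_zero]
      exact hJs φ ψ
    · rw [Fin.cons_succ, hA', hA']
      ring
  · rw [Fin.cons_zero]
    exact hJb
  · intro P hP Y hY
    refine hB P hP Y fun φ hφ ζ => ?_
    have h := hY φ hφ ζ.succ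
    rw [Fin.cons_succ, hA'] at h
    exact sub_eq_zero.1 h

end Pool.Agent.SRGWL
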