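import Pool.Agent.SRGWL.Local
import Pool.Agent.SRGWL.RigidExists
import Pool.Agent.SRGWL.NonIso
import Pool.Agent.SRGWL.WLGame
import Pool.Agent.SRGWL.LSGraph
import Pool.Agent.SRGWL.LSIso
import Pool.Agent.SRGWL.CardG

/-!
# Assembly
-/

namespace Pool.Agent.SRGWL

open Module

/-- two groups of order `3^(256(k+1)+16)` -/
theorem exists_groups (m : ℕ) (hm : 1 ≤ m) :
    ∃ (A : Tup (ZMod 3) (Fin (16 * m) → ZMod 3) 15) (D : CoTup (ZMod 3) (Fin (16 * m) → ZMod 3) 15),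
      Nat.card (G A 0) = 3 ^ (256 * m + 16) ∧ Nat.card (G A D) = 3 ^ (256 * m + 16) ∧
      IsEmpty (G A 0 ≃* G A D) ∧ Nonempty (Sys A D (2 * m)) := by
  have hfin : finrank (ZMod 3) (Fin (16 * m) → ZMod 3) = 16 * m := by simp
  obtain ⟨A, hA, h0, hR⟩ := exists_rigid (K := ZMod 3) (I := Fin (16 * m) → ZMod 3) m hm hfin
  have h2 : (2 : ZMod 3) ≠ 0 := by decide
  obtain ⟨D, hD, hne, hS⟩ := exists_sys h2 hA h0.1 hR (by rw [hfin]; omega)
  have hcard : ∀ D' : CoTup (ZMod 3) (Fin (16 * m) → ZMod 3) 15,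
      Nat.card (G A D') = 3 ^ (256 * m + 16) := by
    intro D'
    rw [card_G h0.2 D', hfin, Nat.card_zmod]
    congr 1
    omega
  have : Fact (Nat.Prime 3) := ⟨Nat.prime_three⟩
  exact ⟨A, D, hcard 0, hcard D, not_mulEquiv (by decide) (by norm_num) hA h0 hD hne, hS⟩

end Pool.Agent.SRGWL
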