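import Mathlib

/-!
# A linear map far from all scalars moves many independent vectors independently

Paper proof by induction on `t`. `t = 0` trivial. Let `2 (t+1) ≤ r` and let `φ : Fin t → V` be given by the
induction hypothesis, `S = span of all φ_j, Y φ_j`, `dim S = 2t ≤ r - 2`. It suffices to find `φ ∈ P` such that
`φ, Y φ` are linearly independent modulo `S`. Suppose there is none.
(1) `dim P ≥ 2t + 2`: otherwise `dim P.map (Y - 0) ≤ dim P ≤ 2t+1 ≤ r`, contradiction to `h 0`. So there
   are two vectors in `P` which are linearly independent modulo `S` (`dim P - dim (P ⊓ S) ≥ 2`).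
(2) For every `φ ∈ P`, `φ ∉ S` there is a unique scalar `c(φ)` with `Y φ - c(φ) φ ∈ S`.
(3) `c(φ₁) = c(φ₂)` if `φ₁, φ₂ ∈ P` are independent modulo `S` (look at `φ₁ + φ₂`); if `φ₁, φ₂ ∉ S` are
   dependent modulo `S`, take `φ₃ ∈ P` independent of `φ₁` (hence of `φ₂`) modulo `S`. So `c(φ) = c` is
   constant.
(4) `Y φ - c φ ∈ S` for all `φ ∈ P`: clear for `φ ∉ S`; for `φ ∈ S` write `φ = (φ + φ₁) - φ₁` with
   `φ₁ ∈ P`, `φ₁ ∉ S`. So `dim P.map (Y - c) ≤ dim S = 2t ≤ r`, contradiction to `h c`.
-/

namespace Pool.Agent.SRGWL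

open Module

/-- if `g` is pointwise proportional to `f` and `f` has rank at least two, `g` is a multiple of `f` -/
lemma Greedy_prop {K V Q : Type*} [Field K] [AddCommGroup V] [Module K V] [AddCommGroup Q]
    [Module K Q] (f g : V →ₗ[K] Q) (x₁ x₂ : V) (hx : ∀ s t : K, s • f x₁ + t • f x₂ = 0 → s = 0 ∧ t = 0)
    (hfg : ∀ x, f x ≠ 0 → ∃ c : K, g x = c • f x) : ∃ c : K, g = c • f := by
  have hx1 : f x₁ ≠ 0 := by
    intro h0
    have := (hx 1 0 (by simp [h0])).1
    exact one_ne_zero this
  have hx2 : f x₂ ≠ 0 := by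
    intro h0
    have := (hx 0 1 (by simp [h0])).2
    exact one_ne_zero this
  have hx12 : f (x₁ + x₂) ≠ 0 := by
    intro h0
    rw [map_add] at h0
    have := (hx 1 1 (by simpa using h0)).1
    exact one_ne_zero this
  obtain ⟨c₁, h1⟩ := hfg x₁ hx1
  obtain ⟨c₂, h2⟩ := hfg x₂ hx2
  obtain ⟨c₃, h3⟩ := hfg (x₁ + x₂) hx12
  have h13 : (c₁ - c₃) • f x₁ + (c₂ - c₃) • f x₂ = 0 := by
    rw [map_add, map_add, h1, h2, smul_add] at h3
    rw [sub_smul, sub_smul]
    have : c₁ • f x₁ + c₂ • f x₂ - (c₃ • f x₁ + c₃ • f x₂) = 0 := sub_eq_zero.2 h3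
    rw [← this]; abel
  obtain ⟨e1, e2⟩ := hx _ _ h13
  have e1' : c₁ = c₃ := sub_eq_zero.1 e1
  have e2' : c₂ = c₃ := sub_eq_zero.1 e2
  subst e1'
  subst e2'
  refine ⟨c₂, ?_⟩
  ext x
  by_contra hne
  set w : Q := g x - c₂ • f x with hw
  have hw0 : w ≠ 0 := by
    intro h0
    apply hne
    rw [LinearMap.smul_apply]
    exact sub_eq_zero.1 h0
  -- the key property
  have key : ∀ y : V, g y = c₂ • f y → f y ≠ 0 → ∃ a : K, f y = a • w := by
    intro y hy hy0
    have hwy : g (x + y) - c₂ • f (x + y) = w := by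
      rw [map_add, map_add, hy, smul_add, hw]; abel
    by_cases hu : f x = 0
    · have hxy : f (x + y) ≠ 0 := by rw [map_add, hu, zero_add]; exact hy0
      obtain ⟨b, hb⟩ := hfg (x + y) hxy
      have hwb : w = (b - c₂) • f y := by
        rw [← hwy, hb, map_add, hu, zero_add, sub_smul]
      have hb0 : b - c₂ ≠ 0 := by
        intro h0; rw [h0, zero_smul] at hwb; exact hw0 hwb
      exact ⟨(b - c₂)⁻¹, by rw [hwb, smul_smul, inv_mul_cancel₀ hb0, one_smul]⟩
    · obtain ⟨a, ha⟩ := hfg x hu
      have hwa : w = (a - c₂) • f x := by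
        rw [hw, ha, sub_smul]
      have ha0 : a - c₂ ≠ 0 := by
        intro h0; rw [h0, zero_smul] at hwa; exact hw0 hwa
      have hfx : f x = (a - c₂)⁻¹ • w := by
        rw [hwa, smul_smul, inv_mul_cancel₀ ha0, one_smul]
      by_cases hxy : f (x + y) = 0
      · refine ⟨-(a - c₂)⁻¹, ?_⟩
        rw [neg_smul, ← hfx]
        rw [map_add] at hxy
        exact (neg_eq_of_add_eq_zero_right hxy).symm
      · obtain ⟨b, hb⟩ := hfg (x + y) hxy
        have hwb : w = (b - c₂) • f (x + y) := by
          rw [← hwy, hb, sub_smul]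
        have hb0 : b - c₂ ≠ 0 := by
          intro h0; rw [h0, zero_smul] at hwb; exact hw0 hwb
        have hfxy : f (x + y) = (b - c₂)⁻¹ • w := by
          rw [hwb, smul_smul, inv_mul_cancel₀ hb0, one_smul]
        refine ⟨(b - c₂)⁻¹ - (a - c₂)⁻¹, ?_⟩
        rw [sub_smul, ← hfxy, ← hfx, map_add]; abel
  obtain ⟨a₁, ha1⟩ := key x₁ h1 hx1
  obtain ⟨a₂, ha2⟩ := key x₂ h2 hx2
  have : a₂ • f x₁ + (-a₁) • f x₂ = 0 := by
    rw [ha1, ha2, smul_smul, smul_smul, ← add_smul]
    have : a₂ * a₁ + -a₁ * a₂ = 0 := by ring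
    rw [this, zero_smul]
  have h0 := (hx _ _ this).1
  rw [h0, zero_smul] at ha2
  exact hx2 ha2

/-- reindexing -/
def Greedy_e (t : ℕ) : Fin (t + 1) ⊕ Fin (t + 1) → (Fin t ⊕ Fin t) ⊕ Fin 2 :=
  Sum.elim (Fin.cases (Sum.inr 0) (fun j => Sum.inl (Sum.inl j)))
    (Fin.cases (Sum.inr 1) (fun j => Sum.inl (Sum.inr j)))

lemma Greedy_e_injective (t : ℕ) : Function.Injective (Greedy_e t) := by
  intro a b hab
  rcases a with a | a <;> rcases b with b | b <;>
    induction a using Fin.cases <;> induction b using Fin.cases <;>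
    simp_all [Greedy_e]

theorem exists_greedy {K V : Type*} [Field K] [AddCommGroup V] [Module K V] [Module.Finite K V]
    (P : Submodule K V) (Y : V →ₗ[K] V) (r : ℕ)
    (h : ∀ c : K, r < finrank K (P.map (Y - c • LinearMap.id))) (t : ℕ) (ht : 2 * t ≤ r) :
    ∃ φ : Fin t → V, (∀ j, φ j ∈ P) ∧ LinearIndependent K (Sum.elim φ (fun j => Y (φ j))) := by
  induction t with
  | zero => exact ⟨Fin.elim0, fun j => j.elim0, linearIndependent_empty_type⟩
  | succ t ih =>
    obtain ⟨φ, hφP, hφ⟩ := ih (by omega)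
    set S : Submodule K V := Submodule.span K (Set.range (Sum.elim φ (fun j => Y (φ j)))) with hS
    have hSdim : finrank K S = 2 * t := by
      rw [hS, finrank_span_eq_card hφ]
      simp; ring
    have hexist : ∃ x ∈ P, LinearIndependent K ![S.mkQ x, S.mkQ (Y x)] := by
      by_contra hcon
      push Not at hcon
      set f : P →ₗ[K] (V ⧸ S) := S.mkQ ∘ₗ P.subtype with hf
      set g : P →ₗ[K] (V ⧸ S) := S.mkQ ∘ₗ Y ∘ₗ P.subtype with hg
      have hfg : ∀ x, f x ≠ 0 → ∃ c : K, g x = c • f x := by
        intro x hx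
        have h1 := hcon x x.2
        rw [LinearIndependent.pair_iff' (by exact hx)] at h1
        push Not at h1
        obtain ⟨a, ha⟩ := h1
        exact ⟨a, ha.symm⟩
      have hPdim : r < finrank K P := by
        refine lt_of_lt_of_le (h 0) ?_
        exact Submodule.finrank_map_le _ _
      have hker : finrank K (LinearMap.ker f) ≤ finrank K S := by
        let e : LinearMap.ker f →ₗ[K] S :=
          { toFun := fun x => ⟨(x : P), by
              have hx : f (x : P) = 0 := LinearMap.mem_ker.1 x.2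
              exact (Submodule.Quotient.mk_eq_zero S).1 hx⟩
            map_add' := by intro a b; rfl
            map_smul' := by intro a b; rfl }
        apply LinearMap.finrank_le_finrank_of_injective (f := e)
        intro a b hab
        have := congrArg (fun z : S => (z : V)) hab
        apply Subtype.ext
        apply Subtype.ext
        exact this
      have hrange : 2 ≤ finrank K (LinearMap.range f) := by
        have := LinearMap.finrank_range_add_finrank_ker f
        omega
      obtain ⟨y, hy⟩ := exists_linearIndependent_of_le_finrank (R := K) hrange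
      obtain ⟨x₁, hx₁⟩ := (y 0).2
      obtain ⟨x₂, hx₂⟩ := (y 1).2
      have hind : ∀ s t : K, s • f x₁ + t • f x₂ = 0 → s = 0 ∧ t = 0 := by
        intro s u hsu
        rw [hx₁, hx₂] at hsu
        have h0 : s • y 0 + u • y 1 = 0 := by
          apply Subtype.ext
          exact hsu
        have h1 := Fintype.linearIndependent_iff.1 hy ![s, u] (by simpa using h0)
        exact ⟨h1 0, h1 1⟩
      obtain ⟨c, hc⟩ := Greedy_prop f g x₁ x₂ hind hfg
      have hle : P.map (Y - c • LinearMap.id) ≤ S := by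
        rintro _ ⟨x, hx, rfl⟩
        have h1 := LinearMap.congr_fun hc ⟨x, hx⟩
        have h2 : S.mkQ (Y x - c • x) = 0 := by
          rw [map_sub, map_smul]
          exact sub_eq_zero.2 h1
        rw [Submodule.mkQ_apply, Submodule.Quotient.mk_eq_zero] at h2
        simpa using h2
      have h1 := h c
      have h2 := Submodule.finrank_mono hle
      omega
    obtain ⟨x, hxP, hx⟩ := hexist
    refine ⟨Fin.cons x φ, ?_, ?_⟩
    · intro j
      refine Fin.cases ?_ ?_ j
      · simpa using hxP
      · intro j; simpa using hφP j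
    · have h1 := linearIndependent_span hφ
      have h2 : LinearIndependent K (Submodule.Quotient.mk (p := S) ∘ ![x, Y x]) := by
        have : (Submodule.Quotient.mk (p := S) ∘ ![x, Y x]) = ![S.mkQ x, S.mkQ (Y x)] := by
          funext i
          fin_cases i <;> rfl
        rw [this]; exact hx
      have h3 := LinearIndependent.sumElim_of_quotient h1 ![x, Y x] h2
      have h4 := h3.comp (Greedy_e t) (Greedy_e_injective t)
      have h5 : (Sum.elim (Fin.cons x φ) (fun j => Y ((Fin.cons x φ : Fin (t + 1) → V) j)) :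
          Fin (t + 1) ⊕ Fin (t + 1) → V) =
          (Sum.elim (fun x => Sum.elim φ (fun j => Y (φ j)) x) ![x, Y x]) ∘ (Greedy_e t) := by
        funext a
        rcases a with a | a <;> induction a using Fin.cases <;> simp [Greedy_e]
      rw [h5]
      exact h4

end Pool.Agent.SRGWL
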