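import Pool.Agent.SRGWL.SosA

/-!
# The cocycle: phases for pairs (subspace, linear form), compatible with scalars
-/

namespace Pool.Agent.SRGWL.IM

open Finset Sos

set_option linter.unusedSectionVars false

variable {p : ℕ} [Fact p.Prime] {E Λ : Type} [AddCommGroup E] [Module (ZMod p) E] [Fintype E]
  [SemilatticeSup Λ] [OrderBot Λ]

variable (S : AffSys p E Λ) (d : ℕ)

/-- pairs (subspace, linear form) -/
abbrev Pr (p : ℕ) (E Λ : Type) [AddCommGroup E] [Module (ZMod p) E] : Type :=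
  Λ × (E →ₗ[ZMod p] ZMod p)

/-- a pair of small dimension, the linear form depends only on the restriction to the subspace -/
def Ad (a : Pr p E Λ) : Prop := S.dim a.1 ≤ d ∧ ∀ κ ∈ S.ker a.1, a.2 κ = 0

/-- the linear forms differ by a constant on the solutions -/
def Rl (a b : Pr p E Λ) : Prop :=
  Ad S d a ∧ Ad S d b ∧ ∀ δ ∈ S.dir (a.1 ⊔ b.1), a.2 δ = b.2 δ

/-- the phase -/
noncomputable def kap (a b : Pr p E Λ) : ZMod p := (b.2 - a.2) (S.pt (a.1 ⊔ b.1))

/-- multiplication with scalars -/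
def sm (t : ZMod p) (a : Pr p E Λ) : Pr p E Λ := (a.1, t • a.2)

variable {S d}

theorem Ad.smul {a : Pr p E Λ} (h : Ad S d a) (t : ZMod p) : Ad S d (sm t a) :=
  ⟨h.1, fun κ hκ => by
    show t • a.2 κ = 0
    rw [h.2 κ hκ, smul_zero]⟩

theorem Rl.smul {a b : Pr p E Λ} (h : Rl S d a b) (t : ZMod p) : Rl S d (sm t a) (sm t b) :=
  ⟨h.1.smul t, h.2.1.smul t, fun δ hδ => by
    show t • a.2 δ = t • b.2 δ
    rw [h.2.2 δ hδ]⟩

theorem Rl.refl {a : Pr p E Λ} (h : Ad S d a) : Rl S d a a := ⟨h, h, fun _ _ => rfl⟩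

theorem Rl.symm {a b : Pr p E Λ} (h : Rl S d a b) : Rl S d b a :=
  ⟨h.2.1, h.1, fun δ hδ => by
    rw [sup_comm] at hδ
    exact (h.2.2 δ hδ).symm⟩

theorem dim3 (hd : 3 * d ≤ S.lev) {u v w : Λ} (hu : S.dim u ≤ d) (hv : S.dim v ≤ d)
    (hw : S.dim w ≤ d) : S.dim (u ⊔ v ⊔ w) ≤ S.lev := by
  have h1 := S.dim_sup (u ⊔ v) w
  have h2 := S.dim_sup u v
  omega

/-- directions on a smaller subspace come from directions on a bigger one -/
theorem dir_lift {U U' : Λ} (h : U ≤ U') (hl : S.dim U' ≤ S.lev) {δ : E} (hδ : δ ∈ S.dir U) :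
    ∃ δ' ∈ S.dir U', δ' - δ ∈ S.ker U := by
  obtain ⟨C1, hC1, h1⟩ := S.sol_ext h hl (S.pt_mem U)
  obtain ⟨C2, hC2, h2⟩ := S.sol_ext h hl (S.add_mem_sol (S.pt_mem U) hδ)
  refine ⟨C2 - C1, S.sub_mem_dir hC2 hC1, ?_⟩
  have h3 := (S.ker U).sub_mem h2 h1
  have h4 : C2 - (S.pt U + δ) - (C1 - S.pt U) = C2 - C1 - δ := by abel
  rwa [h4] at h3

theorem dir_mono {U U' : Λ} (h : U ≤ U') (hl : S.dim U' ≤ S.lev) : S.dir U' ≤ S.dir U := by
  intro c hc
  have h1 := S.sol_mono h hl (S.add_mem_sol (S.pt_mem U') hc)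
  have h2 := S.sol_mono h hl (S.pt_mem U')
  have h3 := S.sub_mem_dir h1 h2
  rwa [add_sub_cancel_left] at h3

theorem Rl.trans (hd : 3 * d ≤ S.lev) {a b c : Pr p E Λ} (h : Rl S d a b) (h' : Rl S d b c) :
    Rl S d a c := by
  refine ⟨h.1, h'.2.1, fun δ hδ => ?_⟩
  have hl := dim3 hd h.1.1 h.2.1.1 h'.2.1.1
  obtain ⟨δ', hδ', hk⟩ := dir_lift (sup_le (le_sup_left.trans le_sup_left) le_sup_right) hl hδ
  have h1 : a.2 δ' = b.2 δ' := h.2.2 δ' (dir_mono le_sup_left hl hδ')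
  have h2 : b.2 δ' = c.2 δ' := h'.2.2 δ'
    (dir_mono (sup_le (le_sup_right.trans le_sup_left) le_sup_right) hl hδ')
  have h3 : a.2 (δ' - δ) = 0 := h.1.2 _ (S.ker_anti _ _ le_sup_left hk)
  have h4 : c.2 (δ' - δ) = 0 := h'.2.1.2 _ (S.ker_anti _ _ le_sup_right hk)
  rw [map_sub, sub_eq_zero] at h3 h4
  rw [← h3, ← h4, h1, h2]

/-- the phase can be computed from any solution -/
theorem kap_eq {a b : Pr p E Λ} (h : Rl S d a b) {C : E} (hC : C ∈ S.sol (a.1 ⊔ b.1)) :
    (b.2 - a.2) C = kap S a b := by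
  have h1 := h.2.2 _ (S.sub_mem_dir hC (S.pt_mem _))
  unfold kap
  have h2 : (b.2 - a.2) (C - S.pt (a.1 ⊔ b.1)) = 0 := by
    rw [LinearMap.sub_apply, h1, sub_self]
  rw [map_sub, sub_eq_zero] at h2
  exact h2

theorem kap_trans (hd : 3 * d ≤ S.lev) {a b c : Pr p E Λ} (h : Rl S d a b) (h' : Rl S d b c) :
    kap S a c = kap S a b + kap S b c := by
  have hl := dim3 hd h.1.1 h.2.1.1 h'.2.1.1
  have hC := S.pt_mem (a.1 ⊔ b.1 ⊔ c.1)
  rw [← kap_eq h (S.sol_mono le_sup_left hl hC),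
    ← kap_eq h' (S.sol_mono (sup_le (le_sup_right.trans le_sup_left) le_sup_right) hl hC),
    ← kap_eq (h.trans hd h') (S.sol_mono (sup_le (le_sup_left.trans le_sup_left) le_sup_right) hl hC)]
  simp only [LinearMap.sub_apply]
  ring

theorem kap_self (a : Pr p E Λ) : kap S a a = 0 := by
  unfold kap
  rw [sub_self, LinearMap.zero_apply]

theorem kap_smul (t : ZMod p) (a b : Pr p E Λ) : kap S (sm t a) (sm t b) = t * kap S a b := by
  show (t • b.2 - t • a.2) (S.pt (a.1 ⊔ b.1)) = t * (b.2 - a.2) (S.pt (a.1 ⊔ b.1))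
  simp only [LinearMap.sub_apply, LinearMap.smul_apply, smul_eq_mul]
  ring

theorem sm_sm (s t : ZMod p) (a : Pr p E Λ) : sm s (sm t a) = sm (s * t) a := by
  unfold sm
  rw [smul_smul]

theorem sm_one (a : Pr p E Λ) : sm 1 a = a := by
  unfold sm
  rw [one_smul]

variable (S d)

/-- related up to a scalar -/
def Rs (a b : Pr p E Λ) : Prop := ∃ t : ZMod p, t ≠ 0 ∧ Rl S d a (sm t b)

variable {S d}

theorem Rs.symm {a b : Pr p E Λ} (h : Rs S d a b) : Rs S d b a := by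
  obtain ⟨t, ht, h⟩ := h
  refine ⟨t⁻¹, inv_ne_zero ht, ?_⟩
  have h1 := h.symm.smul t⁻¹
  rwa [sm_sm, inv_mul_cancel₀ ht, sm_one] at h1

theorem Rs.trans (hd : 3 * d ≤ S.lev) {a b c : Pr p E Λ} (h : Rs S d a b) (h' : Rs S d b c) :
    Rs S d a c := by
  obtain ⟨t, ht, h⟩ := h
  obtain ⟨s, hs, h'⟩ := h'
  refine ⟨t * s, mul_ne_zero ht hs, ?_⟩
  have h1 := h'.smul t
  rw [sm_sm] at h1
  exact h.trans hd h1

theorem Rs.of_Rl {a b : Pr p E Λ} (h : Rl S d a b) : Rs S d a b :=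
  ⟨1, one_ne_zero, by rwa [sm_one]⟩

theorem exists_rep (hd : 3 * d ≤ S.lev) : ∃ rep : Pr p E Λ → Pr p E Λ,
    (∀ a b, Rs S d a b → rep a = rep b) ∧ ∀ a, Ad S d a → Rs S d a (rep a) := by
  let st : Setoid (Pr p E Λ) :=
    { r := fun a b => a = b ∨ Rs S d a b
      iseqv :=
        { refl := fun a => Or.inl rfl
          symm := by
            rintro a b (h | h)
            · exact Or.inl h.symm
            · exact Or.inr h.symm
          trans := by
            rintro a b c (h | h) (h' | h')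
            · exact Or.inl (h.trans h')
            · rw [h]; exact Or.inr h'
            · rw [← h']; exact Or.inr h
            · exact Or.inr (h.trans hd h') } }
  refine ⟨fun a => (Quotient.mk st a).out, fun a b h => ?_, fun a ha => ?_⟩
  · have : Quotient.mk st a = Quotient.mk st b := Quotient.sound (Or.inr h)
    show (Quotient.mk st a).out = (Quotient.mk st b).out
    rw [this]
  · have h1 : st.r (Quotient.mk st a).out a := Quotient.exact (Quotient.out_eq _)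
    rcases h1 with h1 | h1
    · show Rs S d a (Quotient.mk st a).out
      rw [h1]
      exact Rs.of_Rl (Rl.refl ha)
    · exact h1.symm

/-- the linear form vanishes on the directions -/
def Tr (S : AffSys p E Λ) (a : Pr p E Λ) : Prop := ∀ δ ∈ S.dir a.1, a.2 δ = 0

theorem Tr.of_Rl (hd : 3 * d ≤ S.lev) {a b : Pr p E Λ} (h : Rl S d a b) (ha : Tr S a) : Tr S b := by
  intro δ hδ
  have hl : S.dim (a.1 ⊔ b.1) ≤ S.lev := by
    have := S.dim_sup a.1 b.1
    have h1 := h.1.1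
    have h2 := h.2.1.1
    omega
  obtain ⟨δ', hδ', hk⟩ := dir_lift (le_sup_right : b.1 ≤ a.1 ⊔ b.1) hl hδ
  have h1 : a.2 δ' = b.2 δ' := h.2.2 δ' hδ'
  have h2 : a.2 δ' = 0 := ha δ' (dir_mono le_sup_left hl hδ')
  have h3 : b.2 (δ' - δ) = 0 := h.2.1.2 _ hk
  rw [map_sub, sub_eq_zero] at h3
  rw [← h3, ← h1, h2]

/-- the scalar is unique -/
theorem scalar_unique (hd : 3 * d ≤ S.lev) {a ρ : Pr p E Λ} (hn : ¬ Tr S a) {t t' : ZMod p}
    (h : Rl S d a (sm t ρ)) (h' : Rl S d a (sm t' ρ)) : t = t' := by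
  by_contra hne
  apply hn
  have h1 := h.symm.trans hd h'
  have h2 : Tr S ρ := by
    intro δ hδ
    have h3 : t • ρ.2 δ = t' • ρ.2 δ := h1.2.2 δ (by
      show δ ∈ S.dir (ρ.1 ⊔ ρ.1)
      rwa [sup_idem])
    rw [smul_eq_mul, smul_eq_mul, ← sub_eq_zero, ← sub_mul] at h3
    exact (mul_eq_zero.mp h3).resolve_left (sub_ne_zero.mpr hne)
  have h3 : Tr S (sm t ρ) := by
    intro δ hδ
    show t • ρ.2 δ = 0
    rw [h2 δ hδ, smul_zero]
  exact Tr.of_Rl hd h.symm h3

theorem Tr.smul_iff {a : Pr p E Λ} {s : ZMod p} (hs : s ≠ 0) : Tr S (sm s a) ↔ Tr S a := by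
  constructor
  · intro h δ hδ
    have h1 : s • a.2 δ = 0 := h δ hδ
    exact (smul_eq_zero.mp h1).resolve_left hs
  · intro h δ hδ
    show s • a.2 δ = 0
    rw [h δ hδ, smul_zero]

/-- **The phases.** -/
theorem exists_phase (hd : 3 * d ≤ S.lev) : ∃ y : Pr p E Λ → ZMod p,
    (∀ a b, Rl S d a b → y b = y a + kap S a b) ∧
    (∀ a, Ad S d a → ∀ s : ZMod p, s ≠ 0 → y (sm s a) = s * y a) := by
  classical
  obtain ⟨rep, hrep1, hrep2⟩ := exists_rep (S := S) (d := d) hd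
  have hex : ∀ a : Pr p E Λ, ∃ t : ZMod p, Ad S d a → (t ≠ 0 ∧ Rl S d a (sm t (rep a))) := by
    intro a
    by_cases ha : Ad S d a
    · obtain ⟨t, ht, h⟩ := hrep2 a ha
      exact ⟨t, fun _ => ⟨ht, h⟩⟩
    · exact ⟨1, fun h => absurd h ha⟩
  choose sc hsc using hex
  refine ⟨fun a => if Tr S a then a.2 (S.pt a.1) else kap S (sm (sc a) (rep a)) a, ?_, ?_⟩
  · intro a b h
    have ha := h.1
    have hb := h.2.1
    by_cases hT : Tr S a
    · have hT' := Tr.of_Rl hd h hT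
      simp only [if_pos hT, if_pos hT']
      have hl : S.dim (a.1 ⊔ b.1) ≤ S.lev := by
        have := S.dim_sup a.1 b.1
        have h1 := h.1.1
        have h2 := h.2.1.1
        omega
      have h1 := hT _ (S.sub_mem_dir (S.sol_mono le_sup_left hl (S.pt_mem (a.1 ⊔ b.1)))
        (S.pt_mem a.1))
      have h2 := hT' _ (S.sub_mem_dir (S.sol_mono le_sup_right hl (S.pt_mem (a.1 ⊔ b.1)))
        (S.pt_mem b.1))
      rw [map_sub, sub_eq_zero] at h1 h2
      unfold kap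
      rw [LinearMap.sub_apply, ← h1, ← h2]
      ring
    · have hT' : ¬ Tr S b := fun h' => hT (Tr.of_Rl hd h.symm h')
      simp only [if_neg hT, if_neg hT']
      have hr : rep a = rep b := hrep1 a b (Rs.of_Rl h)
      have h1 := (hsc a ha).2
      have h2 := (hsc b hb).2
      rw [← hr] at h2
      have h3 : sc a = sc b := scalar_unique hd hT h1 (h.trans hd h2)
      rw [← hr, ← h3]
      exact kap_trans hd h1.symm h
  · intro a ha s hs
    have ha' := ha.smul s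
    by_cases hT : Tr S a
    · have hT' : Tr S (sm s a) := (Tr.smul_iff hs).mpr hT
      simp only [if_pos hT, if_pos hT']
      rfl
    · have hT' : ¬ Tr S (sm s a) := fun h => hT ((Tr.smul_iff hs).mp h)
      simp only [if_neg hT, if_neg hT']
      have hr : rep (sm s a) = rep a := by
        apply hrep1
        exact ⟨s, hs, Rl.refl ha'⟩
      have h1 := (hsc a ha).2
      have h2 := (hsc _ ha').2
      rw [hr] at h2 ⊢
      have h3 : sc (sm s a) = s * sc a := by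
        have h4 := h1.smul s
        rw [sm_sm] at h4
        exact scalar_unique hd hT' h2 h4
      rw [h3, ← sm_sm, kap_smul]

end Pool.Agent.SRGWL.IM
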