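import Pool.Agent.SRGWL.SosB
import Pool.Agent.SRGWL.IMY

/-!
# The intertwiner
-/

namespace Pool.Agent.SRGWL.IM

open Finset Sos

set_option linter.unusedSectionVars false

variable {p : ℕ} [Fact p.Prime] {E Λ : Type} [AddCommGroup E] [Module (ZMod p) E] [Fintype E]
  [SemilatticeSup Λ] [OrderBot Λ] {K : Type} [Field K]

theorem card_dual : Fintype.card (E →ₗ[ZMod p] ZMod p) = Fintype.card E := by
  rw [← Nat.card_eq_fintype_card, ← Nat.card_eq_fintype_card,
    Module.natCard_eq_pow_finrank (K := ZMod p),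
    Module.natCard_eq_pow_finrank (K := ZMod p) (V := E)]
  congr 1
  exact Subspace.dual_finrank_eq

theorem card_ne_zero (hp : (p : K) ≠ 0) : (Fintype.card E : K) ≠ 0 := by
  rw [← card_dual (p := p)]
  exact card_dual_ne_zero hp

variable (e : AddChar (ZMod p) K)

open Classical in
theorem sum_char' (he : ∀ a, e a = 1 → a = 0) (μ : E →ₗ[ZMod p] ZMod p) :
    ∑ C : E, e (μ C) = if μ = 0 then (Fintype.card E : K) else 0 := by
  by_cases hμ : μ = 0
  · rw [if_pos hμ, hμ]
    simp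
  · rw [if_neg hμ]
    obtain ⟨x, hx⟩ : ∃ x : E, μ x ≠ 0 := by
      by_contra hcon
      push Not at hcon
      exact hμ (LinearMap.ext hcon)
    have h1 : ∑ C : E, e (μ C) = e (μ x) * ∑ C : E, e (μ C) := by
      rw [Finset.mul_sum, ← Equiv.sum_comp (Equiv.addRight x) (fun C : E => e (μ C))]
      refine Finset.sum_congr rfl (fun C _ => ?_)
      rw [Equiv.coe_addRight, map_add, AddChar.map_add_eq_mul, mul_comm]
    have h2 : (1 - e (μ x)) * ∑ C : E, e (μ C) = 0 := by
      rw [sub_mul, one_mul, ← h1, sub_self]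
    exact (mul_eq_zero.mp h2).resolve_left (sub_ne_zero.mpr (fun h => hx (he _ h.symm)))

/-- the kernel with Fourier transform `x` -/
noncomputable def sg (x : Pr p E Λ → K) (u : Λ) (C : E) : K :=
  (Fintype.card E : K)⁻¹ * ∑ l : E →ₗ[ZMod p] ZMod p, x (u, l) * e (-(l C))

theorem sg_conv (hp : (p : K) ≠ 0) (he : ∀ a, e a = 1 → a = 0) (x x' : Pr p E Λ → K) (u : Λ)
    (C : E) : ∑ C1, sg e x u C1 * sg e x' u (C - C1) = sg e (fun a => x a * x' a) u C := by
  classical
  have hn := card_ne_zero (E := E) hp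
  have h1 : ∀ C1 : E, sg e x u C1 * sg e x' u (C - C1) =
      ∑ l : E →ₗ[ZMod p] ZMod p, ∑ l' : E →ₗ[ZMod p] ZMod p,
        ((Fintype.card E : K)⁻¹ * (Fintype.card E : K)⁻¹ * (x (u, l) * x' (u, l')) *
          e (-(l' C))) * e ((l' - l) C1) := by
    intro C1
    unfold sg
    rw [mul_mul_mul_comm, Finset.sum_mul_sum, Finset.mul_sum]
    refine Finset.sum_congr rfl (fun l _ => ?_)
    rw [Finset.mul_sum]
    refine Finset.sum_congr rfl (fun l' _ => ?_)
    have h2 : e (-(l C1)) * e (-(l' (C - C1))) = e (-(l' C)) * e ((l' - l) C1) := by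
      rw [← AddChar.map_add_eq_mul, ← AddChar.map_add_eq_mul]
      congr 1
      rw [map_sub, LinearMap.sub_apply]
      ring
    linear_combination ((Fintype.card E : K)⁻¹ * (Fintype.card E : K)⁻¹ *
      (x (u, l) * x' (u, l'))) * h2
  simp_rw [h1]
  rw [Finset.sum_comm]
  unfold sg
  rw [Finset.mul_sum]
  refine Finset.sum_congr rfl (fun l _ => ?_)
  rw [Finset.sum_comm]
  simp_rw [← Finset.mul_sum]
  rw [Finset.sum_eq_single l]
  · rw [sum_char' e he, if_pos (sub_self l)]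
    field_simp
  · intro l' _ hl'
    rw [sum_char' e he, if_neg (sub_ne_zero.mpr hl'), mul_zero]
  · intro h
    exact absurd (Finset.mem_univ _) h

open Classical in
theorem sg_one (hp : (p : K) ≠ 0) (he : ∀ a, e a = 1 → a = 0) (u : Λ) (C : E) :
    sg e (fun _ => 1) u C = if C = 0 then 1 else 0 := by
  unfold sg
  have h1 : ∑ l : E →ₗ[ZMod p] ZMod p, (1 : K) * e (-(l C)) =
      ∑ l : E →ₗ[ZMod p] ZMod p, e (l (-C)) := by
    refine Finset.sum_congr rfl (fun l _ => ?_)
    rw [one_mul, ← map_neg l]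
  rw [h1, sum_char e he, card_dual]
  by_cases hC : C = 0
  · rw [if_pos (by rw [hC, neg_zero]), if_pos hC, inv_mul_cancel₀ (card_ne_zero (E := E) hp)]
  · rw [if_neg (by rwa [neg_eq_zero]), if_neg hC, mul_zero]

theorem inv1 (hp : (p : K) ≠ 0) (he : ∀ a, e a = 1 → a = 0) (g : E → K) (R : E) :
    g R = (Fintype.card E : K)⁻¹ * ∑ m : E →ₗ[ZMod p] ZMod p, ∑ C : E, e (m (C - R)) * g C := by
  classical
  rw [Finset.sum_comm]
  simp_rw [← Finset.sum_mul, sum_char e he, sub_eq_zero]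
  rw [Finset.sum_eq_single R]
  · rw [if_pos rfl, card_dual, ← mul_assoc, inv_mul_cancel₀ (card_ne_zero (E := E) hp), one_mul]
  · intro C _ hC
    rw [if_neg hC, zero_mul]
  · intro h
    exact absurd (Finset.mem_univ _) h

theorem inv2 (hp : (p : K) ≠ 0) (he : ∀ a, e a = 1 → a = 0) (g : E → K) (R : E) :
    g R = (Fintype.card E : K)⁻¹ * ∑ m : E →ₗ[ZMod p] ZMod p, ∑ C : E, e (m (R - C)) * g C := by
  conv_lhs => rw [inv1 e hp he g R]
  congr 1
  rw [← Equiv.sum_comp (Equiv.neg (E →ₗ[ZMod p] ZMod p))]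
  refine Finset.sum_congr rfl (fun m _ => Finset.sum_congr rfl (fun C _ => ?_))
  rw [Equiv.neg_apply, LinearMap.neg_apply, ← map_neg, neg_sub]

/-- the double Fourier transform -/
noncomputable def ft (N : E → E → K) (l m : E →ₗ[ZMod p] ZMod p) : K :=
  ∑ C : E, ∑ C' : E, e (m C' - l C) * N C C'

theorem ft_shift (N : E → E → K) (l m : E →ₗ[ZMod p] ZMod p) (a b : E)
    (h : ∀ C C', N (C + a) (C' + b) = N C C') : ft e N l m = e (m b - l a) * ft e N l m := by
  conv_lhs => unfold ft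
  rw [← Equiv.sum_comp (Equiv.addRight a)]
  unfold ft
  rw [Finset.mul_sum]
  refine Finset.sum_congr rfl (fun C _ => ?_)
  rw [← Equiv.sum_comp (Equiv.addRight b), Finset.mul_sum]
  refine Finset.sum_congr rfl (fun C' _ => ?_)
  rw [Equiv.coe_addRight, Equiv.coe_addRight, h, ← mul_assoc, ← AddChar.map_add_eq_mul]
  congr 2
  rw [map_add, map_add]
  ring

theorem ft_zero (he : ∀ a, e a = 1 → a = 0) {N : E → E → K} {l m : E →ₗ[ZMod p] ZMod p}
    (hne : ft e N l m ≠ 0) {a b : E} (h : ∀ C C', N (C + a) (C' + b) = N C C') :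
    m b - l a = 0 := by
  have h1 := ft_shift e N l m a b h
  have h2 : (1 - e (m b - l a)) * ft e N l m = 0 := by
    rw [sub_mul, one_mul, ← h1, sub_self]
  have h3 := (mul_eq_zero.mp h2).resolve_right hne
  exact he _ (sub_eq_zero.mp h3).symm

theorem sg_intertwine (hp : (p : K) ≠ 0) (he : ∀ a, e a = 1 → a = 0) (T : AffSys p E Λ) {D : ℕ}
    {x : Pr p E Λ → K}
    (hx : ∀ a b, Rl T D a b → ∀ R ∈ T.sol (a.1 ⊔ b.1), x b = x a * e ((b.2 - a.2) R))
    {u v : Λ} (hu : T.dim u ≤ D) (hv : T.dim v ≤ D) {R : E} (hR : R ∈ T.sol (u ⊔ v))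
    (N : E → E → K) (h1 : ∀ κ ∈ T.ker u, ∀ C C', N (C + κ) C' = N C C')
    (h2 : ∀ κ ∈ T.ker v, ∀ C C', N C (C' + κ) = N C C')
    (h3 : ∀ δ ∈ T.dir (u ⊔ v), ∀ C C', N (C + δ) (C' + δ) = N C C') :
    ∑ C, sg e x u C * N C 0 = ∑ C, sg e x v C * N R (R - C) := by
  have hL : ∑ C, sg e x u C * N C 0 = (Fintype.card E : K)⁻¹ * (Fintype.card E : K)⁻¹ *
      ∑ l : E →ₗ[ZMod p] ZMod p, ∑ m : E →ₗ[ZMod p] ZMod p, x (u, l) * ft e N l m := by
    have h4 : ∀ C : E, sg e x u C * N C 0 = (Fintype.card E : K)⁻¹ * (Fintype.card E : K)⁻¹ *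
        ∑ l : E →ₗ[ZMod p] ZMod p, ∑ m : E →ₗ[ZMod p] ZMod p,
          x (u, l) * ∑ C' : E, e (m C' - l C) * N C C' := by
      intro C
      conv_lhs => rw [inv1 e hp he (N C) 0]
      unfold sg
      rw [mul_mul_mul_comm, Finset.sum_mul_sum]
      congr 1
      refine Finset.sum_congr rfl (fun l _ => Finset.sum_congr rfl (fun m _ => ?_))
      rw [mul_assoc, Finset.mul_sum]
      congr 1
      refine Finset.sum_congr rfl (fun C' _ => ?_)
      rw [← mul_assoc, ← AddChar.map_add_eq_mul, sub_zero]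
      congr 2
      ring
    simp_rw [h4]
    rw [← Finset.mul_sum, Finset.sum_comm]
    congr 1
    refine Finset.sum_congr rfl (fun l _ => ?_)
    rw [Finset.sum_comm]
    refine Finset.sum_congr rfl (fun m _ => ?_)
    unfold ft
    rw [Finset.mul_sum]
  have hRR : ∑ C, sg e x v C * N R (R - C) = (Fintype.card E : K)⁻¹ * (Fintype.card E : K)⁻¹ *
      ∑ l : E →ₗ[ZMod p] ZMod p, ∑ m : E →ₗ[ZMod p] ZMod p,
        x (v, m) * e ((l - m) R) * ft e N l m := by
    have h5 : ∑ C, sg e x v C * N R (R - C) = ∑ C', sg e x v (R - C') * N R C' := by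
      rw [← Equiv.sum_comp (Equiv.subLeft R)]
      refine Finset.sum_congr rfl (fun C _ => ?_)
      rw [Equiv.subLeft_apply, sub_sub_cancel]
    rw [h5]
    have h4 : ∀ C' : E, sg e x v (R - C') * N R C' = (Fintype.card E : K)⁻¹ *
        (Fintype.card E : K)⁻¹ * ∑ m : E →ₗ[ZMod p] ZMod p, ∑ l : E →ₗ[ZMod p] ZMod p,
          x (v, m) * e ((l - m) R) * ∑ C : E, e (m C' - l C) * N C C' := by
      intro C'
      have h6 : N R C' = (Fintype.card E : K)⁻¹ *
          ∑ l : E →ₗ[ZMod p] ZMod p, ∑ C : E, e (l (R - C)) * N C C' :=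
        inv2 e hp he (fun C => N C C') R
      conv_lhs => rw [h6]
      unfold sg
      rw [mul_mul_mul_comm, Finset.sum_mul_sum]
      congr 1
      refine Finset.sum_congr rfl (fun m _ => Finset.sum_congr rfl (fun l _ => ?_))
      rw [Finset.mul_sum, Finset.mul_sum]
      refine Finset.sum_congr rfl (fun C _ => ?_)
      have h7 : e (-(m (R - C'))) * e (l (R - C)) = e ((l - m) R) * e (m C' - l C) := by
        rw [← AddChar.map_add_eq_mul, ← AddChar.map_add_eq_mul]
        congr 1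
        rw [map_sub, map_sub, LinearMap.sub_apply]
        ring
      linear_combination (x (v, m) * N C C') * h7
    simp_rw [h4]
    rw [← Finset.mul_sum]
    congr 1
    rw [Finset.sum_congr rfl (fun C' _ => Finset.sum_comm), Finset.sum_comm]
    refine Finset.sum_congr rfl (fun l _ => ?_)
    rw [Finset.sum_comm]
    refine Finset.sum_congr rfl (fun m _ => ?_)
    rw [← Finset.mul_sum, Finset.sum_comm]
    rfl
  rw [hL, hRR]
  congr 1
  refine Finset.sum_congr rfl (fun l _ => Finset.sum_congr rfl (fun m _ => ?_))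
  by_cases h0 : ft e N l m = 0
  · rw [h0, mul_zero, mul_zero]
  · have hl : ∀ κ ∈ T.ker u, l κ = 0 := by
      intro κ hκ
      have h6 := ft_zero e he h0 (a := κ) (b := 0) (fun C C' => by rw [add_zero, h1 κ hκ])
      rw [map_zero, zero_sub, neg_eq_zero] at h6
      exact h6
    have hm : ∀ κ ∈ T.ker v, m κ = 0 := by
      intro κ hκ
      have h6 := ft_zero e he h0 (a := 0) (b := κ) (fun C C' => by rw [add_zero, h2 κ hκ])
      rw [map_zero, sub_zero] at h6
      exact h6
    have hr : Rl T D (v, m) (u, l) := by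
      refine ⟨⟨hv, hm⟩, ⟨hu, hl⟩, fun δ hδ => ?_⟩
      have h6 := ft_zero e he h0 (a := δ) (b := δ)
        (fun C C' => h3 δ (by rw [sup_comm]; exact hδ) C C')
      exact sub_eq_zero.mp h6
    rw [hx _ _ hr R (by rw [sup_comm]; exact hR)]

end Pool.Agent.SRGWL.IM
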