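import Pool.Agent.SRGWL.IMA

/-!
# The intertwiner over every field of characteristic different from `p`
-/

namespace Pool.Agent.SRGWL.IM

open Finset Sos

set_option linter.unusedSectionVars false

variable {p : ℕ} [Fact p.Prime] {E Λ : Type} [AddCommGroup E] [Module (ZMod p) E] [Fintype E]
  [SemilatticeSup Λ] [OrderBot Λ]

/-- the kernel lies in the smaller field -/
theorem sg_fixed {F K : Type} [Field F] [Field K] [Algebra F K] {ζ : K} (hζ : IsPrimitiveRoot ζ p)
    (y : Pr p E Λ → ZMod p) (hy : ∀ t : ZMod p, t ≠ 0 → ∀ a, y (sm t a) = t * y a)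
    (g : K ≃ₐ[F] K) (u : Λ) (C : E) :
    g (sg (AddChar.zmodChar p hζ.pow_eq_one) (fun a => AddChar.zmodChar p hζ.pow_eq_one (y a)) u C)
      = sg (AddChar.zmodChar p hζ.pow_eq_one)
        (fun a => AddChar.zmodChar p hζ.pow_eq_one (y a)) u C := by
  have hgζ : (g ζ) ^ p = 1 := by rw [← map_pow, hζ.pow_eq_one, map_one]
  obtain ⟨j, -, hj⟩ := hζ.eq_pow_of_pow_eq_one hgζ
  have hg : ∀ a : ZMod p, g (AddChar.zmodChar p hζ.pow_eq_one a) =
      AddChar.zmodChar p hζ.pow_eq_one ((j : ZMod p) * a) := by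
    intro a
    have h1 : ((j : ZMod p) * a) = ((j * a.val : ℕ) : ZMod p) := by
      push_cast
      rw [ZMod.natCast_zmod_val]
    rw [h1, AddChar.zmodChar_apply', AddChar.zmodChar_apply, map_pow, ← hj, ← pow_mul]
  have ht : (j : ZMod p) ≠ 0 := by
    intro h0
    have h1 := hg 1
    rw [h0, zero_mul, AddChar.map_zero_eq_one] at h1
    have h2 : AddChar.zmodChar p hζ.pow_eq_one (1 : ZMod p) = 1 := by
      apply g.injective
      rw [h1, map_one]
    have h3 : AddChar.zmodChar p hζ.pow_eq_one ((1 : ℕ) : ZMod p) = ζ ^ 1 :=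
      AddChar.zmodChar_apply' _ _
    rw [Nat.cast_one, h2, pow_one] at h3
    exact hζ.ne_one (Nat.Prime.one_lt Fact.out) h3.symm
  unfold sg
  rw [map_mul, map_inv₀, map_natCast, map_sum]
  congr 1
  refine Fintype.sum_bijective (fun l : E →ₗ[ZMod p] ZMod p => (j : ZMod p) • l) ?_ _ _ ?_
  · constructor
    · intro a b hab
      exact smul_right_injective _ ht hab
    · intro b
      exact ⟨(j : ZMod p)⁻¹ • b, smul_inv_smul₀ ht b⟩
  · intro l
    rw [map_mul, hg, hg]
    have h1 : y (u, (j : ZMod p) • l) = (j : ZMod p) * y (u, l) := hy _ ht (u, l)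
    beta_reduce
    rw [h1, LinearMap.smul_apply, smul_eq_mul, mul_neg]

open Classical in
/-- **The kernel over every field of characteristic different from `p`.** -/
theorem exists_sigma (F : Type) [Field F] (hp : (p : F) ≠ 0) (T : AffSys p E Λ) {D : ℕ}
    (hD : 3 * D ≤ T.lev) : ∃ σ σ' : Λ → E → F,
    (∀ u C, ∑ C1, σ u C1 * σ' u (C - C1) = if C = 0 then 1 else 0) ∧
    (∀ u v, T.dim u ≤ D → T.dim v ≤ D → ∀ R ∈ T.sol (u ⊔ v), ∀ N : E → E → F,
      (∀ κ ∈ T.ker u, ∀ C C', N (C + κ) C' = N C C') →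
      (∀ κ ∈ T.ker v, ∀ C C', N C (C' + κ) = N C C') →
      (∀ δ ∈ T.dir (u ⊔ v), ∀ C C', N (C + δ) (C' + δ) = N C C') →
      ∑ C, σ u C * N C 0 = ∑ C, σ v C * N R (R - C)) := by
  have : NeZero ((p : ℕ) : F) := ⟨hp⟩
  have : NeZero p := ⟨(Fact.out : p.Prime).ne_zero⟩
  let K := CyclotomicField p F
  have hpK : ((p : ℕ) : K) ≠ 0 := by
    rw [← map_natCast (algebraMap F K)]
    exact (map_ne_zero _).mpr hp
  have : NeZero ((p : ℕ) : K) := ⟨hpK⟩
  have hζ : IsPrimitiveRoot (IsCyclotomicExtension.zeta p F K) p :=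
    IsCyclotomicExtension.zeta_spec p F K
  obtain ⟨ζ, hζ'⟩ : ∃ ζ : K, IsPrimitiveRoot ζ p := ⟨_, hζ⟩
  have : IsGalois F K := IsCyclotomicExtension.isGalois {p} F K
  have : FiniteDimensional F K := IsCyclotomicExtension.finiteDimensional {p} F K
  let e : AddChar (ZMod p) K := AddChar.zmodChar p hζ'.pow_eq_one
  have he : ∀ a, e a = 1 → a = 0 := by
    intro a ha
    rw [AddChar.zmodChar_apply] at ha
    have h1 := hζ'.dvd_of_pow_eq_one _ ha
    have h2 : a.val = 0 := Nat.eq_zero_of_dvd_of_lt h1 (ZMod.val_lt a)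
    exact (ZMod.val_eq_zero a).mp h2
  obtain ⟨y0, hy1, hy2⟩ := exists_phase (S := T) (d := D) hD
  let y : Pr p E Λ → ZMod p := fun a => if Ad T D a then y0 a else 0
  have hy : ∀ t : ZMod p, t ≠ 0 → ∀ a, y (sm t a) = t * y a := by
    intro t ht a
    by_cases ha : Ad T D a
    · have ha' := ha.smul t
      show (if Ad T D (sm t a) then y0 (sm t a) else 0) = t * (if Ad T D a then y0 a else 0)
      rw [if_pos ha, if_pos ha', hy2 a ha t ht]
    · have ha' : ¬ Ad T D (sm t a) := by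
        intro h
        apply ha
        have h1 := h.smul t⁻¹
        rwa [sm_sm, inv_mul_cancel₀ ht, sm_one] at h1
      show (if Ad T D (sm t a) then y0 (sm t a) else 0) = t * (if Ad T D a then y0 a else 0)
      rw [if_neg ha, if_neg ha', mul_zero]
  have hy' : ∀ t : ZMod p, t ≠ 0 → ∀ a, -y (sm t a) = t * -y a := by
    intro t ht a
    rw [hy t ht a, mul_neg]
  have hex : ∀ (u : Λ) (C : E), ∃ s : F, algebraMap F K s = sg e (fun a => e (y a)) u C := by
    intro u C
    exact (IsGalois.mem_range_algebraMap_iff_fixed _).mpr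
      (fun g => sg_fixed hζ' y hy g u C)
  have hex' : ∀ (u : Λ) (C : E), ∃ s : F, algebraMap F K s = sg e (fun a => e (-y a)) u C := by
    intro u C
    exact (IsGalois.mem_range_algebraMap_iff_fixed _).mpr
      (fun g => sg_fixed hζ' (fun a => -y a) hy' g u C)
  choose σ hσ using hex
  choose σ' hσ' using hex'
  refine ⟨σ, σ', fun u C => ?_, fun u v hu hv R hR N h1 h2 h3 => ?_⟩
  · apply (algebraMap F K).injective
    rw [map_sum]
    simp_rw [map_mul, hσ, hσ']
    rw [sg_conv e hpK he]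
    have h1 : (fun a : Pr p E Λ => e (y a) * e (-y a)) = fun _ => 1 := by
      funext a
      rw [← AddChar.map_add_eq_mul, add_neg_cancel, AddChar.map_zero_eq_one]
    rw [h1, sg_one e hpK he]
    by_cases hC : C = 0
    · rw [if_pos hC, if_pos hC, map_one]
    · rw [if_neg hC, if_neg hC, map_zero]
  · apply (algebraMap F K).injective
    rw [map_sum, map_sum]
    simp_rw [map_mul, hσ]
    refine sg_intertwine e hpK he T (D := D) ?_ hu hv hR (fun C C' => algebraMap F K (N C C'))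
      (fun κ hκ C C' => by rw [h1 κ hκ]) (fun κ hκ C C' => by rw [h2 κ hκ])
      (fun δ hδ C C' => by rw [h3 δ hδ])
    intro a b h R hR
    rw [← AddChar.map_add_eq_mul]
    congr 1
    show (if Ad T D b then y0 b else 0) = (if Ad T D a then y0 a else 0) + _
    rw [if_pos h.1, if_pos h.2.1, hy1 a b h, kap_eq h hR]

/-- **The intertwiner.** -/
theorem exists_intertwiner (F : Type) [Field F] (hp : (p : F) ≠ 0) (T : AffSys p E Λ) {D : ℕ}
    (hD : 3 * D ≤ T.lev) {W : Type} [Fintype W] [AddAction E W] (U : W → Λ)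
    (hU : ∀ (C : E) a, U (C +ᵥ a) = U a) (hdim : ∀ a, T.dim (U a) ≤ D)
    (hker : ∀ a, ∀ κ ∈ T.ker (U a), κ +ᵥ a = a) :
    ∃ S : (W → F) ≃ₗ[F] (W → F), ∀ M M' : Matrix W W F,
      (∀ a b, ∀ C ∈ T.sol (U a ⊔ U b), M' (C +ᵥ a) (C +ᵥ b) = M a b) →
      ∀ v, S (M.mulVec v) = M'.mulVec (S v) := by
  classical
  obtain ⟨σ, σ', h1, h2⟩ := exists_sigma F hp T hD
  have h1' : ∀ u C, ∑ C1, σ' u C1 * σ u (C - C1) = if C = 0 then 1 else 0 := by
    intro u C
    rw [← h1 u C, ← Equiv.sum_comp (Equiv.subLeft C)]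
    refine Finset.sum_congr rfl (fun C1 _ => ?_)
    rw [Equiv.subLeft_apply, sub_sub_cancel, mul_comm]
  have hinv : ∀ σ σ' : Λ → E → F, (∀ u C, ∑ C1, σ u C1 * σ' u (C - C1) = if C = 0 then 1 else 0) →
      ∀ (v : W → F) (a : W), ∑ C, σ (U a) C * ∑ C', σ' (U (-C +ᵥ a)) C' * v (-C' +ᵥ (-C +ᵥ a)) =
        v a := by
    intro σ σ' h v a
    have h3 : ∀ C, σ (U a) C * ∑ C', σ' (U (-C +ᵥ a)) C' * v (-C' +ᵥ (-C +ᵥ a)) =
        ∑ C2, σ (U a) C * σ' (U a) (C2 - C) * v (-C2 +ᵥ a) := by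
      intro C
      rw [← Equiv.sum_comp (Equiv.subRight C), Finset.mul_sum]
      refine Finset.sum_congr rfl (fun C' _ => ?_)
      rw [Equiv.subRight_apply, hU, vadd_vadd, neg_sub, mul_assoc, ← sub_eq_add_neg, sub_sub_cancel_left]
    simp_rw [h3]
    rw [Finset.sum_comm]
    simp_rw [← Finset.sum_mul, h]
    rw [Finset.sum_eq_single 0]
    · rw [if_pos rfl, one_mul, neg_zero, zero_vadd]
    · intro C _ hC
      rw [if_neg hC, zero_mul]
    · intro hC
      exact absurd (Finset.mem_univ _) hC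
  let S : (W → F) →ₗ[F] (W → F) :=
    { toFun := fun v a => ∑ C, σ (U a) C * v (-C +ᵥ a)
      map_add' := fun v w => by
        funext a
        rw [Pi.add_apply, ← Finset.sum_add_distrib]
        refine Finset.sum_congr rfl (fun C _ => ?_)
        rw [Pi.add_apply, mul_add]
      map_smul' := fun c v => by
        funext a
        rw [RingHom.id_apply, Pi.smul_apply, smul_eq_mul, Finset.mul_sum]
        refine Finset.sum_congr rfl (fun C _ => ?_)
        rw [Pi.smul_apply, smul_eq_mul]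
        ring }
  let S' : (W → F) →ₗ[F] (W → F) :=
    { toFun := fun v a => ∑ C, σ' (U a) C * v (-C +ᵥ a)
      map_add' := fun v w => by
        funext a
        rw [Pi.add_apply, ← Finset.sum_add_distrib]
        refine Finset.sum_congr rfl (fun C _ => ?_)
        rw [Pi.add_apply, mul_add]
      map_smul' := fun c v => by
        funext a
        rw [RingHom.id_apply, Pi.smul_apply, smul_eq_mul, Finset.mul_sum]
        refine Finset.sum_congr rfl (fun C _ => ?_)
        rw [Pi.smul_apply, smul_eq_mul]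
        ring }
  refine ⟨LinearEquiv.ofLinearMap S S' ?_ ?_, fun M M' hM v => ?_⟩
  · refine LinearMap.ext (fun v => funext (fun a => ?_))
    exact hinv σ σ' h1 v a
  · refine LinearMap.ext (fun v => funext (fun a => ?_))
    exact hinv σ' σ h1' v a
  · funext a
    show ∑ C, σ (U a) C * (M.mulVec v) (-C +ᵥ a) =
      ∑ b, M' a b * ∑ C, σ (U b) C * v (-C +ᵥ b)
    have hinvM : ∀ a b, ∀ δ ∈ T.dir (U a ⊔ U b), M (δ +ᵥ a) (δ +ᵥ b) = M a b := by
      intro a b δ hδ
      have hR := T.pt_mem (U a ⊔ U b)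
      rw [← hM a b _ (T.add_mem_sol hR hδ), ← hM (δ +ᵥ a) (δ +ᵥ b) (T.pt (U a ⊔ U b))
        (by rw [hU, hU]; exact hR), vadd_vadd, vadd_vadd]
    have hL : ∑ C, σ (U a) C * (M.mulVec v) (-C +ᵥ a) =
        ∑ b, (∑ C, σ (U a) C * M (-C +ᵥ a) b) * v b := by
      simp_rw [Finset.sum_mul]
      rw [Finset.sum_comm]
      refine Finset.sum_congr rfl (fun C _ => ?_)
      show σ (U a) C * ∑ b, M (-C +ᵥ a) b * v b = _
      rw [Finset.mul_sum]
      refine Finset.sum_congr rfl (fun b _ => ?_)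
      ring
    have hR : ∑ b, M' a b * ∑ C, σ (U b) C * v (-C +ᵥ b) =
        ∑ b, (∑ C, σ (U b) C * M' a (C +ᵥ b)) * v b := by
      simp_rw [Finset.sum_mul, Finset.mul_sum]
      rw [Finset.sum_comm, Finset.sum_comm (s := univ (α := W))]
      refine Finset.sum_congr rfl (fun C _ => ?_)
      rw [← Equiv.sum_comp (AddAction.toPerm C)]
      refine Finset.sum_congr rfl (fun b _ => ?_)
      rw [AddAction.toPerm_apply, hU, neg_vadd_vadd]
      ring
    rw [hL, hR]
    refine Finset.sum_congr rfl (fun b _ => ?_)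
    congr 1
    have hR0 := T.pt_mem (U a ⊔ U b)
    obtain ⟨R, hR0⟩ : ∃ R, R ∈ T.sol (U a ⊔ U b) := ⟨_, hR0⟩
    have h3 := h2 (U a) (U b) (hdim a) (hdim b) R hR0 (fun C C' => M (-C +ᵥ a) (-C' +ᵥ b))
      (fun κ hκ C C' => by
        rw [neg_add, add_vadd, hker a _ ((T.ker (U a)).neg_mem hκ)])
      (fun κ hκ C C' => by
        rw [neg_add, add_vadd, hker b _ ((T.ker (U b)).neg_mem hκ)])
      (fun δ hδ C C' => by
        rw [neg_add_rev, neg_add_rev, add_vadd, add_vadd]
        refine hinvM _ _ _ ?_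
        rw [hU, hU]
        exact (T.dir (U a ⊔ U b)).neg_mem hδ)
    beta_reduce at h3
    rw [neg_zero, zero_vadd] at h3
    rw [h3]
    refine Finset.sum_congr rfl (fun C _ => ?_)
    congr 1
    rw [← hM (-R +ᵥ a) (-(R - C) +ᵥ b) R (by rw [hU, hU]; exact hR0), vadd_neg_vadd, vadd_vadd]
    congr 2
    abel

end Pool.Agent.SRGWL.IM
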