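import Pool.Agent.SRGWL.IMDef
import Pool.Agent.SRGWL.IMB
import Pool.Agent.SRGWL.WLGame

/-!
# Local isomorphisms give equal colours
-/

namespace Pool.Agent.SRGWL.IM

open Finset Sos

set_option linter.unusedSectionVars false

section classes

variable {C W W' : Type} [Fintype W] [Fintype W'] {R : Type} [Field R]

theorem simClass_eq {M : C → Matrix W W R} {M' : C → Matrix W' W' R} (S : (W → R) ≃ₗ[R] (W' → R))
    (h : ∀ c v, S ((M c).mulVec v) = (M' c).mulVec (S v)) : simClass R M = simClass R M' := by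
  ext N
  constructor
  · rintro ⟨S1, hS1⟩
    refine ⟨S.symm.trans S1, fun c v => ?_⟩
    have h1 := h c (S.symm v)
    rw [LinearEquiv.apply_symm_apply] at h1
    rw [LinearEquiv.trans_apply, LinearEquiv.trans_apply, ← hS1, ← h1,
      LinearEquiv.symm_apply_apply]
  · rintro ⟨S1, hS1⟩
    refine ⟨S.trans S1, fun c v => ?_⟩
    rw [LinearEquiv.trans_apply, LinearEquiv.trans_apply, h, hS1]

end classes

variable {p : ℕ} [Fact p.Prime] {E Λ : Type} [AddCommGroup E] [Module (ZMod p) E] [Fintype E]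
  [SemilatticeSup Λ] [OrderBot Λ]

section relative

variable (S : AffSys p E Λ) (U0 : Λ) (C0 : E)

open Classical in
/-- a solution which agrees with `C0` on `U0` -/
noncomputable def relPt (W : Λ) : E :=
  if h : ∃ C ∈ S.sol (U0 ⊔ W), C - C0 ∈ S.ker U0 then h.choose else 0

theorem relPt_spec {W : Λ} (h : ∃ C ∈ S.sol (U0 ⊔ W), C - C0 ∈ S.ker U0) :
    relPt S U0 C0 W ∈ S.sol (U0 ⊔ W) ∧ relPt S U0 C0 W - C0 ∈ S.ker U0 := by
  unfold relPt
  rw [dif_pos h]
  exact h.choose_spec

variable {S U0 C0}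

theorem rel_exists (hl : S.dim U0 ≤ S.lev) (hC0 : C0 ∈ S.sol U0) {W : Λ}
    (hW : S.dim W ≤ S.lev - S.dim U0) : ∃ C ∈ S.sol (U0 ⊔ W), C - C0 ∈ S.ker U0 := by
  have h1 := S.dim_sup U0 W
  exact S.sol_ext le_sup_left (by omega) hC0

theorem rel_exists' (hl : S.dim U0 ≤ S.lev) {W W' : Λ} (h : W ≤ W')
    (hW : S.dim W' ≤ S.lev - S.dim U0) (hex : ∃ C ∈ S.sol (U0 ⊔ W'), C - C0 ∈ S.ker U0) :
    ∃ C ∈ S.sol (U0 ⊔ W), C - C0 ∈ S.ker U0 := by
  obtain ⟨C, h1, h2⟩ := hex
  have h3 := S.dim_sup U0 W'
  exact ⟨C, S.sol_mono (sup_le_sup_left h U0) (by omega) h1, h2⟩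

/-- the relative system -/
noncomputable def rel (hl : S.dim U0 ≤ S.lev) (hC0 : C0 ∈ S.sol U0) : AffSys p E Λ where
  dim := S.dim
  dim_sup := S.dim_sup
  dim_bot := S.dim_bot
  lev := S.lev - S.dim U0
  ker := S.ker
  dir W := S.dir (U0 ⊔ W) ⊓ S.ker U0
  pt := relPt S U0 C0
  ker_anti := S.ker_anti
  mono W W' h hW c hc := by
    have h3 := S.dim_sup U0 W'
    have hex := rel_exists hl hC0 hW
    obtain ⟨h4, h5⟩ := relPt_spec S U0 C0 hex
    obtain ⟨h6, h7⟩ := relPt_spec S U0 C0 (rel_exists' hl h hW hex)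
    refine ⟨S.sub_mem_dir (S.sol_mono (sup_le_sup_left h U0) (by omega)
      (S.add_mem_sol h4 hc.1)) h6, ?_⟩
    have h8 := (S.ker U0).sub_mem ((S.ker U0).add_mem h5 hc.2) h7
    have h9 : relPt S U0 C0 W' - C0 + c - (relPt S U0 C0 W - C0) =
        relPt S U0 C0 W' + c - relPt S U0 C0 W := by abel
    rwa [h9] at h8
  ext W W' h hW c hc := by
    have h3 := S.dim_sup U0 W'
    have hex := rel_exists hl hC0 hW
    obtain ⟨h4, h5⟩ := relPt_spec S U0 C0 hex
    obtain ⟨h6, h7⟩ := relPt_spec S U0 C0 (rel_exists' hl h hW hex)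
    obtain ⟨C, hC, hC'⟩ := S.sol_ext (sup_le_sup_left h U0) (by omega) (S.add_mem_sol h6 hc.1)
    refine ⟨C - relPt S U0 C0 W', ⟨S.sub_mem_dir hC h4, ?_⟩, ?_⟩
    · have h8 := S.ker_anti _ _ (le_sup_left : U0 ≤ U0 ⊔ W) hC'
      have h9 := (S.ker U0).sub_mem ((S.ker U0).add_mem h8 ((S.ker U0).add_mem h7 hc.2)) h5
      have h10 : C - (relPt S U0 C0 W + c) + (relPt S U0 C0 W - C0 + c) -
          (relPt S U0 C0 W' - C0) = C - relPt S U0 C0 W' := by abel
      rwa [h10] at h9
    · rw [add_sub_cancel]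
      exact S.ker_anti _ _ (le_sup_right : W ≤ U0 ⊔ W) hC'

theorem rel_sol (hl : S.dim U0 ≤ S.lev) (hC0 : C0 ∈ S.sol U0) {W : Λ}
    (hW : S.dim W ≤ S.lev - S.dim U0) {C : E} (hC : C ∈ (rel hl hC0).sol W) :
    C ∈ S.sol (U0 ⊔ W) ∧ C - C0 ∈ S.ker U0 := by
  obtain ⟨h4, h5⟩ := relPt_spec S U0 C0 (rel_exists hl hC0 hW)
  rw [AffSys.mem_sol] at hC
  have hC' : C - relPt S U0 C0 W ∈ S.dir (U0 ⊔ W) ⊓ S.ker U0 := hC
  constructor
  · have h6 := S.add_mem_sol h4 hC'.1
    rwa [add_sub_cancel] at h6
  · have h6 := (S.ker U0).add_mem hC'.2 h5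
    rwa [sub_add_sub_cancel] at h6

end relative

section main

variable {V : Type} [Fintype V] [AddAction E V]

/-- the hypotheses on the supports -/
structure Supp (S : AffSys p E Λ) (V : Type) [AddAction E V] (d : ℕ) where
  /-- support -/
  sup : V → Λ
  sup_vadd : ∀ (C : E) v, sup (C +ᵥ v) = sup v
  dim : ∀ v, S.dim (sup v) ≤ d
  ker : ∀ v, ∀ κ ∈ S.ker (sup v), κ +ᵥ v = v

variable {S : AffSys p E Λ} {d : ℕ} (N : Supp S V d)

/-- the support of a tuple -/
def Supp.ts {m : ℕ} (s : Fin m → V) : Λ := (univ : Finset (Fin m)).sup (fun i => N.sup (s i))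

theorem Supp.le_ts {m : ℕ} (s : Fin m → V) (i : Fin m) : N.sup (s i) ≤ N.ts s :=
  Finset.le_sup (f := fun i => N.sup (s i)) (mem_univ i)

theorem Supp.ts_le {m : ℕ} {s : Fin m → V} {U : Λ} (h : ∀ i, N.sup (s i) ≤ U) : N.ts s ≤ U :=
  Finset.sup_le (fun i _ => h i)

theorem Supp.dim_ts {m : ℕ} (s : Fin m → V) : S.dim (N.ts s) ≤ d * m := by
  have key : ∀ t : Finset (Fin m), S.dim (t.sup (fun i => N.sup (s i))) ≤ d * t.card := by
    classical
    intro t
    induction t using Finset.induction_on with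
    | empty => rw [Finset.sup_empty, S.dim_bot]; exact Nat.zero_le _
    | insert a t ha ih =>
      rw [Finset.sup_insert, Finset.card_insert_of_notMem ha]
      have h1 := S.dim_sup (N.sup (s a)) (t.sup (fun i => N.sup (s i)))
      have h2 := N.dim (s a)
      calc _ ≤ d + d * t.card := by omega
        _ = d * (t.card + 1) := by ring
  have h := key univ
  rwa [Finset.card_univ, Fintype.card_fin] at h

theorem Supp.dim_sub {m : ℕ} (s : Fin m → V) (t : Finset (Fin m)) :
    S.dim (t.sup (fun i => N.sup (s i))) ≤ d * t.card := by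
  classical
  induction t using Finset.induction_on with
  | empty => rw [Finset.sup_empty, S.dim_bot]; exact Nat.zero_le _
  | insert a t ha ih =>
    rw [Finset.sup_insert, Finset.card_insert_of_notMem ha]
    have h1 := S.dim_sup (N.sup (s a)) (t.sup (fun i => N.sup (s i)))
    have h2 := N.dim (s a)
    calc _ ≤ d + d * t.card := by omega
      _ = d * (t.card + 1) := by ring

/-- the bijection of the vertices given by a choice of translations -/
def Supp.vE (c : Λ → E) : V ≃ V where
  toFun v := c (N.sup v) +ᵥ v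
  invFun v := -c (N.sup v) +ᵥ v
  left_inv v := by
    show -c (N.sup (c (N.sup v) +ᵥ v)) +ᵥ (c (N.sup v) +ᵥ v) = v
    rw [N.sup_vadd, neg_vadd_vadd]
  right_inv v := by
    show c (N.sup (-c (N.sup v) +ᵥ v)) +ᵥ (-c (N.sup v) +ᵥ v) = v
    rw [N.sup_vadd, vadd_neg_vadd]

theorem Supp.ts_vadd {m : ℕ} (C : E) (s : Fin m → V) : N.ts (fun i => C +ᵥ s i) = N.ts s := by
  unfold Supp.ts
  simp_rw [N.sup_vadd]

/-- the bijection of the tuples given by a choice of translations -/
def Supp.tE {m : ℕ} (c : Λ → E) : (Fin m → V) ≃ (Fin m → V) where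
  toFun s := fun i => c (N.ts s) +ᵥ s i
  invFun s := fun i => -c (N.ts s) +ᵥ s i
  left_inv s := by
    funext i
    show -c (N.ts (fun i => c (N.ts s) +ᵥ s i)) +ᵥ (c (N.ts s) +ᵥ s i) = s i
    rw [N.ts_vadd, neg_vadd_vadd]
  right_inv s := by
    funext i
    show c (N.ts (fun i => -c (N.ts s) +ᵥ s i)) +ᵥ (-c (N.ts s) +ᵥ s i) = s i
    rw [N.ts_vadd, vadd_neg_vadd]

theorem Supp.agree {U : Λ} {C C' : E} (h : C' - C ∈ S.ker U) {v : V} (hv : N.sup v ≤ U) :
    C' +ᵥ v = C +ᵥ v := by
  have h1 := N.ker (C +ᵥ v) (C' - C) (S.ker_anti _ _ (by rwa [N.sup_vadd]) h)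
  rw [vadd_vadd, sub_add_cancel] at h1
  exact h1

theorem two_m_le {k m : ℕ} (x : Fin m ⊕ Fin m ↪ Fin k) : 2 * m ≤ k := by
  have h := Fintype.card_le_of_embedding x
  rw [Fintype.card_sum, Fintype.card_fin, Fintype.card_fin] at h
  omega

variable {J : Type} (F : J → Type) [∀ j, Field (F j)] {Kc : Type} {k : ℕ}

theorem lcol_eq (hF : ∀ j, (p : F j) ≠ 0) (hk : 3 * (d * k) ≤ 2 * S.lev)
    (hk' : d * k + d ≤ S.lev) {f f' : (Fin k → V) → Kc}
    (hf : ∀ (s : Fin k → V) (U : Λ), (∀ i, N.sup (s i) ≤ U) → S.dim U ≤ S.lev →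
      ∀ C ∈ S.sol U, f s = f' (fun i => C +ᵥ s i)) (r : ℕ) :
    ∀ (s : Fin k → V) (U : Λ), (∀ i, N.sup (s i) ≤ U) → S.dim U ≤ S.lev →
      ∀ C ∈ S.sol U, lcol F f r s = lcol F f' r (fun i => C +ᵥ s i) := by
  classical
  induction r with
  | zero => exact hf
  | succ r ih =>
    intro s U hs hU C hC
    have hle : N.ts s ≤ U := N.ts_le hs
    have hC0 : C ∈ S.sol (N.ts s) := S.sol_mono hle hU hC
    have hdim : S.dim (N.ts s) ≤ d * k := N.dim_ts s
    have hdim' : S.dim (N.ts s) ≤ S.lev := by omega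
    refine Prod.ext (ih s U hs hU C hC) (Prod.ext ?_ ?_)
    · have hext : ∀ W : Λ, ∃ C' : E, S.dim W ≤ d →
          (C' ∈ S.sol (N.ts s ⊔ W) ∧ C' - C ∈ S.ker (N.ts s)) := by
        intro W
        by_cases hW : S.dim W ≤ d
        · have h1 := S.dim_sup (N.ts s) W
          obtain ⟨C', h2, h3⟩ := S.sol_ext (le_sup_left : N.ts s ≤ N.ts s ⊔ W) (by omega) hC0
          exact ⟨C', fun _ => ⟨h2, h3⟩⟩
        · exact ⟨C, fun h => absurd h hW⟩
      choose c hc using hext
      refine WLAux.map_equiv (N.vE c) _ _ fun v => ?_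
      funext a
      obtain ⟨hc1, hc2⟩ := hc (N.sup v) (N.dim v)
      have hin : ∀ b, N.sup (Function.update s a v b) ≤ N.ts s ⊔ N.sup v := by
        intro b
        by_cases hb : b = a
        · rw [hb, Function.update_self]
          exact le_sup_right
        · rw [Function.update_of_ne hb]
          exact (N.le_ts s b).trans le_sup_left
      have h1 := S.dim_sup (N.ts s) (N.sup v)
      have h3 := N.dim v
      rw [ih (Function.update s a v) _ hin (by omega) (c (N.sup v)) hc1]
      congr 1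
      funext b
      by_cases hb : b = a
      · rw [hb, Function.update_self, Function.update_self]
        rfl
      · rw [Function.update_of_ne hb, Function.update_of_ne hb]
        exact N.agree hc2 (N.le_ts s b)
    · funext j m x
      have hm := two_m_le x
      have hdm : 2 * (d * m) ≤ d * k := by
        calc 2 * (d * m) = d * (2 * m) := by ring
          _ ≤ d * k := Nat.mul_le_mul_left d hm
      obtain ⟨R, hR⟩ : ∃ R : Finset (Fin k), R = univ.filter (fun i => ¬ ∃ t, x t = i) := ⟨_, rfl⟩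
      obtain ⟨U0, hU0⟩ : ∃ U0 : Λ, U0 = R.sup (fun i => N.sup (s i)) := ⟨_, rfl⟩
      have hcard : R.card + 2 * m = k := by
        have h1 : R = univ \ univ.image x := by
          ext i
          simp [hR]
        have h2 : (univ.image x).card = 2 * m := by
          rw [Finset.card_image_of_injective _ x.injective, Finset.card_univ, Fintype.card_sum,
            Fintype.card_fin]
          ring
        rw [h1, Finset.card_sdiff_of_subset (Finset.subset_univ _), h2, Finset.card_univ,
          Fintype.card_fin]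
        omega
      have hdimR : S.dim U0 + 2 * (d * m) ≤ d * k := by
        have h1 := N.dim_sub s R
        rw [← hU0] at h1
        calc S.dim U0 + 2 * (d * m) ≤ d * R.card + 2 * (d * m) := by omega
          _ = d * (R.card + 2 * m) := by ring
          _ = d * k := by rw [hcard]
      have hin0 : ∀ i, (¬ ∃ t, x t = i) → N.sup (s i) ≤ U0 := by
        intro i hi
        rw [hU0]
        exact Finset.le_sup (f := fun i => N.sup (s i)) (by rw [hR]; simpa using hi)
      have hU0le : U0 ≤ N.ts s := by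
        rw [hU0]
        exact Finset.sup_le (fun i _ => N.le_ts s i)
      have hC1 : C ∈ S.sol U0 := S.sol_mono hU0le hdim' hC0
      have hdim0 : S.dim U0 ≤ S.lev := by omega
      have hlev : 3 * (d * m) ≤ (rel hdim0 hC1).lev := by
        show 3 * (d * m) ≤ S.lev - S.dim U0
        omega
      obtain ⟨Sx, hSx⟩ := exists_intertwiner (F j) (hF j) (rel hdim0 hC1) hlev
        (W := Fin m → V) N.ts (fun C a => N.ts_vadd C a) (fun a => N.dim_ts a)
        (fun a κ hκ => by
          funext i
          exact N.ker (a i) κ (S.ker_anti _ _ (N.le_ts a i) hκ))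
      show simClass (F j) (cmat (F j) (lcol F f r) s x) =
        simClass (F j) (cmat (F j) (lcol F f' r) (fun i => C +ᵥ s i) x)
      refine simClass_eq Sx (fun c v => hSx _ _ ?_ v)
      intro a b C' hC'
      have hab : S.dim (N.ts a ⊔ N.ts b) ≤ d * m + d * m :=
        (S.dim_sup _ _).trans (Nat.add_le_add (N.dim_ts a) (N.dim_ts b))
      obtain ⟨h1, h2⟩ := rel_sol hdim0 hC1 (by omega) hC'
      have h3 := S.dim_sup U0 (N.ts a ⊔ N.ts b)
      have h4 : lcol F f r (Function.extend x (Sum.elim a b) s) =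
          lcol F f' r (Function.extend x (Sum.elim (C' +ᵥ a) (C' +ᵥ b)) (fun i => C +ᵥ s i)) := by
        rw [ih (Function.extend x (Sum.elim a b) s) (U0 ⊔ (N.ts a ⊔ N.ts b)) ?_ (by omega) C' h1]
        · congr 1
          funext i
          by_cases hi : ∃ t, x t = i
          · obtain ⟨t, rfl⟩ := hi
            rw [x.injective.extend_apply, x.injective.extend_apply]
            rcases t with t | t <;> rfl
          · rw [Function.extend_apply' _ _ _ hi, Function.extend_apply' _ _ _ hi]
            exact N.agree h2 (hin0 i hi)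
        · intro i
          by_cases hi : ∃ t, x t = i
          · obtain ⟨t, rfl⟩ := hi
            rw [x.injective.extend_apply]
            rcases t with t | t
            · exact (N.le_ts a t).trans (le_sup_left.trans le_sup_right)
            · exact (N.le_ts b t).trans (le_sup_right.trans le_sup_right)
          · rw [Function.extend_apply' _ _ _ hi]
            exact (hin0 i hi).trans le_sup_left
      unfold cmat
      rw [h4]

/-- **Local isomorphisms give equal colours.** -/
theorem laEquiv_of_supp (hF : ∀ j, (p : F j) ≠ 0) (hk : 3 * (d * k) ≤ 2 * S.lev)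
    (hk' : d * k + d ≤ S.lev) {f f' : (Fin k → V) → Kc}
    (hf : ∀ (s : Fin k → V) (U : Λ), (∀ i, N.sup (s i) ≤ U) → S.dim U ≤ S.lev →
      ∀ C ∈ S.sol U, f s = f' (fun i => C +ᵥ s i)) : LAEquiv F f f' := by
  classical
  intro r
  refine WLAux.map_equiv (N.tE S.pt) _ _ fun s => ?_
  have h1 := N.dim_ts s
  exact lcol_eq N F hF hk hk' hf r s _ (N.le_ts s) (by omega) _ (S.pt_mem _)

end main

section transport

variable {J : Type} (F : J → Type) [∀ j, Field (F j)] {V V' : Type} [Fintype V] [Fintype V']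
  {Kc : Type} {k : ℕ}

theorem lcol_comp (e : V ≃ V') (f' : (Fin k → V') → Kc) (r : ℕ) : ∀ s : Fin k → V,
    lcol F (fun s => f' (fun i => e (s i))) r s = lcol F f' r (fun i => e (s i)) := by
  classical
  induction r with
  | zero => exact fun _ => rfl
  | succ r ih =>
    intro s
    refine Prod.ext (ih s) (Prod.ext ?_ ?_)
    · refine WLAux.map_equiv e _ _ fun v => ?_
      funext a
      rw [ih]
      congr 1
      funext b
      by_cases hb : b = a
      · rw [hb, Function.update_self, Function.update_self]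
      · rw [Function.update_of_ne hb, Function.update_of_ne hb]
    · funext j m x
      show simClass (F j) (cmat (F j) (lcol F (fun s => f' (fun i => e (s i))) r) s x) =
        simClass (F j) (cmat (F j) (lcol F f' r) (fun i => e (s i)) x)
      let eM : (Fin m → V) ≃ (Fin m → V') := Equiv.arrowCongr (Equiv.refl _) e
      refine simClass_eq (LinearEquiv.funCongrLeft (F j) (F j) eM.symm) (fun c v => ?_)
      funext a'
      obtain ⟨a, rfl⟩ := eM.surjective a'
      show (cmat (F j) (lcol F (fun s => f' (fun i => e (s i))) r) s x c).mulVec v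
        (eM.symm (eM a)) = ∑ b', cmat (F j) (lcol F f' r) (fun i => e (s i)) x c (eM a) b' *
          v (eM.symm b')
      rw [← Equiv.sum_comp eM, Equiv.symm_apply_apply]
      refine Finset.sum_congr rfl (fun b _ => ?_)
      rw [Equiv.symm_apply_apply]
      congr 1
      unfold cmat
      beta_reduce
      rw [ih]
      have h5 : (fun i => e (Function.extend x (Sum.elim a b) s i)) =
          Function.extend x (Sum.elim (eM a) (eM b)) (fun i => e (s i)) := by
        funext i
        by_cases hi : ∃ t, x t = i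
        · obtain ⟨t, rfl⟩ := hi
          rw [x.injective.extend_apply, x.injective.extend_apply]
          rcases t with t | t <;> rfl
        · rw [Function.extend_apply' _ _ _ hi, Function.extend_apply' _ _ _ hi]
      rw [h5]

theorem LAEquiv.transport (e : V ≃ V') {f : (Fin k → V) → Kc} {f' : (Fin k → V') → Kc}
    (h : LAEquiv F f (fun s => f' (fun i => e (s i)))) : LAEquiv F f f' := by
  classical
  intro r
  rw [h r]
  exact WLAux.map_equiv (Equiv.arrowCongr (Equiv.refl _) e) _ _ fun s => lcol_comp F e f' r s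

end transport

end Pool.Agent.SRGWL.IM
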