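import Pool.Agent.SRGWL.SosDef

/-!
# Polynomial calculus and sums of squares for the isomorphism of groups
-/

namespace Pool.Agent.SRGWL.Sos

open MvPolynomial

/-- The axioms for the isomorphism of the groups `H` and `H'` over the field `F`, in the variables
`x_(g, h)` (`g` is mapped to `h`): row sums and column sums are `1`, `x² = x`, and the product of the
`x_(g, h)` over all pairs `(g, h)` in a set `s` is `0` if some group word vanishes on the `g` but
not on the `h`, or conversely (so `g ↦ h` does not extend to an isomorphism of the generated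
subgroups). -/
def grpAx (F : Type) [Field F] (H H' : Type) [Group H] [Group H'] [Fintype H] [Fintype H'] :
    Set (MvPolynomial (H × H') F) :=
  {a | (∃ g, a = ∑ h, X (g, h) - 1) ∨ (∃ h, a = ∑ g, X (g, h) - 1) ∨ (∃ x, a = X x ^ 2 - X x) ∨
    ∃ s : Finset (H × H'), (∃ w : FreeGroup s, ¬ (FreeGroup.lift (fun x : s => x.1.1) w = 1 ↔
      FreeGroup.lift (fun x : s => x.1.2) w = 1)) ∧ a = ∏ x ∈ s, X x}

/-- The groups `H` and `H'` are distinguished neither by the sum of squares (Lasserre) relaxation of
degree `2 k` of their isomorphism, nor by polynomial calculus of degree `k` over any field of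
characteristic different from `p`. -/
def GIndist (p k : ℕ) (H H' : Type) [Group H] [Group H'] [Fintype H] [Fintype H'] : Prop :=
  (∃ L, IsPseudoExp k (grpAx ℝ H H') L) ∧
    ∀ (F : Type) [Field F], (p : F) ≠ 0 → ¬ PC k (grpAx F H H') 1

end Pool.Agent.SRGWL.Sos
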