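import Pool.Agent.SRGWL.SosG
import Pool.Agent.SRGWL.SosGrpDef
import Pool.Agent.SRGWL.WLGroup

/-!
# The groups themselves
-/

namespace Pool.Agent.SRGWL.Sos

open Module Finset MvPolynomial WLAux WLGrp

variable {p : ℕ} [Fact p.Prime] {I : Type} [AddCommGroup I] [Module (ZMod p) I] {z : ℕ}

theorem word_iff' {J : Type} {A : Tup (ZMod p) I z} {D : CoTup (ZMod p) I z} {C : CC A}
    {U : Submodule (ZMod p) I}
    (hloc : ∀ u ∈ U, ∀ v ∈ U, ∀ ζ, C.1 ζ u v - C.1 ζ v u = D ζ u v) (s : J → G A 0)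
    (hs : ∀ a, (s a).i ∈ U) (w : FreeGroup J) :
    FreeGroup.lift s w = 1 ↔ FreeGroup.lift (fun a => T1 D C (s a)) w = 1 := by
  let s' : J → sub A 0 U := fun a => ⟨s a, hs a⟩
  have e1 : FreeGroup.lift s w = ((FreeGroup.lift s' w : sub A 0 U) : G A 0) := by
    have : FreeGroup.lift s = (sub A 0 U).subtype.comp (FreeGroup.lift s') := by
      ext1 a
      rw [FreeGroup.lift_apply_of, MonoidHom.comp_apply, FreeGroup.lift_apply_of]
      rfl
    rw [this]
    rfl
  have e2 : FreeGroup.lift (fun a => T1 D C (s a)) w = homU C U hloc (FreeGroup.lift s' w) := by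
    have : FreeGroup.lift (fun a => T1 D C (s a)) = (homU C U hloc).comp (FreeGroup.lift s') := by
      ext1 a
      rw [FreeGroup.lift_apply_of, MonoidHom.comp_apply, FreeGroup.lift_apply_of]
      rfl
    rw [this]
    rfl
  rw [e1, e2]
  have hinj : Function.Injective (homU C U hloc) := by
    intro x y hxy
    exact Subtype.ext (T1_injective (D := D) C hxy)
  rw [OneMemClass.coe_eq_one, ← map_eq_one_iff _ hinj]

/-- The translations act on the elements; the support of an element is the span of its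
`I`-component. -/
def elMoves (A : Tup (ZMod p) I z) (D : CoTup (ZMod p) I z) [Module.Finite (ZMod p) I] :
    Moves A (G A 0) (G A D) 1 where
  sup v := Submodule.span (ZMod p) {v.i}
  sup' v := Submodule.span (ZMod p) {v.i}
  dim v := by
    have h := finrank_span_finset_le_card (R := ZMod p) ({v.i} : Finset I)
    rw [Finset.coe_singleton, Finset.card_singleton] at h
    exact h
  dim' v := by
    have h := finrank_span_finset_le_card (R := ZMod p) ({v.i} : Finset I)
    rw [Finset.coe_singleton, Finset.card_singleton] at h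
    exact h
  φ C := transE 0 D C.1 C.2
  sup_φ _ _ := rfl
  congr C C' v h := T1_congr (D := D) h (Submodule.subset_span rfl)

variable [Module.Finite (ZMod p) I] [Finite I] {A : Tup (ZMod p) I z} {D : CoTup (ZMod p) I z}

/-- the bad sets for groups -/
def gbadSet (H H' : Type) [Group H] [Group H'] : Set (Finset (H × H')) :=
  {s | ∃ w : FreeGroup s, ¬ (FreeGroup.lift (fun x : s => x.1.1) w = 1 ↔
      FreeGroup.lift (fun x : s => x.1.2) w = 1)}

omit [Module.Finite (ZMod p) I] [Finite I] in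
theorem grpAx_sub (F : Type) [Field F] (H H' : Type) [Group H] [Group H'] [Fintype H]
    [Fintype H'] : grpAx F H H' ⊆ {q | Ax F (gbadSet H H') q} := by
  rintro a (⟨u, rfl⟩ | ⟨v, rfl⟩ | ⟨x, rfl⟩ | ⟨s, h, rfl⟩)
  · exact Ax.row u
  · exact Ax.col v
  · exact Ax.idem x
  · exact Ax.bad s h

/-- **The groups are not distinguished.** -/
theorem gindist {r : ℕ} (h2 : (2 : ZMod p) ≠ 0) (hD : CoSkew D)
    (K : ℕ) (hbase : Good A D r ⊥ 0)
    (hext : ∀ U U' : Submodule (ZMod p) I, U ≤ U' → finrank (ZMod p) U' ≤ K →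
      ∀ C, Good A D r U C → ∃ C', Good A D r U' C' ∧ ∀ u ∈ U, ∀ ζ, C' ζ u = C ζ u)
    {k : ℕ} (hk : 3 * k + 1 ≤ K) : GIndist p k (G A 0) (G A D) := by
  have hB : ((elMoves A D).lmap h2 K hbase hext).BadFor (gbadSet (G A 0) (G A D)) := by
    apply (elMoves A D).badFor h2 hD K hbase hext
    rintro s ⟨w, hw⟩ C W hloc hle hP
    apply hw
    have h1 : ∀ x : s, (x.1.1).i ∈ W := fun x => hle x.1 x.2 (Submodule.subset_span rfl)
    have h3 := word_iff' (D := D) hloc (fun x : s => x.1.1) h1 w
    have h4 : (fun x : s => T1 D C x.1.1) = fun x : s => x.1.2 := by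
      funext x
      exact hP x.1 x.2
    rw [h4] at h3
    exact h3
  refine ⟨?_, ?_⟩
  · refine ⟨((elMoves A D).lmap h2 K hbase hext).PE, ?_⟩
    have h := ((elMoves A D).lmap h2 K hbase hext).isPseudoExp hB (k := k) (by
      change 3 * (1 * k) + 1 ≤ K
      omega)
    exact ⟨h.one, h.sq, fun a ha r hr => h.ax a (grpAx_sub ℝ _ _ ha) r hr⟩
  · intro F _ hp hPC
    exact ((elMoves A D).lmap h2 K hbase hext).not_PC_field F hp hB (k := k) (by
      change 3 * (1 * k) + 1 ≤ K
      omega) (hPC.mono (grpAx_sub F _ _))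

end Pool.Agent.SRGWL.Sos
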