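import Pool.Agent.SRGWL.IMC
import Pool.Agent.SRGWL.SosG
import Pool.Agent.SRGWL.SosGrp
import Pool.Agent.SRGWL.SosNet

/-!
# Graphs and groups which are moved by the translations: linear-algebraic Weisfeiler-Leman
-/

namespace Pool.Agent.SRGWL.IM

open Module Finset Sos WLAux

section sys

variable {p : ℕ} [Fact p.Prime] {I : Type} [AddCommGroup I] [Module (ZMod p) I] {z : ℕ}

theorem neg_one_cc (C : CoTup (ZMod p) I z) : (-1 : ZMod p) • C = -C := by
  funext ζ
  ext u v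
  show (-1 : ZMod p) * C ζ u v = -(C ζ u v)
  ring

theorem add_neg_cc (a b : CoTup (ZMod p) I z) : a + (-1 : ZMod p) • b = a - b := by
  funext ζ
  ext u v
  show a ζ u v + (-1 : ZMod p) * b ζ u v = a ζ u v - b ζ u v
  ring

theorem add_sub_cc (a b : CoTup (ZMod p) I z) : a + (b - a) = b := by
  funext ζ
  ext u v
  show a ζ u v + (b ζ u v - a ζ u v) = b ζ u v
  ring

/-- the tuples of linear maps `I → Wsp A` -/
def ccSub (A : Tup (ZMod p) I z) : AddSubgroup (CoTup (ZMod p) I z) where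
  carrier := {C | IsC A C}
  add_mem' := fun h h' => IsC.add h h'
  zero_mem' := isC_zero A
  neg_mem' := by
    intro C h
    have h1 := IsC.smul (-1 : ZMod p) h
    rw [neg_one_cc] at h1
    exact h1

noncomputable instance (A : Tup (ZMod p) I z) : Module (ZMod p) (ccSub A) where
  smul c C := ⟨c • C.1, IsC.smul c C.2⟩
  one_smul C := Subtype.ext (one_smul _ C.1)
  mul_smul a b C := Subtype.ext (mul_smul a b C.1)
  smul_zero a := Subtype.ext (smul_zero a)
  smul_add a C C' := Subtype.ext (smul_add a C.1 C'.1)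
  add_smul a b C := Subtype.ext (add_smul a b C.1)
  zero_smul C := Subtype.ext (zero_smul _ C.1)

theorem ccSub_smul {A : Tup (ZMod p) I z} (c : ZMod p) (C : ccSub A) : (c • C).1 = c • C.1 := rfl

instance [Finite I] (A : Tup (ZMod p) I z) : Finite (ccSub A) := by
  have h1 : Finite (EE p I z) := inferInstance
  exact Finite.of_injective (fun C : ccSub A => valL C.1)
    (fun a b h => Subtype.ext (valL_injective h))

noncomputable instance [Finite I] (A : Tup (ZMod p) I z) : Fintype (ccSub A) := Fintype.ofFinite _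

/-- the tuple of linear maps -/
def toCC {A : Tup (ZMod p) I z} (C : ccSub A) : CC A := ⟨C.1, C.2⟩

variable {A : Tup (ZMod p) I z} {D : CoTup (ZMod p) I z} {r : ℕ} [Module.Finite (ZMod p) I]

omit [Module.Finite (ZMod p) I] in
theorem ptC_isC (U : Submodule (ZMod p) I) : IsC A (ptC A D r U) := by
  unfold ptC
  split_ifs with h
  · exact h.choose_spec.1
  · exact isC_zero A

/-- the affine system of the local solutions, on the space of the tuples `I → Wsp A` -/
noncomputable def imSys (h2 : (2 : ZMod p) ≠ 0) (k : ℕ) (hbase : Good A D r ⊥ 0)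
    (hext : ∀ U U' : Submodule (ZMod p) I, U ≤ U' → finrank (ZMod p) U' ≤ k →
      ∀ C, Good A D r U C → ∃ C', Good A D r U' C' ∧ ∀ u ∈ U, ∀ ζ, C' ζ u = C ζ u) :
    AffSys p (ccSub A) (Submodule (ZMod p) I) where
  dim U := finrank (ZMod p) U
  dim_sup U U' := by
    exact Submodule.finrank_add_le_finrank_add_finrank U U'
  dim_bot := finrank_bot _ _
  lev := k
  ker U :=
    { carrier := {C | ∀ u ∈ U, ∀ ζ, C.1 ζ u = 0}
      add_mem' := by
        intro a b ha hb u hu ζ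
        show a.1 ζ u + b.1 ζ u = 0
        rw [ha u hu ζ, hb u hu ζ, add_zero]
      zero_mem' := fun _ _ _ => rfl
      smul_mem' := by
        intro c a ha u hu ζ
        show c • a.1 ζ u = 0
        rw [ha u hu ζ, smul_zero] }
  dir U :=
    { carrier := {C | C.1 ∈ dirC A r U}
      add_mem' := fun ha hb => (dirC A r U).add_mem ha hb
      zero_mem' := (dirC A r U).zero_mem
      smul_mem' := fun c _ ha => (dirC A r U).smul_mem c ha }
  pt U := ⟨ptC A D r U, ptC_isC U⟩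
  ker_anti U U' h f hf u hu ζ := hf u (h hu) ζ
  mono U U' h hl c hc := by
    have hU : finrank (ZMod p) U ≤ k := (Submodule.finrank_mono h).trans hl
    have g1 : Good A D r U (ptC A D r U' + c.1) :=
      good_mono h (good_add (ptC_good hbase hext hl) hc)
    have g2 := good_sub h2 g1 (ptC_good hbase hext hU)
    rw [add_neg_cc] at g2
    exact g2
  ext U U' h hl c hc := by
    have hU : finrank (ZMod p) U ≤ k := (Submodule.finrank_mono h).trans hl
    obtain ⟨C1, hC1, hC1'⟩ := hext U U' h hl _ (good_add (ptC_good hbase hext hU) hc)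
    have g2 := good_sub h2 hC1 (ptC_good hbase hext hl)
    rw [add_neg_cc] at g2
    refine ⟨⟨C1 - ptC A D r U', g2.1⟩, g2, ?_⟩
    intro u hu ζ
    show (ptC A D r U' + (C1 - ptC A D r U') - (ptC A D r U + c.1)) ζ u = 0
    rw [add_sub_cc]
    show C1 ζ u - (ptC A D r U + c.1) ζ u = 0
    rw [hC1' u hu ζ]
    exact sub_self _

variable (h2 : (2 : ZMod p) ≠ 0) (k : ℕ) (hbase : Good A D r ⊥ 0)
    (hext : ∀ U U' : Submodule (ZMod p) I, U ≤ U' → finrank (ZMod p) U' ≤ k →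
      ∀ C, Good A D r U C → ∃ C', Good A D r U' C' ∧ ∀ u ∈ U, ∀ ζ, C' ζ u = C ζ u)

theorem good_of_sol [Finite I] {U : Submodule (ZMod p) I} (hU : finrank (ZMod p) U ≤ k)
    {C : ccSub A} (hC : C ∈ (imSys h2 k hbase hext).sol U) : Good A D r U C.1 := by
  rw [AffSys.mem_sol] at hC
  have h1 := good_add (ptC_good hbase hext hU) (c := C.1 - ptC A D r U) hC
  rwa [add_sub_cc] at h1

end sys

variable {p : ℕ} [Fact p.Prime] {I : Type} [AddCommGroup I] [Module (ZMod p) I] {z : ℕ}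
  {A : Tup (ZMod p) I z} {D : CoTup (ZMod p) I z} {r : ℕ} [Module.Finite (ZMod p) I]
  {V V' : Type} {d : ℕ}

/-- the translations by `C + C'` -/
def Tors (N : Moves A V V' d) : Prop := ∀ (C C' : CC A) (v : V),
  N.φ ⟨C.1 + C'.1, IsC.add C.2 C'.2⟩ v = N.φ C ((N.φ ⟨0, isC_zero A⟩).symm (N.φ C' v))

/-- the action on the vertices -/
@[reducible] def act (N : Moves A V V' d) (hT : Tors N) : AddAction (ccSub A) V where
  vadd C v := (N.φ ⟨0, isC_zero A⟩).symm (N.φ (toCC C) v)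
  zero_vadd v := (N.φ ⟨0, isC_zero A⟩).symm_apply_apply v
  add_vadd C C' v := by
    show (N.φ ⟨0, isC_zero A⟩).symm (N.φ ⟨C.1 + C'.1, IsC.add C.2 C'.2⟩ v) = _
    exact congrArg _ (hT (toCC C) (toCC C') v)

theorem laEquiv_of_moves [Finite I] [Fintype V] [Fintype V'] (N : Moves A V V' d) (hT : Tors N)
    (h2 : (2 : ZMod p) ≠ 0) (hD : CoSkew D) (K : ℕ) (hbase : Good A D r ⊥ 0)
    (hext : ∀ U U' : Submodule (ZMod p) I, U ≤ U' → finrank (ZMod p) U' ≤ K →
      ∀ C, Good A D r U C → ∃ C', Good A D r U' C' ∧ ∀ u ∈ U, ∀ ζ, C' ζ u = C ζ u)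
    {k : ℕ} (hk : 3 * (d * k) ≤ 2 * K) (hk' : d * k + d ≤ K) {J : Type} (F : J → Type)
    [∀ j, Field (F j)]
    (hF : ∀ j, (p : F j) ≠ 0) {Kc : Type} (f : (Fin k → V) → Kc) (f' : (Fin k → V') → Kc)
    (hf : ∀ (C : CC A) (W : Submodule (ZMod p) I),
      (∀ u ∈ W, ∀ v ∈ W, ∀ ζ, C.1 ζ u v - C.1 ζ v u = D ζ u v) →
      ∀ s : Fin k → V, (∀ i, N.sup (s i) ≤ W) → f s = f' (fun i => N.φ C (s i))) :
    LAEquiv F f f' := by
  let _ : AddAction (ccSub A) V := act N hT
  let S := imSys h2 K hbase hext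
  let NS : Supp S V d :=
    { sup := N.sup
      sup_vadd := fun C v => by
        show N.sup ((N.φ ⟨0, isC_zero A⟩).symm (N.φ (toCC C) v)) = N.sup v
        rw [N.sup_symm, N.sup_φ]
      dim := N.dim
      ker := fun v κ hκ => by
        show (N.φ ⟨0, isC_zero A⟩).symm (N.φ (toCC κ) v) = v
        have h1 : N.φ (toCC κ) v = N.φ ⟨0, isC_zero A⟩ v := N.congr _ _ v (fun u hu ζ => hκ u hu ζ)
        rw [h1, Equiv.symm_apply_apply] }
  refine LAEquiv.transport F (N.φ ⟨0, isC_zero A⟩) ?_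
  refine laEquiv_of_supp NS F hF hk hk' (fun s U hs hU C hC => ?_)
  have h1 := good_of_sol h2 K hbase hext hU hC
  rw [hf (toCC C) U (fun u hu v hv ζ => good_local h2 hD h1 hu hv ζ) s hs]
  congr 1
  funext i
  exact ((N.φ ⟨0, isC_zero A⟩).apply_symm_apply _).symm

theorem graphLAEquiv_of_moves' [Finite I] [Fintype V] [Fintype V'] (N : Moves A V V' d)
    (hT : Tors N) {Γ : SimpleGraph V} {Γ' : SimpleGraph V'} (hN : N.Resp D Γ Γ')
    (h2 : (2 : ZMod p) ≠ 0) (hD : CoSkew D) (K : ℕ) (hbase : Good A D r ⊥ 0)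
    (hext : ∀ U U' : Submodule (ZMod p) I, U ≤ U' → finrank (ZMod p) U' ≤ K →
      ∀ C, Good A D r U C → ∃ C', Good A D r U' C' ∧ ∀ u ∈ U, ∀ ζ, C' ζ u = C ζ u)
    {k : ℕ} (hk : 3 * (d * k) ≤ 2 * K) (hk' : d * k + d ≤ K) : GraphLAEquiv p k Γ Γ' := by
  intro J F _ hF
  refine laEquiv_of_moves N hT h2 hD K hbase hext hk hk' F hF _ _ (fun C W hW s hs => ?_)
  refine Prod.ext ?_ ?_
  · funext i j
    exact propext (N.φ C).injective.eq_iff.symm
  · funext i j
    exact propext (hN C W hW _ _ (hs i) (hs j))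

theorem graphLAEquiv_of_moves [Finite I] [Fintype V] [Fintype V'] (N : Moves A V V' d)
    (hT : Tors N) {Γ : SimpleGraph V} {Γ' : SimpleGraph V'} (hN : N.Resp D Γ Γ')
    (h2 : (2 : ZMod p) ≠ 0) (hD : CoSkew D) (K : ℕ) (hbase : Good A D r ⊥ 0)
    (hext : ∀ U U' : Submodule (ZMod p) I, U ≤ U' → finrank (ZMod p) U' ≤ K →
      ∀ C, Good A D r U C → ∃ C', Good A D r U' C' ∧ ∀ u ∈ U, ∀ ζ, C' ζ u = C ζ u)
    {k : ℕ} (hk : 3 * (d * k) + d ≤ K) : GraphLAEquiv p k Γ Γ' :=
  graphLAEquiv_of_moves' N hT hN h2 hD K hbase hext (by omega) (by omega)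

theorem tors_elMoves (A : Tup (ZMod p) I z) (D : CoTup (ZMod p) I z) : Tors (elMoves A D) := by
  intro C C' v
  show transE 0 D _ _ v = transE 0 D C.1 C.2 ((transE 0 D 0 (isC_zero A)).symm (transE 0 D C'.1 C'.2 v))
  have h1 : (transE 0 D 0 (isC_zero A)).symm (transE 0 D C'.1 C'.2 v) =
      transE 0 0 C'.1 C'.2 v := by
    rw [Equiv.symm_apply_eq]
    ext1
    · rfl
    · apply Subtype.ext
      funext ζ
      show (v.w : Fin (z + 1) → Dual (ZMod p) I) ζ + C'.1 ζ v.i =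
        (v.w : Fin (z + 1) → Dual (ZMod p) I) ζ + C'.1 ζ v.i + 0
      rw [add_zero]
    · rfl
  rw [h1]
  ext1
  · rfl
  · apply Subtype.ext
    funext ζ
    show (v.w : Fin (z + 1) → Dual (ZMod p) I) ζ + (C.1 ζ v.i + C'.1 ζ v.i) =
      (v.w : Fin (z + 1) → Dual (ZMod p) I) ζ + C'.1 ζ v.i + C.1 ζ v.i
    abel
  · rfl

theorem tors_pairMoves (A : Tup (ZMod p) I z) (D : CoTup (ZMod p) I z) : Tors (pairMoves A D) := by
  intro C C' v
  exact Prod.ext (tors_elMoves A D C C' v.1) (tors_elMoves A D C C' v.2)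

/-- **The groups are not distinguished.** -/
theorem groupLAEquiv [Finite I] (h2 : (2 : ZMod p) ≠ 0) (hD : CoSkew D)
    (K : ℕ) (hbase : Good A D r ⊥ 0)
    (hext : ∀ U U' : Submodule (ZMod p) I, U ≤ U' → finrank (ZMod p) U' ≤ K →
      ∀ C, Good A D r U C → ∃ C', Good A D r U' C' ∧ ∀ u ∈ U, ∀ ζ, C' ζ u = C ζ u)
    {k : ℕ} (hk : 3 * k ≤ 2 * K) (hk' : k + 1 ≤ K) : GroupLAEquiv p k (G A 0) (G A D) := by
  intro J F _ hF
  refine laEquiv_of_moves (elMoves A D) (tors_elMoves A D) h2 hD K hbase hext (by omega) (by omega)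
    F hF _ _ (fun C W hW s hs => ?_)
  exact Set.ext fun w => word_iff' hW s (fun a => hs a (Submodule.subset_span rfl)) w

end Pool.Agent.SRGWL.IM
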