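import Pool.Agent.SRGWL.WL

/-!
# The Weisfeiler-Leman algorithm with linear algebra (the invertible-map test)
-/

namespace Pool.Agent.SRGWL.IM

open Finset

/-- The colours, after `r` rounds, of the `k`-dimensional Weisfeiler-Leman algorithm with linear
algebra over the fields `F j`, `j : J`, with initial colours in `K`. -/
def LCol {J : Type} (F : J → Type) (K : Type) (k : ℕ) : ℕ → Type
  | 0 => K
  | r + 1 => LCol F K k r × Multiset (Fin k → LCol F K k r) ×
      ((j : J) → (m : ℕ) → (Fin m ⊕ Fin m ↪ Fin k) →
        Set (Σ n : ℕ, LCol F K k r → Matrix (Fin n) (Fin n) (F j)))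

open Classical in
/-- The matrix `M_c`, with rows and columns indexed by the `m`-tuples of vertices: `M_c(a, b) = 1` if
the tuple which is obtained from `s` by placing `a` and `b` on the positions `x` has the colour `c`,
and `0` otherwise. -/
noncomputable def cmat {V C : Type} (R : Type) [Field R] {k m : ℕ} (f : (Fin k → V) → C)
    (s : Fin k → V) (x : Fin m ⊕ Fin m ↪ Fin k) (c : C) :
    Matrix (Fin m → V) (Fin m → V) R :=
  fun a b => if f (Function.extend x (Sum.elim a b) s) = c then 1 else 0

/-- The simultaneous similarity class of a family of square matrices `M c`, `c : C`: the set of all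
families `N c` of `n × n` matrices such that `S M_c = N_c S` for all `c`, for one invertible linear
map `S`. -/
def simClass {C W : Type} [Fintype W] (R : Type) [Field R] (M : C → Matrix W W R) :
    Set (Σ n : ℕ, C → Matrix (Fin n) (Fin n) R) :=
  {N | ∃ S : (W → R) ≃ₗ[R] (Fin N.1 → R), ∀ c v, S ((M c).mulVec v) = (N.2 c).mulVec (S v)}

/-- The colour of the `k`-tuple `s` after `r` rounds of the `k`-dimensional Weisfeiler-Leman algorithm
with linear algebra over the fields `F j`, for the initial colours `f`: the colour in round `r + 1`
consists of the colour in round `r`, of the multiset, over all vertices `v`, of the `k`-tuples of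
colours of `s[v/1], …, s[v/k]` in round `r`, and, for every field `F j`, every `m` and every choice of
`2 m` different positions, of the simultaneous similarity class of the matrices `M_c`, `c` a colour
of round `r`. -/
noncomputable def lcol {J : Type} (F : J → Type) [∀ j, Field (F j)] {V : Type} [Fintype V]
    {K : Type} {k : ℕ} (f : (Fin k → V) → K) : (r : ℕ) → (Fin k → V) → LCol F K k r
  | 0, s => f s
  | r + 1, s => (lcol F f r s,
      (Finset.univ : Finset V).val.map fun v i => lcol F f r (Function.update s i v),
      fun j _ x => simClass (F j) (cmat (F j) (lcol F f r) s x))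

/-- After any number of rounds the multisets of the colours of all `k`-tuples are equal. -/
def LAEquiv {J : Type} (F : J → Type) [∀ j, Field (F j)] {V V' : Type} [Fintype V] [Fintype V']
    {K : Type} {k : ℕ} (f : (Fin k → V) → K) (f' : (Fin k → V') → K) : Prop :=
  ∀ r : ℕ, (Finset.univ : Finset (Fin k → V)).val.map (lcol F f r) =
    (Finset.univ : Finset (Fin k → V')).val.map (lcol F f' r)

/-- `k`-dimensional Weisfeiler-Leman with linear algebra over all fields of characteristic different
from `p` (any family of such fields at the same time) does not distinguish the graphs `X` and `Y`; the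
initial colour of a tuple records which entries are equal and which are adjacent. -/
def GraphLAEquiv (p k : ℕ) {V V' : Type} [Fintype V] [Fintype V'] (X : SimpleGraph V)
    (Y : SimpleGraph V') : Prop :=
  ∀ (J : Type) (F : J → Type) [∀ j, Field (F j)], (∀ j, (p : F j) ≠ 0) →
    LAEquiv F (k := k)
      (fun s => ((fun i j => s i = s j, fun i j => X.Adj (s i) (s j)) :
        (Fin k → Fin k → Prop) × (Fin k → Fin k → Prop)))
      (fun s => (fun i j => s i = s j, fun i j => Y.Adj (s i) (s j)))

/-- The same for groups; the initial colour of a tuple `s` is the set of all group words `w` with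
`w(s) = 1`. -/
def GroupLAEquiv (p k : ℕ) (H H' : Type) [Group H] [Group H'] [Fintype H] [Fintype H'] : Prop :=
  ∀ (J : Type) (F : J → Type) [∀ j, Field (F j)], (∀ j, (p : F j) ≠ 0) →
    LAEquiv F (k := k) (fun s : Fin k → H => {w : FreeGroup (Fin k) | FreeGroup.lift s w = 1})
      (fun s : Fin k → H' => {w : FreeGroup (Fin k) | FreeGroup.lift s w = 1})

end Pool.Agent.SRGWL.IM
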