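import Pool.Agent.SRGWL.Defs

/-!
# Isomorphisms of Latin square graphs preserve the lines

Coordinates `crd 0 (x,y) = x`, `crd 1 (x,y) = y`, `crd 2 (x,y) = x*y`.
Facts: two different vertices are adjacent iff they agree in (exactly) one coordinate; for `j ≠ l` the
map `v ↦ (crd j v, crd l v)` is a bijection. Line `L j g = {v | crd j v = g}`, it has `N` vertices and
is a clique.

Paper proof of the theorem (`N = |G| = |H| ≥ 5`).
1. Every clique `Q` with `|Q| ≥ 5` is contained in a line: fix `u ∈ Q`; each of the at least 4 other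
   members agrees with `u` in one of the 3 coordinates, so two of them, `v ≠ w`, agree with `u` in the
   same coordinate `j`. Suppose `x ∈ Q` is not on the line `L j (crd j u)`. Then `x` agrees with each of
   `u, v, w` in one of the other two coordinates; so it agrees with two of them, say `u` and `v`, in
   the same coordinate `l ≠ j`; then `u` and `v` agree in `j` and in `l`, so `u = v`, contradiction.
2. The image of a line under the isomorphism `φ` is a clique with `N ≥ 5` elements, so it is contained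
   in a line, and it is a line because both have `N` elements.
3. Two lines `L j g`, `L j h` with `g ≠ h` are disjoint, lines of different classes intersect. So the
   images of the parallel lines `L j g`, `g ∈ G`, are pairwise disjoint lines: all in one class `σ j`.
   This gives `σ : Fin 3 → Fin 3` and `α j : G → H` with `crd (σ j) (φ v) = α j (crd j v)`; `α j` is
   injective (disjoint images), so bijective; `σ` is injective: for `j ≠ l`, `L j 1` and `L l 1` are
   different lines that intersect, so are their images, so they are not in the same class.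
-/

namespace Pool.Agent.SRGWL

/-- the three coordinates of a vertex of `lsGraph H` -/
def crd {H : Type*} [Group H] (j : Fin 3) (v : H × H) : H :=
  match j with
  | 0 => v.1
  | 1 => v.2
  | 2 => v.1 * v.2

namespace LSLinesAux

variable {G H : Type*} [Group G] [Group H]

theorem adj_iff (u v : H × H) : (lsGraph H).Adj u v ↔ u ≠ v ∧ ∃ j, crd j u = crd j v := by
  have h : (∃ j, crd j u = crd j v) ↔ (u.1 = v.1 ∨ u.2 = v.2 ∨ u.1 * u.2 = v.1 * v.2) := by
    rw [Fin.exists_fin_succ, Fin.exists_fin_two]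
    rfl
  rw [h]
  rfl

theorem crd_ext {j l : Fin 3} (hjl : j ≠ l) {u v : H × H} (h1 : crd j u = crd j v)
    (h2 : crd l u = crd l v) : u = v := by
  obtain ⟨a, b⟩ := u
  obtain ⟨c, d⟩ := v
  fin_cases j <;> fin_cases l <;> simp_all [crd]

theorem crd_surj {j l : Fin 3} (hjl : j ≠ l) (g h : H) : ∃ v : H × H, crd j v = g ∧ crd l v = h := by
  fin_cases j <;> fin_cases l <;> simp at hjl
  · exact ⟨(g, h), rfl, rfl⟩
  · exact ⟨(g, g⁻¹ * h), rfl, by simp [crd]⟩
  · exact ⟨(h, g), rfl, rfl⟩
  · exact ⟨(h * g⁻¹, g), rfl, by simp [crd]⟩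
  · exact ⟨(h, h⁻¹ * g), by simp [crd], rfl⟩
  · exact ⟨(g * h⁻¹, h), by simp [crd], rfl⟩

theorem exists_other (j : Fin 3) : ∃ l : Fin 3, j ≠ l := by
  fin_cases j
  · exact ⟨1, by decide⟩
  · exact ⟨0, by decide⟩
  · exact ⟨0, by decide⟩

theorem pigeon {j a b c : Fin 3} (ha : a ≠ j) (hb : b ≠ j) (hc : c ≠ j) :
    a = b ∨ a = c ∨ b = c := by
  revert j a b c
  decide

/-- Large cliques are contained in lines. -/
theorem clique_line {ι : Type*} [Fintype ι] (hι : 5 ≤ Fintype.card ι) (p : ι → H × H)
    (hp : Function.Injective p) (hadj : ∀ a b, a ≠ b → (lsGraph H).Adj (p a) (p b)) :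
    ∃ j g, ∀ a, crd j (p a) = g := by
  classical
  have hex : ∀ a b, ∃ j, a ≠ b → crd j (p a) = crd j (p b) := by
    intro a b
    by_cases h : a = b
    · exact ⟨0, fun h' => absurd h h'⟩
    · obtain ⟨-, j, hj⟩ := (adj_iff _ _).1 (hadj a b h)
      exact ⟨j, fun _ => hj⟩
  choose c hc using hex
  obtain ⟨u⟩ : Nonempty ι := Fintype.card_pos_iff.1 (by omega)
  have hcard : (Finset.univ : Finset (Fin 3)).card < (Finset.univ.erase u).card := by
    rw [Finset.card_erase_of_mem (Finset.mem_univ u), Finset.card_univ, Finset.card_univ,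
      Fintype.card_fin]
    omega
  obtain ⟨v, hv, w, hw, hvw, hcvw⟩ := Finset.exists_ne_map_eq_of_card_lt_of_maps_to
    (f := fun a => c u a) hcard (fun a _ => Finset.mem_univ _)
  have huv : u ≠ v := (Finset.ne_of_mem_erase hv).symm
  have huw : u ≠ w := (Finset.ne_of_mem_erase hw).symm
  set j := c u v with hj
  have e1 : crd j (p u) = crd j (p v) := hc u v huv
  have e2 : crd j (p u) = crd j (p w) := by
    have := hc u w huw
    rwa [← hcvw] at this
  refine ⟨j, crd j (p u), fun x => ?_⟩
  by_contra hx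
  have hxu : x ≠ u := by
    rintro rfl
    exact hx rfl
  have hxv : x ≠ v := by
    rintro rfl
    exact hx e1.symm
  have hxw : x ≠ w := by
    rintro rfl
    exact hx e2.symm
  have n1 : c x u ≠ j := by
    intro h
    have := hc x u hxu
    rw [h] at this
    exact hx this
  have n2 : c x v ≠ j := by
    intro h
    have := hc x v hxv
    rw [h] at this
    exact hx (this.trans e1.symm)
  have n3 : c x w ≠ j := by
    intro h
    have := hc x w hxw
    rw [h] at this
    exact hx (this.trans e2.symm)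
  rcases pigeon n1 n2 n3 with h | h | h
  · have h1 := hc x u hxu
    have h2 := hc x v hxv
    rw [← h] at h2
    exact huv (hp (crd_ext n1 (h1.symm.trans h2) e1))
  · have h1 := hc x u hxu
    have h2 := hc x w hxw
    rw [← h] at h2
    exact huw (hp (crd_ext n1 (h1.symm.trans h2) e2))
  · have h1 := hc x v hxv
    have h2 := hc x w hxw
    rw [← h] at h2
    exact hvw (hp (crd_ext n2 (h1.symm.trans h2) (e1.symm.trans e2)))

theorem line_sub [Fintype G] (hG : 5 ≤ Fintype.card G) (φ : lsGraph G ≃g lsGraph H) (j : Fin 3)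
    (g : G) : ∃ j' g', ∀ v, crd j v = g → crd j' (φ v) = g' := by
  obtain ⟨l, hl⟩ := exists_other j
  choose p hp1 hp2 using fun h : G => crd_surj hl g h
  have hinj : Function.Injective p := by
    intro a b hab
    rw [← hp2 a, ← hp2 b, hab]
  obtain ⟨j', g', h⟩ := clique_line hG (fun a => φ (p a)) (φ.injective.comp hinj) (by
    intro a b hab
    rw [φ.map_adj_iff, adj_iff]
    exact ⟨fun h => hab (hinj h), j, by rw [hp1, hp1]⟩)
  refine ⟨j', g', fun v hv => ?_⟩
  have h1 : v = p (crd l v) := crd_ext hl (by rw [hp1, hv]) (by rw [hp2])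
  rw [h1]
  exact h _

theorem exists_two [Fintype G] (hG : 5 ≤ Fintype.card G) (j : Fin 3) (g : G) (v : G × G)
    (hv : crd j v = g) : ∃ v', v' ≠ v ∧ crd j v' = g := by
  obtain ⟨l, hl⟩ := exists_other j
  have : Nontrivial G := Fintype.one_lt_card_iff_nontrivial.1 (by omega)
  obtain ⟨h, hh⟩ := exists_ne (crd l v)
  obtain ⟨v', h1, h2⟩ := crd_surj hl g h
  refine ⟨v', ?_, h1⟩
  rintro rfl
  exact hh h2.symm

theorem line_iff [Fintype G] [Fintype H] (hG : 5 ≤ Fintype.card G) (hH : 5 ≤ Fintype.card H)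
    (φ : lsGraph G ≃g lsGraph H) (j : Fin 3) (g : G) :
    ∃ j' g', ∀ v, crd j v = g ↔ crd j' (φ v) = g' := by
  obtain ⟨j', g', h1⟩ := line_sub hG φ j g
  obtain ⟨j'', g'', h2⟩ := line_sub hH φ.symm j' g'
  have h3 : ∀ v, crd j' (φ v) = g' → crd j'' v = g'' := by
    intro v hv
    have := h2 (φ v) hv
    rwa [RelIso.symm_apply_apply] at this
  obtain ⟨l, hl⟩ := exists_other j
  obtain ⟨v, hv, -⟩ := crd_surj hl g 1
  obtain ⟨v', hne, hv'⟩ := exists_two hG j g v hv
  have h4 : j'' = j := by
    by_contra h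
    apply hne
    exact crd_ext h ((h3 _ (h1 _ hv')).trans (h3 _ (h1 _ hv)).symm) (hv'.trans hv.symm)
  subst h4
  have h5 : g'' = g := by rw [← h3 _ (h1 _ hv), hv]
  subst h5
  exact ⟨j', g', fun v => ⟨h1 v, h3 v⟩⟩

end LSLinesAux

open LSLinesAux

theorem lsGraph_iso_lines {G H : Type*} [Group G] [Group H] [Fintype G] [Fintype H]
    (hG : 5 ≤ Fintype.card G) (φ : lsGraph G ≃g lsGraph H) :
    ∃ (σ : Fin 3 → Fin 3) (α : Fin 3 → G → H), Function.Injective σ ∧
      (∀ j, Function.Bijective (α j)) ∧ ∀ j v, crd (σ j) (φ v) = α j (crd j v) := by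
  have hcard : Fintype.card G = Fintype.card H := by
    have h := Fintype.card_congr φ.toEquiv
    rw [Fintype.card_prod, Fintype.card_prod] at h
    exact Nat.mul_self_inj.1 h
  choose τ β h using line_iff hG (hcard ▸ hG) φ
  have hτ : ∀ j g g', τ j g = τ j g' := by
    intro j g g'
    by_contra hne
    obtain ⟨w, h1, h2⟩ := crd_surj hne (β j g) (β j g')
    obtain ⟨v, rfl⟩ := φ.surjective w
    have e1 := (h j g v).2 h1
    have e2 := (h j g' v).2 h2
    apply hne
    rw [← e1, ← e2]
  have hα : ∀ j g v, crd j v = g ↔ crd (τ j 1) (φ v) = β j g := by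
    intro j g v
    rw [hτ j 1 g]
    exact h j g v
  refine ⟨fun j => τ j 1, β, ?_, ?_, fun j v => (hα j _ v).1 rfl⟩
  · intro j l hjl
    simp only at hjl
    by_contra hne
    obtain ⟨v, h1, h2⟩ := crd_surj hne (1 : G) 1
    obtain ⟨v', h3, h4⟩ := exists_two hG j 1 v h1
    apply h3
    have e1 := (hα j 1 v).1 h1
    have e2 := (hα l 1 v).1 h2
    have e3 := (hα j 1 v').1 h4
    rw [hjl] at e1 e3
    have e4 : crd l v' = 1 := (hα l 1 v').2 (by rw [e3, ← e1, e2])
    exact crd_ext hne (h4.trans h1.symm) (e4.trans h2.symm)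
  · intro j
    rw [Fintype.bijective_iff_injective_and_card]
    refine ⟨fun g g' hgg => ?_, hcard⟩
    obtain ⟨l, hl⟩ := exists_other (τ j 1)
    obtain ⟨w, h1, -⟩ := crd_surj hl (β j g) 1
    obtain ⟨v, rfl⟩ := φ.surjective w
    have e1 := (hα j g v).2 h1
    have e2 := (hα j g' v).2 (by rw [h1, hgg])
    rw [← e1, ← e2]

end Pool.Agent.SRGWL
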