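import Pool.Agent.SRGWL.LocalA

/-!
# Local solvability, second part: extension of local solutions, existence of the twist
-/

namespace Pool.Agent.SRGWL

open Module

variable {K I : Type*} [Field K] [AddCommGroup I] [Module K I] {z : ℕ}

section prelim

set_option linter.unusedSectionVars false

variable [Module.Finite K I]

omit [Module.Finite K I] in
theorem factor_ker {V W : Type*} [AddCommGroup V] [Module K V] [AddCommGroup W] [Module K W]
    (f : V →ₗ[K] W) (φ : V →ₗ[K] K) (h : ∀ x, f x = 0 → φ x = 0) :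
    ∃ g : W →ₗ[K] K, ∀ x, g (f x) = φ x := by
  have h1 : φ ∈ (LinearMap.ker f).dualAnnihilator := (Submodule.mem_dualAnnihilator _).mpr h
  rw [← LinearMap.range_dualMap_eq_dualAnnihilator_ker] at h1
  obtain ⟨g, hg⟩ := h1
  exact ⟨g, fun x => LinearMap.congr_fun hg x⟩

theorem exists_Y {A : Tup K I z} {U : Submodule K I} {Θ : Tup K I z} (hA : Skew A) (hΘ : Skew Θ)
    (h : ∀ E ∈ LinearMap.ker (obs A U), pair Θ E = 0) :
    ∃ Y : Dual K I →ₗ[K] Dual K I, ∀ φ ∈ U.dualAnnihilator, ∀ ζ, Θ ζ φ = A ζ (Y φ) := by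
  classical
  obtain ⟨g, hg⟩ := factor_ker (V := CoTup K I z)
    (W := (I →ₗ[K] I) × (Fin (z + 1) → (U →ₗ[K] Dual K I))) (obs A U) (pairL Θ)
    (fun E hE => h E (LinearMap.mem_ker.mpr hE))
  let g1 : (I →ₗ[K] I) →ₗ[K] K := g ∘ₗ LinearMap.inl K _ _
  let Y : Dual K I →ₗ[K] Dual K I := LinearMap.compr₂ LinearMap.smulRightₗ g1
  have hYv : ∀ φ x, Y φ x = g (φ.smulRight x, 0) := fun φ x => rfl
  refine ⟨Y, fun φ hφ ζ => ?_⟩
  have key : ∀ η : Dual K I, φ (Θ ζ η) = Y φ (A ζ η) := by
    intro η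
    have e1 := hg (Pi.single ζ (φ.smulRight η))
    rw [pairL_apply, pair_single_right] at e1
    have e2 : Θ ζ ∘ₗ φ.smulRight η = φ.smulRight (Θ ζ η) := by
      ext i
      simp
    rw [e2, trace_smulRight'] at e1
    rw [← e1, hYv]
    congr 1
    refine Prod.ext ?_ ?_
    · show ∑ ζ', A ζ' ∘ₗ (Pi.single ζ (φ.smulRight η) : CoTup K I z) ζ' = φ.smulRight (A ζ η)
      rw [Finset.sum_eq_single ζ]
      · ext i
        simp
      · intro b _ hb
        rw [Pi.single_eq_of_ne hb]
        simp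
      · simp
    · show (fun ζ' => (Pi.single ζ (φ.smulRight η) : CoTup K I z) ζ' ∘ₗ U.subtype) = 0
      funext ζ'
      ext1 u
      have hu : φ u = 0 := (Submodule.mem_dualAnnihilator φ).mp hφ u u.2
      by_cases hz : ζ' = ζ
      · subst hz
        simp [hu]
      · rw [Pi.single_eq_of_ne hz]
        simp
  rw [← sub_eq_zero, ← Module.forall_dual_apply_eq_zero_iff K]
  intro η
  rw [map_sub, hΘ ζ η φ, key η, hA ζ (Y φ) η]
  ring

/-- (instance search does not find this one) -/
noncomputable local instance instACGSub (S : Submodule K (CoTup K I z)) : AddCommGroup S :=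
  Module.addCommMonoidToAddCommGroup K

local instance instFinSub (S : Submodule K (CoTup K I z)) : Module.Finite K S := by
  let _ : AddCommGroup (CoTup K I z) := Module.addCommMonoidToAddCommGroup K
  have h2 : IsNoetherian K (CoTup K I z) :=
    isNoetherian_of_isNoetherianRing_of_finite K (CoTup K I z)
  exact Module.Finite.of_injective S.subtype Subtype.coe_injective

theorem good_ext {A : Tup K I z} {D : CoTup K I z} {k r : ℕ} (h2 : (2 : K) ≠ 0) (hA : Skew A)
    (h0 : Function.Injective (A 0)) (hR : Rigid A k r) (hdim : k + 3 * r < finrank K I)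
    {U U' : Submodule K I} (hUU' : U ≤ U') (hU' : finrank K U' ≤ k) {C : CoTup K I z}
    (hC : Good A D r U C) :
    ∃ C', Good A D r U' C' ∧ ∀ u ∈ U, ∀ ζ, C' ζ u = C ζ u := by
  obtain ⟨S, hS⟩ := exists_DU_submodule h2 hR hdim hU'
  have hU : finrank K U ≤ k := (Submodule.finrank_mono hUU').trans hU'
  let ρ : S →ₗ[K] Dual K (LinearMap.ker (obs A U)) :=
    (2 : K) • ((LinearMap.ker (obs A U)).dualRestrict ∘ₗ pairL ∘ₗ S.subtype)
  let val : S →ₗ[K] K := (pairL.flip D - (2 : K) • pairL.flip C) ∘ₗ S.subtype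
  have hρ : ∀ (Θ : S) (E : LinearMap.ker (obs A U)), ρ Θ E = 2 * pair (Θ : Tup K I z) E :=
    fun Θ E => rfl
  have hval : ∀ Θ : S, val Θ = pair (Θ : Tup K I z) D - 2 * pair (Θ : Tup K I z) C :=
    fun Θ => rfl
  obtain ⟨E, hE⟩ := solve (V := LinearMap.ker (obs A U)) (M := S) ρ val (by
    intro Θ hΘ0
    have hΘ := (hS Θ).mp Θ.2
    obtain ⟨hsk, Y', hY'r, hY'⟩ := id hΘ
    obtain ⟨Y, hY⟩ := exists_Y (U := U) hA hsk (by
      intro E hE
      have := LinearMap.congr_fun hΘ0 (⟨E, hE⟩ : LinearMap.ker (obs A U))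
      rw [hρ] at this
      exact (mul_eq_zero.mp this).resolve_left h2)
    have hann : U'.dualAnnihilator ≤ U.dualAnnihilator := Submodule.dualAnnihilator_anti hUU'
    have hmem : (Θ : Tup K I z) ∈ DU A r U := by
      refine DU_key h2 hR hdim hU hsk Y hY U'.dualAnnihilator hann (codim_ann hU') ?_
      have hle : U'.dualAnnihilator.map Y ≤ LinearMap.range Y' := by
        rintro _ ⟨φ, hφ, rfl⟩
        refine ⟨φ, h0 ?_⟩
        rw [← hY' φ hφ 0, hY φ (hann hφ) 0]
      have := Submodule.finrank_mono hle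
      omega
    rw [hval, hC.2 _ hmem, sub_self])
  have hEk := mem_ker_obs.mp E.2
  refine ⟨C + (E : CoTup K I z), ⟨fun i => ?_, fun Θ hΘ => ?_⟩, fun u hu ζ => ?_⟩
  · have := (Wsp A).add_mem (hC.1 i) (hEk.1 i)
    exact this
  · have := hE ⟨Θ, (hS Θ).mpr hΘ⟩
    rw [hρ, hval] at this
    rw [pair_add_right, mul_add]
    simp only at this
    rw [this]
    ring
  · rw [Pi.add_apply, LinearMap.add_apply, hEk.2 u hu ζ, add_zero]

theorem good_mono {A : Tup K I z} {D : CoTup K I z} {r : ℕ} {U U' : Submodule K I}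
    (hUU' : U ≤ U') {C : CoTup K I z} (hC : Good A D r U' C) : Good A D r U C := by
  refine ⟨hC.1, fun Θ hΘ => hC.2 Θ ?_⟩
  obtain ⟨hsk, Y, hY, hY'⟩ := hΘ
  exact ⟨hsk, Y, hY, fun φ hφ ζ => hY' φ (Submodule.dualAnnihilator_anti hUU' hφ) ζ⟩

theorem good_local {A : Tup K I z} {D : CoTup K I z} {r : ℕ} (h2 : (2 : K) ≠ 0) (hD : CoSkew D)
    {U : Submodule K I} {C : CoTup K I z} (hC : Good A D r U C) {u v : I} (hu : u ∈ U)
    (hv : v ∈ U) (ζ : Fin (z + 1)) : C ζ u v - C ζ v u = D ζ u v := by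
  classical
  let T : Dual K I →ₗ[K] I :=
    (Dual.eval K I v).smulRight u - (Dual.eval K I u).smulRight v
  have hT : ∀ φ, T φ = φ v • u - φ u • v := fun φ => rfl
  have hpair : ∀ C : CoTup K I z, pair (Pi.single ζ T) C = C ζ u v - C ζ v u := by
    intro C
    rw [pair_single_left]
    have e : T ∘ₗ C ζ = ((C ζ).flip v).smulRight u - ((C ζ).flip u).smulRight v := by
      ext i
      simp [hT]
    rw [e, map_sub, trace_smulRight', trace_smulRight']
    simp
  have hmem : (Pi.single ζ T : Tup K I z) ∈ DU A r U := by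
    refine ⟨fun ζ' φ ψ => ?_, 0, finrank_range_zero_le r, fun φ hφ ζ' => ?_⟩
    · by_cases hz : ζ' = ζ
      · subst hz
        rw [Pi.single_eq_same, hT, hT]
        simp
        ring
      · rw [Pi.single_eq_of_ne hz]
        simp
    · have hu' : φ u = 0 := (Submodule.mem_dualAnnihilator φ).mp hφ u hu
      have hv' : φ v = 0 := (Submodule.mem_dualAnnihilator φ).mp hφ v hv
      by_cases hz : ζ' = ζ
      · subst hz
        rw [Pi.single_eq_same, hT]
        simp [hu', hv']
      · rw [Pi.single_eq_of_ne hz]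
        simp
  have h := hC.2 _ hmem
  rw [hpair, hpair, hD ζ v u] at h
  have h' : 2 * (C ζ u v - C ζ v u) = 2 * D ζ u v := by
    rw [h]
    ring
  exact mul_left_cancel₀ h2 h'

theorem pairL_flip_injective :
    Function.Injective (pairL.flip : CoTup K I z →ₗ[K] Dual K (Tup K I z)) := by
  classical
  refine (injective_iff_map_eq_zero _).mpr ?_
  intro C hC
  funext ζ
  ext u v
  have h := LinearMap.congr_fun hC (Pi.single ζ ((Dual.eval K I v).smulRight u))
  rw [LinearMap.flip_apply, pairL_apply, pair_single_left] at h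
  have e : ((Dual.eval K I v).smulRight u : Dual K I →ₗ[K] I) ∘ₗ C ζ
      = ((C ζ).flip v).smulRight u := by
    ext i
    simp
  rw [e, trace_smulRight'] at h
  simpa using h

theorem exists_D {A : Tup K I z} {k r : ℕ} (h2 : (2 : K) ≠ 0) (hA : Skew A)
    (h0 : Function.Injective (A 0)) (hR : Rigid A k r) (hdim : k + 3 * r < finrank K I) :
    ∃ D : CoTup K I z, CoSkew D ∧ pair A D ≠ 0 ∧ Good A D r ⊥ 0 := by
  obtain ⟨S, hS⟩ := exists_DU_submodule (U := (⊥ : Submodule K I)) h2 hR hdim (by simp)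
  have hAS : A ∉ S := by
    rw [hS]
    rintro ⟨-, Y, hY, hY'⟩
    have hid : Y = LinearMap.id := by
      ext1 φ
      apply h0
      rw [← hY' φ (by simp) 0, LinearMap.id_apply]
    rw [hid, LinearMap.range_id, finrank_top, finrank_dual (K := K) (I := I)] at hY
    omega
  obtain ⟨f, hf1, hf2⟩ := Submodule.exists_le_ker_of_notMem hAS
  have hsurj : Function.Surjective (pairL.flip : CoTup K I z →ₗ[K] Dual K (Tup K I z)) := by
    refine (LinearMap.injective_iff_surjective_of_finrank_eq_finrank (V := CoTup K I z)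
      (V₂ := Dual K (Tup K I z))
      (f := (pairL.flip : CoTup K I z →ₗ[K] Dual K (Tup K I z))) ?_).mp pairL_flip_injective
    · rw [Subspace.dual_finrank_eq, Module.finrank_pi_fintype, Module.finrank_pi_fintype]
      refine Finset.sum_congr rfl fun ζ _ => ?_
      have e1 : finrank K (I →ₗ[K] Dual K I) = finrank K I * finrank K (Dual K I) :=
        Module.finrank_linearMap K K I (Dual K I)
      have e2 : finrank K (Dual K I →ₗ[K] I) = finrank K (Dual K I) * finrank K I :=
        Module.finrank_linearMap K K (Dual K I) I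
      rw [e1, e2, mul_comm]
  obtain ⟨D', hD'⟩ := hsurj f
  have hfD : ∀ Θ, f Θ = pair Θ D' := by
    intro Θ
    rw [← hD']
    rfl
  have hpair : ∀ Θ, Skew Θ → pair Θ (D' - fun ζ => (D' ζ).flip) = 2 * f Θ := by
    intro Θ hΘ
    rw [pair_sub_right, pair_flip hΘ, hfD]
    ring
  refine ⟨D' - fun ζ => (D' ζ).flip, fun ζ i j => ?_, ?_, fun i => ?_, fun Θ hΘ => ?_⟩
  · simp
  · rw [hpair A hA]
    exact mul_ne_zero h2 hf1
  · rw [mem_Wsp]
    simp
  · have hΘS : f Θ = 0 := by
      have := hf2 ((hS Θ).mpr hΘ)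
      rwa [LinearMap.mem_ker] at this
    rw [hpair Θ hΘ.1, hΘS]
    have : pair Θ (0 : CoTup K I z) = 0 := by
      have := map_zero (pairL Θ)
      exact this
    rw [this]

/-- A rigid tuple gives a non-trivial twist `D` together with a system of local solutions. -/
theorem exists_sys {A : Tup K I z} {k r : ℕ} (h2 : (2 : K) ≠ 0) (hA : Skew A)
    (h0 : Function.Injective (A 0)) (hR : Rigid A k r) (hdim : k + 3 * r < finrank K I) :
    ∃ D : CoTup K I z, CoSkew D ∧ pair A D ≠ 0 ∧ Nonempty (Sys A D k) := by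
  obtain ⟨D, hD, hne, hbase⟩ := exists_D h2 hA h0 hR hdim
  refine ⟨D, hD, hne, ⟨{
    sol := fun U => {C | Good A D r U C}
    isC := fun U C hC => hC.1
    base := ⟨0, hbase⟩
    mono := fun U U' hUU' C hC => good_mono hUU' hC
    ext := fun U U' hUU' hU' C hC => good_ext h2 hA h0 hR hdim hUU' hU' hC
    local_eq := fun U C hC u hu v hv ζ => good_local h2 hD hC hu hv ζ }⟩⟩

end prelim

end Pool.Agent.SRGWL
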