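import Pool.Agent.SRGWL.Defs

/-!
# Local solvability: a rigid tuple gives a system of local solutions

See the header of `Defs.lean` for the notation.
-/

namespace Pool.Agent.SRGWL

open Module

variable {K I : Type*} [Field K] [AddCommGroup I] [Module K I] {z : ℕ}

section prelim

set_option linter.unusedSectionVars false

variable [Module.Finite K I]

theorem exists_adjust (P : Submodule K (Dual K I)) (Y : Dual K I →ₗ[K] Dual K I) :
    ∃ Y' : Dual K I →ₗ[K] Dual K I, LinearMap.range Y' = P.map Y ∧ ∀ φ ∈ P, Y' φ = Y φ := by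
  obtain ⟨Q, hQ⟩ := P.exists_isCompl
  have hg' : ∀ x : P, P.projectionOnto Q hQ x = x := fun x =>
    Submodule.projectionOnto_apply_left hQ x
  refine ⟨Y ∘ₗ P.subtype ∘ₗ P.projectionOnto Q hQ, ?_, ?_⟩
  · rw [LinearMap.range_comp, LinearMap.range_comp, Submodule.range_projectionOnto,
      Submodule.map_top, Submodule.range_subtype]
  · intro φ hφ
    have := hg' ⟨φ, hφ⟩
    simp only [LinearMap.comp_apply, Submodule.subtype_apply]
    rw [this]

theorem trace_flip {Θ : Dual K I →ₗ[K] I} (hΘ : ∀ φ ψ : Dual K I, φ (Θ ψ) = - ψ (Θ φ))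
    (C : I →ₗ[K] Dual K I) :
    LinearMap.trace K I (Θ ∘ₗ C.flip) = - LinearMap.trace K I (Θ ∘ₗ C) := by
  have h1 : Module.Dual.transpose (R := K) (Θ ∘ₗ C.flip) + (C ∘ₗ Θ) = 0 := by
    ext φ j
    simp only [Dual.transpose_apply, LinearMap.comp_apply, LinearMap.add_apply,
      LinearMap.zero_apply]
    rw [hΘ]
    simp [LinearMap.flip_apply]
  have h2 := LinearMap.congr_fun (LinearMap.trace_transpose (R := K) (M := I)) (Θ ∘ₗ C.flip)
  simp only [LinearMap.comp_apply] at h2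
  have h3 := congrArg (LinearMap.trace K (Dual K I)) h1
  have h4 : LinearMap.trace K (Dual K I) (C ∘ₗ Θ) = LinearMap.trace K I (Θ ∘ₗ C) :=
    LinearMap.trace_comp_comm' _ _
  rw [map_add, map_zero, h2, h4] at h3
  exact eq_neg_of_add_eq_zero_left h3

theorem pair_flip {Θ : Tup K I z} (hΘ : Skew Θ) (C : CoTup K I z) :
    pair Θ (fun ζ => (C ζ).flip) = - pair Θ C := by
  unfold pair
  rw [← Finset.sum_neg_distrib]
  exact Finset.sum_congr rfl fun ζ _ => trace_flip (hΘ ζ) (C ζ)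

theorem pair_add_right (Θ : Tup K I z) (C C' : CoTup K I z) :
    pair Θ (C + C') = pair Θ C + pair Θ C' := by
  unfold pair
  rw [← Finset.sum_add_distrib]
  refine Finset.sum_congr rfl fun ζ _ => ?_
  rw [Pi.add_apply, LinearMap.comp_add, map_add]

theorem pair_sub_right (Θ : Tup K I z) (C C' : CoTup K I z) :
    pair Θ (C - C') = pair Θ C - pair Θ C' := by
  unfold pair
  rw [← Finset.sum_sub_distrib]
  refine Finset.sum_congr rfl fun ζ _ => ?_
  rw [Pi.sub_apply, LinearMap.comp_sub, map_sub]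

theorem pair_smul_right (c : K) (Θ : Tup K I z) (C : CoTup K I z) :
    pair Θ (c • C) = c * pair Θ C := by
  unfold pair
  rw [Finset.mul_sum]
  refine Finset.sum_congr rfl fun ζ _ => ?_
  rw [Pi.smul_apply, LinearMap.comp_smul, map_smul, smul_eq_mul]

theorem pair_add_left (Θ Θ' : Tup K I z) (C : CoTup K I z) :
    pair (Θ + Θ') C = pair Θ C + pair Θ' C := by
  unfold pair
  rw [← Finset.sum_add_distrib]
  refine Finset.sum_congr rfl fun ζ _ => ?_
  rw [Pi.add_apply, LinearMap.add_comp, map_add]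

theorem pair_smul_left (c : K) (Θ : Tup K I z) (C : CoTup K I z) :
    pair (c • Θ) C = c * pair Θ C := by
  unfold pair
  rw [Finset.mul_sum]
  refine Finset.sum_congr rfl fun ζ _ => ?_
  rw [Pi.smul_apply, LinearMap.smul_comp, map_smul, smul_eq_mul]

/-- the pairing as a bilinear map -/
noncomputable def pairL : Tup K I z →ₗ[K] CoTup K I z →ₗ[K] K :=
  LinearMap.mk₂ K pair pair_add_left pair_smul_left pair_add_right pair_smul_right

@[simp] theorem pairL_apply (Θ : Tup K I z) (C : CoTup K I z) : pairL Θ C = pair Θ C := rfl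

theorem trace_smulRight' (φ : Dual K I) (x : I) :
    LinearMap.trace K I (φ.smulRight x) = φ x := by
  have h := LinearMap.trace_eq_contract_apply (R := K) (M := I) (φ ⊗ₜ x)
  have h2 : dualTensorHom K I I (φ ⊗ₜ x) = φ.smulRight x := by
    ext i
    simp [dualTensorHom_apply]
  rw [h2] at h
  rw [h]
  simp

theorem pair_single_left [DecidableEq (Fin (z + 1))] (ζ : Fin (z + 1)) (T : Dual K I →ₗ[K] I)
    (C : CoTup K I z) :
    pair (Pi.single ζ T) C = LinearMap.trace K I (T ∘ₗ C ζ) := by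
  unfold pair
  rw [Finset.sum_eq_single ζ]
  · simp
  · intro b _ hb
    rw [Pi.single_eq_of_ne hb]
    simp
  · simp

theorem pair_single_right [DecidableEq (Fin (z + 1))] (ζ : Fin (z + 1)) (Θ : Tup K I z)
    (T : I →ₗ[K] Dual K I) :
    pair Θ (Pi.single ζ T) = LinearMap.trace K I (Θ ζ ∘ₗ T) := by
  unfold pair
  rw [Finset.sum_eq_single ζ]
  · simp
  · intro b _ hb
    rw [Pi.single_eq_of_ne hb]
    simp
  · simp

theorem solve {V M : Type*} [AddCommGroup V] [Module K V] [Module.Finite K V] [AddCommGroup M]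
    [Module K M] (ρ : M →ₗ[K] Dual K V) (val : M →ₗ[K] K) (h : ∀ m, ρ m = 0 → val m = 0) :
    ∃ v : V, ∀ m, ρ m v = val m := by
  have h1 : val ∈ (LinearMap.ker ρ).dualAnnihilator := by
    rw [Submodule.mem_dualAnnihilator]
    intro m hm
    exact h m hm
  rw [← LinearMap.range_dualMap_eq_dualAnnihilator_ker] at h1
  obtain ⟨g, hg⟩ := h1
  refine ⟨(evalEquiv K V).symm g, fun m => ?_⟩
  have := LinearMap.congr_fun hg m
  rw [← this]
  simp only [LinearMap.dualMap_apply]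
  rw [← Module.apply_evalEquiv_symm_apply]

theorem finrank_dual : finrank K (Dual K I) = finrank K I := Subspace.dual_finrank_eq

theorem codim_ann {k : ℕ} {U : Submodule K I} (hU : finrank K U ≤ k) :
    finrank K (Dual K I) ≤ finrank K U.dualAnnihilator + k := by
  have h := Subspace.finrank_add_finrank_dualAnnihilator_eq U
  rw [finrank_dual (K := K) (I := I)]
  omega

theorem DU_key {A : Tup K I z} {k r : ℕ} (h2 : (2 : K) ≠ 0) (hR : Rigid A k r)
    (hdim : k + 3 * r < finrank K I) {U : Submodule K I} (hU : finrank K U ≤ k)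
    {Θ : Tup K I z} (hΘ : Skew Θ) (Y : Dual K I →ₗ[K] Dual K I)
    (hY : ∀ φ ∈ U.dualAnnihilator, ∀ ζ, Θ ζ φ = A ζ (Y φ)) (P' : Submodule K (Dual K I))
    (hP' : P' ≤ U.dualAnnihilator) (hc : finrank K (Dual K I) ≤ finrank K P' + k)
    (hs : finrank K (P'.map Y) ≤ 2 * r) : Θ ∈ DU A r U := by
  have hcond : ∀ φ ∈ U.dualAnnihilator, ∀ ζ, φ (A ζ (Y φ)) = 0 := by
    intro φ hφ ζ
    rw [← hY φ hφ ζ]
    have h := hΘ ζ φ φ
    have h' : 2 * φ (Θ ζ φ) = 0 := by
      rw [two_mul]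
      nth_rewrite 1 [h]
      ring
    exact (mul_eq_zero.mp h').resolve_left h2
  obtain ⟨c, hcr⟩ := hR _ (codim_ann hU) Y hcond
  have hc0 : c = 0 := by
    by_contra hne
    have hle : P' ≤ P'.map Y ⊔ U.dualAnnihilator.map (Y - c • LinearMap.id) := by
      intro φ hφ
      have e : φ = c⁻¹ • (Y φ - (Y - c • LinearMap.id : Dual K I →ₗ[K] Dual K I) φ) := by
        simp only [LinearMap.sub_apply, LinearMap.smul_apply, LinearMap.id_apply, sub_sub_cancel]
        rw [smul_smul, inv_mul_cancel₀ hne, one_smul]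
      rw [e]
      refine Submodule.smul_mem _ _ (Submodule.sub_mem _ ?_ ?_)
      · exact Submodule.mem_sup_left (Submodule.mem_map_of_mem hφ)
      · exact Submodule.mem_sup_right (Submodule.mem_map_of_mem (hP' hφ))
    have h3 := (Submodule.finrank_mono hle).trans (Submodule.finrank_add_le_finrank_add_finrank _ _)
    rw [finrank_dual (K := K) (I := I)] at hc
    omega
  have hY0 : Y - (0 : K) • LinearMap.id = Y := by
    ext φ x
    simp
  rw [hc0, hY0] at hcr
  obtain ⟨Y', hY'1, hY'2⟩ := exists_adjust U.dualAnnihilator Y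
  refine ⟨hΘ, Y', ?_, fun φ hφ ζ => ?_⟩
  · rw [hY'1]; exact hcr
  · rw [hY'2 φ hφ]; exact hY φ hφ ζ

theorem skew_add {Θ Θ' : Tup K I z} (h : Skew Θ) (h' : Skew Θ') : Skew (Θ + Θ') := by
  intro ζ φ ψ
  simp only [Pi.add_apply, LinearMap.add_apply, map_add]
  rw [h ζ φ ψ, h' ζ φ ψ]
  ring

theorem skew_smul (c : K) {Θ : Tup K I z} (h : Skew Θ) : Skew (c • Θ) := by
  intro ζ φ ψ
  simp only [Pi.smul_apply, LinearMap.smul_apply, map_smul, smul_eq_mul]
  rw [h ζ φ ψ]
  ring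

theorem finrank_range_zero_le (r : ℕ) :
    finrank K (LinearMap.range (0 : Dual K I →ₗ[K] Dual K I)) ≤ r := by
  rw [LinearMap.range_zero, finrank_bot]
  exact Nat.zero_le _

theorem exists_DU_submodule {A : Tup K I z} {k r : ℕ} (h2 : (2 : K) ≠ 0) (hR : Rigid A k r)
    (hdim : k + 3 * r < finrank K I) {U : Submodule K I} (hU : finrank K U ≤ k) :
    ∃ S : Submodule K (Tup K I z), ∀ Θ, Θ ∈ S ↔ Θ ∈ DU A r U := by
  refine ⟨⟨⟨⟨DU A r U, ?_⟩, ?_⟩, ?_⟩, fun Θ => Iff.rfl⟩
  · rintro Θ Θ' ⟨hΘ, Y, hY, hY'⟩ ⟨hΘ', Z, hZ, hZ'⟩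
    refine DU_key h2 hR hdim hU (skew_add hΘ hΘ') (Y + Z) (fun φ hφ ζ => ?_) U.dualAnnihilator
      le_rfl (codim_ann hU) ?_
    · show Θ ζ φ + Θ' ζ φ = A ζ (Y φ + Z φ)
      rw [hY' φ hφ, hZ' φ hφ, map_add]
    · have hle : U.dualAnnihilator.map (Y + Z) ≤ LinearMap.range Y ⊔ LinearMap.range Z := by
        rintro _ ⟨φ, _, rfl⟩
        rw [LinearMap.add_apply]
        exact Submodule.add_mem_sup ⟨φ, rfl⟩ ⟨φ, rfl⟩
      have h3 := (Submodule.finrank_mono hle).trans
        (Submodule.finrank_add_le_finrank_add_finrank _ _)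
      omega
  · refine ⟨fun ζ φ ψ => ?_, 0, finrank_range_zero_le r, fun φ _ ζ => ?_⟩
    · show φ (0 : I) = - ψ (0 : I)
      rw [map_zero, map_zero, neg_zero]
    · show (0 : I) = A ζ 0
      rw [map_zero]
  · rintro c Θ ⟨hΘ, Y, hY, hY'⟩
    refine ⟨skew_smul c hΘ, c • Y, ?_, fun φ hφ ζ => ?_⟩
    · refine (Submodule.finrank_mono ?_).trans hY
      rintro _ ⟨φ, rfl⟩
      exact ⟨c • φ, by simp⟩
    · show c • Θ ζ φ = A ζ (c • Y φ)
      rw [hY' φ hφ, map_smul]

/-- the composite `E ↦ (∑ A_ζ E_ζ, (E_ζ|U)_ζ)` -/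
noncomputable def obs (A : Tup K I z) (U : Submodule K I) :
    CoTup K I z →ₗ[K] (I →ₗ[K] I) × (Fin (z + 1) → (U →ₗ[K] Dual K I)) where
  toFun E := (∑ ζ, A ζ ∘ₗ E ζ, fun ζ => E ζ ∘ₗ U.subtype)
  map_add' E E' := by
    ext
    · simp [Finset.sum_add_distrib]
    · simp
  map_smul' c E := by
    ext
    · simp [Finset.smul_sum]
    · simp

theorem mem_ker_obs {A : Tup K I z} {U : Submodule K I} {E : CoTup K I z} :
    E ∈ LinearMap.ker (obs A U) ↔ IsC A E ∧ ∀ u ∈ U, ∀ ζ, E ζ u = 0 := by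
  rw [LinearMap.mem_ker]
  constructor
  · intro h
    have h1 : ∑ ζ, A ζ ∘ₗ E ζ = 0 := congrArg Prod.fst h
    have h2 : (fun ζ => E ζ ∘ₗ U.subtype) = 0 := congrArg Prod.snd h
    refine ⟨fun i => ?_, fun u hu ζ => ?_⟩
    · rw [mem_Wsp]
      have := LinearMap.congr_fun h1 i
      simpa using this
    · have := LinearMap.congr_fun (congrFun h2 ζ) ⟨u, hu⟩
      simpa using this
  · rintro ⟨h1, h2⟩
    refine Prod.ext ?_ ?_
    · show ∑ ζ, A ζ ∘ₗ E ζ = 0
      ext1 i
      have := h1 i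
      rw [mem_Wsp] at this
      simpa using this
    · show (fun ζ => E ζ ∘ₗ U.subtype) = 0
      funext ζ
      ext1 u
      simpa using h2 u u.2 ζ

end prelim

end Pool.Agent.SRGWL
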