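import Mathlib

/-!
# Affine systems of local solutions: averages and characters

`sol U = pt U + dir U` is the set of local solutions on `U`; functions that depend only on the
restriction to `U` are those invariant under `ker U`.
-/

namespace Pool.Agent.SRGWL.Sos

open Finset

/-- a system of affine solution sets with the extension property up to dimension `lev` -/
structure AffSys (p : ℕ) (E Λ : Type) [AddCommGroup E] [Module (ZMod p) E] [SemilatticeSup Λ]
    [OrderBot Λ] where
  /-- dimension -/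
  dim : Λ → ℕ
  dim_sup : ∀ U U', dim (U ⊔ U') ≤ dim U + dim U'
  dim_bot : dim ⊥ = 0
  /-- level -/
  lev : ℕ
  /-- elements which vanish on `U` -/
  ker : Λ → Submodule (ZMod p) E
  /-- directions of the set of solutions on `U` -/
  dir : Λ → Submodule (ZMod p) E
  /-- a solution on `U` -/
  pt : Λ → E
  ker_anti : ∀ U U', U ≤ U' → ker U' ≤ ker U
  mono : ∀ U U', U ≤ U' → dim U' ≤ lev → ∀ c ∈ dir U', pt U' + c - pt U ∈ dir U
  ext : ∀ U U', U ≤ U' → dim U' ≤ lev → ∀ c ∈ dir U, ∃ c' ∈ dir U',
    (pt U' + c') - (pt U + c) ∈ ker U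

variable {p : ℕ} [Fact p.Prime] {E Λ : Type} [AddCommGroup E] [Module (ZMod p) E] [Fintype E]
  [SemilatticeSup Λ] [OrderBot Λ] {F : Type} [Field F]

open Classical in
theorem card_sub_ne_zero (hp : (p : F) ≠ 0) (N : Submodule (ZMod p) E) :
    (((univ : Finset E).filter (fun x => x ∈ N)).card : F) ≠ 0 := by
  have h1 : ((univ : Finset E).filter (fun x => x ∈ N)).card = Nat.card N := by
    rw [Nat.card_eq_fintype_card, Fintype.card_subtype]
  have h2 : Nat.card N = p ^ Module.finrank (ZMod p) N := by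
    rw [Module.natCard_eq_pow_finrank (K := ZMod p), Nat.card_zmod]
  rw [h1, h2]
  push_cast
  exact pow_ne_zero _ hp

namespace AffSys

variable (S : AffSys p E Λ)

open Classical in
/-- the set of solutions on `U` -/
noncomputable def sol (U : Λ) : Finset E := univ.filter (fun C => C - S.pt U ∈ S.dir U)

theorem mem_sol {U : Λ} {C : E} : C ∈ S.sol U ↔ C - S.pt U ∈ S.dir U := by
  simp [sol]

theorem sol_mono {U U' : Λ} (h : U ≤ U') (hl : S.dim U' ≤ S.lev) {C : E} (hC : C ∈ S.sol U') :
    C ∈ S.sol U := by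
  rw [mem_sol] at *
  have := S.mono U U' h hl _ hC
  rwa [show S.pt U' + (C - S.pt U') - S.pt U = C - S.pt U by abel] at this

theorem sol_ext {U U' : Λ} (h : U ≤ U') (hl : S.dim U' ≤ S.lev) {C : E} (hC : C ∈ S.sol U) :
    ∃ C' ∈ S.sol U', C' - C ∈ S.ker U := by
  rw [mem_sol] at hC
  obtain ⟨c', hc', h'⟩ := S.ext U U' h hl _ hC
  refine ⟨S.pt U' + c', ?_, ?_⟩
  · rw [mem_sol]
    rwa [add_sub_cancel_left]
  · rwa [add_sub_cancel] at h'

theorem pt_mem (U : Λ) : S.pt U ∈ S.sol U := by
  rw [mem_sol, sub_self]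
  exact (S.dir U).zero_mem

theorem add_mem_sol {U : Λ} {C c : E} (hC : C ∈ S.sol U) (hc : c ∈ S.dir U) : C + c ∈ S.sol U := by
  rw [mem_sol] at *
  rw [add_sub_right_comm]
  exact (S.dir U).add_mem hC hc

theorem sub_mem_dir {U : Λ} {C C' : E} (hC : C ∈ S.sol U) (hC' : C' ∈ S.sol U) :
    C - C' ∈ S.dir U := by
  rw [mem_sol] at *
  have := (S.dir U).sub_mem hC hC'
  rwa [sub_sub_sub_cancel_right] at this

open Classical in
theorem card_sol (U : Λ) :
    (S.sol U).card = ((univ : Finset E).filter (fun x => x ∈ S.dir U)).card := by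
  apply Finset.card_bij (fun C _ => C - S.pt U)
  · intro C hC
    rw [mem_sol] at hC
    simpa using hC
  · intro a _ b _ h
    simpa using h
  · intro b hb
    simp only [mem_filter, mem_univ, true_and] at hb
    exact ⟨b + S.pt U, by rw [mem_sol, add_sub_cancel_right]; exact hb, by simp⟩

theorem card_sol_ne_zero (hp : (p : F) ≠ 0) (U : Λ) : ((S.sol U).card : F) ≠ 0 := by
  classical
  rw [card_sol]
  exact card_sub_ne_zero hp _

/-- the average over the solutions on `U` -/
noncomputable def av (U : Λ) (f : E → F) : F := ((S.sol U).card : F)⁻¹ * ∑ C ∈ S.sol U, f C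

theorem av_congr {U : Λ} {f g : E → F} (h : ∀ C ∈ S.sol U, f C = g C) : S.av U f = S.av U g := by
  unfold av
  rw [Finset.sum_congr rfl h]

theorem av_sum {ι : Type} (s : Finset ι) (U : Λ) (f : ι → E → F) :
    S.av U (fun C => ∑ i ∈ s, f i C) = ∑ i ∈ s, S.av U (f i) := by
  unfold av
  rw [Finset.sum_comm, Finset.mul_sum]

theorem av_mul_left (U : Λ) (c : F) (f : E → F) : S.av U (fun C => c * f C) = c * S.av U f := by
  unfold av
  rw [← Finset.mul_sum]
  ring

theorem av_const (hp : (p : F) ≠ 0) (U : Λ) (c : F) : S.av U (fun _ => c) = c := by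
  unfold av
  rw [Finset.sum_const, nsmul_eq_mul, ← mul_assoc, inv_mul_cancel₀ (S.card_sol_ne_zero hp U),
    one_mul]

theorem av_zero (U : Λ) : S.av U (fun _ => (0 : F)) = 0 := by
  unfold av
  simp

open Classical in
theorem double_count {U U' : Λ} (h : U ≤ U') (hl : S.dim U' ≤ S.lev) (f : E → F)
    (hf : ∀ C κ, κ ∈ S.ker U → f (C + κ) = f C) :
    (((univ : Finset E).filter (fun x => x ∈ S.ker U ⊓ S.dir U')).card : F) * ∑ C ∈ S.sol U, f C =
    (((univ : Finset E).filter (fun x => x ∈ S.ker U ⊓ S.dir U)).card : F) *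
      ∑ C ∈ S.sol U', f C := by
  have h1 : ∀ C ∈ S.sol U, (((S.sol U').filter (fun C' => C' - C ∈ S.ker U)).card : F) =
      (((univ : Finset E).filter (fun x => x ∈ S.ker U ⊓ S.dir U')).card : F) := by
    intro C hC
    obtain ⟨C₀, hC₀, hk⟩ := S.sol_ext h hl hC
    congr 1
    apply Finset.card_bij (fun C' _ => C' - C₀)
    · intro C' hC'
      simp only [mem_filter, mem_univ, true_and] at hC' ⊢
      refine ⟨?_, S.sub_mem_dir hC'.1 hC₀⟩
      have := (S.ker U).sub_mem hC'.2 hk
      rwa [sub_sub_sub_cancel_right] at this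
    · intro a _ b _ hab
      simpa using hab
    · intro b hb
      simp only [mem_filter, mem_univ, true_and, Submodule.mem_inf] at hb
      refine ⟨b + C₀, ?_, by simp⟩
      simp only [mem_filter]
      refine ⟨by rw [add_comm]; exact S.add_mem_sol hC₀ hb.2, ?_⟩
      have := (S.ker U).add_mem hb.1 hk
      rwa [← add_sub_assoc] at this
  have h2 : ∀ C' ∈ S.sol U', (((S.sol U).filter (fun C => C' - C ∈ S.ker U)).card : F) =
      (((univ : Finset E).filter (fun x => x ∈ S.ker U ⊓ S.dir U)).card : F) := by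
    intro C' hC'
    congr 1
    have hC'U := S.sol_mono h hl hC'
    apply Finset.card_bij (fun C _ => C' - C)
    · intro C hC
      simp only [mem_filter, mem_univ, true_and] at hC ⊢
      exact ⟨hC.2, S.sub_mem_dir hC'U hC.1⟩
    · intro a _ b _ hab
      simpa using hab
    · intro b hb
      simp only [mem_filter, mem_univ, true_and, Submodule.mem_inf] at hb
      refine ⟨C' - b, ?_, by abel⟩
      simp only [mem_filter]
      refine ⟨?_, ?_⟩
      · rw [sub_eq_add_neg]
        exact S.add_mem_sol hC'U ((S.dir U).neg_mem hb.2)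
      · rw [sub_sub_cancel]
        exact hb.1
  calc (((univ : Finset E).filter (fun x => x ∈ S.ker U ⊓ S.dir U')).card : F) *
      ∑ C ∈ S.sol U, f C
      = ∑ C ∈ S.sol U, ∑ C' ∈ S.sol U', if C' - C ∈ S.ker U then f C' else 0 := by
        rw [Finset.mul_sum]
        refine Finset.sum_congr rfl (fun C hC => ?_)
        rw [← h1 C hC, ← Finset.sum_filter, ← nsmul_eq_mul, ← Finset.sum_const]
        refine Finset.sum_congr rfl (fun C' hC' => ?_)
        simp only [mem_filter] at hC'
        rw [← hf C _ hC'.2, add_sub_cancel]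
    _ = ∑ C' ∈ S.sol U', ∑ C ∈ S.sol U, if C' - C ∈ S.ker U then f C' else 0 := Finset.sum_comm
    _ = _ := by
        rw [Finset.mul_sum]
        refine Finset.sum_congr rfl (fun C' hC' => ?_)
        rw [← h2 C' hC', ← Finset.sum_filter, Finset.sum_const, nsmul_eq_mul]

/-- consistency of the local averages -/
theorem av_eq (hp : (p : F) ≠ 0) {U U' : Λ} (h : U ≤ U') (hl : S.dim U' ≤ S.lev) (f : E → F)
    (hf : ∀ C κ, κ ∈ S.ker U → f (C + κ) = f C) : S.av U' f = S.av U f := by
  classical
  have h1 := S.double_count h hl f hf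
  have h2 := S.double_count (F := F) h hl (fun _ => 1) (fun _ _ _ => rfl)
  simp only [Finset.sum_const, nsmul_eq_mul, mul_one] at h2
  have ha := card_sub_ne_zero hp (S.ker U ⊓ S.dir U')
  have hb := card_sub_ne_zero hp (S.ker U ⊓ S.dir U)
  have hU := S.card_sol_ne_zero hp U
  have hU' := S.card_sol_ne_zero hp U'
  unfold av
  rw [inv_mul_eq_div, inv_mul_eq_div, div_eq_div_iff hU' hU]
  apply mul_left_cancel₀ (mul_ne_zero ha hb)
  linear_combination (-(((univ : Finset E).filter (fun x => x ∈ S.ker U ⊓ S.dir U)).card : F) *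
    ((S.sol U').card : F)) * h1 + (((univ : Finset E).filter
    (fun x => x ∈ S.ker U ⊓ S.dir U)).card : F) * (∑ C ∈ S.sol U', f C) * h2

end AffSys

end Pool.Agent.SRGWL.Sos
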