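import Pool.Agent.SRGWL.SosA

/-!
# Characters: averages of characters, the kernel, Fourier expansion
-/

namespace Pool.Agent.SRGWL.Sos

open Finset

variable {p : ℕ} [Fact p.Prime] {E Λ : Type} [AddCommGroup E] [Module (ZMod p) E] [Fintype E]
  [SemilatticeSup Λ] [OrderBot Λ] {F : Type} [Field F]

namespace AffSys

variable (S : AffSys p E Λ) (e : AddChar (ZMod p) F)

/-- the average of the character `e ∘ μ` over the solutions on `U` -/
noncomputable def kp (U : Λ) (μ : E →ₗ[ZMod p] ZMod p) : F := S.av U (fun C => e (μ C))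

/-- `μ` depends only on the restriction to `U` -/
def Ms (U : Λ) (μ : E →ₗ[ZMod p] ZMod p) : Prop := ∀ κ ∈ S.ker U, μ κ = 0

theorem Ms.mono {U U' : Λ} (h : U ≤ U') {μ : E →ₗ[ZMod p] ZMod p} (hμ : S.Ms U μ) : S.Ms U' μ :=
  fun κ hκ => hμ κ (S.ker_anti U U' h hκ)

theorem Ms.sub {U : Λ} {μ ν : E →ₗ[ZMod p] ZMod p} (hμ : S.Ms U μ) (hν : S.Ms U ν) :
    S.Ms U (μ - ν) := by
  intro κ hκ
  rw [LinearMap.sub_apply, hμ κ hκ, hν κ hκ, sub_zero]

/-- if the average of a character is not zero, the character is constant on the solutions -/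
theorem const_of_kp_ne_zero (hp : (p : F) ≠ 0) {U : Λ} {μ : E →ₗ[ZMod p] ZMod p}
    (h : S.kp e U μ ≠ 0) {C : E} (hC : C ∈ S.sol U) : e (μ C) = S.kp e U μ := by
  have h1 : ∀ c ∈ S.dir U, e (μ c) = 1 := by
    intro c hc
    by_contra hne
    apply h
    have h2 : ∑ C ∈ S.sol U, e (μ C) = e (μ c) * ∑ C ∈ S.sol U, e (μ C) := by
      rw [Finset.mul_sum]
      symm
      apply Finset.sum_bij (fun C _ => C + c)
      · intro C hC
        exact S.add_mem_sol hC hc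
      · intro a _ b _ hab
        simpa using hab
      · intro b hb
        refine ⟨b - c, ?_, by simp⟩
        rw [sub_eq_add_neg]
        exact S.add_mem_sol hb ((S.dir U).neg_mem hc)
      · intro C _
        rw [map_add, AddChar.map_add_eq_mul, mul_comm]
    have h3 : (1 - e (μ c)) * ∑ C ∈ S.sol U, e (μ C) = 0 := by
      rw [sub_mul, one_mul, ← h2, sub_self]
    have h4 : ∑ C ∈ S.sol U, e (μ C) = 0 :=
      (mul_eq_zero.mp h3).resolve_left (sub_ne_zero.mpr (Ne.symm hne))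
    unfold kp av
    rw [h4, mul_zero]
  have h5 : ∀ C' ∈ S.sol U, e (μ C') = e (μ C) := by
    intro C' hC'
    have h6 := h1 _ (S.sub_mem_dir hC' hC)
    have h7 : μ C' = μ (C' - C) + μ C := by rw [← map_add, sub_add_cancel]
    rw [h7, AddChar.map_add_eq_mul, h6, one_mul]
  unfold kp
  rw [S.av_congr h5, S.av_const hp]

theorem kp_eq (hp : (p : F) ≠ 0) {U U' : Λ} (h : U ≤ U') (hl : S.dim U' ≤ S.lev)
    {μ : E →ₗ[ZMod p] ZMod p} (hμ : S.Ms U μ) : S.kp e U' μ = S.kp e U μ := by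
  unfold kp
  apply S.av_eq hp h hl
  intro C κ hκ
  rw [map_add, hμ κ hκ, add_zero]

theorem kp_trans (hp : (p : F) ≠ 0) {U₁ U₂ U₃ : Λ} (hl : S.dim (U₁ ⊔ U₂ ⊔ U₃) ≤ S.lev)
    {μ₁ μ₂ μ₃ : E →ₗ[ZMod p] ZMod p} (h₁ : S.Ms U₁ μ₁) (h₂ : S.Ms U₂ μ₂) (h₃ : S.Ms U₃ μ₃)
    (hne : S.kp e (U₁ ⊔ U₂) (μ₁ - μ₂) ≠ 0) :
    S.kp e (U₁ ⊔ U₃) (μ₁ - μ₃) = S.kp e (U₁ ⊔ U₂) (μ₁ - μ₂) * S.kp e (U₂ ⊔ U₃) (μ₂ - μ₃) := by
  have l1 : U₁ ⊔ U₂ ≤ U₁ ⊔ U₂ ⊔ U₃ := le_sup_left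
  have l2 : U₁ ⊔ U₃ ≤ U₁ ⊔ U₂ ⊔ U₃ := sup_le (le_sup_left.trans le_sup_left) le_sup_right
  have l3 : U₂ ⊔ U₃ ≤ U₁ ⊔ U₂ ⊔ U₃ := sup_le (le_sup_right.trans le_sup_left) le_sup_right
  have m12 : S.Ms (U₁ ⊔ U₂) (μ₁ - μ₂) :=
    Ms.sub S (Ms.mono S le_sup_left h₁) (Ms.mono S le_sup_right h₂)
  have m13 : S.Ms (U₁ ⊔ U₃) (μ₁ - μ₃) :=
    Ms.sub S (Ms.mono S le_sup_left h₁) (Ms.mono S le_sup_right h₃)
  have m23 : S.Ms (U₂ ⊔ U₃) (μ₂ - μ₃) :=
    Ms.sub S (Ms.mono S le_sup_left h₂) (Ms.mono S le_sup_right h₃)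
  rw [← S.kp_eq e hp l1 hl m12] at hne ⊢
  rw [← S.kp_eq e hp l2 hl m13, ← S.kp_eq e hp l3 hl m23]
  conv_lhs => unfold kp
  conv_rhs => rw [show S.kp e (U₁ ⊔ U₂ ⊔ U₃) (μ₂ - μ₃) =
    S.av (U₁ ⊔ U₂ ⊔ U₃) (fun C => e ((μ₂ - μ₃) C)) from rfl]
  rw [← S.av_mul_left]
  apply S.av_congr
  intro C hC
  rw [← S.const_of_kp_ne_zero e hp hne hC, ← AddChar.map_add_eq_mul]
  congr 1
  simp only [LinearMap.sub_apply]
  ring

theorem kp_zero (hp : (p : F) ≠ 0) (U : Λ) : S.kp e U 0 = 1 := by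
  unfold kp
  simp only [LinearMap.zero_apply, AddChar.map_zero_eq_one]
  exact S.av_const hp U 1

end AffSys

section fourier

variable (e : AddChar (ZMod p) F)

noncomputable instance : Fintype (E →ₗ[ZMod p] ZMod p) :=
  @Fintype.ofFinite _ (DFunLike.finite _)

/-- Fourier coefficients -/
noncomputable def fc (f : E → F) (μ : E →ₗ[ZMod p] ZMod p) : F :=
  (Fintype.card (E →ₗ[ZMod p] ZMod p) : F)⁻¹ * ∑ C, f C * e (-(μ C))

theorem card_dual_ne_zero (hp : (p : F) ≠ 0) :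
    (Fintype.card (E →ₗ[ZMod p] ZMod p) : F) ≠ 0 := by
  have h2 : Fintype.card (E →ₗ[ZMod p] ZMod p) =
      p ^ Module.finrank (ZMod p) (E →ₗ[ZMod p] ZMod p) := by
    rw [← Nat.card_eq_fintype_card, Module.natCard_eq_pow_finrank (K := ZMod p), Nat.card_zmod]
  rw [h2]
  push_cast
  exact pow_ne_zero _ hp

theorem AddChar_ne_zero (a : ZMod p) : e a ≠ 0 := by
  intro h
  have h1 : e (a + -a) = e a * e (-a) := AddChar.map_add_eq_mul e a (-a)
  rw [h, zero_mul, add_neg_cancel, AddChar.map_zero_eq_one] at h1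
  exact one_ne_zero h1

open Classical in
theorem sum_char (he : ∀ a, e a = 1 → a = 0) (x : E) :
    ∑ μ : E →ₗ[ZMod p] ZMod p, e (μ x) =
      if x = 0 then (Fintype.card (E →ₗ[ZMod p] ZMod p) : F) else 0 := by
  by_cases hx : x = 0
  · rw [if_pos hx, hx]
    simp
  · rw [if_neg hx]
    obtain ⟨μ₀, hμ₀⟩ : ∃ μ₀ : E →ₗ[ZMod p] ZMod p, μ₀ x ≠ 0 := by
      by_contra hcon
      push Not at hcon
      exact hx ((Module.forall_dual_apply_eq_zero_iff (ZMod p) x).mp hcon)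
    have h1 : ∑ μ : E →ₗ[ZMod p] ZMod p, e (μ x) =
        e (μ₀ x) * ∑ μ : E →ₗ[ZMod p] ZMod p, e (μ x) := by
      rw [Finset.mul_sum]
      rw [← Equiv.sum_comp (Equiv.addRight μ₀) (fun μ : E →ₗ[ZMod p] ZMod p => e (μ x))]
      refine Finset.sum_congr rfl (fun μ _ => ?_)
      rw [Equiv.coe_addRight, LinearMap.add_apply, AddChar.map_add_eq_mul, mul_comm]
    have h2 : (1 - e (μ₀ x)) * ∑ μ : E →ₗ[ZMod p] ZMod p, e (μ x) = 0 := by
      rw [sub_mul, one_mul, ← h1, sub_self]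
    refine (mul_eq_zero.mp h2).resolve_left (sub_ne_zero.mpr (fun h => hμ₀ (he _ h.symm)))

theorem fourier (hp : (p : F) ≠ 0) (he : ∀ a, e a = 1 → a = 0) (f : E → F) (C : E) :
    ∑ μ, fc e f μ * e (μ C) = f C := by
  classical
  unfold fc
  have h1 : ∀ μ : E →ₗ[ZMod p] ZMod p,
      (Fintype.card (E →ₗ[ZMod p] ZMod p) : F)⁻¹ * (∑ C', f C' * e (-(μ C'))) * e (μ C) =
      ∑ C', (Fintype.card (E →ₗ[ZMod p] ZMod p) : F)⁻¹ * f C' * e (μ (C - C')) := by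
    intro μ
    rw [mul_assoc, Finset.sum_mul, Finset.mul_sum]
    refine Finset.sum_congr rfl (fun C' _ => ?_)
    rw [map_sub, sub_eq_add_neg, AddChar.map_add_eq_mul]
    ring
  simp_rw [h1]
  rw [Finset.sum_comm]
  simp_rw [← Finset.mul_sum]
  rw [Finset.sum_eq_single C]
  · rw [sum_char e he, sub_self, if_pos rfl, mul_comm _ (f C), mul_assoc,
      inv_mul_cancel₀ (card_dual_ne_zero hp), mul_one]
  · intro C' _ hC'
    rw [sum_char e he, if_neg (sub_ne_zero.mpr (Ne.symm hC')), mul_zero]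
  · intro h
    exact absurd (Finset.mem_univ _) h

theorem Ms_of_fc_ne_zero (S : AffSys p E Λ) (he : ∀ a, e a = 1 → a = 0) {U : Λ} {f : E → F}
    (hf : ∀ C κ, κ ∈ S.ker U → f (C + κ) = f C) {μ : E →ₗ[ZMod p] ZMod p}
    (h : fc e f μ ≠ 0) : S.Ms U μ := by
  intro κ hκ
  have h1 : ∑ C, f C * e (-(μ C)) ≠ 0 := by
    intro h0
    apply h
    unfold fc
    rw [h0, mul_zero]
  have h2 : ∑ C, f C * e (-(μ C)) = e (-(μ κ)) * ∑ C, f C * e (-(μ C)) := by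
    conv_lhs => rw [← Equiv.sum_comp (Equiv.addRight κ) (fun C => f C * e (-(μ C)))]
    rw [Finset.mul_sum]
    refine Finset.sum_congr rfl (fun C _ => ?_)
    rw [Equiv.coe_addRight, hf C κ hκ, map_add, neg_add, AddChar.map_add_eq_mul]
    ring
  have h3 : e (-(μ κ)) = 1 := by
    have h4 : (1 - e (-(μ κ))) * ∑ C, f C * e (-(μ C)) = 0 := by
      rw [sub_mul, one_mul, ← h2, sub_self]
    have := (mul_eq_zero.mp h4).resolve_right h1
    exact (sub_eq_zero.mp this).symm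
  exact neg_eq_zero.mp (he _ h3)

end fourier

end Pool.Agent.SRGWL.Sos
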