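import Pool.Agent.SRGWL.SosB

/-!
# Functionals on polynomials given by local averages; the axioms
-/

namespace Pool.Agent.SRGWL.Sos

open Finset MvPolynomial

variable {p : ℕ} [Fact p.Prime] {E Λ : Type} [AddCommGroup E] [Module (ZMod p) E] [Fintype E]
  [SemilatticeSup Λ] [OrderBot Λ] {F : Type} [Field F] {V V' : Type} [Fintype V] [Fintype V']

/-- the pairs `(u, v)` with `φ_C u = v`, as a condition on `C` -/
structure LMap (S : AffSys p E Λ) (V V' : Type) (D : ℕ) where
  /-- the subspace on which the condition depends -/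
  U : V × V' → Λ
  /-- the condition `φ_C u = v` -/
  P : V × V' → E → Prop
  inv : ∀ x C κ, κ ∈ S.ker (U x) → (P x (C + κ) ↔ P x C)
  dimU : ∀ x, S.dim (U x) ≤ D
  rowU : ∀ u, ∃ W, S.dim W ≤ D ∧ ∀ v, U (u, v) = W ∨ ∀ C, ¬ P (u, v) C
  colU : ∀ v, ∃ W, S.dim W ≤ D ∧ ∀ u, U (u, v) = W ∨ ∀ C, ¬ P (u, v) C
  row : ∀ W, S.dim W ≤ S.lev → ∀ C ∈ S.sol W, ∀ u, ∃! v, P (u, v) C
  col : ∀ W, S.dim W ≤ S.lev → ∀ C ∈ S.sol W, ∀ v, ∃! u, P (u, v) C

/-- the axioms: row sums, column sums, idempotents, products over bad sets of pairs -/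
inductive Ax (F : Type) [Field F] {V V' : Type} [Fintype V] [Fintype V']
    (Bad : Set (Finset (V × V'))) : MvPolynomial (V × V') F → Prop
  | row (u : V) : Ax F Bad (∑ v, X (u, v) - 1)
  | col (v : V') : Ax F Bad (∑ u, X (u, v) - 1)
  | idem (x : V × V') : Ax F Bad (X x ^ 2 - X x)
  | bad (s : Finset (V × V')) (hs : s ∈ Bad) : Ax F Bad (∏ x ∈ s, X x)

variable {S : AffSys p E Λ} {D : ℕ} (M : LMap S V V' D)

namespace LMap

/-- the subspace of a monomial -/
def Um (m : (V × V') →₀ ℕ) : Λ := m.support.sup M.U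

open Classical in
/-- the indicator function of a monomial -/
noncomputable def im (F : Type) [Field F] (m : (V × V') →₀ ℕ) (C : E) : F :=
  if ∀ x ∈ m.support, M.P x C then 1 else 0

open Classical in
theorem im_zero (C : E) : M.im F 0 C = 1 := by
  unfold im
  rw [if_pos]
  simp

theorem Um_zero : M.Um 0 = ⊥ := by
  unfold Um
  simp

theorem mem_support_add (m m' : (V × V') →₀ ℕ) (x : V × V') :
    x ∈ (m + m').support ↔ x ∈ m.support ∨ x ∈ m'.support := by
  simp only [Finsupp.mem_support_iff, Finsupp.add_apply, ne_eq, Nat.add_eq_zero_iff]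
  tauto

theorem Um_add (m m' : (V × V') →₀ ℕ) : M.Um (m + m') = M.Um m ⊔ M.Um m' := by
  unfold Um
  apply le_antisymm
  · apply Finset.sup_le
    intro x hx
    rcases (mem_support_add m m' x).mp hx with h | h
    · exact (Finset.le_sup h).trans le_sup_left
    · exact (Finset.le_sup h).trans le_sup_right
  · apply sup_le
    · apply Finset.sup_le
      intro x hx
      exact Finset.le_sup ((mem_support_add m m' x).mpr (Or.inl hx))
    · apply Finset.sup_le
      intro x hx
      exact Finset.le_sup ((mem_support_add m m' x).mpr (Or.inr hx))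

theorem im_add (m m' : (V × V') →₀ ℕ) (C : E) :
    M.im F (m + m') C = M.im F m C * M.im F m' C := by
  classical
  unfold im
  by_cases h : ∀ x ∈ m.support, M.P x C
  · by_cases h' : ∀ x ∈ m'.support, M.P x C
    · rw [if_pos h, if_pos h', if_pos, one_mul]
      intro x hx
      rcases (mem_support_add m m' x).mp hx with h1 | h1
      · exact h x h1
      · exact h' x h1
    · rw [if_neg h', if_neg, mul_zero]
      intro h1
      exact h' (fun x hx => h1 x ((mem_support_add m m' x).mpr (Or.inr hx)))
  · rw [if_neg h, if_neg, zero_mul]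
    intro h1
    exact h (fun x hx => h1 x ((mem_support_add m m' x).mpr (Or.inl hx)))

theorem le_Um {m : (V × V') →₀ ℕ} {x : V × V'} (hx : x ∈ m.support) : M.U x ≤ M.Um m :=
  Finset.le_sup hx

theorem im_inv (m : (V × V') →₀ ℕ) (C κ : E) (hκ : κ ∈ S.ker (M.Um m)) :
    M.im F m (C + κ) = M.im F m C := by
  classical
  unfold im
  have h : (∀ x ∈ m.support, M.P x (C + κ)) ↔ (∀ x ∈ m.support, M.P x C) := by
    refine forall₂_congr (fun x hx => ?_)
    exact M.inv x C κ (S.ker_anti _ _ (M.le_Um hx) hκ)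
  by_cases h1 : ∀ x ∈ m.support, M.P x C
  · rw [if_pos h1, if_pos (h.mpr h1)]
  · rw [if_neg h1, if_neg (fun h2 => h1 (h.mp h2))]

theorem dim_sup_le (s : Finset (V × V')) : S.dim (s.sup M.U) ≤ D * s.card := by
  classical
  induction s using Finset.induction_on with
  | empty => simp [S.dim_bot]
  | insert a s ha ih =>
    rw [Finset.sup_insert, Finset.card_insert_of_notMem ha]
    have h1 := S.dim_sup (M.U a) (s.sup M.U)
    have h2 := M.dimU a
    calc S.dim (M.U a ⊔ s.sup M.U) ≤ D + D * s.card := by omega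
      _ = D * (s.card + 1) := by ring

theorem dim_Um_le (m : (V × V') →₀ ℕ) : S.dim (M.Um m) ≤ D * m.degree := by
  refine (M.dim_sup_le m.support).trans (Nat.mul_le_mul_left _ ?_)
  rw [Finsupp.degree_apply]
  calc m.support.card = ∑ x ∈ m.support, 1 := by simp
    _ ≤ ∑ x ∈ m.support, m x := by
        refine Finset.sum_le_sum (fun x hx => ?_)
        exact Nat.one_le_iff_ne_zero.mpr (Finsupp.mem_support_iff.mp hx)

/-- the functional `m ↦ average of im m * h` -/
noncomputable def Rg (U : Λ) (h : E → F) : MvPolynomial (V × V') F →ₗ[F] F :=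
  (MvPolynomial.basisMonomials (V × V') F).constr F
    (fun m => S.av (M.Um m ⊔ U) (fun C => M.im F m C * h C))

theorem Rg_monomial (U : Λ) (h : E → F) (m : (V × V') →₀ ℕ) (c : F) :
    M.Rg U h (monomial m c) = c * S.av (M.Um m ⊔ U) (fun C => M.im F m C * h C) := by
  have h1 : (monomial m c : MvPolynomial (V × V') F) = c • monomial m 1 := by
    rw [smul_monomial, smul_eq_mul, mul_one]
  rw [h1, map_smul, smul_eq_mul]
  congr 1
  have h2 := (MvPolynomial.basisMonomials (V × V') F).constr_basis F
    (fun m => S.av (M.Um m ⊔ U) (fun C => M.im F m C * h C)) m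
  rw [MvPolynomial.coe_basisMonomials] at h2
  exact h2

theorem Rg_sum (U : Λ) (h : E → F) (q : MvPolynomial (V × V') F) :
    M.Rg U h q = ∑ m ∈ q.support, q.coeff m *
      S.av (M.Um m ⊔ U) (fun C => M.im F m C * h C) := by
  conv_lhs => rw [q.as_sum]
  rw [map_sum]
  exact Finset.sum_congr rfl (fun m _ => M.Rg_monomial U h m _)

theorem Um_single (x : V × V') : M.Um (Finsupp.single x 1) = M.U x := by
  unfold Um
  rw [Finsupp.support_single_ne_zero x one_ne_zero, Finset.sup_singleton]

open Classical in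
theorem im_single (x : V × V') (C : E) :
    M.im F (Finsupp.single x 1) C = if M.P x C then 1 else 0 := by
  unfold im
  rw [Finsupp.support_single_ne_zero x one_ne_zero]
  simp

theorem Rg_X (U : Λ) (h : E → F) (x : V × V') :
    M.Rg U h (X x) = S.av (M.U x ⊔ U) (fun C => M.im F (Finsupp.single x 1) C * h C) := by
  have : (X x : MvPolynomial (V × V') F) = monomial (Finsupp.single x 1) 1 := rfl
  rw [this, Rg_monomial, one_mul, Um_single]

theorem Rg_one (U : Λ) (h : E → F) : M.Rg U h 1 = S.av U h := by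
  have : (1 : MvPolynomial (V × V') F) = monomial 0 1 := rfl
  rw [this, Rg_monomial, one_mul, Um_zero, bot_sup_eq]
  apply S.av_congr
  intro C _
  rw [im_zero, one_mul]

/-- the bad sets are never satisfied -/
def BadFor (Bad : Set (Finset (V × V'))) : Prop :=
  ∀ s ∈ Bad, ∀ W, S.dim W ≤ S.lev → s.sup M.U ≤ W → ∀ C ∈ S.sol W, ¬ ∀ x ∈ s, M.P x C

/-- the functionals vanish on the axioms -/
theorem Rg_ax (hp : (p : F) ≠ 0) {Bad : Set (Finset (V × V'))} (hB : M.BadFor Bad) {U : Λ}
    {h : E → F} (hh : ∀ C κ, κ ∈ S.ker U → h (C + κ) = h C) (hl : S.dim U + D ≤ S.lev)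
    {q : MvPolynomial (V × V') F} (hl' : S.dim U + D * q.totalDegree ≤ S.lev)
    (hq : Ax F Bad q) : M.Rg U h q = 0 := by
  classical
  cases hq with
  | row u =>
    obtain ⟨W, hW, hWv⟩ := M.rowU u
    rw [map_sub, map_sum, Rg_one, sub_eq_zero]
    have h1 : ∀ v, M.Rg U h (X (u, v)) =
        S.av (W ⊔ U) (fun C => (if M.P (u, v) C then 1 else 0) * h C) := by
      intro v
      rw [Rg_X]
      rcases hWv v with h2 | h2
      · rw [h2]
        exact S.av_congr (fun C _ => by rw [im_single])
      · rw [S.av_congr (g := fun _ => 0) (fun C _ => by rw [im_single, if_neg (h2 C), zero_mul]),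
          S.av_congr (U := W ⊔ U) (g := fun _ => 0) (fun C _ => by rw [if_neg (h2 C), zero_mul]),
          S.av_zero, S.av_zero]
    simp_rw [h1]
    rw [← S.av_sum]
    rw [S.av_congr (g := h)]
    · exact S.av_eq hp le_sup_right ((S.dim_sup W U).trans (by omega)) h hh
    · intro C hC
      obtain ⟨v, hv, hv'⟩ := M.row _ ((S.dim_sup W U).trans (by omega)) C hC u
      rw [← Finset.sum_mul, Finset.sum_eq_single v, if_pos hv, one_mul]
      · intro v' _ hne
        rw [if_neg (fun h' => hne (hv' v' h'))]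
      · intro h'
        exact absurd (Finset.mem_univ _) h'
  | col v =>
    obtain ⟨W, hW, hWv⟩ := M.colU v
    rw [map_sub, map_sum, Rg_one, sub_eq_zero]
    have h1 : ∀ u, M.Rg U h (X (u, v)) =
        S.av (W ⊔ U) (fun C => (if M.P (u, v) C then 1 else 0) * h C) := by
      intro u
      rw [Rg_X]
      rcases hWv u with h2 | h2
      · rw [h2]
        exact S.av_congr (fun C _ => by rw [im_single])
      · rw [S.av_congr (g := fun _ => 0) (fun C _ => by rw [im_single, if_neg (h2 C), zero_mul]),
          S.av_congr (U := W ⊔ U) (g := fun _ => 0) (fun C _ => by rw [if_neg (h2 C), zero_mul]),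
          S.av_zero, S.av_zero]
    simp_rw [h1]
    rw [← S.av_sum]
    rw [S.av_congr (g := h)]
    · exact S.av_eq hp le_sup_right ((S.dim_sup W U).trans (by omega)) h hh
    · intro C hC
      obtain ⟨u, hu, hu'⟩ := M.col _ ((S.dim_sup W U).trans (by omega)) C hC v
      rw [← Finset.sum_mul, Finset.sum_eq_single u, if_pos hu, one_mul]
      · intro u' _ hne
        rw [if_neg (fun h' => hne (hu' u' h'))]
      · intro h'
        exact absurd (Finset.mem_univ _) h'
  | idem x =>
    have h1 : (X x ^ 2 : MvPolynomial (V × V') F) = monomial (Finsupp.single x 1 + Finsupp.single x 1) 1 := by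
      rw [sq]
      change monomial (Finsupp.single x 1) 1 * monomial (Finsupp.single x 1) 1 = _
      rw [monomial_mul, one_mul]
    rw [map_sub, h1, Rg_monomial, Rg_X, one_mul, Um_add, Um_single, sup_idem, sub_eq_zero]
    apply S.av_congr
    intro C _
    rw [im_add, im_single]
    split_ifs <;> ring
  | bad s hs =>
    have h1 : (∏ x ∈ s, X x : MvPolynomial (V × V') F) = monomial (∑ x ∈ s, Finsupp.single x 1) 1 := by
      have : ∀ x, (X x : MvPolynomial (V × V') F) = monomial (Finsupp.single x 1) 1 := fun x => rfl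
      simp_rw [this]
      rw [MvPolynomial.monomial_sum_one]
    rw [h1, totalDegree_monomial _ one_ne_zero] at hl'
    rw [h1, Rg_monomial, one_mul]
    have hsup : (∑ x ∈ s, Finsupp.single x 1 : (V × V') →₀ ℕ).support = s := by
      ext y
      rw [Finsupp.mem_support_iff, Finsupp.finsetSum_apply]
      simp [Finsupp.single_apply]
    rw [S.av_congr (g := fun _ => 0), S.av_zero]
    intro C hC
    have h2 : M.im F (∑ x ∈ s, Finsupp.single x 1 : (V × V') →₀ ℕ) C = 0 := by
      unfold im
      rw [hsup, if_neg]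
      refine hB s hs _ ?_ ?_ C hC
      · refine (S.dim_sup _ _).trans ?_
        have h3 := M.dim_Um_le (∑ x ∈ s, Finsupp.single x 1 : (V × V') →₀ ℕ)
        rw [Finsupp.sum] at hl'
        rw [Finsupp.degree_apply] at h3
        omega
      refine le_trans (le_of_eq ?_) le_sup_left
      unfold Um
      rw [hsup]
    rw [h2, zero_mul]

end LMap

end Pool.Agent.SRGWL.Sos
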