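import Pool.Agent.SRGWL.WL

/-!
# Polynomial calculus and sums of squares for the isomorphism of graphs
-/

namespace Pool.Agent.SRGWL.Sos

open MvPolynomial

/-- `PC k A q`: the polynomial `q` has a polynomial calculus derivation of degree `k` from the set
of axioms `A`: axioms, sums, scalar multiples and products with a variable, all of degree at most
`k`. -/
inductive PC {F : Type} [Field F] {σ : Type} (k : ℕ) (A : Set (MvPolynomial σ F)) :
    MvPolynomial σ F → Prop
  | ax (q : MvPolynomial σ F) (hq : q ∈ A) (hk : q.totalDegree ≤ k) : PC k A q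
  | add (q r : MvPolynomial σ F) (hq : PC k A q) (hr : PC k A r) : PC k A (q + r)
  | smul (c : F) (q : MvPolynomial σ F) (hq : PC k A q) : PC k A (c • q)
  | mul (x : σ) (q : MvPolynomial σ F) (hq : PC k A q) (hk : (X x * q).totalDegree ≤ k) :
      PC k A (X x * q)

/-- `L` is a pseudo-expectation of degree `2 k` for the set of axioms `A` (the dual object of the
degree `2 k` sum of squares / Lasserre relaxation): a linear functional with `L 1 = 1`,
`L (q²) ≥ 0` for all `q` of degree at most `k`, and `L (r a) = 0` for all axioms `a` and all `r` with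
`r a` of degree at most `2 k`. -/
structure IsPseudoExp {σ : Type} (k : ℕ) (A : Set (MvPolynomial σ ℝ))
    (L : MvPolynomial σ ℝ →ₗ[ℝ] ℝ) : Prop where
  one : L 1 = 1
  sq : ∀ q : MvPolynomial σ ℝ, q.totalDegree ≤ k → 0 ≤ L (q * q)
  ax : ∀ a ∈ A, ∀ r : MvPolynomial σ ℝ, (r * a).totalDegree ≤ 2 * k → L (r * a) = 0

/-- The axioms for the isomorphism of the graphs `Γ` and `Γ'` over the field `F`, in the variables
`x_(u, v)` (the vertex `u` is mapped to `v`): row sums and column sums are `1`, `x² = x`, and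
`x_(u, v) x_(u', v') = 0` if `u ↦ v`, `u' ↦ v'` is not a partial isomorphism. -/
def isoAx (F : Type) [Field F] {V V' : Type} [Fintype V] [Fintype V'] (Γ : SimpleGraph V)
    (Γ' : SimpleGraph V') : Set (MvPolynomial (V × V') F) :=
  {a | (∃ u, a = ∑ v, X (u, v) - 1) ∨ (∃ v, a = ∑ u, X (u, v) - 1) ∨ (∃ x, a = X x ^ 2 - X x) ∨
    ∃ u u' v v', ¬ ((u = u' ↔ v = v') ∧ (Γ.Adj u u' ↔ Γ'.Adj v v')) ∧
      a = X (u, v) * X (u', v')}

/-- The graphs `Γ` and `Γ'` are distinguished neither by the `k`-dimensional Weisfeiler-Leman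
algorithm, nor by the sum of squares (Lasserre) relaxation of degree `2 k` of their isomorphism, nor by
polynomial calculus of degree `k` over any field of characteristic different from `p`. -/
def Indist (p k : ℕ) {V V' : Type} [Fintype V] [Fintype V'] (Γ : SimpleGraph V)
    (Γ' : SimpleGraph V') : Prop :=
  WLEquiv k Γ Γ' ∧ (∃ L, IsPseudoExp k (isoAx ℝ Γ Γ') L) ∧
    ∀ (F : Type) [Field F], (p : F) ≠ 0 → ¬ PC k (isoAx F Γ Γ') 1

end Pool.Agent.SRGWL.Sos
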