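import Pool.Agent.SRGWL.SosC
import Pool.Agent.SRGWL.SosDef

/-!
# Polynomial calculus
-/

namespace Pool.Agent.SRGWL.Sos

open Finset MvPolynomial

variable {p : ℕ} [Fact p.Prime] {E Λ : Type} [AddCommGroup E] [Module (ZMod p) E] [Fintype E]
  [SemilatticeSup Λ] [OrderBot Λ] {F : Type} [Field F] {V V' : Type} [Fintype V] [Fintype V']
  {S : AffSys p E Λ} {D : ℕ} (M : LMap S V V' D)

namespace LMap

variable (e : AddChar (ZMod p) F)

theorem kp_neg (hp : (p : F) ≠ 0) {U : Λ} {μ : E →ₗ[ZMod p] ZMod p} (h : S.kp e U μ ≠ 0) :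
    S.kp e U (-μ) = (S.kp e U μ)⁻¹ := by
  have h1 : ∀ C ∈ S.sol U, e ((-μ) C) = (S.kp e U μ)⁻¹ := by
    intro C hC
    rw [← S.const_of_kp_ne_zero e hp h hC, LinearMap.neg_apply]
    have h2 : e (-(μ C)) * e (μ C) = 1 := by
      rw [← AddChar.map_add_eq_mul, neg_add_cancel, AddChar.map_zero_eq_one]
    exact eq_inv_of_mul_eq_one_left h2
  conv_lhs => unfold AffSys.kp
  rw [S.av_congr h1, S.av_const hp]

/-- Fourier expansion of the average of `f * h` -/
theorem av_mul_fourier (hp : (p : F) ≠ 0) (he : ∀ a, e a = 1 → a = 0) (U : Λ) (f h : E → F) :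
    S.av U (fun C => f C * h C) = ∑ μ, fc e f μ * S.av U (fun C => e (μ C) * h C) := by
  have h1 : ∀ C, f C * h C = ∑ μ, fc e f μ * (e (μ C) * h C) := by
    intro C
    conv_lhs => rw [← fourier e hp he f C]
    rw [Finset.sum_mul]
    exact Finset.sum_congr rfl (fun μ _ => by ring)
  rw [S.av_congr (fun C _ => h1 C), S.av_sum]
  exact Finset.sum_congr rfl (fun μ _ => S.av_mul_left U _ _)

/-- the functional with a character -/
noncomputable def Rf (U : Λ) (μ : E →ₗ[ZMod p] ZMod p) : MvPolynomial (V × V') F →ₗ[F] F :=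
  M.Rg U (fun C => e (-(μ C)))

theorem Rf_sum (hp : (p : F) ≠ 0) (he : ∀ a, e a = 1 → a = 0) (U : Λ)
    (μ : E →ₗ[ZMod p] ZMod p) (q : MvPolynomial (V × V') F) :
    M.Rf e U μ q = ∑ m ∈ q.support, ∑ ν, q.coeff m * fc e (M.im F m) ν *
      S.kp e (M.Um m ⊔ U) (ν - μ) := by
  unfold Rf
  rw [M.Rg_sum]
  refine Finset.sum_congr rfl (fun m _ => ?_)
  rw [av_mul_fourier e hp he, Finset.mul_sum]
  refine Finset.sum_congr rfl (fun ν _ => ?_)
  rw [mul_assoc]
  congr 2
  unfold AffSys.kp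
  apply S.av_congr
  intro C _
  rw [← AddChar.map_add_eq_mul, LinearMap.sub_apply, sub_eq_add_neg]

/-- the kernel between two characters of monomials and a third one -/
theorem kp_factor (hp : (p : F) ≠ 0) {U₁ U₂ U₃ : Λ} (hl : S.dim (U₁ ⊔ U₂ ⊔ U₃) ≤ S.lev)
    {μ₁ μ₂ μ₃ : E →ₗ[ZMod p] ZMod p} (h₁ : S.Ms U₁ μ₁) (h₂ : S.Ms U₂ μ₂) (h₃ : S.Ms U₃ μ₃)
    (hne : S.kp e (U₂ ⊔ U₃) (μ₂ - μ₃) ≠ 0) :
    S.kp e (U₁ ⊔ U₃) (μ₁ - μ₃) = S.kp e (U₁ ⊔ U₂) (μ₁ - μ₂) * S.kp e (U₂ ⊔ U₃) (μ₂ - μ₃) := by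
  by_cases h : S.kp e (U₁ ⊔ U₂) (μ₁ - μ₂) = 0
  · rw [h, zero_mul]
    by_contra h13
    have hneg : S.kp e (U₃ ⊔ U₂) (μ₃ - μ₂) ≠ 0 := by
      have := kp_neg (S := S) e hp hne
      rw [neg_sub] at this
      rw [sup_comm, this]
      exact inv_ne_zero hne
    have hl' : S.dim (U₁ ⊔ U₃ ⊔ U₂) ≤ S.lev := by
      rwa [sup_right_comm]
    have h12 := S.kp_trans e hp hl' h₁ h₃ h₂ h13
    rw [h] at h12
    exact (mul_ne_zero h13 hneg) h12.symm
  · exact S.kp_trans e hp hl h₁ h₂ h₃ h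

/-- If all functionals of small dimension vanish on `q`, then so do those of larger dimension. -/
theorem Rf_extend (hp : (p : F) ≠ 0) (he : ∀ a, e a = 1 → a = 0) {q : MvPolynomial (V × V') F}
    {k : ℕ} (hq : q.totalDegree ≤ k)
    (h : ∀ U μ, S.dim U ≤ D * k → S.Ms U μ → M.Rf e U μ q = 0) {U : Λ}
    {μ : E →ₗ[ZMod p] ZMod p} (hU : D * k + D * k + S.dim U ≤ S.lev) (hμ : S.Ms U μ) :
    M.Rf e U μ q = 0 := by
  have hdm : ∀ m ∈ q.support, S.dim (M.Um m) ≤ D * k := by
    intro m hm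
    refine (M.dim_Um_le m).trans (Nat.mul_le_mul_left _ ?_)
    exact (MvPolynomial.le_totalDegree hm).trans hq
  by_cases hex : ∃ m₀ ∈ q.support, ∃ ν₀, fc e (M.im F m₀) ν₀ ≠ 0 ∧
      S.kp e (M.Um m₀ ⊔ U) (ν₀ - μ) ≠ 0
  · obtain ⟨m₀, hm₀, ν₀, hf, hk⟩ := hex
    have hν₀ : S.Ms (M.Um m₀) ν₀ := Ms_of_fc_ne_zero e S he (M.im_inv m₀) hf
    have h1 : M.Rf e U μ q = M.Rf e (M.Um m₀) ν₀ q * S.kp e (M.Um m₀ ⊔ U) (ν₀ - μ) := by
      rw [M.Rf_sum e hp he, M.Rf_sum e hp he, Finset.sum_mul]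
      refine Finset.sum_congr rfl (fun m hm => ?_)
      rw [Finset.sum_mul]
      refine Finset.sum_congr rfl (fun ν _ => ?_)
      by_cases hfν : fc e (M.im F m) ν = 0
      · rw [hfν]
        ring
      · have hν : S.Ms (M.Um m) ν := Ms_of_fc_ne_zero e S he (M.im_inv m) hfν
        rw [kp_factor e hp ?_ hν hν₀ hμ hk]
        · ring
        · have a1 := S.dim_sup (M.Um m ⊔ M.Um m₀) U
          have a2 := S.dim_sup (M.Um m) (M.Um m₀)
          have a3 := hdm m hm
          have a4 := hdm m₀ hm₀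
          omega
    rw [h1, h _ _ (hdm m₀ hm₀) hν₀, zero_mul]
  · push Not at hex
    rw [M.Rf_sum e hp he]
    apply Finset.sum_eq_zero
    intro m hm
    apply Finset.sum_eq_zero
    intro ν _
    by_cases hfν : fc e (M.im F m) ν = 0
    · rw [hfν]
      ring
    · rw [hex m hm ν hfν, mul_zero]

/-- multiplication by a variable -/
theorem Rf_mul_X (hp : (p : F) ≠ 0) (he : ∀ a, e a = 1 → a = 0) (U : Λ)
    (μ : E →ₗ[ZMod p] ZMod p) (x : V × V') (q : MvPolynomial (V × V') F) :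
    M.Rf e U μ (X x * q) = ∑ ν, fc e (M.im F (Finsupp.single x 1)) ν *
      M.Rf e (M.U x ⊔ U) (μ - ν) q := by
  have h1 : ∀ (m : (V × V') →₀ ℕ) (c : F), M.Rf e U μ (X x * monomial m c) =
      ∑ ν, fc e (M.im F (Finsupp.single x 1)) ν *
        M.Rf e (M.U x ⊔ U) (μ - ν) (monomial m c) := by
    intro m c
    have h2 : (X x * monomial m c : MvPolynomial (V × V') F) =
        monomial (Finsupp.single x 1 + m) c := by
      change monomial (Finsupp.single x 1) 1 * monomial m c = _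
      rw [monomial_mul, one_mul]
    unfold Rf
    rw [h2, M.Rg_monomial, M.Um_add, M.Um_single, sup_comm (M.U x) (M.Um m), sup_assoc]
    have h3 : S.av (M.Um m ⊔ (M.U x ⊔ U))
        (fun C => M.im F (Finsupp.single x 1 + m) C * e (-(μ C))) =
        S.av (M.Um m ⊔ (M.U x ⊔ U)) (fun C => M.im F (Finsupp.single x 1) C *
          (M.im F m C * e (-(μ C)))) :=
      S.av_congr (fun C _ => by rw [M.im_add, mul_assoc])
    rw [h3, av_mul_fourier e hp he, Finset.mul_sum]
    refine Finset.sum_congr rfl (fun ν _ => ?_)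
    rw [M.Rg_monomial]
    have h4 : S.av (M.Um m ⊔ (M.U x ⊔ U)) (fun C => e (ν C) * (M.im F m C * e (-(μ C)))) =
        S.av (M.Um m ⊔ (M.U x ⊔ U)) (fun C => M.im F m C * e (-((μ - ν) C))) := by
      apply S.av_congr
      intro C _
      rw [LinearMap.sub_apply, neg_sub, sub_eq_add_neg, AddChar.map_add_eq_mul]
      ring
    rw [h4]
    ring
  conv_lhs => rw [q.as_sum]
  rw [Finset.mul_sum, map_sum]
  simp_rw [h1]
  rw [Finset.sum_comm]
  refine Finset.sum_congr rfl (fun ν _ => ?_)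
  rw [← Finset.mul_sum, ← map_sum]
  congr 2
  exact q.as_sum.symm

theorem totalDegree_le_of_X_mul {σ : Type} (x : σ) (q : MvPolynomial σ F) {k : ℕ}
    (h : (X x * q).totalDegree ≤ k) : q.totalDegree ≤ k := by
  by_cases hq : q = 0
  · subst hq
    simp
  · rw [totalDegree_mul_of_isDomain (X_ne_zero x) hq] at h
    omega

/-- Derivable polynomials are killed by all functionals of small dimension. -/
theorem Rf_of_PC (hp : (p : F) ≠ 0) (he : ∀ a, e a = 1 → a = 0)
    {Bad : Set (Finset (V × V'))} (hB : M.BadFor Bad) {k : ℕ} (hl : 3 * (D * k) + D ≤ S.lev)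
    {q : MvPolynomial (V × V') F} (hq : PC k {q | Ax F Bad q} q) :
    q.totalDegree ≤ k ∧ ∀ U μ, S.dim U ≤ D * k → S.Ms U μ → M.Rf e U μ q = 0 := by
  induction hq with
  | ax q hq hk =>
    refine ⟨hk, fun U μ hU hμ => ?_⟩
    have h1 : D * q.totalDegree ≤ D * k := Nat.mul_le_mul_left _ hk
    refine M.Rg_ax hp hB ?_ (by omega) (by omega) hq
    intro C κ hκ
    rw [map_add, hμ κ hκ, add_zero]
  | add q r _ _ ihq ihr =>
    refine ⟨(totalDegree_add q r).trans (max_le ihq.1 ihr.1), fun U μ hU hμ => ?_⟩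
    rw [map_add, ihq.2 U μ hU hμ, ihr.2 U μ hU hμ, add_zero]
  | smul c q _ ih =>
    refine ⟨(totalDegree_smul_le c q).trans ih.1, fun U μ hU hμ => ?_⟩
    rw [map_smul, ih.2 U μ hU hμ, smul_zero]
  | mul x q _ hk ih =>
    refine ⟨hk, fun U μ hU hμ => ?_⟩
    rw [M.Rf_mul_X e hp he]
    apply Finset.sum_eq_zero
    intro ν _
    by_cases hfν : fc e (M.im F (Finsupp.single x 1)) ν = 0
    · rw [hfν, zero_mul]
    · have hν : S.Ms (M.U x) ν := by
        have := Ms_of_fc_ne_zero e S he (M.im_inv (Finsupp.single x 1)) hfν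
        rwa [M.Um_single] at this
      have h1 : S.Ms (M.U x ⊔ U) (μ - ν) :=
        AffSys.Ms.sub S (AffSys.Ms.mono S le_sup_right hμ) (AffSys.Ms.mono S le_sup_left hν)
      have h2 := S.dim_sup (M.U x) U
      have h3 := M.dimU x
      rw [M.Rf_extend e hp he ih.1 ih.2 (by omega) h1, mul_zero]

/-- There is no refutation of degree `k`, if the field has a primitive `p`-th root of unity. -/
theorem not_PC (hp : (p : F) ≠ 0) (he : ∀ a, e a = 1 → a = 0)
    {Bad : Set (Finset (V × V'))} (hB : M.BadFor Bad) {k : ℕ} (hl : 3 * (D * k) + D ≤ S.lev) :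
    ¬ PC k {q | Ax F Bad q} 1 := by
  intro h
  have h1 := (M.Rf_of_PC e hp he hB hl h).2 ⊥ 0 (by rw [S.dim_bot]; exact Nat.zero_le _)
    (fun κ _ => rfl)
  unfold Rf at h1
  rw [M.Rg_one] at h1
  have h2 : S.av ⊥ (fun C : E => e (-((0 : E →ₗ[ZMod p] ZMod p) C))) = 1 := by
    simp only [LinearMap.zero_apply, neg_zero, AddChar.map_zero_eq_one]
    exact S.av_const hp _ _
  rw [h2] at h1
  exact one_ne_zero h1

end LMap

theorem totalDegree_map_le' {F F' : Type} [Field F] [Field F'] (f : F →+* F') {σ : Type}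
    (q : MvPolynomial σ F) : (MvPolynomial.map f q).totalDegree ≤ q.totalDegree := by
  unfold totalDegree
  exact Finset.sup_mono (MvPolynomial.support_map_subset f q)

/-- derivations over a field are derivations over extensions -/
theorem PC.map {F F' : Type} [Field F] [Field F'] (f : F →+* F') {σ : Type} {k : ℕ}
    {A : Set (MvPolynomial σ F)} {A' : Set (MvPolynomial σ F')}
    (hA : ∀ q ∈ A, MvPolynomial.map f q ∈ A') {q : MvPolynomial σ F} (hq : PC k A q) :
    PC k A' (MvPolynomial.map f q) := by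
  induction hq with
  | ax q hq hk => exact PC.ax _ (hA q hq) ((totalDegree_map_le' f q).trans hk)
  | add q r _ _ ihq ihr =>
    rw [map_add]
    exact PC.add _ _ ihq ihr
  | smul c q _ ih =>
    have : MvPolynomial.map f (c • q) = f c • MvPolynomial.map f q := by
      rw [smul_eq_C_mul, smul_eq_C_mul, map_mul, map_C]
    rw [this]
    exact PC.smul _ _ ih
  | mul x q _ hk ih =>
    rw [map_mul, map_X]
    refine PC.mul x _ ih ?_
    have := (totalDegree_map_le' f (X x * q)).trans hk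
    rwa [map_mul, map_X] at this

theorem Ax.map {F F' : Type} [Field F] [Field F'] (f : F →+* F') {V V' : Type} [Fintype V]
    [Fintype V'] {Bad : Set (Finset (V × V'))} {q : MvPolynomial (V × V') F} (hq : Ax F Bad q) :
    Ax F' Bad (MvPolynomial.map f q) := by
  cases hq with
  | row u =>
    rw [map_sub, map_sum, map_one]
    simp_rw [map_X]
    exact Ax.row u
  | col v =>
    rw [map_sub, map_sum, map_one]
    simp_rw [map_X]
    exact Ax.col v
  | idem x =>
    rw [map_sub, map_pow, map_X]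
    exact Ax.idem x
  | bad s hs =>
    rw [map_prod]
    simp_rw [map_X]
    exact Ax.bad s hs

/-- There is no polynomial calculus refutation of degree `k` over any field of characteristic
different from `p`. -/
theorem LMap.not_PC_field {p : ℕ} [Fact p.Prime] {E Λ : Type} [AddCommGroup E]
    [Module (ZMod p) E] [Fintype E] [SemilatticeSup Λ] [OrderBot Λ] {V V' : Type} [Fintype V]
    [Fintype V'] {S : AffSys p E Λ} {D : ℕ} (M : LMap S V V' D) (F : Type) [Field F]
    (hp : (p : F) ≠ 0) {Bad : Set (Finset (V × V'))} (hB : M.BadFor Bad) {k : ℕ}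
    (hl : 3 * (D * k) + D ≤ S.lev) : ¬ PC k {q | Ax F Bad q} 1 := by
  intro h
  have hp' : ((p : ℕ) : AlgebraicClosure F) ≠ 0 := by
    rw [← map_natCast (algebraMap F (AlgebraicClosure F))]
    exact (map_ne_zero _).mpr hp
  have : NeZero ((p : ℕ) : AlgebraicClosure F) := ⟨hp'⟩
  obtain ⟨ζ, hζ⟩ := HasEnoughRootsOfUnity.exists_primitiveRoot (AlgebraicClosure F) p
  let e : AddChar (ZMod p) (AlgebraicClosure F) := AddChar.zmodChar p hζ.pow_eq_one
  have he : ∀ a, e a = 1 → a = 0 := by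
    intro a ha
    rw [AddChar.zmodChar_apply] at ha
    have h1 := hζ.dvd_of_pow_eq_one _ ha
    have h2 : a.val = 0 := Nat.eq_zero_of_dvd_of_lt h1 (ZMod.val_lt a)
    exact (ZMod.val_eq_zero a).mp h2
  refine M.not_PC e hp' he hB hl ?_
  have h1 := h.map (algebraMap F (AlgebraicClosure F))
    (A' := {q | Ax (AlgebraicClosure F) Bad q}) (fun q hq => Ax.map _ hq)
  rwa [map_one] at h1

end Pool.Agent.SRGWL.Sos
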