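import Pool.Agent.SRGWL.SosD

/-!
# Sums of squares
-/

namespace Pool.Agent.SRGWL.Sos

open Finset MvPolynomial

section psd

variable {J : Type}

open Classical in
/-- a kernel of equivalence type is positive semidefinite -/
theorem psd (s : Finset J) (κ : J → J → ℂ) (h1 : ∀ a ∈ s, κ a a = 1)
    (h2 : ∀ a ∈ s, ∀ b ∈ s, κ b a = (starRingEnd ℂ) (κ a b))
    (h3 : ∀ a ∈ s, ∀ b ∈ s, ∀ c ∈ s, κ a b ≠ 0 → κ a c = κ a b * κ b c) (x : J → ℂ) :
    ∃ r : ℝ, 0 ≤ r ∧
      ∑ a ∈ s, ∑ b ∈ s, x a * (starRingEnd ℂ) (x b) * κ a b = (r : ℂ) := by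
  -- class sizes
  obtain ⟨N, hN⟩ : ∃ N : J → ℕ, N = fun c => (s.filter (fun b => κ b c ≠ 0)).card := ⟨_, rfl⟩
  have hsym : ∀ a ∈ s, ∀ b ∈ s, κ a b ≠ 0 → κ b a ≠ 0 := by
    intro a ha b hb h
    rw [h2 a ha b hb]
    exact (map_ne_zero _).mpr h
  have htr : ∀ a ∈ s, ∀ b ∈ s, ∀ c ∈ s, κ a b ≠ 0 → κ b c ≠ 0 → κ a c ≠ 0 := by
    intro a ha b hb c hc hab hbc
    rw [h3 a ha b hb c hc hab]
    exact mul_ne_zero hab hbc
  have hNeq : ∀ a ∈ s, ∀ c ∈ s, κ a c ≠ 0 → N c = N a := by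
    intro a ha c hc hac
    rw [hN]
    simp only
    congr 1
    apply Finset.filter_congr
    intro b hb
    constructor
    · intro h
      exact htr b hb c hc a ha h (hsym a ha c hc hac)
    · intro h
      exact htr b hb a ha c hc h hac
  have hNpos : ∀ a ∈ s, (N a : ℂ) ≠ 0 := by
    intro a ha
    rw [hN]
    simp only
    rw [Nat.cast_ne_zero]
    apply Finset.card_ne_zero_of_mem (a := a)
    rw [Finset.mem_filter]
    refine ⟨ha, ?_⟩
    rw [h1 a ha]
    exact one_ne_zero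
  have key : ∀ a ∈ s, ∀ b ∈ s, ∑ c ∈ s, (N c : ℂ)⁻¹ * (κ a c * κ c b) = κ a b := by
    intro a ha b hb
    by_cases hab : κ a b = 0
    · rw [hab]
      apply Finset.sum_eq_zero
      intro c hc
      by_cases hac : κ a c = 0
      · rw [hac]
        ring
      · rw [← h3 a ha c hc b hb hac, hab]
        ring
    · have h4 : ∀ c ∈ s, (N c : ℂ)⁻¹ * (κ a c * κ c b) =
          if κ c a ≠ 0 then (N a : ℂ)⁻¹ * κ a b else 0 := by
        intro c hc
        by_cases hac : κ a c = 0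
        · rw [if_neg, hac]
          · ring
          · intro h
            exact (hsym c hc a ha h) hac
        · rw [if_pos (hsym a ha c hc hac), ← h3 a ha c hc b hb hac, hNeq a ha c hc hac]
      rw [Finset.sum_congr rfl h4, ← Finset.sum_filter, Finset.sum_const, nsmul_eq_mul]
      have h5 : ((s.filter (fun c => κ c a ≠ 0)).card : ℂ) = (N a : ℂ) := by rw [hN]
      rw [h5, ← mul_assoc, mul_inv_cancel₀ (hNpos a ha), one_mul]
  refine ⟨∑ c ∈ s, (N c : ℝ)⁻¹ * ‖∑ a ∈ s, x a * κ a c‖ ^ 2,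
    Finset.sum_nonneg (fun c _ => by positivity), ?_⟩
  have h6 : ∀ c ∈ s, (((N c : ℝ)⁻¹ * ‖∑ a ∈ s, x a * κ a c‖ ^ 2 : ℝ) : ℂ) =
      ∑ a ∈ s, ∑ b ∈ s, x a * (starRingEnd ℂ) (x b) * ((N c : ℂ)⁻¹ * (κ a c * κ c b)) := by
    intro c hc
    push_cast
    rw [← Complex.mul_conj', map_sum, Finset.sum_mul_sum, Finset.mul_sum]
    refine Finset.sum_congr rfl (fun a _ => ?_)
    rw [Finset.mul_sum]
    refine Finset.sum_congr rfl (fun b hb => ?_)
    rw [map_mul, ← h2 b hb c hc]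
    ring
  rw [Complex.ofReal_sum, Finset.sum_congr rfl h6]
  symm
  rw [Finset.sum_comm]
  refine Finset.sum_congr rfl (fun a ha => ?_)
  rw [Finset.sum_comm]
  refine Finset.sum_congr rfl (fun b hb => ?_)
  rw [← Finset.mul_sum, key a ha b hb]

end psd

variable {p : ℕ} [Fact p.Prime] {E Λ : Type} [AddCommGroup E] [Module (ZMod p) E] [Fintype E]
  [SemilatticeSup Λ] [OrderBot Λ] {V V' : Type} [Fintype V] [Fintype V']
  {S : AffSys p E Λ} {D : ℕ} (M : LMap S V V' D)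

theorem ofReal_av (U : Λ) (f : E → ℝ) :
    ((S.av U f : ℝ) : ℂ) = S.av U (fun C => ((f C : ℝ) : ℂ)) := by
  unfold AffSys.av
  push_cast
  rfl

namespace LMap

theorem ofReal_im (m : (V × V') →₀ ℕ) (C : E) : ((M.im ℝ m C : ℝ) : ℂ) = M.im ℂ m C := by
  classical
  unfold im
  split_ifs <;> simp

/-- the pseudo-expectation -/
noncomputable def PE : MvPolynomial (V × V') ℝ →ₗ[ℝ] ℝ := M.Rg ⊥ (fun _ => 1)

theorem PE_monomial (m : (V × V') →₀ ℕ) (c : ℝ) :
    M.PE (monomial m c) = c * S.av (M.Um m) (M.im ℝ m) := by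
  unfold PE
  rw [M.Rg_monomial, sup_bot_eq]
  simp only [mul_one]

theorem PE_monomial_mul (m : (V × V') →₀ ℕ) (c : ℝ) (q : MvPolynomial (V × V') ℝ) :
    M.PE (monomial m c * q) = c * M.Rg (M.Um m) (M.im ℝ m) q := by
  conv_lhs => rw [q.as_sum]
  rw [Finset.mul_sum, map_sum, M.Rg_sum, Finset.mul_sum]
  refine Finset.sum_congr rfl (fun m' _ => ?_)
  rw [monomial_mul, M.PE_monomial, M.Um_add, mul_assoc, sup_comm]
  congr 2
  apply S.av_congr
  intro C _
  rw [M.im_add, mul_comm]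

variable (e : AddChar (ZMod p) ℂ)

theorem conj_char (a : ZMod p) : (starRingEnd ℂ) (e a) = e (-a) :=
  (AddChar.map_neg_eq_conj e a).symm

theorem conj_kp (U : Λ) (μ : E →ₗ[ZMod p] ZMod p) :
    (starRingEnd ℂ) (S.kp e U μ) = S.kp e U (-μ) := by
  unfold AffSys.kp AffSys.av
  rw [map_mul, map_inv₀, map_natCast, map_sum]
  congr 1
  refine Finset.sum_congr rfl (fun C _ => ?_)
  rw [conj_char]
  rfl

theorem p_ne : ((p : ℕ) : ℂ) ≠ 0 := by
  rw [Nat.cast_ne_zero]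
  exact (Fact.out : p.Prime).ne_zero

/-- expansion of the average of a product of two indicators -/
theorem av_im_mul (he : ∀ a, e a = 1 → a = 0) (m m' : (V × V') →₀ ℕ) :
    S.av (M.Um m ⊔ M.Um m') (fun C => M.im ℂ m C * M.im ℂ m' C) =
      ∑ μ, ∑ ν, fc e (M.im ℂ m) μ * (starRingEnd ℂ) (fc e (M.im ℂ m') ν) *
        S.kp e (M.Um m ⊔ M.Um m') (μ - ν) := by
  rw [av_mul_fourier e p_ne he]
  refine Finset.sum_congr rfl (fun μ _ => ?_)
  have h1 : ∀ C, e (μ C) * M.im ℂ m' C = M.im ℂ m' C * e (μ C) := fun C => mul_comm _ _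
  rw [S.av_congr (fun C _ => h1 C)]
  have h2 : ∀ C, M.im ℂ m' C = ∑ ν, (starRingEnd ℂ) (fc e (M.im ℂ m') ν) * e (-(ν C)) := by
    intro C
    have h3 := fourier e p_ne he (M.im ℂ m') C
    have h4 := congrArg (starRingEnd ℂ) h3
    rw [map_sum, ← M.ofReal_im m' C, Complex.conj_ofReal, M.ofReal_im] at h4
    rw [← h4]
    refine Finset.sum_congr rfl (fun ν _ => ?_)
    rw [map_mul, conj_char]
  have h5 : ∀ C, M.im ℂ m' C * e (μ C) =
      ∑ ν, (starRingEnd ℂ) (fc e (M.im ℂ m') ν) * e ((μ - ν) C) := by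
    intro C
    conv_lhs => rw [h2 C]
    rw [Finset.sum_mul]
    refine Finset.sum_congr rfl (fun ν _ => ?_)
    rw [LinearMap.sub_apply, sub_eq_add_neg, AddChar.map_add_eq_mul]
    ring
  rw [S.av_congr (fun C _ => h5 C), S.av_sum, Finset.mul_sum]
  refine Finset.sum_congr rfl (fun ν _ => ?_)
  rw [S.av_mul_left]
  unfold AffSys.kp
  ring

open Classical in
theorem PE_sq (he : ∀ a, e a = 1 → a = 0) {k : ℕ} (hl : 3 * (D * k) ≤ S.lev)
    {q : MvPolynomial (V × V') ℝ} (hq : q.totalDegree ≤ k) : 0 ≤ M.PE (q * q) := by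
  have hdm : ∀ m ∈ q.support, S.dim (M.Um m) ≤ D * k := by
    intro m hm
    refine (M.dim_Um_le m).trans (Nat.mul_le_mul_left _ ?_)
    exact (MvPolynomial.le_totalDegree hm).trans hq
  obtain ⟨s, hs⟩ : ∃ s : Finset (((V × V') →₀ ℕ) × (E →ₗ[ZMod p] ZMod p)),
    s = (q.support ×ˢ univ).filter (fun a => fc e (M.im ℂ a.1) a.2 ≠ 0) := ⟨_, rfl⟩
  have hmem : ∀ a ∈ s, a.1 ∈ q.support ∧ fc e (M.im ℂ a.1) a.2 ≠ 0 := by
    intro a ha
    rw [hs] at ha
    simp only [Finset.mem_filter, Finset.mem_product, Finset.mem_univ, and_true] at ha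
    exact ha
  have hMs : ∀ a ∈ s, S.Ms (M.Um a.1) a.2 := fun a ha =>
    Ms_of_fc_ne_zero e S he (M.im_inv a.1) (hmem a ha).2
  obtain ⟨r, hr, hreq⟩ := psd s (fun a b => S.kp e (M.Um a.1 ⊔ M.Um b.1) (a.2 - b.2))
    (fun a _ => by
      rw [sub_self]
      exact S.kp_zero e p_ne _)
    (fun a _ b _ => by
      rw [conj_kp, neg_sub, sup_comm])
    (fun a ha b hb c hc h => by
      refine S.kp_trans e p_ne ?_ (hMs a ha) (hMs b hb) (hMs c hc) h
      have a1 := S.dim_sup (M.Um a.1 ⊔ M.Um b.1) (M.Um c.1)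
      have a2 := S.dim_sup (M.Um a.1) (M.Um b.1)
      have a3 := hdm _ (hmem a ha).1
      have a4 := hdm _ (hmem b hb).1
      have a5 := hdm _ (hmem c hc).1
      omega)
    (fun a => ((q.coeff a.1 : ℝ) : ℂ) * fc e (M.im ℂ a.1) a.2)
  have hmain : ((M.PE (q * q) : ℝ) : ℂ) = (r : ℂ) := by
    rw [← hreq]
    have e1 : M.PE (q * q) = ∑ m ∈ q.support, ∑ m' ∈ q.support,
        q.coeff m * q.coeff m' * S.av (M.Um m ⊔ M.Um m') (fun C => M.im ℝ m C * M.im ℝ m' C) := by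
      conv_lhs => rw [q.as_sum]
      rw [Finset.sum_mul_sum, map_sum]
      refine Finset.sum_congr rfl (fun m _ => ?_)
      rw [map_sum]
      refine Finset.sum_congr rfl (fun m' _ => ?_)
      rw [monomial_mul, M.PE_monomial, M.Um_add]
      congr 1
      apply S.av_congr
      intro C _
      rw [M.im_add]
    rw [e1]
    push_cast
    have e2 : ∀ m m' : (V × V') →₀ ℕ,
        ((S.av (M.Um m ⊔ M.Um m') (fun C => M.im ℝ m C * M.im ℝ m' C) : ℝ) : ℂ) =
        ∑ μ, ∑ ν, fc e (M.im ℂ m) μ * (starRingEnd ℂ) (fc e (M.im ℂ m') ν) *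
        S.kp e (M.Um m ⊔ M.Um m') (μ - ν) := by
      intro m m'
      rw [← M.av_im_mul e he, ofReal_av]
      apply S.av_congr
      intro C _
      push_cast
      rw [M.ofReal_im, M.ofReal_im]
    simp_rw [e2]
    have e3 : ∀ G : (((V × V') →₀ ℕ) × (E →ₗ[ZMod p] ZMod p)) → ℂ,
        (∀ a, fc e (M.im ℂ a.1) a.2 = 0 → G a = 0) →
        ∑ a ∈ s, G a = ∑ m ∈ q.support, ∑ μ, G (m, μ) := by
      intro G hG
      rw [hs, Finset.sum_filter, ← Finset.sum_product']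
      refine Finset.sum_congr rfl (fun a _ => ?_)
      by_cases h : fc e (M.im ℂ a.1) a.2 = 0
      · rw [if_neg (not_not.mpr h), hG a h]
      · rw [if_pos h]
    rw [e3]
    · refine Finset.sum_congr rfl (fun m _ => ?_)
      have e4 : ∀ μ : E →ₗ[ZMod p] ZMod p, (∑ b ∈ s,
          (((q.coeff m : ℝ) : ℂ) * fc e (M.im ℂ m) μ) *
            (starRingEnd ℂ) (((q.coeff b.1 : ℝ) : ℂ) * fc e (M.im ℂ b.1) b.2) *
            S.kp e (M.Um m ⊔ M.Um b.1) (μ - b.2)) =
          ∑ m' ∈ q.support, ∑ ν, (((q.coeff m : ℝ) : ℂ) * fc e (M.im ℂ m) μ) *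
            (starRingEnd ℂ) (((q.coeff m' : ℝ) : ℂ) * fc e (M.im ℂ m') ν) *
            S.kp e (M.Um m ⊔ M.Um m') (μ - ν) := by
        intro μ
        rw [e3]
        intro a ha
        rw [ha]
        simp
      simp only at e4 ⊢
      simp_rw [e4]
      rw [Finset.sum_comm]
      refine Finset.sum_congr rfl (fun m' _ => ?_)
      rw [Finset.mul_sum]
      refine Finset.sum_congr rfl (fun μ _ => ?_)
      rw [Finset.mul_sum]
      refine Finset.sum_congr rfl (fun ν _ => ?_)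
      rw [map_mul, Complex.conj_ofReal]
      ring
    · intro a ha
      apply Finset.sum_eq_zero
      intro b _
      rw [ha]
      simp
  have : M.PE (q * q) = r := by exact_mod_cast hmain
  rw [this]
  exact hr

theorem PE_ax {Bad : Set (Finset (V × V'))} (hB : M.BadFor Bad) {k : ℕ}
    (hl : 3 * (D * k) + D ≤ S.lev) {a : MvPolynomial (V × V') ℝ} (ha : Ax ℝ Bad a)
    {r : MvPolynomial (V × V') ℝ} (hr : (r * a).totalDegree ≤ 2 * k) : M.PE (r * a) = 0 := by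
  have hp : ((p : ℕ) : ℝ) ≠ 0 := by
    rw [Nat.cast_ne_zero]
    exact (Fact.out : p.Prime).ne_zero
  by_cases ha0 : a = 0
  · rw [ha0, mul_zero, map_zero]
  by_cases hr0 : r = 0
  · rw [hr0, zero_mul, map_zero]
  have hrd : r.totalDegree + a.totalDegree ≤ 2 * k := by
    rwa [totalDegree_mul_of_isDomain hr0 ha0] at hr
  conv_lhs => rw [r.as_sum]
  rw [Finset.sum_mul, map_sum]
  apply Finset.sum_eq_zero
  intro m hm
  have h1 := M.dim_Um_le m
  have h2 : m.degree ≤ r.totalDegree := MvPolynomial.le_totalDegree hm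
  have h3 : D * (m.degree + a.totalDegree) ≤ D * (2 * k) := Nat.mul_le_mul_left _ (by omega)
  have h4 : D * (2 * k) = 2 * (D * k) := by ring
  rw [mul_add] at h3
  rw [M.PE_monomial_mul, M.Rg_ax hp hB (M.im_inv m) (by omega) (by omega) ha, mul_zero]

/-- the local averages form a pseudo-expectation of degree `2 k` -/
theorem isPseudoExp {Bad : Set (Finset (V × V'))} (hB : M.BadFor Bad) {k : ℕ}
    (hl : 3 * (D * k) + D ≤ S.lev) : IsPseudoExp k {q | Ax ℝ Bad q} M.PE := by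
  have hp : ((p : ℕ) : ℝ) ≠ 0 := by
    rw [Nat.cast_ne_zero]
    exact (Fact.out : p.Prime).ne_zero
  have hζ := Complex.isPrimitiveRoot_exp p (Fact.out : p.Prime).ne_zero
  let e : AddChar (ZMod p) ℂ := AddChar.zmodChar p hζ.pow_eq_one
  have he : ∀ a, e a = 1 → a = 0 := by
    intro a ha
    rw [AddChar.zmodChar_apply] at ha
    have h1 := hζ.dvd_of_pow_eq_one _ ha
    have h2 : a.val = 0 := Nat.eq_zero_of_dvd_of_lt h1 (ZMod.val_lt a)
    exact (ZMod.val_eq_zero a).mp h2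
  refine ⟨?_, fun q hq => M.PE_sq e he (by omega) hq, fun a ha r hr => M.PE_ax hB hl ha hr⟩
  unfold PE
  rw [M.Rg_one]
  exact S.av_const hp _ _

end LMap

end Pool.Agent.SRGWL.Sos
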