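import Pool.Agent.SRGWL.SosE
import Pool.Agent.SRGWL.Local
import Pool.Agent.SRGWL.WLGame

/-!
# The affine system of the local solutions `Good A D r U`
-/

namespace Pool.Agent.SRGWL.Sos

open Module Finset MvPolynomial

variable {p : ℕ} [Fact p.Prime] {I : Type} [AddCommGroup I] [Module (ZMod p) I] {z : ℕ}

/-- plain functions -/
abbrev EE (p : ℕ) (I : Type) (z : ℕ) : Type := Fin (z + 1) → I → I → ZMod p

/-- the components of a tuple of linear maps -/
def valL : CoTup (ZMod p) I z →ₗ[ZMod p] EE p I z where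
  toFun C := fun ζ u v => C ζ u v
  map_add' _ _ := rfl
  map_smul' _ _ := rfl

theorem valL_apply (C : CoTup (ZMod p) I z) (ζ : Fin (z + 1)) (u v : I) :
    valL C ζ u v = C ζ u v := rfl

theorem valL_injective : Function.Injective (valL : CoTup (ZMod p) I z → EE p I z) := by
  intro C C' h
  funext ζ
  ext u v
  exact congrFun (congrFun (congrFun h ζ) u) v

variable (A : Tup (ZMod p) I z) (D : CoTup (ZMod p) I z) (r : ℕ)

theorem isC_zero : IsC A 0 := by
  intro i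
  exact (Wsp A).zero_mem

variable {A} in
theorem IsC.add {C C' : CoTup (ZMod p) I z} (h : IsC A C) (h' : IsC A C') : IsC A (C + C') := by
  intro i
  exact (Wsp A).add_mem (h i) (h' i)

variable {A} in
theorem IsC.smul {C : CoTup (ZMod p) I z} (c : ZMod p) (h : IsC A C) : IsC A (c • C) := by
  intro i
  exact (Wsp A).smul_mem c (h i)

variable [Module.Finite (ZMod p) I]

/-- directions of the local solutions on `U` -/
noncomputable def dirC (U : Submodule (ZMod p) I) : Submodule (ZMod p) (CoTup (ZMod p) I z) where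
  carrier := {C | IsC A C ∧ ∀ Θ ∈ DU A r U, pairL Θ C = 0}
  add_mem' := by
    rintro a b ⟨ha, ha'⟩ ⟨hb, hb'⟩
    refine ⟨IsC.add ha hb, fun Θ hΘ => ?_⟩
    rw [map_add, ha' Θ hΘ, hb' Θ hΘ, add_zero]
  zero_mem' := ⟨isC_zero A, fun Θ _ => map_zero _⟩
  smul_mem' := by
    rintro c a ⟨ha, ha'⟩
    refine ⟨IsC.smul c ha, fun Θ hΘ => ?_⟩
    rw [map_smul, ha' Θ hΘ, smul_zero]

variable {A D r}

theorem good_add {U : Submodule (ZMod p) I} {C c : CoTup (ZMod p) I z} (hC : Good A D r U C)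
    (hc : c ∈ dirC A r U) : Good A D r U (C + c) := by
  refine ⟨IsC.add hC.1 hc.1, fun Θ hΘ => ?_⟩
  have h1 := hC.2 Θ hΘ
  have h2 := hc.2 Θ hΘ
  have h3 : pair Θ (C + c) = pair Θ C + pairL Θ c := by
    change pairL Θ (C + c) = pairL Θ C + pairL Θ c
    rw [map_add]
  rw [h3, h2, add_zero, h1]

theorem good_sub (h2 : (2 : ZMod p) ≠ 0) {U : Submodule (ZMod p) I} {C C' : CoTup (ZMod p) I z}
    (hC : Good A D r U C) (hC' : Good A D r U C') : C + (-1 : ZMod p) • C' ∈ dirC A r U := by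
  refine ⟨IsC.add hC.1 (IsC.smul _ hC'.1), fun Θ hΘ => ?_⟩
  have h3 := hC.2 Θ hΘ
  have h4 := hC'.2 Θ hΘ
  have h5 : pairL Θ C = pairL Θ C' := by
    have h6 : (2 : ZMod p) * pairL Θ C = 2 * pairL Θ C' := by
      change 2 * pair Θ C = 2 * pair Θ C'
      rw [h3, h4]
    exact mul_left_cancel₀ h2 h6
  rw [map_add, map_smul, h5]
  simp

variable (A D r)

open Classical in
/-- a local solution -/
noncomputable def ptC (U : Submodule (ZMod p) I) : CoTup (ZMod p) I z :=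
  if h : ∃ C, Good A D r U C then h.choose else 0

variable {A D r}

theorem ptC_good {k : ℕ}
    (hbase : Good A D r ⊥ 0)
    (hext : ∀ U U' : Submodule (ZMod p) I, U ≤ U' → finrank (ZMod p) U' ≤ k →
      ∀ C, Good A D r U C → ∃ C', Good A D r U' C' ∧ ∀ u ∈ U, ∀ ζ, C' ζ u = C ζ u)
    {U : Submodule (ZMod p) I} (hU : finrank (ZMod p) U ≤ k) : Good A D r U (ptC A D r U) := by
  have h : ∃ C, Good A D r U C := by
    obtain ⟨C', h1, _⟩ := hext ⊥ U bot_le hU 0 hbase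
    exact ⟨C', h1⟩
  unfold ptC
  rw [dif_pos h]
  exact h.choose_spec

/-- the affine system -/
noncomputable def goodSys [Finite I] (h2 : (2 : ZMod p) ≠ 0) (k : ℕ) (hbase : Good A D r ⊥ 0)
    (hext : ∀ U U' : Submodule (ZMod p) I, U ≤ U' → finrank (ZMod p) U' ≤ k →
      ∀ C, Good A D r U C → ∃ C', Good A D r U' C' ∧ ∀ u ∈ U, ∀ ζ, C' ζ u = C ζ u) :
    AffSys p (EE p I z) (Submodule (ZMod p) I) where
  dim U := finrank (ZMod p) U
  dim_sup U U' := by
    exact Submodule.finrank_add_le_finrank_add_finrank U U'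
  dim_bot := finrank_bot _ _
  lev := k
  ker U :=
    { carrier := {f | ∀ u ∈ U, ∀ ζ v, f ζ u v = 0}
      add_mem' := by
        intro a b ha hb u hu ζ v
        rw [Pi.add_apply, Pi.add_apply, Pi.add_apply, ha u hu ζ v, hb u hu ζ v, add_zero]
      zero_mem' := fun _ _ _ _ => rfl
      smul_mem' := by
        intro c a ha u hu ζ v
        rw [Pi.smul_apply, Pi.smul_apply, Pi.smul_apply, ha u hu ζ v, smul_zero] }
  dir U := (dirC A r U).map valL
  pt U := valL (ptC A D r U)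
  ker_anti U U' h f hf u hu ζ v := hf u (h hu) ζ v
  mono U U' h hl c hc := by
    obtain ⟨c0, hc0, rfl⟩ := hc
    have hU : finrank (ZMod p) U ≤ k := (Submodule.finrank_mono h).trans hl
    have g1 : Good A D r U (ptC A D r U' + c0) :=
      good_mono h (good_add (ptC_good hbase hext hl) hc0)
    have g2 := good_sub h2 g1 (ptC_good hbase hext hU)
    refine ⟨_, g2, ?_⟩
    rw [map_add, map_add, map_smul, neg_smul, one_smul, ← sub_eq_add_neg]
  ext U U' h hl c hc := by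
    obtain ⟨c0, hc0, rfl⟩ := hc
    have hU : finrank (ZMod p) U ≤ k := (Submodule.finrank_mono h).trans hl
    obtain ⟨C1, hC1, hC1'⟩ := hext U U' h hl _ (good_add (ptC_good hbase hext hU) hc0)
    refine ⟨_, ⟨_, good_sub h2 hC1 (ptC_good hbase hext hl), rfl⟩, ?_⟩
    rw [map_add, map_smul, neg_smul, one_smul, ← sub_eq_add_neg, add_sub_cancel, ← map_add]
    intro u hu ζ v
    rw [Pi.sub_apply, Pi.sub_apply, Pi.sub_apply, valL_apply, valL_apply, hC1' u hu ζ, sub_self]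

section

variable [Finite I] (h2 : (2 : ZMod p) ≠ 0) (k : ℕ) (hbase : Good A D r ⊥ 0)
    (hext : ∀ U U' : Submodule (ZMod p) I, U ≤ U' → finrank (ZMod p) U' ≤ k →
      ∀ C, Good A D r U C → ∃ C', Good A D r U' C' ∧ ∀ u ∈ U, ∀ ζ, C' ζ u = C ζ u)

noncomputable instance : Fintype (EE p I z) := Fintype.ofFinite _

theorem exists_of_mem_sol {U : Submodule (ZMod p) I} (hU : finrank (ZMod p) U ≤ k) {f : EE p I z}
    (hf : f ∈ (goodSys h2 k hbase hext).sol U) : ∃ C, Good A D r U C ∧ valL C = f := by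
  rw [AffSys.mem_sol] at hf
  obtain ⟨c, hc, h⟩ := hf
  refine ⟨ptC A D r U + c, good_add (ptC_good hbase hext hU) hc, ?_⟩
  rw [map_add, h]
  exact add_sub_cancel _ _

end

/-- vertices which are moved by the translations -/
structure Moves (A : Tup (ZMod p) I z) (V V' : Type) (d : ℕ) where
  /-- support -/
  sup : V → Submodule (ZMod p) I
  /-- support -/
  sup' : V' → Submodule (ZMod p) I
  dim : ∀ v, finrank (ZMod p) (sup v) ≤ d
  dim' : ∀ v, finrank (ZMod p) (sup' v) ≤ d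
  /-- the bijection given by `C` -/
  φ : WLAux.CC A → V ≃ V'
  sup_φ : ∀ C v, sup' (φ C v) = sup v
  congr : ∀ (C C' : WLAux.CC A) v, (∀ u ∈ sup v, ∀ ζ, C'.1 ζ u = C.1 ζ u) → φ C' v = φ C v

/-- the local maps -/
noncomputable def Moves.lmap [Finite I] {V V' : Type} {d : ℕ} (N : Moves A V V' d)
    (h2 : (2 : ZMod p) ≠ 0) (k : ℕ) (hbase : Good A D r ⊥ 0)
    (hext : ∀ U U' : Submodule (ZMod p) I, U ≤ U' → finrank (ZMod p) U' ≤ k →
      ∀ C, Good A D r U C → ∃ C', Good A D r U' C' ∧ ∀ u ∈ U, ∀ ζ, C' ζ u = C ζ u) :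
    LMap (goodSys h2 k hbase hext) V V' d where
  U x := N.sup x.1
  P x f := ∃ C : WLAux.CC A, (∀ u ∈ N.sup x.1, ∀ ζ v, C.1 ζ u v = f ζ u v) ∧ N.φ C x.1 = x.2
  inv x f κ hκ := by
    constructor
    · rintro ⟨C, h1, h2⟩
      refine ⟨C, fun u hu ζ v => ?_, h2⟩
      rw [h1 u hu ζ v, Pi.add_apply, Pi.add_apply, Pi.add_apply, hκ u hu ζ v, add_zero]
    · rintro ⟨C, h1, h2⟩
      refine ⟨C, fun u hu ζ v => ?_, h2⟩
      rw [h1 u hu ζ v, Pi.add_apply, Pi.add_apply, Pi.add_apply, hκ u hu ζ v, add_zero]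
  dimU x := N.dim x.1
  rowU u := ⟨N.sup u, N.dim u, fun v => Or.inl rfl⟩
  colU v := by
    refine ⟨N.sup' v, N.dim' v, fun u => ?_⟩
    by_cases h : N.sup u = N.sup' v
    · exact Or.inl h
    · refine Or.inr ?_
      rintro f ⟨C, _, hC⟩
      apply h
      rw [← N.sup_φ C u, hC]
  row W hW f hf u := by
    obtain ⟨C, hC, hCf⟩ := exists_of_mem_sol h2 k hbase hext hW hf
    refine ⟨N.φ ⟨C, hC.1⟩ u, ⟨⟨C, hC.1⟩, fun x _ ζ v => by rw [← hCf]; rfl, rfl⟩, ?_⟩
    rintro v ⟨C', hC', h3⟩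
    have h4 : N.φ C' u = v := h3
    rw [← h4]
    apply N.congr
    intro x hx ζ
    ext v
    rw [hC' x hx ζ v, ← hCf]
    rfl
  col W hW f hf v := by
    obtain ⟨C, hC, hCf⟩ := exists_of_mem_sol h2 k hbase hext hW hf
    refine ⟨(N.φ ⟨C, hC.1⟩).symm v, ⟨⟨C, hC.1⟩, fun x _ ζ v => by rw [← hCf]; rfl, by simp⟩, ?_⟩
    rintro u ⟨C', hC', h3⟩
    have h4 : N.φ C' u = v := h3
    rw [Equiv.eq_symm_apply, ← h4]
    symm
    apply N.congr
    intro x hx ζ
    ext v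
    rw [hC' x hx ζ v, ← hCf]
    rfl

/-- condition on bad sets in terms of the translations -/
theorem Moves.badFor [Finite I] {V V' : Type} {d : ℕ} (N : Moves A V V' d)
    (h2 : (2 : ZMod p) ≠ 0) (hD : CoSkew D) (k : ℕ) (hbase : Good A D r ⊥ 0)
    (hext : ∀ U U' : Submodule (ZMod p) I, U ≤ U' → finrank (ZMod p) U' ≤ k →
      ∀ C, Good A D r U C → ∃ C', Good A D r U' C' ∧ ∀ u ∈ U, ∀ ζ, C' ζ u = C ζ u)
    {Bad : Set (Finset (V × V'))}
    (hB : ∀ s ∈ Bad, ∀ (C : WLAux.CC A) (W : Submodule (ZMod p) I),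
      (∀ u ∈ W, ∀ v ∈ W, ∀ ζ, C.1 ζ u v - C.1 ζ v u = D ζ u v) → (∀ x ∈ s, N.sup x.1 ≤ W) →
      ¬ ∀ x ∈ s, N.φ C x.1 = x.2) :
    (N.lmap h2 k hbase hext).BadFor Bad := by
  intro s hs W hW hle f hf hP
  obtain ⟨C, hC, hCf⟩ := exists_of_mem_sol h2 k hbase hext hW hf
  have hle' : ∀ x ∈ s, N.sup x.1 ≤ W := fun x hx => (Finset.le_sup (f := fun x => N.sup x.1) hx).trans hle
  refine hB s hs ⟨C, hC.1⟩ W (fun u hu v hv ζ => good_local h2 hD hC hu hv ζ) hle' ?_
  intro x hx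
  obtain ⟨C', hC', h3⟩ := hP x hx
  rw [← h3]
  symm
  apply N.congr
  intro u hu ζ
  ext v
  rw [hC' u hu ζ v, ← hCf]
  rfl

end Pool.Agent.SRGWL.Sos
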